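import Pool.Agent.Lib.MP_8a3537_gt.AM.SpecF

/-!
# MP_8a3537_gt, folder AM: the class of groups of the final theorem
-/

set_option linter.unusedVariables false

namespace Pool.Agent.Lib.MP8a3537.AM

open scoped BigOperators

/-- `K` acts on a set `X` with a commensurated subset `M`, and on a set `Y` with Foelner sets, and every `q ≠ 1` in `K`
has only infinite orbits on `Y` or fixes no subset of `X` commensurate with `M`.
(`Y = K`, `X = ∅`: torsion-free amenable groups.  `Y` a point: commensurating actions without elliptic elements.) -/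
def AC (K : Type) [Group K] : Prop :=
  ∃ (X Y : Type) (_ : MulAction K X) (_ : MulAction K Y) (M : Set X),
    (∀ g : K, {x : X | ¬(x ∈ M ↔ g • x ∈ M)}.Finite) ∧
    (∀ (S : Finset K) (ε : ℝ), 0 < ε → ∃ F : Finset Y, F.Nonempty ∧
      ∀ s ∈ S, ((open Classical in F.filter fun y => s • y ∉ F).card : ℝ) ≤ ε * F.card) ∧
    ∀ q : K, q ≠ 1 → (∀ y : Y, (Set.range fun n : ℕ => q ^ n • y).Infinite) ∨
      ∀ N : Set X, {x : X | ¬(x ∈ N ↔ x ∈ M)}.Finite → ∃ x, ¬(x ∈ N ↔ q • x ∈ N)

/-- every `g ≠ 1` in `G` survives in a group of the class `AC` -/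
def RC (G : Type) [Group G] : Prop :=
  ∀ g : G, g ≠ 1 → ∃ (K : Type) (_ : Group K) (f : G →* K), f g ≠ 1 ∧ AC K

end Pool.Agent.Lib.MP8a3537.AM
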