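import Pool.Agent.Lib.MP_8a3537_gt.AM.Spec

/-!
# WGT: almost invariant weights (MP_8a3537_gt, folder AM)
-/

set_option autoImplicit false

namespace Pool.Agent.Lib.MP8a3537.AM

open scoped BigOperators

namespace WGTM

open scoped Classical in
/-- the increasing sequence of finite sets -/
noncomputable def E {G X : Type} [Group G] [MulAction G X] (S : Finset G) (D : Finset X) :
    ℕ → Finset X
  | 0 => D
  | k + 1 => E S D k ∪ (S ×ˢ E S D k).image fun p => p.1 • p.2

section

variable {G X : Type} [Group G] [MulAction G X] (S : Finset G) (D : Finset X)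

theorem E_succ (k : ℕ) : E S D k ⊆ E S D (k + 1) := by
  classical
  intro x hx
  rw [E, Finset.mem_union]
  exact Or.inl hx

theorem E_mono : Monotone (E S D) := monotone_nat_of_le_succ (E_succ S D)

theorem E_smul {k : ℕ} {s : G} (hs : s ∈ S) {x : X} (hx : x ∈ E S D k) :
    s • x ∈ E S D (k + 1) := by
  classical
  rw [E, Finset.mem_union, Finset.mem_image]
  exact Or.inr ⟨(s, x), Finset.mem_product.mpr ⟨hs, hx⟩, rfl⟩

open scoped Classical in
/-- the number of the sets which do not contain `x` -/
noncomputable def kk (K : ℕ) (x : X) : ℕ := ((Finset.range K).filter fun k => x ∉ E S D k).card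

theorem kk_zero (K : ℕ) {x : X} (hx : x ∈ D) : kk S D K x = 0 := by
  classical
  unfold kk
  rw [Finset.card_eq_zero, Finset.filter_eq_empty_iff]
  intro k _ h
  exact h (E_mono S D (Nat.zero_le k) hx)

theorem kk_smul (K : ℕ) {s : G} (hs : s ∈ S) (x : X) : kk S D K (s • x) ≤ kk S D K x + 1 := by
  classical
  unfold kk
  have hsub : ((Finset.range K).filter fun k => s • x ∉ E S D k) ⊆
      insert 0 (((Finset.range K).filter fun k => x ∉ E S D k).image Nat.succ) := by
    intro k hk
    rw [Finset.mem_filter, Finset.mem_range] at hk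
    rcases k with _ | k
    · exact Finset.mem_insert_self _ _
    · apply Finset.mem_insert_of_mem
      rw [Finset.mem_image]
      refine ⟨k, ?_, rfl⟩
      rw [Finset.mem_filter, Finset.mem_range]
      exact ⟨by omega, fun h => hk.2 (E_smul S D hs h)⟩
  refine (Finset.card_le_card hsub).trans ((Finset.card_insert_le _ _).trans ?_)
  exact Nat.add_le_add_right Finset.card_image_le 1

theorem kk_lt (K : ℕ) {x : X} (h : kk S D K x < K) : x ∈ E S D K := by
  classical
  by_contra hx
  have : kk S D K x = K := by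
    unfold kk
    rw [Finset.filter_true_of_mem, Finset.card_range]
    intro k hk h'
    rw [Finset.mem_range] at hk
    exact hx (E_mono S D hk.le h')
  omega

end

end WGTM

open WGTM in
/-- WGT -/
theorem specWGT : SpecWGT := by
  intro G X _ _ S ε δ D hε hδ
  have h1 : (1 : ℝ) < 1 + ε := by linarith
  obtain ⟨K, hK⟩ := pow_unbounded_of_one_lt δ⁻¹ h1
  have hK' : 1 < δ * (1 + ε) ^ K := by
    have := mul_lt_mul_of_pos_left hK hδ
    rwa [mul_inv_cancel₀ hδ.ne'] at this
  refine ⟨fun x => δ * (1 + ε) ^ kk S D K x, fun x => ?_, fun x hx => ?_, fun s hs x => ?_, ?_⟩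
  · exact le_mul_of_one_le_right hδ.le (one_le_pow₀ h1.le)
  · simp only [kk_zero S D K hx, pow_zero, mul_one]
  · calc δ * (1 + ε) ^ kk S D K (s • x) ≤ δ * (1 + ε) ^ (kk S D K x + 1) :=
          mul_le_mul_of_nonneg_left (pow_le_pow_right₀ h1.le (kk_smul S D K hs x)) hδ.le
      _ = (1 + ε) * (δ * (1 + ε) ^ kk S D K x) := by ring
  · refine (E S D K).finite_toSet.subset fun x hx => ?_
    apply kk_lt
    by_contra hn
    rw [not_lt] at hn
    have h2 : δ * (1 + ε) ^ K ≤ δ * (1 + ε) ^ kk S D K x :=
      mul_le_mul_of_nonneg_left (pow_le_pow_right₀ h1.le hn) hδ.le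
    have h3 : δ * (1 + ε) ^ kk S D K x ≤ 1 := hx
    linarith

end Pool.Agent.Lib.MP8a3537.AM
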