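import Pool.Agent.Lib.MP_8a3537_gt.AM.ACD
import Pool.Agent.Lib.MP_8a3537_gt.AM.WGT

/-!
# ACW: the groups of the class AC have the property W (MP_8a3537_gt, folder AM)
-/

set_option linter.unusedVariables false

namespace Pool.Agent.Lib.MP8a3537.AM

open scoped BigOperators

namespace ACWM

variable {K X Y : Type} [Group K] [MulAction K X] [MulAction K Y]

/-- the set on the disjoint union -/
def MS (M : Set X) (F : Set Y) : Set (X ⊕ Y) := {p | Sum.elim (fun x => x ∈ M) (fun y => y ∈ F) p}

theorem comSet (M : Set X) (F : Set Y) (g : K) :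
    {p : X ⊕ Y | ¬(p ∈ MS M F ↔ g • p ∈ MS M F)} =
      Sum.inl '' {x : X | ¬(x ∈ M ↔ g • x ∈ M)} ∪ Sum.inr '' {y : Y | ¬(y ∈ F ↔ g • y ∈ F)} := by
  ext p
  cases p with
  | inl x =>
    constructor
    · intro h
      exact Or.inl ⟨x, h, rfl⟩
    · rintro (⟨y, hy, he⟩ | ⟨y, hy, he⟩)
      · cases he
        exact hy
      · cases he
  | inr x =>
    constructor
    · intro h
      exact Or.inr ⟨x, h, rfl⟩
    · rintro (⟨y, hy, he⟩ | ⟨y, hy, he⟩)
      · cases he
      · cases he
        exact hy

theorem finSet (ω1 : X → ℝ) (ω2 : Y → ℝ) :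
    {p : X ⊕ Y | Sum.elim ω1 ω2 p ≤ 1} = Sum.inl '' {x | ω1 x ≤ 1} ∪ Sum.inr '' {y | ω2 y ≤ 1} := by
  ext p
  cases p with
  | inl x =>
    constructor
    · intro h
      exact Or.inl ⟨x, h, rfl⟩
    · rintro (⟨y, hy, he⟩ | ⟨y, hy, he⟩)
      · cases he
        exact hy
      · cases he
  | inr x =>
    constructor
    · intro h
      exact Or.inr ⟨x, h, rfl⟩
    · rintro (⟨y, hy, he⟩ | ⟨y, hy, he⟩)
      · cases he
      · cases he
        exact hy

theorem finCom (F : Finset Y) (g : K) : {y : Y | ¬(y ∈ (F : Set Y) ↔ g • y ∈ (F : Set Y))}.Finite := by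
  classical
  refine (F ∪ F.image fun y => g⁻¹ • y).finite_toSet.subset fun x hx => ?_
  rw [Finset.mem_coe, Finset.mem_union, Finset.mem_image]
  by_cases hxF : x ∈ F
  · exact Or.inl hxF
  · right
    refine ⟨g • x, ?_, inv_smul_smul g x⟩
    by_contra hgx
    apply hx
    simp only [Finset.mem_coe]
    exact ⟨fun h => absurd h hxF, fun h => absurd h hgx⟩

/-- the sum over the disjoint union -/
theorem sumCom (M : Set X) (F : Set Y) (ω1 : X → ℝ) (ω2 : Y → ℝ) (g : K)
    (h : {p : X ⊕ Y | ¬(p ∈ MS M F ↔ g • p ∈ MS M F)}.Finite)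
    (h1 : {x : X | ¬(x ∈ M ↔ g • x ∈ M)}.Finite) (h2 : {y : Y | ¬(y ∈ F ↔ g • y ∈ F)}.Finite) :
    ∑ p ∈ h.toFinset, Sum.elim ω1 ω2 p = ∑ x ∈ h1.toFinset, ω1 x + ∑ y ∈ h2.toFinset, ω2 y := by
  classical
  have e : h.toFinset = h1.toFinset.disjSum h2.toFinset := by
    ext x
    cases x with
    | inl x =>
      rw [Finset.inl_mem_disjSum, Set.Finite.mem_toFinset, Set.Finite.mem_toFinset]
      exact Iff.rfl
    | inr x =>
      rw [Finset.inr_mem_disjSum, Set.Finite.mem_toFinset, Set.Finite.mem_toFinset]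
      exact Iff.rfl
  rw [e, Finset.sum_disjSum]
  rfl

/-- the boundary of a Foelner set -/
theorem bdry (S : Finset K) (δ : ℝ) (F : Finset Y)
    (hF : ∀ s ∈ (open Classical in S ∪ S.image fun s => s⁻¹), ((open Classical in F.filter fun y => s • y ∉ F).card : ℝ) ≤ δ * F.card)
    (s : K) (hs : s ∈ S) : (((finCom F s).toFinset).card : ℝ) ≤ 2 * δ * F.card := by
  classical
  have hsub : (finCom F s).toFinset ⊆ (F.filter fun x => s • x ∉ F) ∪
      ((F.filter fun x => s⁻¹ • x ∉ F).image fun y => s⁻¹ • y) := by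
    intro x hx
    rw [Set.Finite.mem_toFinset, Set.mem_ofPred_eq] at hx
    simp only [Finset.mem_coe] at hx
    rw [Finset.mem_union, Finset.mem_filter, Finset.mem_image]
    by_cases hxF : x ∈ F
    · left
      exact ⟨hxF, fun h => hx ⟨fun _ => h, fun _ => hxF⟩⟩
    · right
      have hsx : s • x ∈ F := by
        by_contra hn
        exact hx ⟨fun h => absurd h hxF, fun h => absurd h hn⟩
      refine ⟨s • x, Finset.mem_filter.mpr ⟨hsx, ?_⟩, inv_smul_smul s x⟩
      rwa [inv_smul_smul]
  have h1 : ((finCom F s).toFinset.card : ℝ) ≤ ((F.filter fun x => s • x ∉ F).card : ℝ) +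
      ((F.filter fun x => s⁻¹ • x ∉ F).card : ℝ) := by
    have h2 := (Finset.card_le_card hsub).trans (Finset.card_union_le _ _)
    have h3 := h2.trans (Nat.add_le_add_left Finset.card_image_le _)
    exact_mod_cast h3
  have h4 := hF s (by
    convert Finset.mem_union_left _ hs using 1)
  have h5 := hF s⁻¹ (by
    convert Finset.mem_union_right S (Finset.mem_image_of_mem (fun s => s⁻¹) hs) using 1)
  have h6 : ((F.filter fun x => s • x ∉ F).card : ℝ) ≤ δ * F.card := by
    convert h4 using 2
  have h7 : ((F.filter fun x => s⁻¹ • x ∉ F).card : ℝ) ≤ δ * F.card := by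
    convert h5 using 2
  linarith

theorem main (hWGT : SpecWGT) (K : Type) [Group K] (h : AC K) : W K := by
  classical
  intro S ε hε
  obtain ⟨X, Y, iX, iY, M, hcom, hfol, hfree⟩ := h
  -- the first set
  obtain ⟨ω1, hX1, hX2, hX3, hX4⟩ := hWGT K X S ε
    (ε / 2 / ((S.biUnion fun s => (hcom s).toFinset).card + 1))
    (S.biUnion fun s => (hcom s).toFinset) hε (by positivity)
  -- the second set
  obtain ⟨F, hFne, hF⟩ := hfol (S ∪ S.image fun s => s⁻¹) (ε / 8) (by linarith)
  have hFc : (0 : ℝ) < F.card := by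
    exact_mod_cast Finset.card_pos.mpr hFne
  obtain ⟨ω2, hY1, hY2, hY3, hY4⟩ := hWGT K Y S ε (2 / F.card)
    (F ∪ (S ×ˢ F).image fun p => p.1⁻¹ • p.2) hε (by positivity)
  have hp1 : ∀ x, 0 < ω1 x := fun x => lt_of_lt_of_le (by positivity) (hX1 x)
  have hp2 : ∀ y, 0 < ω2 y := fun y => lt_of_lt_of_le (by positivity) (hY1 y)
  let D : Dat K (X ⊕ Y) :=
    { M := MS M (F : Set Y)
      ω := Sum.elim ω1 ω2
      pos := fun x => by
        cases x with
        | inl x => exact hp1 x
        | inr x => exact hp2 x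
      com := fun g => by
        rw [comSet]
        exact ((hcom g).image _).union ((finCom F g).image _)
      fin := by
        rw [finSet]
        exact (hX4.image _).union (hY4.image _) }
  refine ⟨X ⊕ Y, inferInstance, D, ⟨?_, ?_⟩, ?_⟩
  · intro s hs x
    cases x with
    | inl x => exact hX3 s hs x
    | inr x => exact hY3 s hs x
  · -- the boundary
    intro s hs
    have hsum : ∑ x ∈ (D.com s).toFinset, D.ω x = ∑ x ∈ (hcom s).toFinset, ω1 x + ∑ y ∈ (finCom F s).toFinset, ω2 y :=
      sumCom M (F : Set Y) ω1 ω2 s (D.com s) (hcom s) (finCom F s)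
    rw [hsum]
    have e1 : ∑ x ∈ (hcom s).toFinset, ω1 x ≤ ε / 2 := by
      have hin : ∀ x ∈ (hcom s).toFinset, x ∈ S.biUnion fun s => (hcom s).toFinset := by
        intro x hx
        rw [Finset.mem_biUnion]
        exact ⟨s, hs, hx⟩
      rw [Finset.sum_congr rfl fun x hx => hX2 x (hin x hx), Finset.sum_const, nsmul_eq_mul]
      have hcard : ((hcom s).toFinset.card : ℝ) ≤ (S.biUnion fun s => (hcom s).toFinset).card := by
        exact_mod_cast Finset.card_le_card hin
      rw [mul_div_assoc', div_le_iff₀ (by positivity)]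
      nlinarith
    have e2 : ∑ y ∈ (finCom F s).toFinset, ω2 y ≤ ε / 2 := by
      have hin : ∀ x ∈ (finCom F s).toFinset, ω2 x = 2 / F.card := by
        intro x hx
        apply hY2
        rw [Set.Finite.mem_toFinset, Set.mem_ofPred_eq] at hx
        simp only [Finset.mem_coe] at hx
        rw [Finset.mem_union, Finset.mem_image]
        by_cases hxF : x ∈ F
        · exact Or.inl hxF
        · right
          have hsx : s • x ∈ F := by
            by_contra hn
            exact hx ⟨fun h => absurd h hxF, fun h => absurd h hn⟩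
          exact ⟨(s, s • x), Finset.mem_product.mpr ⟨hs, hsx⟩, inv_smul_smul s x⟩
      have hcard := bdry S (ε / 8) F (by convert hF) s hs
      rw [Finset.sum_congr rfl hin, Finset.sum_const, nsmul_eq_mul]
      calc ((finCom F s).toFinset.card : ℝ) * (2 / F.card) ≤ (2 * (ε / 8) * F.card) * (2 / F.card) :=
            mul_le_mul_of_nonneg_right hcard (by positivity)
        _ = ε / 2 := by
            field_simp
            ring
    linarith
  · -- no fixed sets
    intro q hq N hN
    obtain ⟨F', hF', hsum⟩ := hN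
    rcases hfree q hq with hinf | hfix
    · -- infinite orbits on `Y`
      by_contra hcon
      have hcon' : ∀ y : Y, (Sum.inr y : X ⊕ Y) ∈ N ↔ (Sum.inr (q • y) : X ⊕ Y) ∈ N := fun y => by
        by_contra hx
        exact hcon ⟨Sum.inr y, hx⟩
      have hNfin : ∀ y : Y, (Sum.inr y : X ⊕ Y) ∈ N → y ∈ F ∪ F'.toRight := by
        intro y hy
        rw [Finset.mem_union, Finset.mem_toRight]
        by_cases hyF : y ∈ F
        · exact Or.inl hyF
        · right
          apply hF'
          intro hiff
          exact hyF (hiff.mp hy)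
      have hne : ∃ y : Y, (Sum.inr y : X ⊕ Y) ∈ N := by
        by_contra hno
        have hsub : F.map Function.Embedding.inr ⊆ F' := by
          intro p hp
          obtain ⟨y, hy, rfl⟩ := Finset.mem_map.mp hp
          apply hF'
          intro hiff
          exact hno ⟨y, hiff.mpr hy⟩
        have h1 : ∑ x ∈ F.map Function.Embedding.inr, D.ω x ≤ ∑ x ∈ F', D.ω x :=
          Finset.sum_le_sum_of_subset_of_nonneg hsub fun x _ _ => (D.pos x).le
        have h2 : ∑ x ∈ F.map Function.Embedding.inr, D.ω x = 2 := by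
          rw [Finset.sum_map]
          show ∑ y ∈ F, ω2 y = 2
          rw [Finset.sum_congr rfl fun x hx => hY2 x (Finset.mem_union_left _ hx), Finset.sum_const,
            nsmul_eq_mul]
          exact mul_div_cancel₀ 2 hFc.ne'
        have h3 : ∑ x ∈ F', D.ω x ≤ 1 := hsum
        linarith
      obtain ⟨y0, hy0⟩ := hne
      have hall : ∀ n : ℕ, (Sum.inr (q ^ n • y0) : X ⊕ Y) ∈ N := by
        intro n
        induction n with
        | zero =>
          rw [pow_zero, one_smul]
          exact hy0
        | succ n ih =>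
          rw [pow_succ', mul_smul]
          exact (hcon' _).mp ih
      refine hinf y0 ((F ∪ F'.toRight).finite_toSet.subset ?_)
      rintro _ ⟨n, rfl⟩
      exact hNfin _ (hall n)
    · obtain ⟨x, hx⟩ := hfix {x | (Sum.inl x : X ⊕ Y) ∈ N} (F'.toLeft.finite_toSet.subset fun x hx => by
        rw [Finset.mem_coe, Finset.mem_toLeft]
        exact hF' (Sum.inl x) hx)
      exact ⟨Sum.inl x, hx⟩

end ACWM

/-- the class `RC` is contained in the class `RW` -/
theorem rc_rw (hWGT : SpecWGT) (G : Type) [Group G] (h : RC G) : RW G := by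
  intro g hg
  obtain ⟨K, _, f, hf, hK⟩ := h g hg
  exact ⟨K, _, f, hf, ACWM.main hWGT K hK⟩

/-- torsion-free amenable groups and groups with a commensurating action without elliptic elements are in `AC` -/
theorem ac_of_tfa (G : Type) [Group G] (h : TFA G) : AC G := by
  classical
  refine ⟨Empty, G, { smul := fun _ x => x, one_smul := fun _ => rfl, mul_smul := fun _ _ _ => rfl }, inferInstance, ∅,
    fun g => Set.toFinite _, fun S ε hε => ?_, fun q hq => Or.inl fun y => ?_⟩
  · exact h.2 S ε hε
  · rw [← Set.infinite_coe_iff]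
    have hinj : Function.Injective fun n : ℕ => q ^ n • y := by
      intro a b hab
      have he2 : q ^ a = q ^ b := mul_right_cancel hab
      by_contra hne
      rcases lt_or_gt_of_ne hne with hl | hl
      · exact hq (h.1 q (b - a) (by omega) (by rw [pow_sub _ hl.le, he2, mul_inv_cancel]))
      · exact hq (h.1 q (a - b) (by omega) (by rw [pow_sub _ hl.le, he2, mul_inv_cancel]))
    exact (Set.infinite_range_of_injective hinj).to_subtype

theorem ac_of_cne (G : Type) [Group G] (h : CNE G) : AC G := by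
  classical
  obtain ⟨X, iX, M, hM, hfree⟩ := h
  refine ⟨X, Unit, iX, { smul := fun _ x => x, one_smul := fun _ => rfl, mul_smul := fun _ _ _ => rfl }, M, hM,
    fun S ε hε => ⟨{()}, Finset.singleton_nonempty _, fun s hs => ?_⟩, fun q hq => Or.inr (hfree q hq)⟩
  have key : ∀ (p : Unit → Prop) (dec : DecidablePred p), (∀ y, ¬ p y) →
      ((@Finset.filter Unit p dec {()}).card : ℝ) = 0 := by
    intro p dec hp
    rw [Nat.cast_eq_zero, Finset.card_eq_zero]
    refine Finset.eq_empty_of_forall_notMem fun y hy => ?_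
    rw [Finset.mem_filter] at hy
    exact hp y hy.2
  refine le_trans (le_of_eq (key _ _ fun y hy => hy ?_)) (by positivity)
  exact Finset.mem_singleton.mpr (Subsingleton.elim _ _)

theorem rc_of_rac (G : Type) [Group G] (h : RAC G) : RC G := by
  intro g hg
  obtain ⟨K, _, f, hf, hK⟩ := h g hg
  exact ⟨K, _, f, hf, hK.elim (ac_of_tfa K) (ac_of_cne K)⟩

end Pool.Agent.Lib.MP8a3537.AM
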