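import Pool.Agent.Lib.MP_8a3537_gt.AM.SpecC

/-!
# Module BBA: the anticommutator of two operators `B`
-/

set_option linter.unusedVariables false

namespace Pool.Agent.Lib.MP8a3537.AM

open scoped BigOperators

namespace BBAM

open Classical in
/-- the entry of a product -/
theorem prod_entry (hCNF : SpecCNF) {X : Type} [LinearOrder X] {m : ℕ} (Ω : Finset (Conf m X))
    (hΩ : ∀ c ∈ Ω, ∀ x, c x ≠ 0 → stp x c ∈ Ω) (a b : X → ℝ) (c' c : Ω) :
    ((Matrix.of fun c' c : Ω => bco m a (c' : Conf m X) c) * (Matrix.of fun c' c : Ω => bco m b (c' : Conf m X) c)) c' c =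
      ∑ y ∈ (c : Conf m X).support, ∑ x ∈ (c : Conf m X).support,
        if stp x (stp y (c : Conf m X)) = c' then ((a x : ℂ) * b y) * (sx x (stp y (c : Conf m X)) * sx y (c : Conf m X)) else 0 := by
  rw [Matrix.mul_apply]
  simp only [Matrix.of_apply]
  have h1 : ∀ c2 : Ω, bco m a (c' : Conf m X) c2 * bco m b (c2 : Conf m X) c =
      ∑ y ∈ (c : Conf m X).support, if stp y (c : Conf m X) = c2 then
        bco m a (c' : Conf m X) (stp y (c : Conf m X)) * ((b y : ℂ) * sx y (c : Conf m X)) else 0 := by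
    intro c2
    conv_lhs => rw [bco.eq_def m b]
    rw [Finset.mul_sum]
    refine Finset.sum_congr rfl fun y _ => ?_
    by_cases h : stp y (c : Conf m X) = c2
    · rw [if_pos h, if_pos h, h]
    · rw [if_neg h, if_neg h, mul_zero]
  simp only [h1]
  rw [Finset.sum_comm]
  refine Finset.sum_congr rfl fun y hy => ?_
  have hy0 : (c : Conf m X) y ≠ 0 := Finsupp.mem_support_iff.mp hy
  have hmem : stp y (c : Conf m X) ∈ Ω := hΩ c c.2 y hy0
  rw [Finset.sum_eq_single (⟨stp y (c : Conf m X), hmem⟩ : Ω)]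
  · rw [if_pos rfl]
    have hs : (stp y (c : Conf m X)).support = (c : Conf m X).support := by
      obtain ⟨-, -, -, -, -, -, -, -, -, h10, -⟩ := hCNF (Equiv.Perm X) X m c
      exact h10 y hy0
    conv_lhs => rw [bco.eq_def m a, hs]
    rw [Finset.sum_mul]
    refine Finset.sum_congr rfl fun x _ => ?_
    by_cases h : stp x (stp y (c : Conf m X)) = c'
    · rw [if_pos h, if_pos h]; ring
    · rw [if_neg h, if_neg h, zero_mul]
  · intro d _ hd
    rw [if_neg]
    intro h
    exact hd (Subtype.ext h.symm)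
  · intro h
    exact absurd (Finset.mem_univ _) h

end BBAM

theorem specBBA (hCNF : SpecCNF) (hSGI : SpecSGI) : SpecBBA := by
  classical
  intro X _ m Ω hΩ a b
  ext c' c
  rw [Matrix.add_apply, BBAM.prod_entry hCNF Ω hΩ, BBAM.prod_entry hCNF Ω hΩ, ← Finset.sum_add_distrib]
  obtain ⟨-, -, -, -, -, h6, h7, -⟩ := hCNF (Equiv.Perm X) X m (c : Conf m X)
  obtain ⟨g1, g2, -, -, -, -, -, -, -, -, g11, -⟩ := hSGI (Equiv.Perm X) X m (c : Conf m X)
  -- the summand
  obtain ⟨F, hF⟩ : ∃ F : X → X → ℂ, ∀ y x, F y x = ((a x : ℂ) * b y + b x * a y) *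
      (if stp x (stp y (c : Conf m X)) = c' then sx x (stp y (c : Conf m X)) * sx y (c : Conf m X) else 0) := ⟨_, fun _ _ => rfl⟩
  have e1 : ∀ y ∈ (c : Conf m X).support, ((∑ x ∈ (c : Conf m X).support,
        if stp x (stp y (c : Conf m X)) = c' then ((a x : ℂ) * b y) * (sx x (stp y (c : Conf m X)) * sx y (c : Conf m X)) else 0) +
      ∑ x ∈ (c : Conf m X).support,
        if stp x (stp y (c : Conf m X)) = c' then ((b x : ℂ) * a y) * (sx x (stp y (c : Conf m X)) * sx y (c : Conf m X)) else 0) =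
      ∑ x ∈ (c : Conf m X).support, F y x := by
    intro y _
    rw [← Finset.sum_add_distrib]
    refine Finset.sum_congr rfl fun x _ => ?_
    rw [hF]
    split_ifs
    · ring
    · ring
  rw [Finset.sum_congr rfl e1]
  have e2 : ∀ y ∈ (c : Conf m X).support, ∀ x ∈ (c : Conf m X).support,
      F y x + F x y = if x = y then 2 * F y y else 0 := by
    intro y hy x hx
    have hy0 := Finsupp.mem_support_iff.mp hy
    have hx0 := Finsupp.mem_support_iff.mp hx
    by_cases hxy : x = y
    · subst hxy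
      rw [if_pos rfl]; ring
    · rw [if_neg hxy, hF, hF, h7 x y hxy]
      by_cases h : stp y (stp x (c : Conf m X)) = c'
      · rw [if_pos h, if_pos h, g2 x y hxy hx0 hy0]
        ring
      · rw [if_neg h, if_neg h]; ring
  have e3 : 2 * ∑ y ∈ (c : Conf m X).support, ∑ x ∈ (c : Conf m X).support, F y x =
      ∑ y ∈ (c : Conf m X).support, 2 * F y y := by
    calc 2 * ∑ y ∈ (c : Conf m X).support, ∑ x ∈ (c : Conf m X).support, F y x
        = (∑ y ∈ (c : Conf m X).support, ∑ x ∈ (c : Conf m X).support, F y x) +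
          ∑ y ∈ (c : Conf m X).support, ∑ x ∈ (c : Conf m X).support, F x y := by
          rw [two_mul]
          congr 1
          exact Finset.sum_comm
      _ = ∑ y ∈ (c : Conf m X).support, ∑ x ∈ (c : Conf m X).support, (F y x + F x y) := by
          rw [← Finset.sum_add_distrib]
          exact Finset.sum_congr rfl fun y _ => (Finset.sum_add_distrib).symm
      _ = ∑ y ∈ (c : Conf m X).support, ∑ x ∈ (c : Conf m X).support, (if x = y then 2 * F y y else 0) :=
          Finset.sum_congr rfl fun y hy => Finset.sum_congr rfl fun x hx => e2 y hy x hx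
      _ = ∑ y ∈ (c : Conf m X).support, 2 * F y y := by
          refine Finset.sum_congr rfl fun y hy => ?_
          rw [Finset.sum_ite_eq' _ y, if_pos hy]
  rw [← Finset.mul_sum] at e3
  have e4 := mul_left_cancel₀ (two_ne_zero) e3
  rw [e4]
  have e5 : ∀ y ∈ (c : Conf m X).support, F y y = if c' = c then 2 * ((a y : ℂ) * b y) else 0 := by
    intro y hy
    have hy0 := Finsupp.mem_support_iff.mp hy
    rw [hF, h6 y hy0, g1 y hy0, (g11 y).1]
    by_cases h : c' = c
    · rw [if_pos (by rw [h]), if_pos h]; ring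
    · rw [if_neg fun h' => h (Subtype.ext h'.symm), if_neg h, mul_zero]
  rw [Finset.sum_congr rfl e5, Matrix.diagonal_apply]
  by_cases h : c' = c
  · subst h
    simp only [if_true]
    push_cast
    rw [Finset.mul_sum]
  · rw [if_neg h]
    simp [h]

end Pool.Agent.Lib.MP8a3537.AM
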