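import Pool.Agent.Lib.MP_8a3537_gt.AM.SpecC

/-!
# BBL: a self-adjoint operator which is bounded below is invertible
-/

set_option linter.unusedVariables false

namespace Pool.Agent.Lib.MP8a3537.AM

open Pool.Agent.Lib.MP8a3537.SG Pool.Agent.Lib.MP8a3537.TW
open Filter Topology
open scoped BigOperators Matrix ComplexOrder InnerProductSpace NNReal

namespace BBLM

variable {H : Type} [NormedAddCommGroup H] [InnerProductSpace ℂ H] [CompleteSpace H]

lemma unit_of (L : Bo H) (b : ℝ) (hb : 0 < b) (hL : IsSelfAdjoint L)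
    (h : ∀ v, b * ‖v‖ ≤ ‖L v‖) : IsUnit L := by
  have h2 : IsUnit (L * L) := by
    refine ContinuousLinearMap.isUnit_of_forall_le_norm_inner_map (L * L) (c := ⟨b ^ 2, sq_nonneg b⟩) ?_ ?_
    · show (0 : ℝ) < b ^ 2
      positivity
    · intro x
      show ‖x‖ ^ 2 * b ^ 2 ≤ ‖⟪(L * L) x, x⟫_ℂ‖
      have h3 : ⟪(L * L) x, x⟫_ℂ = ⟪L x, L x⟫_ℂ := by
        show ⟪L (L x), x⟫_ℂ = ⟪L x, L x⟫_ℂ
        have h4 := ContinuousLinearMap.adjoint_inner_left L x (L x)
        rw [← ContinuousLinearMap.star_eq_adjoint, hL.star_eq] at h4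
        exact h4
      rw [h3, inner_self_eq_norm_sq_to_K]
      rw [norm_pow, RCLike.norm_ofReal, abs_of_nonneg (norm_nonneg _)]
      have := h x
      have h5 : 0 ≤ b * ‖x‖ := mul_nonneg hb.le (norm_nonneg _)
      calc ‖x‖ ^ 2 * b ^ 2 = (b * ‖x‖) ^ 2 := by ring
        _ ≤ ‖L x‖ ^ 2 := by gcongr
  exact ((Commute.refl L).isUnit_mul_iff.1 h2).1

end BBLM

theorem specBBL : SpecBBL := by
  intro H _ _ _ L b β hb hβ hL h
  refine ⟨hL, ContinuousLinearMap.opNorm_le_bound L hβ fun v => (h v).2, ?_⟩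
  obtain ⟨u, hu⟩ := BBLM.unit_of L b hb hL fun v => (h v).1
  refine ⟨((u⁻¹ : (Bo H)ˣ) : Bo H), by rw [← hu, Units.mul_inv], by rw [← hu, Units.inv_mul], ?_⟩
  refine ContinuousLinearMap.opNorm_le_bound _ (by positivity) fun v => ?_
  have h1 : L (((u⁻¹ : (Bo H)ˣ) : Bo H) v) = v := by
    have : (L * ((u⁻¹ : (Bo H)ˣ) : Bo H)) v = v := by
      rw [← hu, Units.mul_inv]; rfl
    exact this
  have h2 := (h (((u⁻¹ : (Bo H)ˣ) : Bo H) v)).1
  rw [h1] at h2
  rw [one_div, ← div_eq_inv_mul, le_div_iff₀ hb]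
  linarith

end Pool.Agent.Lib.MP8a3537.AM
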