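import Pool.Agent.Lib.MP_8a3537_gt.AM.Spec2

/-!
# BRG: the matrix of the compression (MP_8a3537_gt, folder AM)
-/

set_option linter.unusedVariables false

namespace Pool.Agent.Lib.MP8a3537.AM

open scoped BigOperators
open Pool.Agent.Lib.MP8a3537.SG

namespace BRGM

variable {G V : Type} [Group G] [NormedAddCommGroup V] [InnerProductSpace ℂ V]

theorem ev_single (g : G) (A : V →L[ℂ] V) : ev (MonoidAlgebra.single g A) = A := by
  show MonoidAlgebra.liftNC _ _ _ = A
  rw [MonoidAlgebra.liftNC_single]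
  simp

theorem ev_LM {X : Type} [MulAction G X] [LinearOrder X] (m : ℕ) (D : Dat G X) (w : X → ℝ) (Ω : Finset (Conf m X))
    (y : MonoidAlgebra (V →L[ℂ] V) G) (u : ℝ) (ζ : ℂ) (c' c : Ω) (v : V) :
    ev (LM m D w Ω y u ζ c' c) v =
      (∑ g ∈ y.coeff.support, ((u : ℂ) * gam (c : Conf m X) * vco m D ζ g c' c) • y.coeff g v) + bco m w c' c • v := by
  unfold LM
  rw [Matrix.of_apply, map_add, ev_single, Finsupp.sum, map_sum]
  simp only [ev_single]
  rw [_root_.add_apply]
  congr 1
  · simp

end BRGM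

open BRGM

theorem specBRG (hMON : SpecMON) (hVEX : SpecVEX) (hNRM : SpecNRM) : SpecBRG := by
  classical
  intro G X V _ _ _ _ _ m D w Ω y u ζ ψ
  have hdiag : ∀ (a : Conf m X → ℂ) (φ : HS m X V) c, Mon V (fun t => t) a φ c = a c • φ c :=
    fun a φ c => ((hMON V).2.2.2.2 (Conf m X) a φ).1 c
  have hP : ∀ (φ : HS m X V) c, opP m V Ω φ c = if c ∈ Ω then φ c else 0 := by
    intro φ c
    unfold opP
    rw [hdiag]
    split_ifs <;> simp
  have hE : ∀ (ψ : Ω → V) (c : Conf m X), emb m Ω ψ c = if h : c ∈ Ω then ψ ⟨c, h⟩ else 0 := by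
    intro ψ c
    unfold emb
    rw [Finsupp.finsetSum_apply]
    by_cases h : c ∈ Ω
    · rw [dif_pos h, Finset.sum_eq_single (⟨c, h⟩ : Ω)]
      · rw [Finsupp.single_eq_same]
      · intro b _ hb
        rw [Finsupp.single_eq_of_ne]
        intro hc
        exact hb (Subtype.ext hc.symm)
      · intro hn
        exact absurd (Finset.mem_univ _) hn
    · rw [dif_neg h]
      refine Finset.sum_eq_zero fun b _ => ?_
      rw [Finsupp.single_eq_of_ne]
      intro hc
      exact h (hc ▸ b.2)
  have hEs : ∀ (ψ : Ω → V), (emb m Ω ψ).support ⊆ Ω := by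
    intro ψ c hc
    by_contra h
    rw [Finsupp.mem_support_iff, hE, dif_neg h] at hc
    exact hc rfl
  have hEc : ∀ (ψ : Ω → V) (c : Ω), emb m Ω ψ (c : Conf m X) = ψ c := by
    intro ψ c
    rw [hE, dif_pos c.2]
  have hsum : ∀ (F : Conf m X → V) , ∑ c ∈ Ω, F c = ∑ c : Ω, F c := by
    intro F
    rw [← Finset.sum_coe_sort]
  refine ⟨?_, ?_, ?_, ?_⟩
  · -- the matrix
    ext c'
    rw [hP, hE]
    by_cases h : c' ∈ Ω
    · rw [dif_pos h, if_pos h, Finsupp.add_apply, Finsupp.smul_apply]
      have hB : opB m V w (emb m Ω ψ) c' = ∑ c : Ω, bco m w c' c • ψ c := by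
        rw [((hNRM X V m w (emb m Ω ψ) (emb m Ω ψ)).2.2.2.2.2.2.2) c']
        rw [Finset.sum_subset (hEs ψ) (fun c _ hc => by rw [Finsupp.notMem_support_iff.mp hc, smul_zero]), hsum]
        exact Finset.sum_congr rfl fun c _ => by rw [hEc]
      have hG : ∀ c, opG m V (emb m Ω ψ) c = gam c • emb m Ω ψ c := by
        intro c
        unfold opG
        rw [hdiag]
      have hGs : (opG m V (emb m Ω ψ)).support ⊆ Ω := by
        intro c hc
        apply hEs ψ
        rw [Finsupp.mem_support_iff, hG] at hc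
        rw [Finsupp.mem_support_iff]
        intro h0
        exact hc (by rw [h0, smul_zero])
      have hY : opY m D ζ y (opG m V (emb m Ω ψ)) c' =
          ∑ g ∈ y.coeff.support, ∑ c : Ω, (vco m D ζ g c' c * gam (c : Conf m X)) • y.coeff g (ψ c) := by
        unfold opY
        rw [Finsupp.sum, LinearMap.sum_apply, Finsupp.finsetSum_apply]
        refine Finset.sum_congr rfl fun g _ => ?_
        rw [LinearMap.comp_apply, ((hVEX G X V m D ζ g c' c' 0).2.2)]
        have hls : (lft m X (y.coeff g) (opG m V (emb m Ω ψ))).support ⊆ Ω := by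
          refine Finset.Subset.trans ?_ hGs
          intro c hc
          rw [Finsupp.mem_support_iff] at hc ⊢
          intro h0
          apply hc
          unfold lft
          rw [Finsupp.mapRange.linearMap_apply, Finsupp.mapRange_apply, h0, map_zero]
        rw [Finset.sum_subset hls (fun c _ hc => by rw [Finsupp.notMem_support_iff.mp hc, smul_zero]), hsum]
        refine Finset.sum_congr rfl fun c _ => ?_
        unfold lft
        rw [Finsupp.mapRange.linearMap_apply, Finsupp.mapRange_apply, hG, hEc, map_smul, smul_smul]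
        rfl
      rw [hB, hY, Finset.smul_sum, Finset.sum_congr rfl (fun c _ => ev_LM m D w Ω y u ζ ⟨c', h⟩ c (ψ c)), Finset.sum_add_distrib]
      congr 1
      rw [Finset.sum_comm]
      refine Finset.sum_congr rfl fun g _ => ?_
      rw [Finset.smul_sum]
      refine Finset.sum_congr rfl fun c _ => ?_
      rw [smul_smul]
      congr 1
      ring
    · rw [dif_neg h, if_neg h]
  · rw [norm_sq, Finset.sum_subset (hEs ψ) (fun c _ hc => by rw [Finsupp.notMem_support_iff.mp hc, norm_zero]; norm_num)]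
    rw [← Finset.sum_coe_sort]
    exact Finset.sum_congr rfl fun c _ => by rw [hEc]
  · ext c
    rw [hP]
    by_cases h : c ∈ Ω
    · rw [if_pos h]
    · rw [if_neg h, hE, dif_neg h]
  · intro φ
    ext c
    rw [hP, hE]
    by_cases h : c ∈ Ω
    · rw [if_pos h, dif_pos h]
    · rw [if_neg h, dif_neg h]

end Pool.Agent.Lib.MP8a3537.AM
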