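import Pool.Agent.Lib.MP_8a3537_gt.AM.Spec

/-!
# Module CAR: the number of configurations of energy at most one
-/

set_option linter.unusedVariables false

namespace Pool.Agent.Lib.MP8a3537.AM

open scoped BigOperators
open Pool.Agent.Lib.MP8a3537.SG

theorem specCAR : SpecCAR := by
  classical
  intro G X _ _ _ D
  let A : Finset X := D.fin.toFinset
  have hA : ∀ x, x ∈ A ↔ D.ω x ≤ 1 := fun x => D.fin.mem_toFinset
  refine ⟨A.card, fun m => ?_⟩
  have hsupp : ∀ c : Conf m X, en D.ω c ≤ 1 → ∀ x, x ∉ A → c x = 0 := by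
    intro c hc x hx
    by_contra h
    apply hx
    rw [hA]
    refine le_trans ?_ hc
    unfold en
    exact Finset.single_le_sum (f := D.ω) (fun y _ => (D.pos y).le)
      (Finsupp.mem_support_iff.mpr h)
  let r : Conf m X → (A → Fin (2 * m + 1)) := fun c x => c x
  have hinj : Set.InjOn r {c | en D.ω c ≤ 1} := by
    intro c hc c' hc' h
    ext x
    by_cases hx : x ∈ A
    · exact congrArg Fin.val (congrFun h ⟨x, hx⟩)
    · rw [hsupp c hc x hx, hsupp c' hc' x hx]
  have hfin : {c : Conf m X | en D.ω c ≤ 1}.Finite :=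
    Set.Finite.of_finite_image (Set.toFinite _) hinj
  refine ⟨hfin.toFinset, fun c => hfin.mem_toFinset, ?_⟩
  have h1 : hfin.toFinset.card ≤ (Finset.univ : Finset (A → Fin (2 * m + 1))).card := by
    refine Finset.card_le_card_of_injOn r (fun _ _ => Finset.mem_coe.mpr (Finset.mem_univ _)) ?_
    intro c hc c' hc' h
    exact hinj (hfin.mem_toFinset.mp hc) (hfin.mem_toFinset.mp hc') h
  refine h1.trans (le_of_eq ?_)
  simp

end Pool.Agent.Lib.MP8a3537.AM
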