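import Pool.Agent.Lib.MP_8a3537_gt.AM.Spec

/-!
# CNF: configurations
-/

set_option linter.unusedVariables false

namespace Pool.Agent.Lib.MP8a3537.AM

namespace CNFM

theorem mu_val (m : ℕ) (p : Fin (2 * m + 1)) :
    ((mu m p : Fin (2 * m + 1)) : ℕ) =
      if (p : ℕ) = 0 then 0 else if (p : ℕ) % 2 = 1 then (p : ℕ) + 1 else (p : ℕ) - 1 := rfl

theorem ne_zero_iff {m : ℕ} (p : Fin (2 * m + 1)) : p ≠ 0 ↔ (p : ℕ) ≠ 0 := by
  rw [Ne, Fin.ext_iff, Fin.val_zero]

theorem mu_ne {m : ℕ} {p : Fin (2 * m + 1)} (h : p ≠ 0) : mu m p ≠ 0 := by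
  rw [ne_zero_iff] at h ⊢
  rw [mu_val, if_neg h]
  split_ifs <;> omega

theorem mu_mu {m : ℕ} {p : Fin (2 * m + 1)} (h : p ≠ 0) : mu m (mu m p) = p := by
  rw [ne_zero_iff] at h
  apply Fin.ext
  have h0 := p.2
  have h1 := mu_val m p
  have h2 := mu_val m (mu m p)
  rw [if_neg h] at h1
  by_cases h3 : (p : ℕ) % 2 = 1
  · rw [if_pos h3] at h1
    rw [h1, if_neg (by omega), if_neg (by omega)] at h2
    omega
  · rw [if_neg h3] at h1
    rw [h1, if_neg (by omega), if_pos (by omega)] at h2
    omega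

theorem mu_odd {m : ℕ} {p : Fin (2 * m + 1)} (h : p ≠ 0) :
    (mu m p : ℕ) % 2 = 1 ↔ ¬ (p : ℕ) % 2 = 1 := by
  rw [ne_zero_iff] at h
  rw [mu_val, if_neg h]
  split_ifs <;> omega

theorem rev_odd {m : ℕ} (p : Fin (2 * m + 1)) : (p.rev : ℕ) % 2 = 1 ↔ (p : ℕ) % 2 = 1 := by
  rw [Fin.val_rev]
  have := p.2
  omega

variable {G X : Type} [Group G] [MulAction G X] [LinearOrder X] {m : ℕ}

theorem act_apply (g : G) (c : Conf m X) (x : X) : act g c x = c (g⁻¹ • x) := rfl

theorem stp_apply (x y : X) (c : Conf m X) : stp x c y = if y = x then mu m (c x) else c y := by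
  unfold stp
  rw [Finsupp.coe_update, Function.update_apply]

theorem flp_apply (A : Finset X) (c : Conf m X) (x : X) :
    flp A c x = if x ∈ A then (c x).rev else c x := rfl

theorem mem_odd (c : Conf m X) (y : X) : y ∈ odd c ↔ (c y : ℕ) % 2 = 1 := by
  unfold odd
  rw [Finset.mem_filter, Finsupp.mem_support_iff, ne_zero_iff]
  constructor
  · exact fun h => h.2
  · intro h
    exact ⟨by omega, h⟩

end CNFM

open CNFM in
/-- CNF -/
theorem specCNF : SpecCNF := by
  intro G X _ _ _ m c
  refine ⟨?_, ?_, ?_, ?_, ?_, ?_, ?_, ?_, ?_, ?_, ?_, ?_, ?_, ?_, ?_, ?_, ?_, ?_⟩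
  · intro g x
    rw [act_apply, inv_smul_smul]
  · ext x
    rw [act_apply, inv_one, one_smul]
  · intro g h
    ext x
    rw [act_apply, act_apply, act_apply, mul_inv_rev, mul_smul]
  · intro g
    ext x
    rw [act_apply]
    rfl
  · intro x y
    exact stp_apply x y c
  · intro x hx
    refine Finsupp.ext fun y => ?_
    rw [stp_apply, stp_apply, stp_apply, if_pos rfl]
    split_ifs with h
    · rw [h, mu_mu hx]
    · rfl
  · intro x y hxy
    refine Finsupp.ext fun z => ?_
    rw [stp_apply, stp_apply, stp_apply, stp_apply, stp_apply, stp_apply]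
    rw [if_neg hxy, if_neg (Ne.symm hxy)]
    by_cases h1 : z = x
    · subst h1
      rw [if_pos rfl, if_neg hxy, if_pos rfl]
    · rw [if_neg h1, if_neg h1]
  · intro g x
    refine Finsupp.ext fun y => ?_
    rw [act_apply, stp_apply, stp_apply, act_apply, act_apply, inv_smul_smul]
    by_cases h : y = g • x
    · rw [if_pos h, if_pos (by rw [h, inv_smul_smul])]
    · rw [if_neg h, if_neg (fun h2 => h (by rw [← h2, smul_inv_smul]))]
  · intro x hx
    rw [stp_apply, if_pos rfl]
    exact mu_ne hx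
  · intro x hx
    ext y
    rw [Finsupp.mem_support_iff, Finsupp.mem_support_iff, stp_apply]
    split_ifs with h
    · subst h
      exact ⟨fun _ => hx, fun _ => mu_ne hx⟩
    · rfl
  · intro A x
    exact flp_apply A c x
  · refine Finsupp.ext fun x => ?_
    rw [flp_apply, if_neg (Finset.notMem_empty x)]
  · intro A B
    refine Finsupp.ext fun x => ?_
    rw [flp_apply, flp_apply, flp_apply]
    by_cases hA : x ∈ A <;> by_cases hB : x ∈ B <;>
      simp [hA, hB, Finset.mem_symmDiff]
  · intro g A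
    refine Finsupp.ext fun x => ?_
    rw [act_apply, flp_apply, flp_apply, act_apply]
    by_cases h : g⁻¹ • x ∈ A
    · rw [if_pos h, if_pos (Finset.mem_image.2 ⟨_, h, smul_inv_smul g x⟩)]
    · rw [if_neg h, if_neg ?_]
      rw [Finset.mem_image]
      rintro ⟨y, hy, rfl⟩
      rw [inv_smul_smul] at h
      exact h hy
  · intro A x hx
    refine Finsupp.ext fun y => ?_
    rw [flp_apply, stp_apply, stp_apply, flp_apply, flp_apply, if_neg hx]
    by_cases h : y = x
    · subst h
      rw [if_neg hx, if_pos rfl, if_pos rfl]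
    · rw [if_neg h, if_neg h]
  · intro g
    ext y
    rw [mem_odd, act_apply, Finset.mem_image]
    constructor
    · intro h
      exact ⟨g⁻¹ • y, (mem_odd c _).2 h, smul_inv_smul g y⟩
    · rintro ⟨x, hx, rfl⟩
      rw [inv_smul_smul]
      exact (mem_odd c _).1 hx
  · intro A
    ext y
    rw [mem_odd, mem_odd, flp_apply]
    split_ifs with h
    · exact rev_odd _
    · rfl
  · intro x hx
    ext y
    rw [mem_odd, stp_apply, Finset.mem_symmDiff, mem_odd, Finset.mem_singleton]
    by_cases h : y = x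
    · subst h
      rw [if_pos rfl, mu_odd hx]
      simp
    · rw [if_neg h]
      simp [h]

end Pool.Agent.Lib.MP8a3537.AM
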