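import Pool.Agent.Lib.MP_8a3537_gt.AM.SpecC
import Pool.Agent.Lib.MP_8a3537_gt.TW.CSA

/-!
# COM: the core theorem from the models (MP_8a3537_gt, block C)
-/

set_option linter.unusedVariables false

namespace Pool.Agent.Lib.MP8a3537.AM

open Pool.Agent.Lib.MP8a3537.SG Pool.Agent.Lib.MP8a3537.TW
open Filter Topology
open scoped BigOperators Matrix ComplexOrder InnerProductSpace

namespace COMM

theorem n1_nonneg {A G : Type} [NormedRing A] (y : MonoidAlgebra A G) : 0 ≤ n1 y :=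
  Finset.sum_nonneg fun _ _ => norm_nonneg _

/-- a gapped operator has a sign -/
theorem exists_sign {A : Type} [CStarAlgebra A] (x : A) (b β : ℝ) (h : Gpd x b β) : ∃ s, Sg x s := by
  obtain ⟨h1, -, x', h2, h3, -⟩ := h
  exact CSAM.exist x h1 ⟨⟨x, x', h2, h3⟩, rfl⟩

/-- the approximation -/
theorem approx (hSGA : SpecSGA) (hSSC : SpecSSC) {A : Type} [CStarAlgebra A] (x s : A) (b β e : ℝ) (hb : 0 < b)
    (hβ : 0 < β) (he : e = min (b / β) 1) (h : Gpd x b β) (hs : Sg x s) (j : ℕ) :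
    ‖it (((1 / β : ℝ) : ℂ) • x) j - s‖ ≤ del e j := by
  obtain ⟨h1, h2, x', h3, h4, h5⟩ := h
  have ht : 0 < 1 / β := by positivity
  have hβC : ((1 / β : ℝ) : ℂ) ≠ 0 := by exact_mod_cast ht.ne'
  have hβC' : (β : ℂ) ≠ 0 := by exact_mod_cast hβ.ne'
  have he0 : 0 < e := by rw [he]; exact lt_min (by positivity) one_pos
  have he1 : e ≤ 1 := by rw [he]; exact min_le_right _ _
  have heb : e ≤ b / β := by rw [he]; exact min_le_left _ _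
  have hmul : ((1 / β : ℝ) : ℂ) * (β : ℂ) = 1 := by
    push_cast
    field_simp
  refine hSGA A (((1 / β : ℝ) : ℂ) • x) ((β : ℂ) • x') s e he0 he1 ?_ ?_ ?_ ?_ ?_ (hSSC A x s _ ht hs) j
  · show star (((1 / β : ℝ) : ℂ) • x) = ((1 / β : ℝ) : ℂ) • x
    rw [star_smul, h1.star_eq]
    congr 1
    exact Complex.conj_ofReal _
  · rw [norm_smul, Complex.norm_real, Real.norm_eq_abs, abs_of_pos ht]
    calc 1 / β * ‖x‖ ≤ 1 / β * β := mul_le_mul_of_nonneg_left h2 ht.le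
      _ = 1 := by field_simp
  · rw [smul_mul_smul_comm, h3, hmul, one_smul]
  · rw [smul_mul_smul_comm, h4, mul_comm, hmul, one_smul]
  · rw [norm_smul, Complex.norm_real, Real.norm_eq_abs, abs_of_pos hβ]
    calc β * ‖x'‖ ≤ β * (1 / b) := mul_le_mul_of_nonneg_left h5 hβ.le
      _ = 1 / (b / β) := by field_simp
      _ ≤ 1 / e := one_div_le_one_div_of_le he0 heb

end COMM

open COMM in
theorem specCOM (hTWO : SpecTWO) (hWDB : SpecWDB) (hPOL : SpecPOL) (hSGA : SpecSGA) (hSSC : SpecSSC)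
    (hTTB : SpecTTB) (hBBL : SpecBBL) (hLHM : SpecLHM) : SpecCOM := by
  intro G _ hmod H₁ H₂ _ _ _ _ _ _ y₁ y₁' y₂ y₂' w₁ w₂ hy₁ hy₂ hi₁ hi₂ hc₁ hc₂ hw S₁ S₂ hS₁ hS₂
  classical
  set S : Finset G := y₁.coeff.support ∪ y₂.coeff.support with hS
  set C0 : ℝ := n1 y₁ + n1 y₂ + 1 with hC0
  set C1 : ℝ := n1 y₁' + n1 y₂' + 1 with hC1
  have n1a := n1_nonneg y₁
  have n1b := n1_nonneg y₂
  have n1c := n1_nonneg y₁'
  have n1d := n1_nonneg y₂'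
  obtain ⟨b, β, a, hb, hβ, hm⟩ := hmod S C0 C1 (by linarith) (by linarith)
  obtain ⟨e, he⟩ : ∃ e : ℝ, e = min (b / β) 1 := ⟨_, rfl⟩
  have he0 : 0 < e := by rw [he]; exact lt_min (by positivity) one_pos
  have he1 : e ≤ 1 := by rw [he]; exact min_le_right _ _
  obtain ⟨-, hdel, -⟩ := specSCA e he0 he1
  have key : ∀ j : ℕ, ‖w₁ S₁ - w₂ S₂‖ ≤ (‖w₁‖ + ‖w₂‖) * (2 * 3 ^ j + 1) ^ a * del e j := by
    intro j
    obtain ⟨C, _, _, c0, v, B, Bp, sg, p, w, Q, _, n, hcard, M⟩ := hm (3 ^ j) (by positivity)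
    obtain ⟨hsa₁, -, -⟩ := hLHM G S C0 C1 b β (3 ^ j) C c0 v B Bp sg p w Q n M H₁ y₁ hy₁
    obtain ⟨hsa₂, -, -⟩ := hLHM G S C0 C1 b β (3 ^ j) C c0 v B Bp sg p w Q n M H₂ y₂ hy₂
    have hsup₁ : y₁.coeff.support ⊆ S := Finset.subset_union_left
    have hsup₂ : y₂.coeff.support ⊆ S := Finset.subset_union_right
    have g₁ : Gpd (mop (Lm (v 1) sg B y₁)) b β := hBBL (HC C H₁) _ b β hb hβ.le (hsa₁ 1)
      fun x => M.gap H₁ y₁ y₁' hy₁ hi₁ hsup₁ (by linarith) (by linarith) 1 x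
    have g₂ : Gpd (mop (Lm (v 1) sg B y₂)) b β := hBBL (HC C H₂) _ b β hb hβ.le (hsa₂ 1)
      fun x => M.gap H₂ y₂ y₂' hy₂ hi₂ hsup₂ (by linarith) (by linarith) 1 x
    obtain ⟨s₁, hs₁⟩ := exists_sign _ b β g₁
    obtain ⟨s₂, hs₂⟩ := exists_sign _ b β g₂
    have t₁ := hTWO G S C0 C1 b β (3 ^ j) C c0 v B Bp sg p w Q n hb hβ M H₁ y₁ y₁' hy₁ hi₁ hsup₁
      (by linarith) (by linarith) w₁ hc₁ S₁ s₁ hS₁ hs₁
    have t₂ := hTWO G S C0 C1 b β (3 ^ j) C c0 v B Bp sg p w Q n hb hβ M H₂ y₂ y₂' hy₂ hi₂ hsup₂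
      (by linarith) (by linarith) w₂ hc₂ S₂ s₂ hS₂ hs₂
    have a₁ := approx hSGA hSSC _ s₁ b β e hb hβ he g₁ hs₁ j
    have a₂ := approx hSGA hSSC _ s₂ b β e hb hβ he g₂ hs₂ j
    obtain ⟨⟨T₁, hT₁, hTn₁⟩, -⟩ := hTTB C H₁ w₁
    obtain ⟨⟨T₂, hT₂, hTn₂⟩, -⟩ := hTTB C H₂ w₂
    have hwd : TT w₁ (it (((1 / β : ℝ) : ℂ) • mop (Lm (v 1) sg B y₁)) j) =
        TT w₂ (it (((1 / β : ℝ) : ℂ) • mop (Lm (v 1) sg B y₂)) j) :=
      hWDB G C S (3 ^ j) (v 1) sg B Q n M.nv M.nb M.nfree H₁ H₂ y₁ y₂ w₁ w₂ hsup₁ hsup₂ hw (1 / β) j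
        (by have : 0 < 3 ^ j := by positivity
            omega)
    have hd := (hdel j).1
    have hcR : (Fintype.card C : ℝ) ≤ (2 * 3 ^ j + 1) ^ a := by exact_mod_cast hcard
    have b₁ : ‖T₁ (it (((1 / β : ℝ) : ℂ) • mop (Lm (v 1) sg B y₁)) j) - T₁ s₁‖ ≤ (2 * 3 ^ j + 1) ^ a * ‖w₁‖ * del e j := by
      rw [← map_sub]
      refine (T₁.le_opNorm _).trans ?_
      refine mul_le_mul (hTn₁.trans (mul_le_mul_of_nonneg_right hcR (norm_nonneg _))) a₁ (norm_nonneg _) (by positivity)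
    have b₂ : ‖T₂ (it (((1 / β : ℝ) : ℂ) • mop (Lm (v 1) sg B y₂)) j) - T₂ s₂‖ ≤ (2 * 3 ^ j + 1) ^ a * ‖w₂‖ * del e j := by
      rw [← map_sub]
      refine (T₂.le_opNorm _).trans ?_
      refine mul_le_mul (hTn₂.trans (mul_le_mul_of_nonneg_right hcR (norm_nonneg _))) a₂ (norm_nonneg _) (by positivity)
    rw [hT₁, hT₁, t₁] at b₁
    rw [hT₂, hT₂, t₂, ← hwd] at b₂
    have h3 : w₁ S₁ - w₂ S₂ = -(TT w₁ (it (((1 / β : ℝ) : ℂ) • mop (Lm (v 1) sg B y₁)) j) - w₁ S₁) +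
        (TT w₁ (it (((1 / β : ℝ) : ℂ) • mop (Lm (v 1) sg B y₁)) j) - w₂ S₂) := by ring
    rw [h3]
    refine (norm_add_le _ _).trans ?_
    rw [norm_neg]
    calc _ ≤ (2 * 3 ^ j + 1) ^ a * ‖w₁‖ * del e j + (2 * 3 ^ j + 1) ^ a * ‖w₂‖ * del e j := add_le_add b₁ b₂
      _ = (‖w₁‖ + ‖w₂‖) * (2 * 3 ^ j + 1) ^ a * del e j := by ring
  have hlim := hPOL e a (‖w₁‖ + ‖w₂‖) he0 he1 (by positivity)
  have h0 := ge_of_tendsto' hlim key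
  exact sub_eq_zero.1 (norm_le_zero_iff.1 h0)

end Pool.Agent.Lib.MP8a3537.AM
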