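import Pool.Agent.Lib.MP_8a3537_gt.AM.SpecC
import Pool.Agent.Lib.MP_8a3537_gt.SG.SCA

/-!
# CST: near gapped elements have signs with the same trace
-/

set_option linter.unusedVariables false

namespace Pool.Agent.Lib.MP8a3537.AM

open Pool.Agent.Lib.MP8a3537.SG Pool.Agent.Lib.MP8a3537.TW
open Filter Topology

namespace CSTM

lemma del_tendsto (e : ℝ) (he : 0 < e) (he1 : e ≤ 1) : Tendsto (del e) atTop (𝓝 0) := by
  obtain ⟨-, h2, j0, h3⟩ := specSCA e he he1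
  have h4 : Tendsto (fun i => del e (i + j0)) atTop (𝓝 0) := by
    refine squeeze_zero (fun i => (h2 _).1) (fun i => ?_)
      (tendsto_pow_atTop_nhds_zero_of_lt_one (by norm_num : (0 : ℝ) ≤ 1 / 2) (by norm_num))
    have h5 := h3 i
    rw [add_comm]
    refine h5.trans ?_
    exact pow_le_pow_of_le_one (by norm_num) (by norm_num) Nat.lt_two_pow_self.le
  exact (tendsto_add_atTop_iff_nat j0).1 h4

lemma it_mem {A : Type} [Ring A] [Algebra ℂ A] (A0 : Subalgebra ℂ A) {x : A} (hx : x ∈ A0)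
    (j : ℕ) : it x j ∈ A0 := by
  induction j with
  | zero => exact hx
  | succ j ih =>
    show (3 / 2 : ℂ) • it x j - (1 / 2 : ℂ) • (it x j) ^ 3 ∈ A0
    exact A0.sub_mem (A0.smul_mem ih _) (A0.smul_mem (A0.pow_mem ih 3) _)

/-- the rescaled element -/
lemma scaled (hSGA : SpecSGA) (hSSC : SpecSSC) {A : Type} [CStarAlgebra A] {x s : A} {b β : ℝ}
    (hb : 0 < b) (hβ : 0 < β) (hx : Gpd x b β) (hs : Sg x s) :
    IsSelfAdjoint (((1 / β : ℝ) : ℂ) • x) ∧ ‖((1 / β : ℝ) : ℂ) • x‖ ≤ 1 ∧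
      ∀ j, ‖it (((1 / β : ℝ) : ℂ) • x) j - s‖ ≤ del (min (b / β) 1) j := by
  obtain ⟨h1, h2, x', h3, h4, h5⟩ := hx
  have he : 0 < min (b / β) 1 := lt_min (div_pos hb hβ) one_pos
  have ht : 0 < 1 / β := by positivity
  have hsa : IsSelfAdjoint (((1 / β : ℝ) : ℂ) • x) := by
    rw [IsSelfAdjoint, star_smul, h1.star_eq]
    congr 1
    exact Complex.conj_ofReal _
  have hn : ‖((1 / β : ℝ) : ℂ) • x‖ ≤ 1 := by
    rw [norm_smul, Complex.norm_real, Real.norm_of_nonneg ht.le]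
    calc 1 / β * ‖x‖ ≤ 1 / β * β := mul_le_mul_of_nonneg_left h2 ht.le
      _ = 1 := by field_simp
  refine ⟨hsa, hn, fun j => ?_⟩
  have hββ : ((1 / β : ℝ) : ℂ) * ((β : ℝ) : ℂ) = 1 := by
    rw [← Complex.ofReal_mul, one_div_mul_cancel hβ.ne', Complex.ofReal_one]
  refine hSGA A (((1 / β : ℝ) : ℂ) • x) (((β : ℝ) : ℂ) • x') s (min (b / β) 1) he (min_le_right _ _) hsa hn
    ?_ ?_ ?_ (hSSC A x s (1 / β) ht hs) j
  · rw [smul_mul_smul_comm, h3, hββ, one_smul]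
  · rw [smul_mul_smul_comm, h4, mul_comm, hββ, one_smul]
  · rw [norm_smul, Complex.norm_real, Real.norm_of_nonneg hβ.le]
    rw [le_div_iff₀ he]
    calc β * ‖x'‖ * min (b / β) 1 ≤ β * (1 / b) * (b / β) := by
          refine mul_le_mul (mul_le_mul_of_nonneg_left h5 hβ.le) (min_le_left _ _) he.le ?_
          positivity
      _ = 1 := by field_simp

end CSTM

open CSTM

theorem specCST (hSGA : SpecSGA) (hSSC : SpecSSC) (hSYM : SpecSYM) (hLPI : SpecLPI) : SpecCST := by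
  intro b β hb hβ
  set e : ℝ := min (b / β) 1 with he'
  have he : 0 < e := lt_min (div_pos hb hβ) one_pos
  have he1 : e ≤ 1 := min_le_right _ _
  obtain ⟨j0, hj0⟩ := ((del_tendsto e he he1).eventually (gt_mem_nhds (by norm_num : (0 : ℝ) < 1 / 4))).exists
  refine ⟨β / (4 * 3 ^ j0), by positivity, ?_⟩
  intro A _ A0 T hT x x' s s' hx hx' gx gx' hxx hs hs'
  obtain ⟨a1, a2, a3⟩ := scaled hSGA hSSC hb hβ gx hs
  obtain ⟨b1, b2, b3⟩ := scaled hSGA hSSC hb hβ gx' hs'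
  have ht : 0 < 1 / β := by positivity
  have hcl : ∀ y σ : A, y ∈ A0 → (∀ j, ‖it (((1 / β : ℝ) : ℂ) • y) j - σ‖ ≤ del e j) →
      σ ∈ closure (A0 : Set A) := by
    intro y σ hy h
    refine mem_closure_of_tendsto (f := fun j => it (((1 / β : ℝ) : ℂ) • y) j) (b := atTop) ?_
      (Eventually.of_forall fun j => it_mem A0 (A0.smul_mem hy _) j)
    rw [tendsto_iff_norm_sub_tendsto_zero]
    exact squeeze_zero (fun _ => norm_nonneg _) h (del_tendsto e he he1)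
  refine hSYM A A0 T hT s s' (hcl x s hx a3) (hcl x' s' hx' b3) hs.2.1 hs'.2.1 ?_
  have e1 := a3 j0
  have e2 := b3 j0
  have e3 := hLPI A _ _ a1 b1 a2 b2 j0
  have e4 : ‖((1 / β : ℝ) : ℂ) • x - ((1 / β : ℝ) : ℂ) • x'‖ ≤ 1 / (4 * 3 ^ j0) := by
    rw [← smul_sub, norm_smul, Complex.norm_real, Real.norm_of_nonneg ht.le]
    calc 1 / β * ‖x - x'‖ ≤ 1 / β * (β / (4 * 3 ^ j0)) := mul_le_mul_of_nonneg_left hxx ht.le
      _ = 1 / (4 * 3 ^ j0) := by field_simp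
  have e5 : ‖it (((1 / β : ℝ) : ℂ) • x) j0 - it (((1 / β : ℝ) : ℂ) • x') j0‖ ≤ 1 / 4 := by
    refine e3.trans ?_
    calc 3 ^ j0 * ‖((1 / β : ℝ) : ℂ) • x - ((1 / β : ℝ) : ℂ) • x'‖ ≤
        3 ^ j0 * (1 / (4 * 3 ^ j0)) := mul_le_mul_of_nonneg_left e4 (by positivity)
      _ = 1 / 4 := by field_simp
  have e6 : s - s' = (it (((1 / β : ℝ) : ℂ) • x) j0 - it (((1 / β : ℝ) : ℂ) • x') j0) -
      (it (((1 / β : ℝ) : ℂ) • x) j0 - s) + (it (((1 / β : ℝ) : ℂ) • x') j0 - s') := by abel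
  rw [e6]
  refine lt_of_le_of_lt (norm_add_le _ _) ?_
  have e7 := norm_sub_le (it (((1 / β : ℝ) : ℂ) • x) j0 - it (((1 / β : ℝ) : ℂ) • x') j0)
    (it (((1 / β : ℝ) : ℂ) • x) j0 - s)
  have e8 : del e j0 < 1 / 4 := hj0
  linarith

end Pool.Agent.Lib.MP8a3537.AM
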