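import Pool.Agent.Lib.MP_8a3537_gt.AM.Spec2

/-!
# EFR: the commutator of `B` and `V_g` (MP_8a3537_gt, folder AM)
-/

set_option linter.unusedVariables false
set_option linter.unusedSectionVars false

namespace Pool.Agent.Lib.MP8a3537.AM

open scoped BigOperators
open Pool.Agent.Lib.MP8a3537.SG
open Filter Topology

namespace EFRM

theorem sqrt_est {Λ ε a b : ℝ} (hΛ : 0 ≤ Λ) (hε : 0 < ε) (ha : 0 ≤ a) (hb : 0 ≤ b) (h1 : b ≤ (1 + ε) * a) (h2 : a ≤ (1 + ε) * b) :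
    (Real.sqrt (Λ * b) - Real.sqrt (Λ * a)) ^ 2 ≤ ε ^ 2 * Real.sqrt (Λ * a) ^ 2 := by
  set x := Real.sqrt (Λ * b) with hx
  set y := Real.sqrt (Λ * a) with hy
  have hx0 : 0 ≤ x := Real.sqrt_nonneg _
  have hy0 : 0 ≤ y := Real.sqrt_nonneg _
  have hx2 : x ^ 2 = Λ * b := Real.sq_sqrt (mul_nonneg hΛ hb)
  have hy2 : y ^ 2 = Λ * a := Real.sq_sqrt (mul_nonneg hΛ ha)
  have h3 : x ≤ (1 + ε) * y := by
    refine le_of_sq_le_sq ?_ (by positivity)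
    rw [mul_pow, hx2, hy2]
    have h4 : Λ * b ≤ Λ * ((1 + ε) * a) := mul_le_mul_of_nonneg_left h1 hΛ
    have h5 : (1 + ε) * (Λ * a) ≤ (1 + ε) ^ 2 * (Λ * a) := by
      have h6 : 0 ≤ Λ * a := mul_nonneg hΛ ha
      nlinarith
    nlinarith
  have h4 : y ≤ (1 + ε) * x := by
    refine le_of_sq_le_sq ?_ (by positivity)
    rw [mul_pow, hx2, hy2]
    have h4 : Λ * a ≤ Λ * ((1 + ε) * b) := mul_le_mul_of_nonneg_left h2 hΛ
    have h5 : (1 + ε) * (Λ * b) ≤ (1 + ε) ^ 2 * (Λ * b) := by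
      have h6 : 0 ≤ Λ * b := mul_nonneg hΛ hb
      nlinarith
    nlinarith
  rw [← mul_pow]
  refine sq_le_sq' ?_ ?_
  · by_cases h5 : x ≤ y
    · nlinarith
    · push Not at h5
      nlinarith [mul_nonneg hε.le hy0]
  · linarith

theorem norm_le_of_sq {a b : ℝ} (hb : 0 ≤ b) (h : a ^ 2 ≤ b ^ 2) : a ≤ b := le_of_sq_le_sq h hb

end EFRM

open EFRM in
theorem specEFR (hVGP : SpecVGP) (hNRM : SpecNRM) (hOPS : SpecOPS) (hVCO : SpecVCO) (hVEX : SpecVEX) : SpecEFR := by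
  classical
  intro G X V _ _ _ _ _ m D S ε Λ hε hΛ hgood hS g hg ψ
  obtain ⟨hg1, hg2⟩ := hgood
  set w : X → ℝ := fun x => Real.sqrt (Λ * D.ω x) with hw
  set Δ := (D.com g).toFinset with hΔ
  have hmΔ : ∀ x, x ∈ Δ ↔ ¬(x ∈ D.M ↔ g • x ∈ D.M) := fun x => by rw [hΔ, Set.Finite.mem_toFinset]; rfl
  set A : Finset X := (ψ.support.biUnion fun c => c.support) ∪ Δ with hA
  have hAψ : ∀ c ∈ ψ.support, c.support ⊆ A := fun c hc =>
    (Finset.subset_biUnion_of_mem (fun c : Conf m X => c.support) hc).trans Finset.subset_union_left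
  have hinj : Function.Injective fun x : X => g • x := MulAction.injective g
  have hwp : ∀ x, w x ^ 2 = Λ * D.ω x := fun x => Real.sq_sqrt (mul_nonneg hΛ (D.pos x).le)
  -- the first factor
  have hVs : ∀ ζ : ℂ, ∀ c' ∈ (opV m V D ζ g ψ).support, c'.support ⊆ A.image fun x => g • x := by
    intro ζ c' hc' y hy
    rw [Finsupp.mem_support_iff, (hVEX G X V m D ζ g 0 c' 0).2.2 ψ] at hc'
    obtain ⟨c, hc, hne⟩ := Finset.exists_ne_zero_of_sum_ne_zero hc'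
    have hv : vco m D ζ g c' c ≠ 0 := fun h => hne (by rw [h, zero_smul])
    have h8 := (hVCO G X m D ζ g w c c').2.2.2.2.2.2.2 hv (g⁻¹ • y) (by
      rw [smul_inv_smul]; exact Finsupp.mem_support_iff.mp hy)
    refine Finset.mem_image.mpr ⟨g⁻¹ • y, ?_, smul_inv_smul g y⟩
    rcases h8 with h8 | h8
    · exact hAψ c hc (Finsupp.mem_support_iff.mpr h8)
    · exact Finset.mem_union_right _ ((hmΔ _).mpr h8)
  have hnrm := fun φ : HS m X V => hNRM X V m w φ φ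
  have hB1 : ∀ ζ : ℂ, opB m V w (opV m V D ζ g ψ) = ∑ x ∈ A, (w (g • x) : ℂ) • opb m V (g • x) (opV m V D ζ g ψ) := by
    intro ζ
    rw [(hnrm (opV m V D ζ g ψ)).1 _ (hVs ζ), Finset.sum_image fun x _ y _ h => hinj h]
  have hB2 : ∀ ζ : ℂ, opV m V D ζ g (opB m V w ψ) = ∑ x ∈ A, (w x : ℂ) • opV m V D ζ g (opb m V x ψ) := by
    intro ζ
    rw [(hnrm ψ).1 A hAψ, map_sum]
    exact Finset.sum_congr rfl fun x _ => by rw [map_smul]
  have hBn : ∑ x ∈ A, w x ^ 2 * ‖opb m V x ψ‖ ^ 2 = ‖opB m V w ψ‖ ^ 2 := by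
    rw [(hnrm ψ).1 A hAψ, (hnrm ψ).2.1]
  have hgi : ∀ x, D.ω x ≤ (1 + ε) * D.ω (g • x) := by
    intro x
    have h1 := hg1 g⁻¹ (hS g hg) (g • x)
    rwa [inv_smul_smul] at h1
  -- the main estimate, over a subset
  have hmain : ∀ A' : Finset X, A' ⊆ A → ‖∑ x ∈ A', (((w (g • x) - w x : ℝ)) : ℂ) • opb m V x ψ‖ ≤ ε * ‖opB m V w ψ‖ := by
    intro A' hA'
    refine norm_le_of_sq (by positivity) ?_
    rw [(hnrm ψ).2.1, mul_pow, ← hBn, Finset.mul_sum]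
    refine (Finset.sum_le_sum fun x _ => ?_).trans (Finset.sum_le_sum_of_subset_of_nonneg hA' fun x _ _ => by positivity)
    rw [← mul_assoc]
    refine mul_le_mul_of_nonneg_right ?_ (by positivity)
    exact sqrt_est hΛ hε (D.pos x).le (D.pos _).le (hg1 g hg x) (hgi x)
  have hbn : ∀ (x : X) (φ : HS m X V), ‖opb m V x φ‖ ≤ ‖φ‖ := fun x φ => (hOPS G X V m φ φ).2.2.2.2.2.2.2.2.2.1 x
  have hw0 : ∀ (B : Finset X) (φ : HS m X V), ∑ x ∈ B, D.ω x ≤ ε → ‖∑ x ∈ B, (w x : ℂ) • opb m V x φ‖ ≤ Real.sqrt (Λ * ε) * ‖φ‖ := by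
    intro B φ hB
    refine norm_le_of_sq (by positivity) ?_
    rw [(hnrm φ).2.1, mul_pow, Real.sq_sqrt (mul_nonneg hΛ hε.le)]
    calc ∑ x ∈ B, w x ^ 2 * ‖opb m V x φ‖ ^ 2 ≤ ∑ x ∈ B, Λ * D.ω x * ‖φ‖ ^ 2 := by
          refine Finset.sum_le_sum fun x _ => ?_
          rw [hwp]
          refine mul_le_mul_of_nonneg_left ?_ (mul_nonneg hΛ (D.pos x).le)
          exact pow_le_pow_left₀ (norm_nonneg _) (hbn x φ) 2
      _ = Λ * (∑ x ∈ B, D.ω x) * ‖φ‖ ^ 2 := by rw [← Finset.sum_mul, ← Finset.mul_sum]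
      _ ≤ Λ * ε * ‖φ‖ ^ 2 := by
          refine mul_le_mul_of_nonneg_right ?_ (by positivity)
          exact mul_le_mul_of_nonneg_left hB hΛ
  constructor
  · intro ζ hζ
    have hvgp := fun φ : HS m X V => hVGP G X V m D ζ hζ φ φ
    have hsplit : opB m V w (opV m V D ζ g ψ) - opV m V D ζ g (opB m V w ψ) =
        opV m V D ζ g (∑ x ∈ A \ Δ, (((w (g • x) - w x : ℝ)) : ℂ) • opb m V x ψ) +
          ∑ x ∈ Δ.image fun x => g • x, (w x : ℂ) • opb m V x (opV m V D ζ g ψ) -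
          opV m V D ζ g (∑ x ∈ Δ, (w x : ℂ) • opb m V x ψ) := by
      rw [hB1, hB2, ← Finset.sum_sdiff (Finset.subset_union_right : Δ ⊆ A),
        ← Finset.sum_sdiff (Finset.subset_union_right : Δ ⊆ A), Finset.sum_image fun x _ y _ h => hinj h, map_sum, map_sum]
      have h1 : ∑ x ∈ A \ Δ, opV m V D ζ g ((((w (g • x) - w x : ℝ)) : ℂ) • opb m V x ψ) =
          ∑ x ∈ A \ Δ, (w (g • x) : ℂ) • opb m V (g • x) (opV m V D ζ g ψ) - ∑ x ∈ A \ Δ, (w x : ℂ) • opV m V D ζ g (opb m V x ψ) := by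
        rw [← Finset.sum_sub_distrib]
        refine Finset.sum_congr rfl fun x hx => ?_
        have hxΔ : x ∈ D.M ↔ g • x ∈ D.M := by
          by_contra h
          exact (Finset.mem_sdiff.mp hx).2 ((hmΔ x).mpr h)
        rw [map_smul, ← (hvgp ψ).2.2.2.1 g x hxΔ, Complex.ofReal_sub, sub_smul]
      rw [h1]
      have h2 : ∑ x ∈ Δ, opV m V D ζ g ((w x : ℂ) • opb m V x ψ) = ∑ x ∈ Δ, (w x : ℂ) • opV m V D ζ g (opb m V x ψ) :=
        Finset.sum_congr rfl fun x _ => map_smul _ _ _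
      rw [h2]
      abel
    rw [hsplit]
    have hn : ∀ φ, ‖opV m V D ζ g φ‖ = ‖φ‖ := fun φ => (hvgp φ).2.2.1 g
    have e1 : ‖opV m V D ζ g (∑ x ∈ A \ Δ, (((w (g • x) - w x : ℝ)) : ℂ) • opb m V x ψ)‖ ≤ ε * ‖opB m V w ψ‖ := by
      rw [hn]; exact hmain _ Finset.sdiff_subset
    have e3 : ‖opV m V D ζ g (∑ x ∈ Δ, (w x : ℂ) • opb m V x ψ)‖ ≤ Real.sqrt (Λ * ε) * ‖ψ‖ := by
      rw [hn]; exact hw0 _ _ (hg2 g hg)
    have e2 : ‖∑ x ∈ Δ.image fun x => g • x, (w x : ℂ) • opb m V x (opV m V D ζ g ψ)‖ ≤ Real.sqrt (Λ * ε) * ‖ψ‖ := by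
      have h1 : Δ.image (fun x => g • x) = (D.com g⁻¹).toFinset := by
        ext y
        rw [Finset.mem_image, Set.Finite.mem_toFinset]
        constructor
        · rintro ⟨x, hx, rfl⟩
          have := (hmΔ x).mp hx
          show ¬(g • x ∈ D.M ↔ g⁻¹ • g • x ∈ D.M)
          rw [inv_smul_smul]
          exact fun h => this h.symm
        · intro hy
          refine ⟨g⁻¹ • y, (hmΔ _).mpr ?_, smul_inv_smul g y⟩
          rw [smul_inv_smul]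
          exact fun h => hy h.symm
      rw [h1, ← hn ψ]
      exact hw0 _ _ (hg2 g⁻¹ (hS g hg))
    calc ‖_ + _ - _‖ ≤ ‖_ + _‖ + ‖_‖ := norm_sub_le _ _
      _ ≤ (‖_‖ + ‖_‖) + ‖_‖ := by gcongr; exact norm_add_le _ _
      _ ≤ (ε * ‖opB m V w ψ‖ + Real.sqrt (Λ * ε) * ‖ψ‖) + Real.sqrt (Λ * ε) * ‖ψ‖ := by gcongr
      _ = ε * ‖opB m V w ψ‖ + 2 * Real.sqrt (Λ * ε) * ‖ψ‖ := by ring
  · have hvgp := fun φ : HS m X V => hVGP G X V m D 1 (by simp) φ φ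
    have hU : ∀ φ, opV m V D 1 g φ = opU m V g φ := fun φ => (hVEX G X V m D 1 g 0 0 0).2.1 φ
    have hcomm : ∀ x, opV m V D 1 g (opb m V x ψ) = opb m V (g • x) (opV m V D 1 g ψ) := by
      intro x
      rw [hU, hU]
      exact (hOPS G X V m ψ ψ).2.2.2.2.2.2.2.2.2.2.2.1 g x
    have hsplit : opB m V w (opV m V D 1 g ψ) - opV m V D 1 g (opB m V w ψ) =
        opV m V D 1 g (∑ x ∈ A, (((w (g • x) - w x : ℝ)) : ℂ) • opb m V x ψ) := by
      rw [hB1, hB2, map_sum, ← Finset.sum_sub_distrib]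
      refine Finset.sum_congr rfl fun x _ => ?_
      rw [map_smul, hcomm, Complex.ofReal_sub, sub_smul]
    rw [hsplit, (hvgp _).2.2.1 g]
    exact hmain _ (Finset.Subset.refl _)

end Pool.Agent.Lib.MP8a3537.AM
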