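import Pool.Agent.Lib.MP_8a3537_gt.AM.Spec

/-!
# GAB: the abstract gap lemma
-/

set_option linter.unusedVariables false

namespace Pool.Agent.Lib.MP8a3537.AM

namespace GABM

variable {V : Type} [NormedAddCommGroup V] [InnerProductSpace ℂ V] {Y B P Γ : V →ₗ[ℂ] V}

/-- the square of the norm -/
theorem key (sY : ∀ ψ φ, inner ℂ (Y ψ) φ = inner ℂ ψ (Y φ))
    (sB : ∀ ψ φ, inner ℂ (B ψ) φ = inner ℂ ψ (B φ))
    (sP : ∀ ψ φ, inner ℂ (P ψ) φ = inner ℂ ψ (P φ)) (nΓ : ∀ ψ, ‖Γ ψ‖ = ‖ψ‖)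
    (sΓ : ∀ ψ φ, inner ℂ (Γ ψ) φ = inner ℂ ψ (Γ φ)) (YΓ : ∀ ψ, Y (Γ ψ) = Γ (Y ψ))
    (BΓ : ∀ ψ, B (Γ ψ) = -Γ (B ψ)) (PΓ : ∀ ψ, P (Γ ψ) = Γ (P ψ)) (PB : ∀ ψ, P (B ψ) = B (P ψ))
    (ψ : V) (hψ : P ψ = ψ) (u : ℝ) (hu : 0 ≤ u) :
    u ^ 2 * ‖P (Y ψ)‖ ^ 2 + ‖B ψ‖ ^ 2 - u * (‖ψ‖ * ‖B (Y (Γ ψ)) - Y (B (Γ ψ))‖) ≤
      ‖(u : ℂ) • P (Y (Γ ψ)) + B ψ‖ ^ 2 := by
  have h1 : ‖(u : ℂ) • P (Y (Γ ψ))‖ = u * ‖P (Y ψ)‖ := by
    rw [norm_smul, Complex.norm_real, Real.norm_of_nonneg hu, YΓ, PΓ, nΓ]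
  have h2 : inner ℂ (P (Y (Γ ψ))) (B ψ) = inner ℂ (Y (Γ ψ)) (B ψ) := by
    rw [sP, PB, hψ]
  have h3 : inner ℂ (Y (Γ ψ)) (B ψ) = -inner ℂ ψ (Y (B (Γ ψ))) := by
    rw [YΓ, sΓ, sY, BΓ, map_neg, inner_neg_right, neg_neg]
  have h4 : (inner ℂ (Y (Γ ψ)) (B ψ) : ℂ).re = (inner ℂ ψ (B (Y (Γ ψ))) : ℂ).re := by
    rw [← sB]
    exact inner_re_symm (𝕜 := ℂ) _ _
  have h5 : 2 * (inner ℂ (Y (Γ ψ)) (B ψ) : ℂ).re =
      (inner ℂ ψ (B (Y (Γ ψ)) - Y (B (Γ ψ))) : ℂ).re := by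
    rw [inner_sub_right, Complex.sub_re, ← h4]
    have h6 := congrArg Complex.re h3
    rw [Complex.neg_re] at h6
    linarith
  have h6 : |(inner ℂ ψ (B (Y (Γ ψ)) - Y (B (Γ ψ))) : ℂ).re| ≤
      ‖ψ‖ * ‖B (Y (Γ ψ)) - Y (B (Γ ψ))‖ :=
    (Complex.abs_re_le_norm _).trans (norm_inner_le_norm _ _)
  have h7 := norm_add_sq (𝕜 := ℂ) ((u : ℂ) • P (Y (Γ ψ))) (B ψ)
  rw [h1, inner_smul_left, Complex.conj_ofReal, h2, RCLike.re_to_complex, Complex.re_ofReal_mul]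
    at h7
  rw [h7]
  have h8 := (abs_le.1 h6).1
  have h9 : u * (-(‖ψ‖ * ‖B (Y (Γ ψ)) - Y (B (Γ ψ))‖)) ≤
      u * (2 * (inner ℂ (Y (Γ ψ)) (B ψ) : ℂ).re) := by
    rw [h5]
    exact mul_le_mul_of_nonneg_left h8 hu
  nlinarith [h9]

end GABM

open GABM in
/-- GAB -/
theorem specGAB : SpecGAB := by
  intro V _ _ Y B P Γ C C' ε hC hC' hε hεle hY hY' sY sB sP PP nP nΓ sΓ YΓ BΓ PΓ PB gap bdd
  have hC0 : 0 < C := by linarith
  have hC'0 : 0 < C' := by linarith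
  set r : ℝ := Real.sqrt ε with hr
  have hr0 : 0 < r := Real.sqrt_pos.2 hε
  have hr2 : r ^ 2 = ε := Real.sq_sqrt hε.le
  have hrle : r ≤ 1 / (128 * C ^ 2 * C' ^ 2) := by
    rw [← hr2] at hεle
    exact (pow_le_pow_iff_left₀ hr0.le (by positivity) two_ne_zero).1 hεle
  -- consequences
  have hrC : C ^ 2 * r ≤ 1 / (128 * C' ^ 2) := by
    calc C ^ 2 * r ≤ C ^ 2 * (1 / (128 * C ^ 2 * C' ^ 2)) :=
          mul_le_mul_of_nonneg_left hrle (by positivity)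
      _ = 1 / (128 * C' ^ 2) := by field_simp
  have hk1 : 1 / C' ≤ 1 := by rw [div_le_one hC'0]; exact hC'
  have hk0 : 0 < 1 / C' := by positivity
  set k : ℝ := 1 / C' with hk
  have hrC2 : C ^ 2 * r ≤ k ^ 2 / 128 := by
    refine hrC.trans (le_of_eq ?_)
    rw [hk]
    field_simp
  have hCr : C * r ≤ k ^ 2 / 128 := by
    refine le_trans ?_ hrC2
    have : C * r ≤ C * (C * r) := le_mul_of_one_le_left (by positivity) hC
    calc C * r ≤ C * (C * r) := this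
      _ = C ^ 2 * r := by ring
  have hk2 : k ^ 2 ≤ k := by nlinarith
  have hr1 : r ≤ 1 / 128 := by
    have h1 : r ≤ C * r := le_mul_of_one_le_left hr0.le hC
    have h2 : k ^ 2 ≤ 1 := by nlinarith
    linarith
  have hεr : ε ≤ r / 128 := by
    rw [← hr2]
    nlinarith
  have hNk : ∀ ψ : V, k * ‖ψ‖ ≤ ‖Y ψ‖ := by
    intro ψ
    have := hY' ψ
    calc k * ‖ψ‖ ≤ k * (C' * ‖Y ψ‖) := mul_le_mul_of_nonneg_left this hk0.le
      _ = ‖Y ψ‖ := by rw [hk]; field_simp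
  -- the lower bound for a + β
  have hlow : ∀ (ψ : V) (E : ℝ), ‖B (Y ψ) - Y (B ψ)‖ ≤ C * E →
      k * ‖ψ‖ ≤ ‖P (Y ψ)‖ + ‖B ψ‖ / 2 + E / 2 := by
    intro ψ E hE
    have h1 := hNk ψ
    have h2 : ‖Y ψ‖ ≤ ‖P (Y ψ)‖ + ‖Y ψ - P (Y ψ)‖ := by
      have := norm_add_le (P (Y ψ)) (Y ψ - P (Y ψ))
      rwa [add_sub_cancel] at this
    have h3 := gap (Y ψ)
    have h4 : ‖B (Y ψ)‖ ≤ ‖Y (B ψ)‖ + ‖B (Y ψ) - Y (B ψ)‖ := by
      have := norm_add_le (Y (B ψ)) (B (Y ψ) - Y (B ψ))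
      rwa [add_sub_cancel] at this
    have h5 := hY (B ψ)
    have h6 : C * (2 * ‖Y ψ - P (Y ψ)‖) ≤ C * (‖B ψ‖ + E) := by nlinarith
    have h7 := le_of_mul_le_mul_left h6 hC0
    linarith
  have hup : ∀ (ψ : V) (u : ℝ), 0 ≤ u → u ≤ 1 → P ψ = ψ →
      ‖(u : ℂ) • P (Y (Γ ψ)) + B ψ‖ ≤ 3 * C * ‖ψ‖ := by
    intro ψ u hu hu1 hψ
    have h1 : ‖(u : ℂ) • P (Y (Γ ψ))‖ ≤ C * ‖ψ‖ := by
      rw [norm_smul, Complex.norm_real, Real.norm_of_nonneg hu]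
      have h2 : ‖P (Y (Γ ψ))‖ ≤ C * ‖ψ‖ := by
        refine (nP _).trans ((hY _).trans ?_)
        rw [nΓ]
      calc u * ‖P (Y (Γ ψ))‖ ≤ 1 * ‖P (Y (Γ ψ))‖ :=
            mul_le_mul_of_nonneg_right hu1 (norm_nonneg _)
        _ ≤ C * ‖ψ‖ := by rw [one_mul]; exact h2
    have h3 := bdd ψ hψ
    have h4 := norm_add_le ((u : ℂ) • P (Y (Γ ψ))) (B ψ)
    linarith
  have hBΓ : ∀ ψ, ‖B (Γ ψ)‖ = ‖B ψ‖ := fun ψ => by rw [BΓ, norm_neg, nΓ]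
  refine ⟨fun hcom ψ hψ => ?_, fun hcom ψ hψ u hu hu1 => ?_⟩
  · have hone : P (Y (Γ ψ)) + B ψ = ((1 : ℝ) : ℂ) • P (Y (Γ ψ)) + B ψ := by
      rw [Complex.ofReal_one, one_smul]
    refine ⟨?_, by rw [hone]; exact hup ψ 1 zero_le_one le_rfl hψ⟩
    have h1 := hlow ψ _ (hcom ψ)
    have h2 := key sY sB sP nΓ sΓ YΓ BΓ PΓ PB ψ hψ 1 zero_le_one
    rw [← hone] at h2
    have h3 := hcom (Γ ψ)
    rw [hBΓ, nΓ] at h3
    have h4 := bdd ψ hψ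
    set a := ‖P (Y ψ)‖ with ha
    set β := ‖B ψ‖ with hβ
    set N := ‖ψ‖ with hN
    set t := ‖P (Y (Γ ψ)) + B ψ‖ with ht
    have hN0 : 0 ≤ N := norm_nonneg _
    have ha0 : 0 ≤ a := norm_nonneg _
    have hβ0 : 0 ≤ β := norm_nonneg _
    have ht0 : 0 ≤ t := norm_nonneg _
    -- the error term
    have e1 : ε * β + 4 * C * r * N ≤ 6 * (C * r) * N := by
      have h5 : ε * β ≤ (r / 128) * (2 * C * N) := mul_le_mul hεr h4 hβ0 (by positivity)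
      have h6 : 0 ≤ C * r * N := by positivity
      nlinarith
    have e2 : k * N * (7 / 8) ≤ a + β := by
      have h7 : 6 * (C * r) * N ≤ 6 * (k / 128) * N := by
        refine mul_le_mul_of_nonneg_right ?_ hN0
        linarith
      have h8 : 0 ≤ k * N := by positivity
      nlinarith
    have e3 : N * ‖B (Y (Γ ψ)) - Y (B (Γ ψ))‖ ≤ 6 * (k ^ 2 / 128) * N ^ 2 := by
      calc N * ‖B (Y (Γ ψ)) - Y (B (Γ ψ))‖ ≤ N * (C * (6 * (C * r) * N)) :=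
            mul_le_mul_of_nonneg_left (h3.trans (mul_le_mul_of_nonneg_left e1 hC0.le)) hN0
        _ = 6 * (C ^ 2 * r) * N ^ 2 := by ring
        _ ≤ 6 * (k ^ 2 / 128) * N ^ 2 := by
          refine mul_le_mul_of_nonneg_right ?_ (by positivity)
          linarith
    have e4 : (k * N * (7 / 8)) ^ 2 ≤ (a + β) ^ 2 := pow_le_pow_left₀ (by positivity) e2 2
    have e5 : (1 / (4 * C') * N) ^ 2 ≤ t ^ 2 := by
      have e6 : 1 / (4 * C') * N = k * N / 4 := by rw [hk]; field_simp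
      rw [e6]
      have e7 : 0 ≤ (k * N) ^ 2 := by positivity
      nlinarith [sq_nonneg (a - β)]
    exact (pow_le_pow_iff_left₀ (by positivity) ht0 two_ne_zero).1 e5
  · refine ⟨?_, hup ψ u hu hu1 hψ⟩
    have h1 := hlow ψ _ (hcom ψ)
    have h2 := key sY sB sP nΓ sΓ YΓ BΓ PΓ PB ψ hψ u hu
    have h3 := hcom (Γ ψ)
    rw [hBΓ] at h3
    set a := ‖P (Y ψ)‖ with ha
    set β := ‖B ψ‖ with hβ
    set N := ‖ψ‖ with hN
    set t := ‖(u : ℂ) • P (Y (Γ ψ)) + B ψ‖ with ht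
    have hN0 : 0 ≤ N := norm_nonneg _
    have ha0 : 0 ≤ a := norm_nonneg _
    have hβ0 : 0 ≤ β := norm_nonneg _
    have ht0 : 0 ≤ t := norm_nonneg _
    have hε1 : ε ≤ 1 := by linarith
    have e2 : k * N ≤ a + β := by
      have : ε * β ≤ β := mul_le_of_le_one_left hβ0 hε1
      linarith
    have hCε : C * ε ≤ k / 8 := by
      have h5 : C * ε ≤ C * r := mul_le_mul_of_nonneg_left (by linarith) hC0.le
      linarith
    have e3 : N * ‖B (Y (Γ ψ)) - Y (B (Γ ψ))‖ ≤ (a + β) * β / 8 := by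
      calc N * ‖B (Y (Γ ψ)) - Y (B (Γ ψ))‖ ≤ N * (C * (ε * β)) :=
            mul_le_mul_of_nonneg_left h3 hN0
        _ = (C * ε) * (N * β) := by ring
        _ ≤ (k / 8) * (N * β) := mul_le_mul_of_nonneg_right hCε (by positivity)
        _ = (k * N) * β / 8 := by ring
        _ ≤ (a + β) * β / 8 := by
          have := mul_le_mul_of_nonneg_right e2 hβ0
          linarith
    have e4 : u * (N * ‖B (Y (Γ ψ)) - Y (B (Γ ψ))‖) ≤ (u * a + β) * β / 8 := by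
      have h6 := mul_le_mul_of_nonneg_left e3 hu
      have h7 : u * (β * β) ≤ β * β := mul_le_of_le_one_left (by positivity) hu1
      nlinarith
    have e5 : u * (k * N) ≤ u * a + β := by
      have h6 := mul_le_mul_of_nonneg_left e2 hu
      have h7 : u * β ≤ β := mul_le_of_le_one_left hβ0 hu1
      linarith
    have e6 : (u * (k * N)) ^ 2 ≤ (u * a + β) ^ 2 := pow_le_pow_left₀ (by positivity) e5 2
    have e7 : (u / (8 * C') * N) ^ 2 ≤ t ^ 2 := by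
      have e8 : u / (8 * C') * N = u * (k * N) / 8 := by rw [hk]; field_simp
      rw [e8]
      have e9 : 0 ≤ (u * (k * N)) ^ 2 := by positivity
      nlinarith [sq_nonneg (u * a - β), sq_nonneg (u * a + β)]
    exact (pow_le_pow_iff_left₀ (by positivity) ht0 two_ne_zero).1 e7

end Pool.Agent.Lib.MP8a3537.AM
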