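import Pool.Agent.Lib.MP_8a3537_gt.AM.Defs2

/-!
# Specs: signatures for torsion-free amenable groups (MP_8a3537_gt, folder AM), part 2: the model over a Hilbert space

Paper: /team-store/MP_8a3537_gt_AMENABLE.md.  Every proof is in the docstring.  One module = one file
Pool/Agent/Lib/MP_8a3537_gt/AM/XXX.lean, import Pool.Agent.Lib.MP_8a3537_gt.AM.Spec2, theorem specXXX (hYYY : SpecYYY) ... : SpecXXX.
The norm and the inner product of `T →₀ V` are scoped instances (`open` this namespace).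
-/

set_option linter.unusedVariables false

namespace Pool.Agent.Lib.MP8a3537.AM

open scoped BigOperators
open Pool.Agent.Lib.MP8a3537.SG
open Filter Topology

/-- **MON** [120 lines].  (1) `Finsupp.lsum_single`.  (2), (3) `‖Mon f a φ‖² = sum_t |a t|² ‖φ t‖²` if `f` is injective on `{a ≠ 0}`: write `φ` as a sum over its support; the vectors `δ_(f t) (a t φ t)` are orthogonal (inner_single; `Finset.sum_subset`, or expand `inner` of the sum with itself).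
(4) both sides are sesquilinear: `Finsupp.induction_linear` in `φ` and `ψ`.  (5) from `norm_sq`: `(Mon id a φ) t = a t • φ t`. -/
def SpecMON : Prop := ∀ (V : Type) [NormedAddCommGroup V] [InnerProductSpace ℂ V],
  (∀ (T T' : Type) (f : T → T') (a : T → ℂ) (t : T) (v : V), Mon V f a (Finsupp.single t v) = Finsupp.single (f t) (a t • v)) ∧
  (∀ (T T' : Type) (f : T → T') (a : T → ℂ), (∀ t, ‖a t‖ ≤ 1) → (∀ t u, a t ≠ 0 → a u ≠ 0 → f t = f u → t = u) → ∀ φ : T →₀ V, ‖Mon V f a φ‖ ≤ ‖φ‖) ∧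
  (∀ (T T' : Type) (f : T → T') (a : T → ℂ), (∀ t, ‖a t‖ = 1) → Function.Injective f → ∀ φ : T →₀ V, ‖Mon V f a φ‖ = ‖φ‖) ∧
  (∀ (T T' : Type) (A : (T →₀ V) →ₗ[ℂ] (T' →₀ V)) (B : (T' →₀ V) →ₗ[ℂ] (T →₀ V)),
    (∀ t t' (v w : V), inner ℂ (A (Finsupp.single t v)) (Finsupp.single t' w) = inner ℂ (Finsupp.single t v) (B (Finsupp.single t' w))) →
    ∀ φ ψ, inner ℂ (A φ) ψ = inner ℂ φ (B ψ)) ∧
  (∀ (T : Type) (a : T → ℂ) (φ : T →₀ V), (∀ t, Mon V (fun t => t) a φ t = a t • φ t) ∧ ‖Mon V (fun t => t) a φ‖ ^ 2 = ∑ t ∈ φ.support, ‖a t‖ ^ 2 * ‖φ t‖ ^ 2)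

/-- **OPS** [200 lines, uses MON CNF SGI].  All operators are monomial: check on `δ_c v` (linear in `ψ`: `Finsupp.induction_linear`) with CNF and SGI (MON (1)).  Norms by MON (2), (3) (`act g`, `flp A` are injective, `stp x` is injective on `{c x ≠ 0}`), adjoints by MON (4) and `inner_single`. -/
def SpecOPS : Prop := ∀ (G X V : Type) [Group G] [MulAction G X] [LinearOrder X] [NormedAddCommGroup V] [InnerProductSpace ℂ V] (m : ℕ) (ψ φ : HS m X V),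
  (opU m V (1 : G) ψ = ψ) ∧ (∀ g h : G, opU m V (g * h) ψ = opU m V g (opU m V h ψ)) ∧ (∀ g : G, ‖opU m V g ψ‖ = ‖ψ‖) ∧
  (opF m V ∅ ψ = ψ) ∧ (∀ A B, opF m V A (opF m V B ψ) = opF m V (symmDiff A B) ψ) ∧ (∀ A, ‖opF m V A ψ‖ = ‖ψ‖) ∧
  (∀ A, inner ℂ (opF m V A ψ) φ = inner ℂ ψ (opF m V A φ)) ∧
  (∀ x y, x ≠ y → opb m V x (opb m V y ψ) = -opb m V y (opb m V x ψ)) ∧ (∀ x, inner ℂ (opb m V x ψ) φ = inner ℂ ψ (opb m V x φ)) ∧
  (∀ x, ‖opb m V x ψ‖ ≤ ‖ψ‖) ∧ (∀ x, (∀ c ∈ ψ.support, c x = 0) → opb m V x ψ = 0) ∧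
  (∀ (g : G) x, opU m V g (opb m V x ψ) = opb m V (g • x) (opU m V g ψ)) ∧
  (∀ (g : G) A, opU m V g (opF m V A ψ) = opF m V (A.image fun x => g • x) (opU m V g ψ)) ∧
  (∀ A x, x ∉ A → opF m V A (opb m V x ψ) = opb m V x (opF m V A ψ)) ∧
  (∀ g : G, opU m V g (opG m V ψ) = opG m V (opU m V g ψ)) ∧ (∀ A, opF m V A (opG m V ψ) = opG m V (opF m V A ψ)) ∧
  (∀ x, opb m V x (opG m V ψ) = -opG m V (opb m V x ψ)) ∧ (opG m V (opG m V ψ) = ψ) ∧ (‖opG m V ψ‖ = ‖ψ‖) ∧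
  (inner ℂ (opG m V ψ) φ = inner ℂ ψ (opG m V φ))

/-- **RRR** [200 lines, uses OPS].  (1) `Finset.sum_powerset_insert`, and `opF (insert x D) = opF {x} opF D` for `x ∉ D`.  All the others by induction on `A` from (1), with `R_x(z) = (1+z)/2 + (1-z)/2 opF {x}`; the `R_x(z)` commute (the `opF` do),
`R_x(z) R_x(z') = R_x(z z')`; for `|z| = 1`, `R_x(z)` is isometric: `‖R ψ‖² = (|1+z|² + |1-z|²)/4 ‖ψ‖² + 2 Re(conj((1+z)/2) (1-z)/2 <ψ, opF {x} ψ>)`, `<ψ, opF ψ>` is real and `conj(1+z)(1-z)` is purely imaginary. -/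
def SpecRRR : Prop := ∀ (G X V : Type) [Group G] [MulAction G X] [LinearOrder X] [NormedAddCommGroup V] [InnerProductSpace ℂ V] (m : ℕ) (A : Finset X) (z z' : X → ℂ) (ψ : HS m X V),
  (∀ x, x ∉ A → opR m V (insert x A) z ψ = ((1 + z x) / 2) • opR m V A z ψ + ((1 - z x) / 2) • opF m V {x} (opR m V A z ψ)) ∧
  (opR m V A z (opR m V A z' ψ) = opR m V A (fun x => z x * z' x) ψ) ∧
  (∀ A', A ⊆ A' → (∀ x ∈ A', x ∉ A → z x = 1) → opR m V A' z ψ = opR m V A z ψ) ∧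
  ((∀ x ∈ A, z x = z' x) → opR m V A z ψ = opR m V A z' ψ) ∧
  ((∀ x ∈ A, ‖z x‖ = 1) → ‖opR m V A z ψ‖ = ‖ψ‖) ∧
  (∀ g : G, opU m V g (opR m V A (fun x => z (g • x)) ψ) = opR m V (A.image fun x => g • x) z (opU m V g ψ)) ∧
  (∀ x, (x ∈ A → z x = 1) → opR m V A z (opb m V x ψ) = opb m V x (opR m V A z ψ)) ∧
  (opR m V A z (opG m V ψ) = opG m V (opR m V A z ψ))

/-- **VGP** [180 lines, uses OPS RRR].  `V_g V_h = U_g R(Δ_g, z_g) U_h R(Δ_h, z_h) = U_g U_h R(h⁻¹Δ_g, z_g(h ·)) R(Δ_h, z_h)`; extend both to `A = h⁻¹Δ_g ∪ Δ_h ⊇ Δ_(gh)` (the phases are `1` outside, RRR (3)), `z_g(h x) z_h(x) = z_(gh)(x)` (cases for `x`, `hx`, `ghx` in `M`, `ζ conj ζ = 1`).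
`Δ_1 = ∅`.  Isometric by OPS and RRR.  For `x ∉ Δ_g` the phase is `1`.  The adjoint: an isometry preserves inner products (polarization: build a `LinearIsometry` and use `LinearIsometry.inner_map_map`), and `V_g V_(g⁻¹) = 1`. -/
def SpecVGP : Prop := ∀ (G X V : Type) [Group G] [MulAction G X] [LinearOrder X] [NormedAddCommGroup V] [InnerProductSpace ℂ V] (m : ℕ) (D : Dat G X) (ζ : ℂ), ‖ζ‖ = 1 → ∀ ψ φ : HS m X V,
  (opV m V D ζ 1 ψ = ψ) ∧ (∀ g h, opV m V D ζ (g * h) ψ = opV m V D ζ g (opV m V D ζ h ψ)) ∧ (∀ g, ‖opV m V D ζ g ψ‖ = ‖ψ‖) ∧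
  (∀ g x, (x ∈ D.M ↔ g • x ∈ D.M) → opV m V D ζ g (opb m V x ψ) = opb m V (g • x) (opV m V D ζ g ψ)) ∧
  (∀ g, opV m V D ζ g (opG m V ψ) = opG m V (opV m V D ζ g ψ)) ∧
  (∀ g, inner ℂ (opV m V D ζ g ψ) φ = inner ℂ ψ (opV m V D ζ g⁻¹ φ))

/-- **VEX** [120 lines, uses MON SGI].  Unfold `opV`, `opR`, `opF`, `opU` on `δ_c v`; `sg g (flp A c) = sg g c`; evaluate at `c'` and compare with `vco`.  For `ζ = 1` all phases are `1` and only `A = ∅` contributes (the other products have a zero factor).  (3) linear in `ψ`. -/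
def SpecVEX : Prop := ∀ (G X V : Type) [Group G] [MulAction G X] [LinearOrder X] [NormedAddCommGroup V] [InnerProductSpace ℂ V] (m : ℕ) (D : Dat G X) (ζ : ℂ) (g : G) (c c' : Conf m X) (v : V),
  (opV m V D ζ g (Finsupp.single c v) c' = vco m D ζ g c' c • v) ∧ (∀ ψ : HS m X V, opV m V D 1 g ψ = opU m V g ψ) ∧
  (∀ ψ : HS m X V, opV m V D ζ g ψ c' = ∑ c ∈ ψ.support, vco m D ζ g c' c • ψ c)

/-- **NRM** [250 lines, uses MON OPS CNF SGI].  (1) on `δ_c v` with `supp c ⊆ A` (the other terms vanish).  (2) expand the square; the cross terms are `a_x a_y Re<ψ, (b_x b_y + b_y b_x) ψ> = 0`.  (3), (4) from (1), by OPS (choose `A` large for both vectors).  (5) from (1), (2):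
`b_x² δ_c = [c x ≠ 0] δ_c`, so `‖b_x ψ‖² = sum over c with c x ≠ 0` of `‖ψ c‖²`, and `‖B ψ‖² = sum_x w_x² ‖b_x ψ‖²`.  (6), (7): `opP` is diagonal; `B δ_c` is a combination of `δ_(stp x c)`, `x ∈ supp c`.  (8) linear in `ψ`. -/
def SpecNRM : Prop := ∀ (X V : Type) [LinearOrder X] [NormedAddCommGroup V] [InnerProductSpace ℂ V] (m : ℕ) (w : X → ℝ) (ψ φ : HS m X V),
  (∀ A : Finset X, (∀ c ∈ ψ.support, c.support ⊆ A) → opB m V w ψ = ∑ x ∈ A, (w x : ℂ) • opb m V x ψ) ∧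
  (∀ (A : Finset X) (a : X → ℝ), ‖∑ x ∈ A, (a x : ℂ) • opb m V x ψ‖ ^ 2 = ∑ x ∈ A, a x ^ 2 * ‖opb m V x ψ‖ ^ 2) ∧
  (inner ℂ (opB m V w ψ) φ = inner ℂ ψ (opB m V w φ)) ∧
  (opB m V w (opG m V ψ) = -opG m V (opB m V w ψ)) ∧
  (‖opB m V w ψ‖ ^ 2 = ∑ c ∈ ψ.support, en (fun x => w x ^ 2) c * ‖ψ c‖ ^ 2) ∧
  (∀ Ω : Finset (Conf m X), (opP m V Ω (opP m V Ω ψ) = opP m V Ω ψ) ∧ (inner ℂ (opP m V Ω ψ) φ = inner ℂ ψ (opP m V Ω φ)) ∧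
    (opP m V Ω (opG m V ψ) = opG m V (opP m V Ω ψ)) ∧ ‖opP m V Ω ψ‖ ≤ ‖ψ‖) ∧
  (∀ Ω : Finset (Conf m X), (∀ c x, c x ≠ 0 → (c ∈ Ω ↔ stp x c ∈ Ω)) → opP m V Ω (opB m V w ψ) = opB m V w (opP m V Ω ψ)) ∧
  (∀ c', opB m V w ψ c' = ∑ c ∈ ψ.support, bco m w c' c • ψ c)

/-- **EFR** [180 lines, uses VGP NRM OPS VCO VEX], (E4) of the paper.  `w_x² = Λ ω x`.  Let `A` contain `Δ_g` and the supports of all configurations occurring in `ψ`; the configurations in `V_g ψ` have supports in `g A` (VEX (3), VCO (8)).  So (NRM (1) for both, VGP (4) for `x ∉ Δ_g`)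
`B V_g ψ - V_g B ψ = V_g (sum_(x ∈ A∖Δ) (w_(gx) - w_x) b_x ψ) + sum_(x ∈ Δ) w_(gx) b_(gx) V_g ψ - V_g (sum_(x ∈ Δ) w_x b_x ψ)`.  The first norm is `<= ε ‖B ψ‖` by NRM (2), (1): `|w_(gx) - w_x| <= ε w_x` (`ω(gx) <= (1+ε) ω(x)`, and `ω(x) <= (1+ε) ω(gx)` because `g⁻¹ ∈ S`; `sqrt(1+ε) <= 1+ε`).
The second: `<= sqrt(Λ sum_(y ∈ gΔ) ω y) ‖ψ‖ <= sqrt(Λ ε) ‖ψ‖`, `g Δ_g = Δ_(g⁻¹)`; the third: `<= sqrt(Λ ε) ‖ψ‖` (NRM (2), `‖b_x ψ‖ <= ‖ψ‖`).  For `ζ = 1` (VEX: `V = U`, OPS) `V_g b_x = b_(gx) V_g` for all `x` and only the first term (over all of `A`) occurs. -/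
def SpecEFR : Prop := ∀ (G X V : Type) [Group G] [MulAction G X] [LinearOrder X] [NormedAddCommGroup V] [InnerProductSpace ℂ V] (m : ℕ) (D : Dat G X) (S : Finset G) (ε Λ : ℝ),
  0 < ε → 0 ≤ Λ → D.Good S ε → (∀ s ∈ S, s⁻¹ ∈ S) → ∀ g ∈ S, ∀ ψ : HS m X V,
  (∀ ζ : ℂ, ‖ζ‖ = 1 → ‖opB m V (fun x => Real.sqrt (Λ * D.ω x)) (opV m V D ζ g ψ) - opV m V D ζ g (opB m V (fun x => Real.sqrt (Λ * D.ω x)) ψ)‖
    ≤ ε * ‖opB m V (fun x => Real.sqrt (Λ * D.ω x)) ψ‖ + 2 * Real.sqrt (Λ * ε) * ‖ψ‖) ∧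
  (‖opB m V (fun x => Real.sqrt (Λ * D.ω x)) (opV m V D 1 g ψ) - opV m V D 1 g (opB m V (fun x => Real.sqrt (Λ * D.ω x)) ψ)‖
    ≤ ε * ‖opB m V (fun x => Real.sqrt (Λ * D.ω x)) ψ‖)

/-- **YYY** [200 lines, uses MON VGP VEX NRM].  `lft A` commutes with `opV g`, `opG`, `opB` (check on `δ_c v`, or: all the operators are of the form `ψ -> (c' -> sum_c coefficient • ψ c)`: VEX (3), NRM (8)), `lft (A * B) = lft A ∘ lft B`, `lft 1 = id`, `‖lft A ψ‖ <= ‖A‖ ‖ψ‖` (norm_sq), `<lft A ψ, φ> = <ψ, lft A' φ>` if `<A v, w> = <v, A' w>` for all `v`, `w`.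
`opY` is additive in `y` and `opY (single g A) = V_g lft A`, so multiplicative: `V_g lft A V_h lft B = V_(gh) lft (A B)` (`MonoidAlgebra.induction_linear` or `liftNCRingHom`).  (3), (6) triangle inequality.  (4) `<Y ψ, φ> = sum_g <V_g lft (y_g) ψ, φ> = sum_g <ψ, lft (y_(g⁻¹)) V_(g⁻¹) φ>`, reindex `g -> g⁻¹`. -/
def SpecYYY : Prop := ∀ (G X V : Type) [Group G] [MulAction G X] [LinearOrder X] [NormedAddCommGroup V] [InnerProductSpace ℂ V] [CompleteSpace V] (m : ℕ) (D : Dat G X) (ζ : ℂ), ‖ζ‖ = 1 →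
  ∀ (y : MonoidAlgebra (V →L[ℂ] V) G) (ψ φ : HS m X V),
  (∀ y', opY m D ζ (y' * y) ψ = opY m D ζ y' (opY m D ζ y ψ)) ∧ (opY m D ζ (1 : MonoidAlgebra (V →L[ℂ] V) G) ψ = ψ) ∧
  (∀ y', opY m D ζ (y' - y) ψ = opY m D ζ y' ψ - opY m D ζ y ψ) ∧
  (‖opY m D ζ y ψ‖ ≤ n1 y * ‖ψ‖) ∧ (Herm y → inner ℂ (opY m D ζ y ψ) φ = inner ℂ ψ (opY m D ζ y φ)) ∧
  (opY m D ζ y (opG m V ψ) = opG m V (opY m D ζ y ψ)) ∧
  (∀ (w : X → ℝ) (S : Finset G) (ε κ : ℝ), 0 ≤ ε → 0 ≤ κ → y.coeff.support ⊆ S →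
    (∀ g ∈ S, ∀ ψ : HS m X V, ‖opB m V w (opV m V D ζ g ψ) - opV m V D ζ g (opB m V w ψ)‖ ≤ ε * ‖opB m V w ψ‖ + κ * ‖ψ‖) →
    ‖opB m V w (opY m D ζ y ψ) - opY m D ζ y (opB m V w ψ)‖ ≤ n1 y * (ε * ‖opB m V w ψ‖ + κ * ‖ψ‖))

/-- **BRG** [180 lines, uses MON VEX NRM].  (1) both sides are additive in `ψ`; for `ψ` concentrated at `c` with value `v`: the value of the right side at `c' ∈ Ω` is `sum_g u gam(c) vco g c' c • y_g v + bco w c' c • v` (VEX, NRM (8)), which is `ev (LM c' c) v` (`ev (single g A) = A`); outside `Ω` it is `0`.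
(2) `norm_sq`; (3) `opP` is diagonal. (4) a vector supported in `Ω` is `emb` of its restriction. -/
def SpecBRG : Prop := ∀ (G X V : Type) [Group G] [MulAction G X] [LinearOrder X] [NormedAddCommGroup V] [InnerProductSpace ℂ V] (m : ℕ) (D : Dat G X) (w : X → ℝ)
  (Ω : Finset (Conf m X)) (y : MonoidAlgebra (V →L[ℂ] V) G) (u : ℝ) (ζ : ℂ) (ψ : Ω → V),
  (emb m Ω (fun c' => ∑ c, ev (LM m D w Ω y u ζ c' c) (ψ c)) = opP m V Ω ((u : ℂ) • opY m D ζ y (opG m V (emb m Ω ψ)) + opB m V w (emb m Ω ψ))) ∧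
  (‖emb m Ω ψ‖ ^ 2 = ∑ c, ‖ψ c‖ ^ 2) ∧ (opP m V Ω (emb m Ω ψ) = emb m Ω ψ) ∧
  (∀ φ : HS m X V, opP m V Ω φ = emb m Ω (fun c => φ (c : Conf m X)))

open Classical in
/-- **BDL** [200 lines, uses GAB YYY EFR NRM BRG OPS CNF].  GAB for `HS m X V`, `Y = opY y`, `B = opB (wt D C)`, `P = opP Ω`, `Γ = opG`, `Λ = 4 C²`: `ψ = Y' Y ψ - opY (y' y - 1) ψ`, so `‖ψ‖ <= n1 y' ‖Y ψ‖ + ‖ψ‖/2`, `‖ψ‖ <= C' ‖Y ψ‖`; `‖B ψ‖² = sum 4 C² en(c) ‖ψ c‖²` (NRM (5)), and `ψ - P ψ` lives on configurations with `en > 1`, `P ψ` on those with `en <= 1`;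
`Ω` is invariant under steps (the support does not change, CNF).  `sqrt(4C² ε) = 2 C sqrt ε`.  BRG gives `sum ‖..‖² = ‖P(u Y Γ ψ + B ψ)‖² = ‖u P Y Γ ψ + B ψ‖²`, `ψ = emb`.  First claim by GAB (1).
Second claim (`Ω' = Ω.erase 0`, `ζ = 1`): `ψ = emb` is supported off the empty configuration `0`; `U_g` (hence `opY`, VEX (2)) and `B` preserve such vectors, so `opP Ω'` of `u Y Γ ψ + B ψ` is the same as `opP Ω` of it; with `ν = min over Ω' of en c > 0` (1 if `Ω'` is empty), `‖B ψ‖ >= 2 C sqrt ν ‖ψ‖`.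
With `u0 = min 1 (sqrt ν)`: if `u >= u0`, GAB (2) gives `u0/(8C')`; if `u <= u0`: `‖..‖ >= ‖B ψ‖ - u C ‖ψ‖ >= C sqrt ν ‖ψ‖`.  `e` = the minimum of the two. -/
def SpecBDL : Prop := ∀ (G X V : Type) [Group G] [MulAction G X] [LinearOrder X] [NormedAddCommGroup V] [InnerProductSpace ℂ V] [CompleteSpace V] (m : ℕ) (D : Dat G X) (y y' : MonoidAlgebra (V →L[ℂ] V) G) (C C' : ℝ),
  Setup D y y' C C' → ∀ Ω : Finset (Conf m X), Full D Ω →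
  (∀ ζ : ℂ, ‖ζ‖ = 1 → BdM (Matrix.of fun c' c => ev (LM m D (wt D C) Ω y 1 ζ c' c)) (1 / (4 * C')) (3 * C)) ∧
  (∃ e : ℝ, 0 < e ∧ ∀ u : ℝ, 0 ≤ u → u ≤ 1 → BdM (Matrix.of fun c' c => ev (LM m D (wt D C) (Ω.erase 0) y u 1 c' c)) e (3 * C))

/-- **HML** [120 lines, uses VCO].  (1) `ev (LM c' c) = sum_g u gam(c) vco g c' c • y_g + bco w c' c • 1`; hermitian: VCO (3), (4) (`gam` real and equal at `c`, `c'`), (5), Herm y, reindex `g -> g⁻¹`.  (2), (3) finite sums of continuous functions times fixed operators (VCO (7)). -/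
def SpecHML : Prop := ∀ (G X V : Type) [Group G] [MulAction G X] [LinearOrder X] [NormedAddCommGroup V] [InnerProductSpace ℂ V] [CompleteSpace V] (m : ℕ) (D : Dat G X) (w : X → ℝ) (Ω : Finset (Conf m X)) (y : MonoidAlgebra (V →L[ℂ] V) G),
  (Herm y → ∀ (u : ℝ) (ζ : ℂ), HermM (Matrix.of fun c' c => ev (LM m D w Ω y u ζ c' c))) ∧
  (∀ u : ℝ, Continuous fun ζ : ℂ => (Matrix.of fun c' c => ev (LM m D w Ω y u ζ c' c) : Matrix Ω Ω (V →L[ℂ] V))) ∧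
  (∀ ζ : ℂ, Continuous fun u : ℝ => (Matrix.of fun c' c => ev (LM m D w Ω y u ζ c' c) : Matrix Ω Ω (V →L[ℂ] V)))

end Pool.Agent.Lib.MP8a3537.AM
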