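import Pool.Agent.Lib.MP_8a3537_gt.AM.SpecC
import Pool.Agent.Lib.MP_8a3537_gt.AM.Spec2
import Pool.Agent.Lib.MP_8a3537_gt.AM.BRG

/-!
# Module GPM: the gap for the operator of the matrix `Lm`
-/

set_option linter.unusedVariables false

namespace Pool.Agent.Lib.MP8a3537.AM

open scoped BigOperators

namespace GPMM

theorem le_of_sq_le_sq_aux {a b : ℝ} (h : a ^ 2 ≤ b ^ 2) (hb : 0 ≤ b) : a ≤ b :=
  le_of_abs_le (abs_le_of_sq_le_sq h hb)

end GPMM

open GPMM

theorem specGPM (hMOP : SpecMOP) (hBDL : SpecBDL) : SpecGPM := by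
  classical
  intro G X V _ _ _ _ _ _ m D y y' C C' hS Ω hΩ ζ hζ x
  have hb := (hBDL G X V m D y y' C C' hS Ω hΩ).1 ζ hζ (fun c => x c)
  obtain ⟨h1, -, -, -, -, -, h7, -⟩ := hMOP Ω V
  have e1 : ∀ c' : Ω, ∑ c, (Matrix.of fun c' c => ev (LM m D (wt D C) Ω y 1 ζ c' c) : Matrix Ω Ω (V →L[ℂ] V)) c' c (x c) =
      (mop (Lm (fun g => Matrix.of fun c' c : Ω => vco m D ζ g (c' : Conf m X) c) (fun c : Ω => gam (c : Conf m X))
        (Matrix.of fun c' c : Ω => bco m (wt D C) (c' : Conf m X) c) y) x) c' := by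
    intro c'
    rw [h1]
    refine Finset.sum_congr rfl fun c _ => ?_
    rw [Matrix.of_apply, BRGM.ev_LM]
    unfold Lm
    rw [Matrix.of_apply, _root_.add_apply, _root_.sum_apply]
    congr 1
    refine Finset.sum_congr rfl fun g _ => ?_
    rw [_root_.smul_apply, Complex.ofReal_one, one_mul, mul_comm]
    rfl
  obtain ⟨hb1, hb2⟩ := hb
  simp only [e1] at hb1 hb2
  rw [← h7, ← h7] at hb1 hb2
  have hC : 0 < 1 / (4 * C') := by
    have := hS.hC'
    positivity
  have hC3 : 0 ≤ 3 * C := by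
    have := hS.hC
    positivity
  constructor
  · refine le_of_sq_le_sq_aux ?_ (norm_nonneg _)
    rw [mul_pow]
    exact hb1
  · refine le_of_sq_le_sq_aux ?_ (mul_nonneg hC3 (norm_nonneg _))
    rw [mul_pow]
    exact hb2

end Pool.Agent.Lib.MP8a3537.AM
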