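import Pool.Agent.Lib.MP_8a3537_gt.AM.Spec

/-!
# Module LEV: level sets of configurations
-/

set_option linter.unusedVariables false

namespace Pool.Agent.Lib.MP8a3537.AM

open scoped BigOperators
open Pool.Agent.Lib.MP8a3537.SG

namespace LEVM

variable {G X : Type} [Group G] [MulAction G X] [LinearOrder X] {m : ℕ}

theorem ndf_eq_zero (D : Dat G X) (c' c : Conf m X) (q : G)
    (h : ∀ t, ∀ x, (x ∈ Lev D c t ↔ q • x ∈ Lev D c' t)) : ndf D c' c q = 0 := by
  classical
  unfold ndf
  rw [Finset.card_eq_zero, Finset.filter_eq_empty_iff]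
  intro t _ hx
  obtain ⟨x, hx⟩ := hx
  exact hx (h t x)

theorem mem_Lev (D : Dat G X) (c : Conf m X) (t : ℕ) (x : X) :
    x ∈ Lev D c t ↔ (x ∈ D.M ∧ t < ((c x).rev : ℕ)) ∨ (x ∉ D.M ∧ t < (c x : ℕ)) := Iff.rfl

theorem mu_cases (p : Fin (2 * m + 1)) (hp : p ≠ 0) :
    ((mu m p : Fin (2 * m + 1)) : ℕ) = p + 1 ∨ ((mu m p : Fin (2 * m + 1)) : ℕ) + 1 = p := by
  have hp0 : (p : ℕ) ≠ 0 := fun h => hp (Fin.ext h)
  show (if (p : ℕ) = 0 then 0 else if (p : ℕ) % 2 = 1 then (p : ℕ) + 1 else p - 1) = (p : ℕ) + 1 ∨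
    (if (p : ℕ) = 0 then 0 else if (p : ℕ) % 2 = 1 then (p : ℕ) + 1 else p - 1) + 1 = (p : ℕ)
  rw [if_neg hp0]
  split_ifs with h
  · exact Or.inl rfl
  · right
    omega

end LEVM

open LEVM in
theorem specLEV (hVCO : SpecVCO) (hCNF : SpecCNF) : SpecLEV := by
  classical
  intro G X _ _ _ m D w c c' c'' g q q'
  refine ⟨?_, ?_, ?_, ?_, ?_⟩
  · intro h
    have h2 := (hVCO G X m D (-1) g w c c').2.1
    rw [h2] at h
    have hc : act g (flp (D.com g).toFinset c) = c' := by
      by_contra hne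
      rw [if_neg hne] at h
      exact h rfl
    have hval : ∀ x, c' (g • x) = if x ∈ (D.com g).toFinset then (c x).rev else c x := by
      intro x
      rw [← hc, (hCNF G X m (flp (D.com g).toFinset c)).1 g x]
      exact (hCNF G X m c).2.2.2.2.2.2.2.2.2.2.1 _ _
    have hΔ : ∀ x, x ∈ (D.com g).toFinset ↔ ¬(x ∈ D.M ↔ g • x ∈ D.M) := fun x =>
      (D.com g).mem_toFinset
    refine ndf_eq_zero D c' c g fun t x => ?_
    rw [mem_Lev, mem_Lev, hval x]
    by_cases h1 : x ∈ D.M <;> by_cases h3 : g • x ∈ D.M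
    · have : x ∉ (D.com g).toFinset := by rw [hΔ]; tauto
      rw [if_neg this]
      tauto
    · have : x ∈ (D.com g).toFinset := by rw [hΔ]; tauto
      rw [if_pos this]
      tauto
    · have : x ∈ (D.com g).toFinset := by rw [hΔ]; tauto
      rw [if_pos this, Fin.rev_rev]
      tauto
    · have : x ∉ (D.com g).toFinset := by rw [hΔ]; tauto
      rw [if_neg this]
      tauto
  · intro h
    unfold bco at h
    obtain ⟨x, hx, hne⟩ := Finset.exists_ne_zero_of_sum_ne_zero h
    have hst : stp x c = c' := by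
      by_contra h'
      rw [if_neg h'] at hne
      exact hne rfl
    have hcx : c x ≠ 0 := Finsupp.mem_support_iff.mp hx
    have hval : ∀ y, c' y = if y = x then mu m (c x) else c y := by
      intro y
      rw [← hst]
      exact (hCNF G X m c).2.2.2.2.1 x y
    -- only one level set changes
    have hmu := mu_cases (c x) hcx
    have hr1 : ((c x).rev : ℕ) + (c x : ℕ) = 2 * m := by
      rw [Fin.val_rev]
      have := (c x).2
      omega
    have hr2 : ((mu m (c x)).rev : ℕ) + (mu m (c x) : ℕ) = 2 * m := by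
      rw [Fin.val_rev]
      have := (mu m (c x)).2
      omega
    obtain ⟨t₀, ht₀⟩ : ∃ t₀ : ℕ, ∀ t, ¬(x ∈ Lev D c t ↔ x ∈ Lev D c' t) → t = t₀ := by
      by_cases hM : x ∈ D.M
      · refine ⟨min ((c x).rev : ℕ) ((mu m (c x)).rev : ℕ), fun t ht => ?_⟩
        rw [mem_Lev, mem_Lev, hval x, if_pos rfl] at ht
        have ht' : ¬(t < ((c x).rev : ℕ) ↔ t < ((mu m (c x)).rev : ℕ)) := by tauto
        by_cases h1 : t < ((c x).rev : ℕ) <;> by_cases h2 : t < ((mu m (c x)).rev : ℕ) <;>
          simp only [h1, h2, not_true_eq_false, iff_self, iff_false, iff_true] at ht' <;> omega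
      · refine ⟨min (c x : ℕ) (mu m (c x) : ℕ), fun t ht => ?_⟩
        rw [mem_Lev, mem_Lev, hval x, if_pos rfl] at ht
        have ht' : ¬(t < (c x : ℕ) ↔ t < (mu m (c x) : ℕ)) := by tauto
        by_cases h1 : t < (c x : ℕ) <;> by_cases h2 : t < (mu m (c x) : ℕ) <;>
          simp only [h1, h2, not_true_eq_false, iff_self, iff_false, iff_true] at ht' <;> omega
    unfold ndf
    refine (Finset.card_le_card (t := {t₀}) ?_).trans (by simp)
    intro t ht
    rw [Finset.mem_filter] at ht
    obtain ⟨_, y, hy⟩ := ht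
    rw [one_smul] at hy
    rw [Finset.mem_singleton]
    by_cases hyx : y = x
    · rw [hyx] at hy
      exact ht₀ t hy
    · exfalso
      apply hy
      rw [mem_Lev, mem_Lev, hval y, if_neg hyx]
  · unfold ndf
    refine (Finset.card_le_card ?_).trans (Finset.card_union_le _ _)
    intro t ht
    rw [Finset.mem_filter] at ht
    rw [Finset.mem_union, Finset.mem_filter, Finset.mem_filter]
    by_contra hcon
    push Not at hcon
    obtain ⟨h1, h2⟩ := hcon
    have h1' : ∀ y, y ∈ Lev D c'' t ↔ q • y ∈ Lev D c' t := by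
      intro y
      by_contra h
      exact absurd (h1 ht.1) (by push Not; exact ⟨y, by tauto⟩)
    have h2' : ∀ y, y ∈ Lev D c t ↔ q' • y ∈ Lev D c'' t := by
      intro y
      by_contra h
      exact absurd (h2 ht.1) (by push Not; exact ⟨y, by tauto⟩)
    obtain ⟨x, hx⟩ := ht.2
    apply hx
    rw [mul_smul, h2' x, h1' (q' • x)]
  · intro hfree hen hlt
    by_contra hq
    unfold ndf at hlt
    obtain ⟨t, ht, hnt⟩ : ∃ t, t < 2 * m ∧ ∀ x, (x ∈ Lev D c t ↔ q • x ∈ Lev D c t) := by
      by_contra hcon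
      push Not at hcon
      have h1 : ((Finset.range (2 * m)).filter fun t =>
          ∃ x, ¬(x ∈ Lev D c t ↔ q • x ∈ Lev D c t)) = Finset.range (2 * m) := by
        rw [Finset.filter_eq_self]
        intro t ht
        obtain ⟨x, hx⟩ := hcon t (Finset.mem_range.mp ht)
        exact ⟨x, by tauto⟩
      have h2 := congrArg Finset.card h1
      rw [Finset.card_range] at h2
      exact absurd h2 (ne_of_lt (by convert hlt))
    obtain ⟨x, hx⟩ := hfree q hq (Lev D c t) ⟨c.support, by
      intro x hx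
      rw [Finsupp.mem_support_iff]
      intro h0
      apply hx
      rw [mem_Lev, h0]
      have hr : ((0 : Fin (2 * m + 1)).rev : ℕ) = 2 * m := by simp [Fin.val_rev]
      rw [hr]
      simp only [Fin.val_zero, Nat.not_lt_zero, and_false, or_false, and_iff_left_iff_imp]
      tauto, hen⟩
    exact hx (hnt x)
  · refine ndf_eq_zero D c c 1 fun t x => ?_
    rw [one_smul]

end Pool.Agent.Lib.MP8a3537.AM
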