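import Pool.Agent.Lib.MP_8a3537_gt.AM.SpecC

/-!
# Module LHM: the operator of the matrix `Lm` is selfadjoint, continuous, with entries in the generated algebra
-/

set_option linter.unusedVariables false

namespace Pool.Agent.Lib.MP8a3537.AM

open scoped BigOperators Matrix
open Filter Topology

namespace LHMM

variable {C H : Type} [Fintype C] [DecidableEq C] [NormedAddCommGroup H] [InnerProductSpace ℂ H] [CompleteSpace H]

/-- continuity of `mop` along a family with continuous entries -/
theorem cont (hMOP : SpecMOP) (M : ℝ → Matrix C C (Bo H)) (hM : ∀ c c', Continuous fun t => M t c c') :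
    Continuous fun t => mop (M t) := by
  obtain ⟨-, -, h3, h4, -, -, -, h8⟩ := hMOP C H
  have hsub : ∀ A B : Matrix C C (Bo H), mop (A - B) = mop A - mop B := by
    intro A B
    have e : A - B = A + (-1 : ℂ) • B := by rw [neg_one_smul, sub_eq_add_neg]
    have e2 : (-1 : ℂ) • mop B = -mop B := by
      refine ContinuousLinearMap.ext fun x => ?_
      show (-1 : ℂ) • (mop B x) = -(mop B x)
      exact neg_one_smul ℂ _
    rw [e, (h3 _ _).2, h4, e2, sub_eq_add_neg]
  rw [continuous_iff_continuousAt]
  intro t0
  rw [ContinuousAt, tendsto_iff_norm_sub_tendsto_zero]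
  have hlim : Tendsto (fun t => ∑ c, ∑ c', ‖M t c c' - M t0 c c'‖) (𝓝 t0) (𝓝 0) := by
    have h0 : (0 : ℝ) = ∑ c : C, ∑ c' : C, (0 : ℝ) := by simp
    rw [h0]
    refine tendsto_finsetSum _ fun c _ => tendsto_finsetSum _ fun c' _ => ?_
    rw [← tendsto_iff_norm_sub_tendsto_zero]
    exact (hM c c').continuousAt
  refine squeeze_zero (fun t => norm_nonneg _) (fun t => ?_) hlim
  rw [← hsub]
  exact h8 _

end LHMM

theorem specLHM (hMOP : SpecMOP) : SpecLHM := by
  classical
  intro G _ S C0 C1 b β m C _ _ c0 v B Bp sg p w Q _ n hmod H _ _ _ Θ hΘ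
  have hsgc : ∀ c, (starRingEnd ℂ) (sg c) = sg c := by
    intro c
    rcases hmod.spar c with h | h
    · rw [h, map_one]
    · rw [h, map_neg, map_one]
  refine ⟨fun t => ?_, ?_, fun t c c' => ?_⟩
  · obtain ⟨-, -, -, -, h5, -⟩ := hMOP C H
    rw [isSelfAdjoint_iff, h5]
    congr 1
    ext1 c c'
    rw [Matrix.conjTranspose_apply]
    unfold Lm
    rw [Matrix.of_apply, Matrix.of_apply, star_add, star_sum, star_smul, star_one]
    have hB : star (B c' c) = B c c' := by
      have := congrFun (congrFun hmod.bher c) c'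
      rw [Matrix.conjTranspose_apply] at this
      exact this
    rw [hB]
    congr 1
    have hterm : ∀ g, star ((v t g c' c * sg c) • Θ.coeff g) = (v t g⁻¹ c c' * sg c') • Θ.coeff g⁻¹ := by
      intro g
      rw [star_smul, ← hΘ g, star_mul']
      have e1 : star (v t g c' c) = v t g⁻¹ c c' := by
        have := congrFun (congrFun (hmod.vher t g) c) c'
        rw [Matrix.conjTranspose_apply] at this
        exact this
      have e2 : star (sg c) = sg c := hsgc c
      rw [e1, e2, mul_comm, hmod.veven]
    rw [Finset.sum_congr rfl fun g _ => hterm g]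
    have hsupp : ∀ g, g ∈ Θ.coeff.support → g⁻¹ ∈ Θ.coeff.support := by
      intro g hg
      rw [Finsupp.mem_support_iff] at hg ⊢
      rw [hΘ g]
      exact (star_ne_zero).mpr hg
    refine Finset.sum_bij' (fun g _ => g⁻¹) (fun g _ => g⁻¹) hsupp hsupp (fun g _ => inv_inv g) (fun g _ => inv_inv g) (fun g _ => rfl)
  · refine LHMM.cont hMOP _ fun c c' => ?_
    unfold Lm
    simp only [Matrix.of_apply]
    refine Continuous.add (continuous_finsetSum _ fun g _ => ?_) continuous_const
    exact ((hmod.vcon g c c').mul continuous_const).smul continuous_const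
  · unfold Lm
    rw [Matrix.of_apply]
    refine add_mem (sum_mem fun g _ => Subalgebra.smul_mem _ (Algebra.subset_adjoin (Set.mem_range_self g)) _) (Subalgebra.smul_mem _ (one_mem _) _)

end Pool.Agent.Lib.MP8a3537.AM
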