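import Pool.Agent.Lib.MP_8a3537_gt.AM.SpecC
import Pool.Agent.Lib.MP_8a3537_gt.TW.NIT

/-!
# MP_8a3537_gt, block C, module LPI: the iterates are Lipschitz
-/

set_option linter.unusedVariables false

namespace Pool.Agent.Lib.MP8a3537.AM

open Pool.Agent.Lib.MP8a3537.SG Pool.Agent.Lib.MP8a3537.TW

namespace LPIM

theorem cube {A : Type} [NormedRing A] (u v : A) (hu : ‖u‖ ≤ 1) (hv : ‖v‖ ≤ 1) :
    ‖u ^ 3 - v ^ 3‖ ≤ 3 * ‖u - v‖ := by
  have h : u ^ 3 - v ^ 3 = u * u * (u - v) + u * (u - v) * v + (u - v) * (v * v) := by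
    noncomm_ring
  have hn : 0 ≤ ‖u - v‖ := norm_nonneg _
  have hu0 : 0 ≤ ‖u‖ := norm_nonneg _
  have hv0 : 0 ≤ ‖v‖ := norm_nonneg _
  have h1 : ‖u * u * (u - v)‖ ≤ ‖u - v‖ := by
    refine (norm_mul_le _ _).trans ?_
    have h2 : ‖u * u‖ ≤ 1 := (norm_mul_le _ _).trans (by nlinarith)
    nlinarith
  have h2 : ‖u * (u - v) * v‖ ≤ ‖u - v‖ := by
    refine (norm_mul_le _ _).trans ?_
    have h3 : ‖u * (u - v)‖ ≤ ‖u - v‖ := (norm_mul_le _ _).trans (by nlinarith)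
    have h4 : 0 ≤ ‖u * (u - v)‖ := norm_nonneg _
    nlinarith
  have h3 : ‖(u - v) * (v * v)‖ ≤ ‖u - v‖ := by
    refine (norm_mul_le _ _).trans ?_
    have h4 : ‖v * v‖ ≤ 1 := (norm_mul_le _ _).trans (by nlinarith)
    nlinarith
  rw [h]
  calc ‖u * u * (u - v) + u * (u - v) * v + (u - v) * (v * v)‖
      ≤ ‖u * u * (u - v)‖ + ‖u * (u - v) * v‖ + ‖(u - v) * (v * v)‖ := norm_add₃_le
    _ ≤ 3 * ‖u - v‖ := by linarith

end LPIM

theorem specLPI : SpecLPI := by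
  intro A _ x x' hx hx' hn hn' j
  induction j with
  | zero => rw [pow_zero, one_mul]; exact le_of_eq rfl
  | succ j ih =>
    have hu := (specNIT A x hx hn j).2
    have hv := (specNIT A x' hx' hn' j).2
    have h1 : it x (j + 1) - it x' (j + 1) =
        (3 / 2 : ℂ) • (it x j - it x' j) - (1 / 2 : ℂ) • ((it x j) ^ 3 - (it x' j) ^ 3) := by
      show ((3 / 2 : ℂ) • it x j - (1 / 2 : ℂ) • (it x j) ^ 3) -
        ((3 / 2 : ℂ) • it x' j - (1 / 2 : ℂ) • (it x' j) ^ 3) = _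
      rw [smul_sub, smul_sub]
      abel
    have h2 := LPIM.cube _ _ hu hv
    rw [h1]
    refine (norm_sub_le _ _).trans ?_
    rw [norm_smul, norm_smul]
    have h3 : ‖(3 / 2 : ℂ)‖ = 3 / 2 := by
      rw [norm_div]
      norm_num
    have h4 : ‖(1 / 2 : ℂ)‖ = 1 / 2 := by
      rw [norm_div]
      norm_num
    rw [h3, h4, show (3 : ℝ) ^ (j + 1) = 3 ^ j * 3 from pow_succ _ _]
    linarith

end Pool.Agent.Lib.MP8a3537.AM
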