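import Pool.Agent.Lib.MP_8a3537_gt.AM.SpecC

/-!
# MOB: property W gives the models (MP_8a3537_gt, block C)
-/

set_option linter.unusedVariables false
set_option linter.unusedSectionVars false

namespace Pool.Agent.Lib.MP8a3537.AM

open Pool.Agent.Lib.MP8a3537.SG Pool.Agent.Lib.MP8a3537.TW
open Filter Topology
open scoped BigOperators Matrix ComplexOrder InnerProductSpace Pointwise

namespace MOBM

theorem n1_nonneg {A G : Type} [NormedRing A] (y : MonoidAlgebra A G) : 0 ≤ n1 y :=
  Finset.sum_nonneg fun _ _ => norm_nonneg _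

variable {G X : Type} [Group G] [MulAction G X] [LinearOrder X] {m : ℕ}

theorem gam_zero : gam (0 : Conf m X) = 1 := by
  unfold gam odd
  simp

theorem sg_zero (g : G) : sg g (0 : Conf m X) = 1 := by
  unfold sg odd
  simp

theorem bco_zero (w : X → ℝ) (c' : Conf m X) : bco m w c' 0 = 0 := by
  unfold bco
  simp

theorem en_stp (hCNF : SpecCNF) (ω : X → ℝ) (c : Conf m X) (x : X) (hx : c x ≠ 0) : en ω (stp x c) = en ω c := by
  obtain ⟨-, -, -, -, -, -, -, -, -, h, -⟩ := hCNF (Equiv.Perm X) X m c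
  unfold en
  rw [h x hx]

theorem stp_mem (hCNF : SpecCNF) (D : Dat G X) (Ω : Finset (Conf m X)) (hΩ : Full D Ω) (c : Conf m X) (x : X)
    (hx : c x ≠ 0) : c ∈ Ω ↔ stp x c ∈ Ω := by
  rw [hΩ c, hΩ (stp x c), en_stp hCNF D.ω c x hx]

theorem lev_of_ndf (D : Dat G X) (c' c : Conf m X) (q : G) (h : ndf D c' c q = 0) (t : ℕ) (ht : t < 2 * m) :
    Lev D c' t = q • Lev D c t := by
  classical
  unfold ndf at h
  rw [Finset.card_eq_zero, Finset.filter_eq_empty_iff] at h
  have h1 := h (Finset.mem_range.2 ht)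
  push Not at h1
  ext x
  rw [Set.mem_smul_set_iff_inv_smul_mem]
  have h2 := h1 (q⁻¹ • x)
  rw [smul_inv_smul] at h2
  exact h2.symm

theorem ndf_lt (D : Dat G X) (c : Conf m X) (q : G) (t : ℕ) (ht : t < 2 * m) (h : q • Lev D c t = Lev D c t) :
    ndf D c c q < 2 * m := by
  classical
  unfold ndf
  have h1 : (Finset.range (2 * m)).filter (fun t => ∃ x, ¬(x ∈ Lev D c t ↔ q • x ∈ Lev D c t)) ⊂ Finset.range (2 * m) := by
    rw [Finset.ssubset_iff_of_subset (Finset.filter_subset _ _)]
    refine ⟨t, Finset.mem_range.2 ht, ?_⟩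
    rw [Finset.mem_filter]
    rintro ⟨-, x, hx⟩
    apply hx
    conv_rhs => rw [← h]
    rw [Set.smul_mem_smul_set_iff]
  have h2 := Finset.card_lt_card h1
  rw [Finset.card_range] at h2
  exact h2

theorem nb_of_ndf (D : Dat G X) (c' c : Conf m X) (hm : 0 < m) (h : ndf D c' c 1 ≤ 1) :
    ∃ i0 : Fin (2 * m), ∀ i : Fin (2 * m), i ≠ i0 → Lev D c' i = Lev D c i := by
  classical
  unfold ndf at h
  have key : ∀ t < 2 * m, t ∉ (Finset.range (2 * m)).filter (fun t => ∃ x, ¬(x ∈ Lev D c t ↔ (1 : G) • x ∈ Lev D c' t)) →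
      Lev D c' t = Lev D c t := by
    intro t ht h1
    rw [Finset.mem_filter, not_and] at h1
    have h2 := h1 (Finset.mem_range.2 ht)
    push Not at h2
    ext x
    have h3 := h2 x
    rw [one_smul] at h3
    exact h3.symm
  rw [Finset.card_le_one_iff_subset_singleton] at h
  obtain ⟨t0, ht0⟩ := h
  by_cases hlt : t0 < 2 * m
  · refine ⟨⟨t0, hlt⟩, fun i hi => key i i.2 fun h1 => hi ?_⟩
    have h2 := Finset.mem_singleton.1 (ht0 h1)
    exact Fin.ext h2
  · refine ⟨⟨0, by omega⟩, fun i hi => key i i.2 fun h1 => ?_⟩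
    have h2 := Finset.mem_singleton.1 (ht0 h1)
    have h3 := i.2
    omega

end MOBM

open MOBM in
theorem specMOB (hBBA : SpecBBA) (hPCM : SpecPCM) (hGPM : SpecGPM) (hCNF : SpecCNF) (hSGI : SpecSGI) (hVCO : SpecVCO)
    (hLEV : SpecLEV) (hCAR : SpecCAR) : SpecMOB := by
  classical
  intro G _ hW S C0 C1 hC0 hC1
  set C : ℝ := max C0 1 with hCdef
  set C' : ℝ := max (2 * C1) 1 with hC'def
  have hC : 1 ≤ C := le_max_right _ _
  have hC' : 1 ≤ C' := le_max_right _ _
  set ε : ℝ := (1 / (128 * C ^ 2 * C' ^ 2)) ^ 2 with hε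
  have hε0 : 0 < ε := by positivity
  set S' : Finset G := S ∪ S.image (fun g => g⁻¹) with hS'
  obtain ⟨X, _, D, hgood, hfree⟩ := hW S' ε hε0
  let _ : LinearOrder X := linearOrderOfSTO (WellOrderingRel (α := X))
  obtain ⟨a, ha⟩ := hCAR G X D
  refine ⟨1 / (4 * C'), 3 * C, a, by positivity, by positivity, fun m hm => ?_⟩
  obtain ⟨Ω, hΩ, hcard⟩ := ha m
  have h0Ω : (0 : Conf m X) ∈ Ω := by
    rw [hΩ]
    unfold en
    simp
  have hζ : ∀ t : ℝ, ‖Complex.exp (((Real.pi * t : ℝ) : ℂ) * Complex.I)‖ = 1 := fun t =>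
    Complex.norm_exp_ofReal_mul_I _
  have hζ0 : Complex.exp (((Real.pi * (0 : ℝ) : ℝ) : ℂ) * Complex.I) = 1 := by simp
  have hζ1 : Complex.exp (((Real.pi * (1 : ℝ) : ℝ) : ℂ) * Complex.I) = -1 := by
    rw [mul_one, Complex.exp_pi_mul_I]
  have hstp := stp_mem hCNF D Ω hΩ
  refine ⟨Ω, inferInstance, inferInstance, ⟨0, h0Ω⟩,
    fun t g => Matrix.of fun c' c : Ω => vco m D (Complex.exp (((Real.pi * t : ℝ) : ℂ) * Complex.I)) g (c' : Conf m X) c,
    Matrix.of fun c' c : Ω => bco m (wt D C) (c' : Conf m X) c,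
    Matrix.of fun c' c : Ω => bco m (fun _ => (1 : ℝ)) (c' : Conf m X) c,
    fun c => gam (c : Conf m X), fun c => ((c : Conf m X).support.card : ℝ),
    fun c => 2 * ∑ x ∈ (c : Conf m X).support, 1 * wt D C x, Set X, inferInstance,
    fun c i => Lev D (c : Conf m X) i, ?_, ?_⟩
  · rw [Fintype.card_coe]
    exact hcard
  · have herm : ∀ w : X → ℝ, (Matrix.of fun c' c : Ω => bco m w (c' : Conf m X) c).IsHermitian := by
      intro w
      ext c' c
      obtain ⟨-, -, -, -, h5, -⟩ := hVCO G X m D 1 1 w (c : Conf m X) c'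
      rw [Matrix.conjTranspose_apply, Matrix.of_apply, Matrix.of_apply, h5.1]
      exact h5.2
    have hodd : ∀ (w : X → ℝ) (c' c : Ω), gam (c' : Conf m X) * bco m w (c' : Conf m X) c = -(bco m w (c' : Conf m X) c * gam (c : Conf m X)) := by
      intro w c' c
      obtain ⟨-, -, -, -, -, h6, -⟩ := hVCO G X m D 1 1 w (c : Conf m X) c'
      by_cases h : bco m w (c' : Conf m X) c = 0
      · rw [h]; simp
      · rw [h6 h]; ring
    refine
      { vher := ?_
        vcon := ?_
        spar := ?_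
        veven := ?_
        bodd := hodd _
        podd := hodd _
        bher := herm _
        pher := herm _
        v00 := ?_
        v0r := ?_
        b0 := ?_
        p0 := ?_
        s0 := gam_zero
        pcom := ?_
        psq := ?_
        pge := ?_
        anti := ?_
        wge := ?_
        nv := ?_
        nb := ?_
        nfree := ?_
        gap := ?_ }
    · intro t g
      ext c c'
      obtain ⟨-, -, h3, -⟩ := hVCO G X m D (Complex.exp (((Real.pi * t : ℝ) : ℂ) * Complex.I)) g (fun _ => 1) (c : Conf m X) c'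
      rw [Matrix.conjTranspose_apply, Matrix.of_apply, Matrix.of_apply, h3]
      rfl
    · intro g c' c
      obtain ⟨-, -, -, -, -, -, h7, -⟩ := hVCO G X m D 1 g (fun _ => 1) (c : Conf m X) c'
      exact h7.comp (Complex.continuous_exp.comp ((Complex.continuous_ofReal.comp (continuous_const.mul continuous_id)).mul continuous_const))
    · intro c
      obtain ⟨-, -, -, -, -, -, -, -, -, -, -, -, h13⟩ := hSGI G X m (c : Conf m X)
      have h := h13.1
      have h' : (gam (c : Conf m X) - 1) * (gam (c : Conf m X) + 1) = 0 := by linear_combination h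
      rcases mul_eq_zero.1 h' with h1 | h1
      · exact Or.inl (sub_eq_zero.1 h1)
      · exact Or.inr (eq_neg_of_add_eq_zero_left h1)
    · intro t g c' c
      obtain ⟨-, -, -, h4, -⟩ := hVCO G X m D (Complex.exp (((Real.pi * t : ℝ) : ℂ) * Complex.I)) g (fun _ => 1) (c : Conf m X) c'
      rw [Matrix.of_apply]
      by_cases h : vco m D (Complex.exp (((Real.pi * t : ℝ) : ℂ) * Complex.I)) g (c' : Conf m X) c = 0
      · rw [h]; simp
      · rw [h4 h]; ring
    · intro g
      rw [Matrix.of_apply, hζ0]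
      obtain ⟨h1, -⟩ := hVCO G X m D 1 g (fun _ => 1) (0 : Conf m X) 0
      obtain ⟨-, -, -, h4, -⟩ := hCNF G X m (0 : Conf m X)
      rw [h1, if_pos (h4 g), sg_zero]
    · intro g c hc
      obtain ⟨-, -, h3, h4, -⟩ := hCNF G X m (c : Conf m X)
      have hcv : (c : Conf m X) ≠ 0 := fun h => hc (Subtype.ext h)
      constructor
      · rw [Matrix.of_apply, hζ0]
        obtain ⟨h1, -⟩ := hVCO G X m D 1 g (fun _ => 1) (0 : Conf m X) c
        rw [h1, h4 g, if_neg fun h => hcv h.symm]
      · rw [Matrix.of_apply, hζ0]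
        obtain ⟨h1, -⟩ := hVCO G X m D 1 g (fun _ => 1) (c : Conf m X) 0
        rw [h1, if_neg]
        intro h
        apply hcv
        have h5 := h3 g⁻¹ g
        obtain ⟨-, h2, -⟩ := hCNF G X m (c : Conf m X)
        rw [inv_mul_cancel, h2, h, h4] at h5
        exact h5
    · intro c
      exact bco_zero (X := X) (m := m) (wt D C) (c : Conf m X)
    · intro c
      exact bco_zero (X := X) (m := m) (fun _ => 1) (c : Conf m X)
    · intro g
      rw [hζ0]
      exact hPCM G X m D Ω (fun c x hx => hstp c x hx) g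
    · have h := hBBA X m Ω (fun c hc x hx => (hstp c x hx).1 hc) (fun _ => 1) (fun _ => 1)
      rw [← two_smul ℂ] at h
      have h2 : (Matrix.of fun c' c : Ω => bco m (fun _ => (1 : ℝ)) (c' : Conf m X) c) * (Matrix.of fun c' c : Ω => bco m (fun _ => (1 : ℝ)) (c' : Conf m X) c)
          = (1 / 2 : ℂ) • ((2 : ℂ) • ((Matrix.of fun c' c : Ω => bco m (fun _ => (1 : ℝ)) (c' : Conf m X) c) * (Matrix.of fun c' c : Ω => bco m (fun _ => (1 : ℝ)) (c' : Conf m X) c))) := by
        rw [smul_smul]; norm_num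
      rw [h2, h]
      ext c' c
      rw [Matrix.smul_apply, Matrix.diagonal_apply, Matrix.diagonal_apply]
      split_ifs with h3
      · simp
      · simp
    · intro c hc
      have hcv : (c : Conf m X) ≠ 0 := fun h => hc (Subtype.ext h)
      have h1 : 0 < (c : Conf m X).support.card := by
        rw [Finset.card_pos]
        exact Finsupp.support_nonempty_iff.2 hcv
      exact_mod_cast h1
    · exact hBBA X m Ω (fun c hc x hx => (hstp c x hx).1 hc) (fun _ => 1) (wt D C)
    · intro c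
      refine mul_nonneg zero_le_two (Finset.sum_nonneg fun x _ => ?_)
      rw [one_mul]
      exact Real.sqrt_nonneg _
    · intro g c' c h i
      rw [Matrix.of_apply, hζ1] at h
      obtain ⟨h1, -⟩ := hLEV G X m D (fun _ => 1) (c : Conf m X) c' c g 1 1
      exact lev_of_ndf D _ _ g (h1 h) i i.2
    · intro c' c h
      rw [Matrix.of_apply] at h
      obtain ⟨-, h2, -⟩ := hLEV G X m D (wt D C) (c : Conf m X) c' c 1 1 1
      exact nb_of_ndf D _ _ hm (h2 h)
    · intro c i q h
      obtain ⟨-, -, -, h4, -⟩ := hLEV G X m D (wt D C) (c : Conf m X) c c 1 q 1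
      exact h4 hfree ((hΩ _).1 c.2) (ndf_lt D _ q i i.2 h)
    · intro V _ _ _ y y' hy hinv hsup hn hn' t x
      refine hGPM G X V m D y y' C C' ?_ Ω hΩ _ (hζ t) x
      refine ⟨hy, hinv, hC, hC', hn.trans (le_max_left _ _), (by linarith : 2 * n1 y' ≤ 2 * C1).trans (le_max_left _ _), S', ε, ?_, ?_, hε0, le_of_eq hε, hgood⟩
      · exact hsup.trans Finset.subset_union_left
      · intro s hs
        rw [hS', Finset.mem_union, Finset.mem_image] at hs ⊢
        rcases hs with hs | ⟨g, hg, rfl⟩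
        · exact Or.inr ⟨s, hs, rfl⟩
        · rw [inv_inv]
          exact Or.inl hg

end Pool.Agent.Lib.MP8a3537.AM
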