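import Pool.Agent.Lib.MP_8a3537_gt.AM.Spec2

/-!
# Module MON: monomial operators on finitely supported functions
-/

set_option linter.unusedVariables false
set_option autoImplicit false

namespace Pool.Agent.Lib.MP8a3537.AM

open scoped BigOperators

namespace MONM

variable {T T' V : Type} [NormedAddCommGroup V] [InnerProductSpace ℂ V]

theorem mon_single (f : T → T') (a : T → ℂ) (t : T) (v : V) :
    Mon V f a (Finsupp.single t v) = Finsupp.single (f t) (a t • v) := by
  rw [Mon, Finsupp.lsum_single, LinearMap.smul_apply, Finsupp.lsingle_apply, Finsupp.smul_single]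

theorem mon_sum (f : T → T') (a : T → ℂ) (φ : T →₀ V) :
    Mon V f a φ = ∑ t ∈ φ.support, Finsupp.single (f t) (a t • φ t) := by
  have h : φ = ∑ t ∈ φ.support, Finsupp.single t (φ t) := (Finsupp.sum_single φ).symm
  calc Mon V f a φ = Mon V f a (∑ t ∈ φ.support, Finsupp.single t (φ t)) := by rw [← h]
    _ = ∑ t ∈ φ.support, Finsupp.single (f t) (a t • φ t) := by
        rw [map_sum]
        exact Finset.sum_congr rfl fun t _ => mon_single f a t _

theorem norm_sum_sq (s : Finset T) (f : T → T') (x : T → V)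
    (h : ∀ t ∈ s, ∀ u ∈ s, f t = f u → t ≠ u → inner ℂ (x t) (x u) = 0) :
    ‖∑ t ∈ s, (Finsupp.single (f t) (x t) : T' →₀ V)‖ ^ 2 = ∑ t ∈ s, ‖x t‖ ^ 2 := by
  classical
  rw [← inner_self_eq_norm_sq (𝕜 := ℂ), sum_inner, map_sum]
  refine Finset.sum_congr rfl fun t ht => ?_
  rw [inner_sum, Finset.sum_eq_single t]
  · rw [inner_single, if_pos rfl]
    exact inner_self_eq_norm_sq (𝕜 := ℂ) (x t)
  · intro u hu hut
    rw [inner_single]
    by_cases hf : f t = f u
    · rw [if_pos hf]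
      exact h t ht u hu hf (Ne.symm hut)
    · rw [if_neg hf]
  · intro h'
    exact absurd ht h'

theorem mon_norm_sq (f : T → T') (a : T → ℂ) (hf : ∀ t u, a t ≠ 0 → a u ≠ 0 → f t = f u → t = u)
    (φ : T →₀ V) : ‖Mon V f a φ‖ ^ 2 = ∑ t ∈ φ.support, ‖a t‖ ^ 2 * ‖φ t‖ ^ 2 := by
  rw [mon_sum, norm_sum_sq]
  · exact Finset.sum_congr rfl fun t _ => by rw [norm_smul, mul_pow]
  · intro t _ u _ htu hne
    by_cases h1 : a t = 0
    · rw [h1, zero_smul, inner_zero_left]
    · by_cases h2 : a u = 0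
      · rw [h2, zero_smul, inner_zero_right]
      · exact absurd (hf t u h1 h2 htu) hne

theorem mon_le (f : T → T') (a : T → ℂ) (ha : ∀ t, ‖a t‖ ≤ 1)
    (hf : ∀ t u, a t ≠ 0 → a u ≠ 0 → f t = f u → t = u) (φ : T →₀ V) :
    ‖Mon V f a φ‖ ≤ ‖φ‖ := by
  have h : ‖Mon V f a φ‖ ^ 2 ≤ ‖φ‖ ^ 2 := by
    rw [mon_norm_sq f a hf, norm_sq]
    refine Finset.sum_le_sum fun t _ => ?_
    have h1 : ‖a t‖ ^ 2 ≤ 1 := pow_le_one₀ (norm_nonneg _) (ha t)
    have h2 : 0 ≤ ‖φ t‖ ^ 2 := sq_nonneg _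
    nlinarith
  exact le_of_sq_le_sq h (norm_nonneg _)

theorem mon_eq (f : T → T') (a : T → ℂ) (ha : ∀ t, ‖a t‖ = 1) (hf : Function.Injective f)
    (φ : T →₀ V) : ‖Mon V f a φ‖ = ‖φ‖ := by
  have h : ‖Mon V f a φ‖ ^ 2 = ‖φ‖ ^ 2 := by
    rw [mon_norm_sq f a (fun t u _ _ h => hf h), norm_sq]
    exact Finset.sum_congr rfl fun t _ => by rw [ha t, one_pow, one_mul]
  have h1 := norm_nonneg (Mon V f a φ)
  have h2 := norm_nonneg φ
  nlinarith [sq_nonneg (‖Mon V f a φ‖ - ‖φ‖), sq_nonneg (‖Mon V f a φ‖ + ‖φ‖)]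

theorem adj (A : (T →₀ V) →ₗ[ℂ] (T' →₀ V)) (B : (T' →₀ V) →ₗ[ℂ] (T →₀ V))
    (h : ∀ t t' (v w : V), inner ℂ (A (Finsupp.single t v)) (Finsupp.single t' w)
      = inner ℂ (Finsupp.single t v) (B (Finsupp.single t' w))) (φ : T →₀ V) (ψ : T' →₀ V) :
    inner ℂ (A φ) ψ = inner ℂ φ (B ψ) := by
  have h1 : ∀ (t : T) (v : V) (ψ : T' →₀ V),
      inner ℂ (A (Finsupp.single t v)) ψ = inner ℂ (Finsupp.single t v) (B ψ) := by
    intro t v ψ
    induction ψ using Finsupp.induction_linear with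
    | zero => rw [map_zero, inner_zero_right, inner_zero_right]
    | add f g hf hg => rw [map_add, inner_add_right, inner_add_right, hf, hg]
    | single t' w => exact h t t' v w
  induction φ using Finsupp.induction_linear with
  | zero => rw [map_zero, inner_zero_left, inner_zero_left]
  | add f g hf hg => rw [map_add, inner_add_left, inner_add_left, hf, hg]
  | single t v => exact h1 t v ψ

theorem mon_id_apply (a : T → ℂ) (φ : T →₀ V) (t : T) :
    Mon V (fun t => t) a φ t = a t • φ t := by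
  classical
  rw [mon_sum, Finsupp.finset_sum_apply]
  by_cases ht : t ∈ φ.support
  · rw [Finset.sum_eq_single t]
    · rw [Finsupp.single_eq_same]
    · intro u _ hu
      rw [Finsupp.single_apply, if_neg hu]
    · intro h
      exact absurd ht h
  · rw [Finsupp.notMem_support_iff.mp ht, smul_zero]
    refine Finset.sum_eq_zero fun u hu => ?_
    rw [Finsupp.single_apply, if_neg (fun h : u = t => ht (by rw [← h]; exact hu))]

end MONM

theorem specMON : SpecMON := by
  intro V _ _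
  refine ⟨fun T T' f a t v => MONM.mon_single f a t v, fun T T' f a ha hf φ => MONM.mon_le f a ha hf φ,
    fun T T' f a ha hf φ => MONM.mon_eq f a ha hf φ, fun T T' A B h φ ψ => MONM.adj A B h φ ψ,
    fun T a φ => ⟨fun t => MONM.mon_id_apply a φ t, MONM.mon_norm_sq _ a (fun t u _ _ h => h) φ⟩⟩

end Pool.Agent.Lib.MP8a3537.AM
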