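import Pool.Agent.Lib.MP_8a3537_gt.AM.SpecC

/-!
# Matrices of operators (MP_8a3537_gt, helper57)
-/

namespace Pool.Agent.Lib.MP8a3537.AM

open Pool.Agent.Lib.MP8a3537.SG Pool.Agent.Lib.MP8a3537.TW
open Filter Topology
open scoped BigOperators Matrix ComplexOrder InnerProductSpace

namespace MOPM

variable {C H : Type} [Fintype C] [NormedAddCommGroup H] [InnerProductSpace ℂ H]

lemma mop_apply (M : Matrix C C (Bo H)) (x : HC C H) (c : C) :
    (mop M x) c = ∑ c', M c c' (x c') := by
  simp [mop]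

lemma bo_ext {A B : Bo (HC C H)} (h : ∀ x c, (A x) c = (B x) c) : A = B := by
  ext x c
  exact h x c

lemma mop_mul (M N : Matrix C C (Bo H)) : mop (M * N) = mop M * mop N := by
  apply bo_ext
  intro x c
  rw [mop_apply, mul_apply_eq_comp, mop_apply]
  simp only [mop_apply, Matrix.mul_apply, sum_apply,
    mul_apply_eq_comp, map_sum]
  rw [Finset.sum_comm]

lemma mop_add (M N : Matrix C C (Bo H)) : mop (M + N) = mop M + mop N := by
  apply bo_ext
  intro x c
  rw [mop_apply, add_apply, PiLp.add_apply, mop_apply, mop_apply,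
    ← Finset.sum_add_distrib]
  rfl

lemma mop_smul (z : ℂ) (M : Matrix C C (Bo H)) : mop (z • M) = z • mop M := by
  apply bo_ext
  intro x c
  rw [mop_apply, smul_apply, PiLp.smul_apply, mop_apply, Finset.smul_sum]
  rfl

lemma mop_one [DecidableEq C] : mop (1 : Matrix C C (Bo H)) = 1 := by
  apply bo_ext
  intro x c
  rw [mop_apply, Finset.sum_eq_single c]
  · rw [Matrix.one_apply_eq]
    rfl
  · intro c' _ hc
    rw [Matrix.one_apply_ne (Ne.symm hc)]
    rfl
  · intro h; exact absurd (Finset.mem_univ _) h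

lemma mop_star [CompleteSpace H] (M : Matrix C C (Bo H)) : star (mop M) = mop Mᴴ := by
  rw [ContinuousLinearMap.star_eq_adjoint]
  symm
  rw [ContinuousLinearMap.eq_adjoint_iff]
  intro x y
  rw [PiLp.inner_apply, PiLp.inner_apply]
  simp only [mop_apply, sum_inner, inner_sum, Matrix.conjTranspose_apply,
    ContinuousLinearMap.star_eq_adjoint, ContinuousLinearMap.adjoint_inner_left]
  rw [Finset.sum_comm]

lemma prj_apply (c : C) (x : HC C H) : prj c x = x c := by
  simp [prj]

lemma inc_apply [DecidableEq C] (c c' : C) (x : H) : (inc c x : HC C H) c' = if c' = c then x else 0 := by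
  simp only [inc, ContinuousLinearMap.comp_apply, ContinuousLinearMap.single_apply]
  change (Pi.single c x : C → H) c' = _
  rw [Pi.single_apply]

lemma prj_mop_inc [DecidableEq C] (M : Matrix C C (Bo H)) (c c' : C) :
    prj c ∘L mop M ∘L inc c' = M c c' := by
  ext x
  rw [ContinuousLinearMap.comp_apply, ContinuousLinearMap.comp_apply, prj_apply, mop_apply,
    Finset.sum_eq_single c']
  · rw [inc_apply, if_pos rfl]
  · intro c'' _ hc
    rw [inc_apply, if_neg hc, map_zero]
  · intro h; exact absurd (Finset.mem_univ _) h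

lemma nrm_sq (x : HC C H) : ‖x‖ ^ 2 = ∑ c, ‖x c‖ ^ 2 := PiLp.norm_sq_eq_of_L2 _ x

lemma norm_comp (x : HC C H) (c : C) : ‖x c‖ ≤ ‖x‖ := by
  have h1 : ‖x c‖ ^ 2 ≤ ‖x‖ ^ 2 := by
    rw [nrm_sq]
    exact Finset.single_le_sum (f := fun c => ‖x c‖ ^ 2) (fun _ _ => by positivity)
      (Finset.mem_univ c)
  exact (sq_le_sq₀ (norm_nonneg _) (norm_nonneg _)).1 h1

lemma norm_le_sum (x : HC C H) : ‖x‖ ≤ ∑ c, ‖x c‖ := by
  have h1 : ‖x‖ ^ 2 ≤ (∑ c, ‖x c‖) ^ 2 := by
    rw [nrm_sq]
    exact Finset.sum_sq_le_sq_sum_of_nonneg (fun _ _ => norm_nonneg _)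
  exact (sq_le_sq₀ (norm_nonneg _) (Finset.sum_nonneg fun _ _ => norm_nonneg _)).1 h1

lemma mop_norm (M : Matrix C C (Bo H)) : ‖mop M‖ ≤ ∑ c, ∑ c', ‖M c c'‖ := by
  apply ContinuousLinearMap.opNorm_le_bound
  · exact Finset.sum_nonneg fun _ _ => Finset.sum_nonneg fun _ _ => norm_nonneg _
  · intro x
    calc ‖mop M x‖ ≤ ∑ c, ‖(mop M x) c‖ := norm_le_sum _
      _ ≤ ∑ c, ∑ c', ‖M c c'‖ * ‖x‖ := by
          apply Finset.sum_le_sum
          intro c _
          rw [mop_apply]
          apply (norm_sum_le _ _).trans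
          apply Finset.sum_le_sum
          intro c' _
          exact ((M c c').le_opNorm _).trans
            (mul_le_mul_of_nonneg_left (norm_comp x c') (norm_nonneg _))
      _ = (∑ c, ∑ c', ‖M c c'‖) * ‖x‖ := by
          rw [Finset.sum_mul]
          simp only [Finset.sum_mul]

end MOPM

open MOPM

theorem specMOP : SpecMOP := by
  intro C H _ _ _ _ _
  exact ⟨mop_apply, mop_one, fun M N => ⟨mop_mul M N, mop_add M N⟩, mop_smul, mop_star,
    prj_mop_inc, nrm_sq, mop_norm⟩

end Pool.Agent.Lib.MP8a3537.AM
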