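import Pool.Agent.Lib.MP_8a3537_gt.AM.Spec2

/-!
# NRM: the operator `B` and the projections (MP_8a3537_gt, folder AM)
-/

set_option linter.unusedVariables false
set_option linter.unusedSectionVars false

namespace Pool.Agent.Lib.MP8a3537.AM

open scoped BigOperators
open Pool.Agent.Lib.MP8a3537.SG
open Filter Topology

namespace NRMM

section gen

variable {E : Type} [NormedAddCommGroup E] [InnerProductSpace ℂ E]

theorem sum_norm_sq {ι : Type} [DecidableEq ι] (A : Finset ι) (a : ι → ℝ) (u : ι → E)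
    (h : ∀ i ∈ A, ∀ j ∈ A, i ≠ j → (inner ℂ (u i) (u j)).re = 0) :
    ‖∑ i ∈ A, (a i : ℂ) • u i‖ ^ 2 = ∑ i ∈ A, a i ^ 2 * ‖u i‖ ^ 2 := by
  have h1 : ‖∑ i ∈ A, (a i : ℂ) • u i‖ ^ 2 = (inner ℂ (∑ i ∈ A, (a i : ℂ) • u i) (∑ i ∈ A, (a i : ℂ) • u i)).re :=
    (inner_self_eq_norm_sq (𝕜 := ℂ) _).symm
  rw [h1, sum_inner, Complex.re_sum]
  refine Finset.sum_congr rfl fun i hi => ?_
  rw [inner_sum, Complex.re_sum, Finset.sum_eq_single i]
  · rw [inner_smul_left, inner_smul_right, Complex.conj_ofReal]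
    have h2 : (inner ℂ (u i) (u i)).re = ‖u i‖ ^ 2 := inner_self_eq_norm_sq (𝕜 := ℂ) _
    rw [Complex.re_ofReal_mul, Complex.re_ofReal_mul, h2]
    ring
  · intro j hj hji
    rw [inner_smul_left, inner_smul_right, Complex.conj_ofReal, Complex.re_ofReal_mul, Complex.re_ofReal_mul,
      h i hi j hj (fun h' => hji h'.symm)]
    ring
  · intro h'
    exact absurd hi h'

end gen

section

variable {X V : Type} [LinearOrder X] [NormedAddCommGroup V] [InnerProductSpace ℂ V] (m : ℕ)

theorem opB_single (w : X → ℝ) (c : Conf m X) (v : V) :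
    opB m V w (Finsupp.single c v) = ∑ x ∈ c.support, ((w x : ℂ) * sx x c) • Finsupp.single (stp x c) v := by
  unfold opB
  rw [Finsupp.lsum_single, LinearMap.sum_apply]
  exact Finset.sum_congr rfl fun x _ => rfl

theorem mon_single {T T' : Type} (f : T → T') (a : T → ℂ) (t : T) (v : V) :
    Mon V f a (Finsupp.single t v) = Finsupp.single (f t) (a t • v) := by
  unfold Mon
  rw [Finsupp.lsum_single, LinearMap.smul_apply]
  exact Finsupp.smul_single _ _ _

theorem opB_eq (w : X → ℝ) (ψ : HS m X V) (A : Finset X) (hA : ∀ c ∈ ψ.support, c.support ⊆ A) :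
    opB m V w ψ = ∑ x ∈ A, (w x : ℂ) • opb m V x ψ := by
  have h0 : ψ = ∑ c ∈ ψ.support, Finsupp.single c (ψ c) := (Finsupp.sum_single ψ).symm
  have h1 : opB m V w ψ = ∑ c ∈ ψ.support, opB m V w (Finsupp.single c (ψ c)) := by
    conv_lhs => rw [h0]
    rw [map_sum]
  have h2 : ∀ x, opb m V x ψ = ∑ c ∈ ψ.support, opb m V x (Finsupp.single c (ψ c)) := by
    intro x
    conv_lhs => rw [h0]
    rw [map_sum]
  rw [h1]
  simp_rw [h2, Finset.smul_sum]
  rw [Finset.sum_comm]
  refine Finset.sum_congr rfl fun c hc => ?_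
  rw [opB_single]
  rw [← Finset.sum_subset (hA c hc) (f := fun x => (w x : ℂ) • opb m V x (Finsupp.single c (ψ c)))]
  · refine Finset.sum_congr rfl fun x hx => ?_
    unfold opb
    rw [mon_single, if_neg (Finsupp.mem_support_iff.mp hx), mul_smul]
    congr 1
    exact Finsupp.smul_single _ _ _
  · intro x _ hx
    unfold opb
    rw [mon_single, if_pos (Finsupp.notMem_support_iff.mp hx), zero_smul, Finsupp.single_zero, smul_zero]

/-- a finite set containing the supports of all configurations in the support -/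
noncomputable def big (ψ : HS m X V) : Finset X := ψ.support.biUnion fun c => c.support

theorem sub_big (ψ : HS m X V) : ∀ c ∈ ψ.support, c.support ⊆ big m ψ := fun c hc =>
  Finset.subset_biUnion_of_mem (fun c : Conf m X => c.support) hc

end

end NRMM

open NRMM in
theorem specNRM (hMON : SpecMON) (hOPS : SpecOPS) (hCNF : SpecCNF) (hSGI : SpecSGI) : SpecNRM := by
  classical
  intro X V _ _ _ m w ψ φ
  have hops : ∀ ψ φ : HS m X V,
      (∀ x y, x ≠ y → opb m V x (opb m V y ψ) = -opb m V y (opb m V x ψ)) ∧ (∀ x, inner ℂ (opb m V x ψ) φ = inner ℂ ψ (opb m V x φ)) ∧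
      (∀ x, opb m V x (opG m V ψ) = -opG m V (opb m V x ψ)) := by
    intro ψ φ
    obtain ⟨-, -, -, -, -, -, -, h1, h2, -, -, -, -, -, -, -, h3, -⟩ := hOPS (Equiv.Perm X) X V m ψ φ
    exact ⟨h1, h2, h3⟩
  obtain ⟨hm1, hm2, -, -, hm5⟩ := hMON V
  have hG : ∀ (ψ : HS m X V) c, opG m V ψ c = gam c • ψ c := fun ψ c => (hm5 _ gam ψ).1 c
  have hP : ∀ (Ω : Finset (Conf m X)) (ψ : HS m X V) c, opP m V Ω ψ c = (if c ∈ Ω then (1 : ℂ) else 0) • ψ c := by
    intro Ω ψ c
    exact (hm5 _ _ ψ).1 c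
  have P2 : ∀ (ψ : HS m X V) (A : Finset X) (a : X → ℝ),
      ‖∑ x ∈ A, (a x : ℂ) • opb m V x ψ‖ ^ 2 = ∑ x ∈ A, a x ^ 2 * ‖opb m V x ψ‖ ^ 2 := by
    intro ψ A a
    refine sum_norm_sq A a _ fun x _ y _ hxy => ?_
    have h1 : inner ℂ (opb m V x ψ) (opb m V y ψ) = inner ℂ ψ (opb m V x (opb m V y ψ)) := (hops ψ _).2.1 x
    have h2 : inner ℂ (opb m V y ψ) (opb m V x ψ) = inner ℂ ψ (opb m V y (opb m V x ψ)) := (hops ψ _).2.1 y
    rw [(hops ψ ψ).1 x y hxy, inner_neg_right, ← h2] at h1
    have h3 := congrArg Complex.re h1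
    rw [Complex.neg_re] at h3
    have h4 : (inner ℂ (opb m V x ψ) (opb m V y ψ)).re = (inner ℂ (opb m V y ψ) (opb m V x ψ)).re := by
      rw [← inner_conj_symm, Complex.conj_re]
    linarith
  have hbb : ∀ (ψ : HS m X V) (x : X), ‖opb m V x ψ‖ ^ 2 = ∑ c ∈ ψ.support, if c x = 0 then 0 else ‖ψ c‖ ^ 2 := by
    intro ψ x
    have h1 : opb m V x (opb m V x ψ) = Mon V (fun c : Conf m X => c) (fun c => if c x = 0 then 0 else 1) ψ := by
      induction ψ using Finsupp.induction_linear with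
      | zero => simp
      | add f g hf hg => rw [map_add, map_add, map_add, hf, hg]
      | single c v =>
        unfold opb
        rw [mon_single, mon_single, mon_single]
        by_cases hc : c x = 0
        · simp [hc]
        · have hc2 : stp x c x ≠ 0 := (hCNF (Equiv.Perm X) X m c).2.2.2.2.2.2.2.2.1 x hc
          have hc3 : stp x (stp x c) = c := (hCNF (Equiv.Perm X) X m c).2.2.2.2.2.1 x hc
          have hc4 : sx x (stp x c) = sx x c := (hSGI (Equiv.Perm X) X m c).1 x hc
          have hc5 : sx x c * sx x c = 1 := ((hSGI (Equiv.Perm X) X m c).2.2.2.2.2.2.2.2.2.2.1 x).1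
          rw [if_neg hc2, if_neg hc, if_neg hc, hc3, hc4, smul_smul, hc5]
    have h2 : ‖opb m V x ψ‖ ^ 2 = (inner ℂ (opb m V x ψ) (opb m V x ψ)).re := (inner_self_eq_norm_sq (𝕜 := ℂ) _).symm
    rw [h2, (hops ψ _).2.1 x, h1, inner_def, fin2, Complex.re_sum]
    refine Finset.sum_congr rfl fun c _ => ?_
    rw [(hm5 _ _ ψ).1 c]
    by_cases hc : c x = 0
    · simp [hc]
    · rw [if_neg hc, if_neg hc, one_smul]
      exact inner_self_eq_norm_sq (𝕜 := ℂ) _
  refine ⟨fun A hA => opB_eq m w ψ A hA, P2 ψ, ?_, ?_, ?_, fun Ω => ⟨?_, ?_, ?_, ?_⟩, ?_, ?_⟩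
  · -- symmetric
    have h1 := opB_eq m w ψ (big m ψ ∪ big m φ) fun c hc => (sub_big m ψ c hc).trans Finset.subset_union_left
    have h2 := opB_eq m w φ (big m ψ ∪ big m φ) fun c hc => (sub_big m φ c hc).trans Finset.subset_union_right
    rw [h1, h2, sum_inner, inner_sum]
    refine Finset.sum_congr rfl fun x _ => ?_
    rw [inner_smul_left, inner_smul_right, Complex.conj_ofReal, (hops ψ φ).2.1 x]
  · -- odd
    have hs : ∀ c ∈ (opG m V ψ).support, c.support ⊆ big m ψ := by
      intro c hc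
      refine sub_big m ψ c (Finsupp.mem_support_iff.mpr fun h => (Finsupp.mem_support_iff.mp hc) ?_)
      rw [hG, h, smul_zero]
    rw [opB_eq m w ψ (big m ψ) (sub_big m ψ), opB_eq m w _ (big m ψ) hs, map_sum, ← Finset.sum_neg_distrib]
    refine Finset.sum_congr rfl fun x _ => ?_
    rw [(hops ψ ψ).2.2 x, smul_neg, map_smul]
  · -- the norm
    rw [opB_eq m w ψ (big m ψ) (sub_big m ψ), P2]
    simp_rw [hbb, Finset.mul_sum]
    rw [Finset.sum_comm]
    refine Finset.sum_congr rfl fun c hc => ?_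
    unfold en
    rw [Finset.sum_mul, ← Finset.sum_subset (sub_big m ψ c hc)]
    · refine Finset.sum_congr rfl fun x hx => ?_
      rw [if_neg (Finsupp.mem_support_iff.mp hx)]
    · intro x _ hx
      rw [if_pos (Finsupp.notMem_support_iff.mp hx), mul_zero]
  · ext c
    rw [hP, hP, smul_smul]
    split_ifs <;> simp
  · rw [inner_def, inner_def]
    have hs : (opP m V Ω ψ).support ⊆ ψ.support := by
      intro c hc
      refine Finsupp.mem_support_iff.mpr fun h => (Finsupp.mem_support_iff.mp hc) ?_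
      rw [hP, h, smul_zero]
    rw [fin2_eq _ _ _ hs, fin2]
    refine Finset.sum_congr rfl fun c _ => ?_
    rw [hP, hP, inner_smul_left, inner_smul_right]
    split_ifs <;> simp
  · ext c
    rw [hP, hG, hG, hP, smul_smul, smul_smul, mul_comm]
  · refine hm2 _ _ _ _ (fun c => ?_) (fun c d _ _ h => h) ψ
    split_ifs <;> simp
  · intro Ω hΩ
    induction ψ using Finsupp.induction_linear with
    | zero => simp
    | add f g hf hg => rw [map_add, map_add, map_add, map_add, hf, hg]
    | single c v =>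
      rw [opB_single, map_sum]
      have h1 : opP m V Ω (Finsupp.single c v) = Finsupp.single c ((if c ∈ Ω then (1 : ℂ) else 0) • v) := mon_single _ _ _ _
      rw [h1, opB_single]
      refine Finset.sum_congr rfl fun x hx => ?_
      rw [map_smul]
      have h2 : opP m V Ω (Finsupp.single (stp x c) v) = Finsupp.single (stp x c) ((if stp x c ∈ Ω then (1 : ℂ) else 0) • v) := mon_single _ _ _ _
      rw [h2]
      have h3 := hΩ c x (Finsupp.mem_support_iff.mp hx)
      simp only [h3]
  · intro c'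
    have h0 : ψ = ∑ c ∈ ψ.support, Finsupp.single c (ψ c) := (Finsupp.sum_single ψ).symm
    conv_lhs => rw [h0]
    rw [map_sum, Finsupp.finsetSum_apply]
    refine Finset.sum_congr rfl fun c _ => ?_
    rw [opB_single, Finsupp.finsetSum_apply]
    unfold bco
    rw [Finset.sum_smul]
    refine Finset.sum_congr rfl fun x _ => ?_
    rw [Finsupp.smul_apply, Finsupp.single_apply]
    split_ifs <;> simp

end Pool.Agent.Lib.MP8a3537.AM
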