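import Pool.Agent.Lib.MP_8a3537_gt.AM.Spec2

/-!
# OPS: the operators of the model (MP_8a3537_gt, folder AM)

All the operators are monomial; the identities are checked on the vectors supported at one configuration.
-/

set_option linter.unusedVariables false

namespace Pool.Agent.Lib.MP8a3537.AM

open scoped BigOperators
open Pool.Agent.Lib.MP8a3537.SG

namespace OPSM

variable {T T' T'' V : Type} [NormedAddCommGroup V] [InnerProductSpace ℂ V]

theorem mon_single (f : T → T') (a : T → ℂ) (t : T) (v : V) :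
    Mon V f a (Finsupp.single t v) = Finsupp.single (f t) (a t • v) := by
  rw [Mon, Finsupp.lsum_single, LinearMap.smul_apply, Finsupp.lsingle_apply, Finsupp.smul_single]

theorem mon_comp (f : T' → T'') (a : T' → ℂ) (g : T → T') (b : T → ℂ) (φ : T →₀ V) :
    Mon V f a (Mon V g b φ) = Mon V (fun t => f (g t)) (fun t => a (g t) * b t) φ := by
  induction φ using Finsupp.induction_linear with
  | zero => simp only [map_zero]
  | add p q hp hq => rw [map_add, map_add, map_add, hp, hq]
  | single t v => rw [mon_single, mon_single, mon_single, smul_smul]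

theorem mon_congr (f g : T → T') (a b : T → ℂ) (h : ∀ t, a t = b t) (h' : ∀ t, a t ≠ 0 → f t = g t) (φ : T →₀ V) :
    Mon V f a φ = Mon V g b φ := by
  induction φ using Finsupp.induction_linear with
  | zero => simp only [map_zero]
  | add p q hp hq => rw [map_add, map_add, hp, hq]
  | single t v =>
    rw [mon_single, mon_single, ← h t]
    by_cases h0 : a t = 0
    · rw [h0, zero_smul, Finsupp.single_zero, Finsupp.single_zero]
    · rw [h' t h0]

theorem mon_neg (f : T → T') (a : T → ℂ) (φ : T →₀ V) :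
    -Mon V f a φ = Mon V f (fun t => -a t) φ := by
  induction φ using Finsupp.induction_linear with
  | zero => rw [map_zero, map_zero, neg_zero]
  | add p q hp hq => rw [map_add, map_add, neg_add, hp, hq]
  | single t v => rw [mon_single, mon_single, neg_smul, Finsupp.single_neg]

theorem mon_one (f : T → T) (a : T → ℂ) (hf : ∀ t, f t = t) (ha : ∀ t, a t = 1) (φ : T →₀ V) : Mon V f a φ = φ := by
  induction φ using Finsupp.induction_linear with
  | zero => rw [map_zero]
  | add p q hp hq => rw [map_add, hp, hq]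
  | single t v => rw [mon_single, hf t, ha t, one_smul]

theorem mon_adj (hMON : SpecMON) (f : T → T') (a : T → ℂ) (g : T' → T) (b : T' → ℂ)
    (h1 : ∀ t, a t ≠ 0 → g (f t) = t ∧ b (f t) = (starRingEnd ℂ) (a t))
    (h2 : ∀ t, b t ≠ 0 → f (g t) = t ∧ a (g t) = (starRingEnd ℂ) (b t)) (φ : T →₀ V) (ψ : T' →₀ V) :
    inner ℂ (Mon V f a φ) ψ = inner ℂ φ (Mon V g b ψ) := by
  classical
  refine (hMON V).2.2.2.1 T T' (Mon V f a) (Mon V g b) (fun t t' v w => ?_) φ ψ
  rw [mon_single, mon_single, inner_single, inner_single]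
  by_cases ha : a t = 0
  · rw [ha, zero_smul, inner_zero_left, ite_self]
    by_cases hb : b t' = 0
    · rw [hb, zero_smul, inner_zero_right, ite_self]
    · rw [if_neg]
      intro h
      have h3 := (h2 t' hb).2
      rw [← h, ha] at h3
      exact hb (by rw [← Complex.conj_conj (b t'), ← h3, map_zero])
  · obtain ⟨h3, h4⟩ := h1 t ha
    by_cases h : f t = t'
    · subst h
      rw [if_pos rfl, if_pos h3.symm, h4, inner_smul_left, inner_smul_right]
    · rw [if_neg h]
      by_cases h5 : t = g t'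
      · have hb : b t' = 0 := by
          by_contra hb
          exact h (by rw [h5]; exact (h2 t' hb).1)
        rw [hb, zero_smul, inner_zero_right, ite_self]
      · rw [if_neg h5]

end OPSM

open OPSM

theorem specOPS (hMON : SpecMON) (hCNF : SpecCNF) (hSGI : SpecSGI) : SpecOPS := by
  classical
  intro G X V _ _ _ _ _ m ψ φ
  have c1 := fun c : Conf m X => (hCNF G X m c).1
  have c2 := fun c : Conf m X => (hCNF G X m c).2.1
  have c3 := fun c : Conf m X => (hCNF G X m c).2.2.1
  have c5 := fun c : Conf m X => (hCNF G X m c).2.2.2.2.1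
  have c6 := fun c : Conf m X => (hCNF G X m c).2.2.2.2.2.1
  have c7 := fun c : Conf m X => (hCNF G X m c).2.2.2.2.2.2.1
  have c8 := fun c : Conf m X => (hCNF G X m c).2.2.2.2.2.2.2.1
  have c9 := fun c : Conf m X => (hCNF G X m c).2.2.2.2.2.2.2.2.1
  have c11 := fun c : Conf m X => (hCNF G X m c).2.2.2.2.2.2.2.2.2.2.1
  have c12 := fun c : Conf m X => (hCNF G X m c).2.2.2.2.2.2.2.2.2.2.2.1
  have c13 := fun c : Conf m X => (hCNF G X m c).2.2.2.2.2.2.2.2.2.2.2.2.1
  have c14 := fun c : Conf m X => (hCNF G X m c).2.2.2.2.2.2.2.2.2.2.2.2.2.1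
  have c15 := fun c : Conf m X => (hCNF G X m c).2.2.2.2.2.2.2.2.2.2.2.2.2.2.1
  have s1 := fun c : Conf m X => (hSGI G X m c).1
  have s2 := fun c : Conf m X => (hSGI G X m c).2.1
  have s3 := fun c : Conf m X => (hSGI G X m c).2.2.1
  have s4 := fun c : Conf m X => (hSGI G X m c).2.2.2.1
  have s5 := fun c : Conf m X => (hSGI G X m c).2.2.2.2.1
  have s6 := fun c : Conf m X => (hSGI G X m c).2.2.2.2.2.1
  have s7 := fun c : Conf m X => (hSGI G X m c).2.2.2.2.2.2.1
  have s8 := fun c : Conf m X => (hSGI G X m c).2.2.2.2.2.2.2.1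
  have s9 := fun c : Conf m X => (hSGI G X m c).2.2.2.2.2.2.2.2.1
  have s10 := fun c : Conf m X => (hSGI G X m c).2.2.2.2.2.2.2.2.2.1
  have s11 := fun c : Conf m X => (hSGI G X m c).2.2.2.2.2.2.2.2.2.2.1
  have s12 := fun c : Conf m X => (hSGI G X m c).2.2.2.2.2.2.2.2.2.2.2.1
  have s13 := fun c : Conf m X => (hSGI G X m c).2.2.2.2.2.2.2.2.2.2.2.2
  have hff : ∀ (A : Finset X) (c : Conf m X), flp A (flp A c) = c := by
    intro A c
    rw [c13, symmDiff_self]
    exact c12 c
  have hact : ∀ (g : G), Function.Injective fun c : Conf m X => act g c := by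
    intro g c c' h
    have h' : act g c = act g c' := h
    have h1 := congrArg (act g⁻¹) h'
    rw [← c3, ← c3, inv_mul_cancel, c2, c2] at h1
    exact h1
  have hst : ∀ (x : X) (c : Conf m X), c x ≠ 0 → stp x c x ≠ 0 := fun x c => c9 c x
  have hox : ∀ (x : X) (c : Conf m X), (if c x = 0 then (0 : ℂ) else sx x c) ≠ 0 → c x ≠ 0 := by
    intro x c h h0
    exact h (if_pos h0)
  refine ⟨?_, ?_, ?_, ?_, ?_, ?_, ?_, ?_, ?_, ?_, ?_, ?_, ?_, ?_, ?_, ?_, ?_, ?_, ?_, ?_⟩
  · -- U_1
    exact mon_one _ _ (fun c => c2 c) (fun c => s5 c) ψ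
  · -- U_gh
    intro g h
    unfold opU
    rw [mon_comp]
    exact mon_congr _ _ _ _ (fun c => s4 c g h) (fun c _ => c3 c g h) ψ
  · -- norm U
    intro g
    exact (hMON V).2.2.1 _ _ _ _ (fun c => (s12 c g).2.2) (hact g) ψ
  · -- F_∅
    exact mon_one _ _ (fun c => c12 c) (fun c => rfl) ψ
  · -- F_A F_B
    intro A B
    unfold opF
    rw [mon_comp]
    exact mon_congr _ _ _ _ (fun c => one_mul _) (fun c _ => c13 c A B) ψ
  · -- norm F
    intro A
    refine (hMON V).2.2.1 _ _ _ _ (fun c => norm_one) ?_ ψ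
    intro c c' h
    have h' : flp A c = flp A c' := h
    rw [← hff A c, h', hff]
  · -- adjoint F
    intro A
    unfold opF
    exact mon_adj hMON _ _ _ _ (fun c _ => ⟨hff A c, (map_one _).symm⟩) (fun c _ => ⟨hff A c, (map_one _).symm⟩) ψ φ
  · -- anticommutation
    intro x y hxy
    unfold opb
    rw [mon_comp, mon_comp, mon_neg]
    refine mon_congr _ _ _ _ (fun c => ?_) (fun c _ => c7 c x y hxy) ψ
    have e1 : stp y c x = c x := by rw [c5, if_neg hxy]
    have e2 : stp x c y = c y := by rw [c5, if_neg (Ne.symm hxy)]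
    show (if stp y c x = 0 then (0 : ℂ) else sx x (stp y c)) * (if c y = 0 then 0 else sx y c) =
      -((if stp x c y = 0 then (0 : ℂ) else sx y (stp x c)) * (if c x = 0 then 0 else sx x c))
    rw [e1, e2]
    by_cases hx : c x = 0
    · rw [if_pos hx, if_pos hx, zero_mul, mul_zero, neg_zero]
    · by_cases hy : c y = 0
      · rw [if_pos hy, if_pos hy, zero_mul, mul_zero, neg_zero]
      · rw [if_neg hx, if_neg hx, if_neg hy, if_neg hy]
        exact s2 c x y hxy hx hy
  · -- adjoint b
    intro x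
    unfold opb
    have key : ∀ c : Conf m X, (if c x = 0 then (0 : ℂ) else sx x c) ≠ 0 →
        stp x (stp x c) = c ∧ (if stp x c x = 0 then (0 : ℂ) else sx x (stp x c)) = (starRingEnd ℂ) (if c x = 0 then 0 else sx x c) := by
      intro c hc
      have h0 := hox x c hc
      refine ⟨c6 c x h0, ?_⟩
      rw [if_neg (hst x c h0), if_neg h0, s1 c x h0, (s11 c x).2.1]
    exact mon_adj hMON _ _ _ _ key key ψ φ
  · -- norm b
    intro x
    refine (hMON V).2.1 _ _ _ _ (fun c => ?_) (fun c c' h h' he => ?_) ψ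
    · by_cases h0 : c x = 0
      · rw [if_pos h0, norm_zero]; exact zero_le_one
      · rw [if_neg h0, (s11 c x).2.2]
    · have he' : stp x c = stp x c' := he
      rw [← c6 c x (hox x c h), he', c6 c' x (hox x c' h')]
  · -- b on vectors supported where c x = 0
    intro x h
    have h1 : ψ = ∑ c ∈ ψ.support, Finsupp.single c (ψ c) := (Finsupp.sum_single ψ).symm
    rw [h1, map_sum]
    refine Finset.sum_eq_zero fun c hc => ?_
    unfold opb
    rw [mon_single, if_pos (h c hc), zero_smul, Finsupp.single_zero]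
  · -- U b
    intro g x
    unfold opb opU
    rw [mon_comp, mon_comp]
    refine mon_congr _ _ _ _ (fun c => ?_) (fun c _ => c8 c g x) ψ
    show sg g (stp x c) * (if c x = 0 then (0 : ℂ) else sx x c) = (if act g c (g • x) = 0 then (0 : ℂ) else sx (g • x) (act g c)) * sg g c
    rw [c1]
    by_cases h0 : c x = 0
    · rw [if_pos h0, if_pos h0, mul_zero, zero_mul]
    · rw [if_neg h0, if_neg h0]
      exact s6 c g x h0
  · -- U F
    intro g A
    unfold opF opU
    rw [mon_comp, mon_comp]
    refine mon_congr _ _ _ _ (fun c => ?_) (fun c _ => c14 c g A) ψ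
    show sg g (flp A c) * 1 = 1 * sg g c
    rw [s10 c g A, mul_one, one_mul]
  · -- F b
    intro A x hx
    unfold opF opb
    rw [mon_comp, mon_comp]
    refine mon_congr _ _ _ _ (fun c => ?_) (fun c _ => c15 c A x hx) ψ
    show (1 : ℂ) * (if c x = 0 then 0 else sx x c) = (if flp A c x = 0 then 0 else sx x (flp A c)) * 1
    rw [c11, if_neg hx, s9 c x A, mul_one, one_mul]
  · -- U Γ
    intro g
    unfold opU opG
    rw [mon_comp, mon_comp]
    refine mon_congr _ _ _ _ (fun c => ?_) (fun c _ => rfl) ψ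
    show sg g c * gam c = gam (act g c) * sg g c
    rw [s7 c g, mul_comm]
  · -- F Γ
    intro A
    unfold opF opG
    rw [mon_comp, mon_comp]
    refine mon_congr _ _ _ _ (fun c => ?_) (fun c _ => rfl) ψ
    show 1 * gam c = gam (flp A c) * 1
    rw [s8 c A, mul_comm]
  · -- b Γ
    intro x
    unfold opb opG
    rw [mon_comp, mon_comp, mon_neg]
    refine mon_congr _ _ _ _ (fun c => ?_) (fun c _ => rfl) ψ
    show (if c x = 0 then (0 : ℂ) else sx x c) * gam c = -(gam (stp x c) * (if c x = 0 then 0 else sx x c))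
    by_cases h0 : c x = 0
    · rw [if_pos h0, zero_mul, mul_zero, neg_zero]
    · rw [if_neg h0, s3 c x h0]
      ring
  · -- Γ Γ
    unfold opG
    rw [mon_comp]
    exact mon_one _ _ (fun c => rfl) (fun c => (s13 c).1) ψ
  · exact (hMON V).2.2.1 _ _ _ _ (fun c => (s13 c).2.2) (fun c c' h => h) ψ
  · unfold opG
    exact mon_adj hMON _ _ _ _ (fun c _ => ⟨rfl, (s13 c).2.1.symm⟩) (fun c _ => ⟨rfl, (s13 c).2.1.symm⟩) ψ φ

end Pool.Agent.Lib.MP8a3537.AM
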