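import Pool.Agent.Lib.MP_8a3537_gt.AM.SpecC
import Pool.Agent.Lib.MP_8a3537_gt.TW.CSA

/-!
# PAT: the trace of the sign is constant along a continuous path of gapped elements
-/

set_option linter.unusedVariables false

namespace Pool.Agent.Lib.MP8a3537.AM

open Pool.Agent.Lib.MP8a3537.SG Pool.Agent.Lib.MP8a3537.TW
open Filter Topology
open scoped BigOperators Matrix ComplexOrder InnerProductSpace

namespace PATM

lemma unif {A : Type} [CStarAlgebra A] (X : ℝ → A) (hX : Continuous X) (η : ℝ) (hη : 0 < η) :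
    ∃ r : ℕ, 0 < r ∧ ∀ i : ℕ, i < r → ‖X ((i : ℝ) / r) - X (((i + 1 : ℕ) : ℝ) / r)‖ ≤ η := by
  have h1 : UniformContinuousOn X (Set.Icc (0 : ℝ) 1) :=
    isCompact_Icc.uniformContinuousOn_of_continuous hX.continuousOn
  rw [Metric.uniformContinuousOn_iff_le] at h1
  obtain ⟨δ, hδ, h2⟩ := h1 η hη
  obtain ⟨n, hn⟩ := exists_nat_one_div_lt hδ
  refine ⟨n + 1, Nat.succ_pos n, fun i hi => ?_⟩
  have hn0 : (0 : ℝ) < ((n + 1 : ℕ) : ℝ) := by positivity
  have hi1 : ((i : ℕ) : ℝ) + 1 ≤ ((n + 1 : ℕ) : ℝ) := by exact_mod_cast hi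
  have hi0 : (0 : ℝ) ≤ (i : ℝ) := Nat.cast_nonneg i
  have a1 : ((i : ℝ) / ((n + 1 : ℕ) : ℝ)) ∈ Set.Icc (0 : ℝ) 1 := by
    constructor
    · positivity
    · rw [div_le_one hn0]; linarith
  have a2 : (((i + 1 : ℕ) : ℝ) / ((n + 1 : ℕ) : ℝ)) ∈ Set.Icc (0 : ℝ) 1 := by
    constructor
    · positivity
    · rw [div_le_one hn0]; push_cast; push_cast at hi1; linarith
  have h3 := h2 _ a1 _ a2 (by
    rw [Real.dist_eq]
    have : ((i : ℝ) / ((n + 1 : ℕ) : ℝ)) - (((i + 1 : ℕ) : ℝ) / ((n + 1 : ℕ) : ℝ)) = -(1 / ((n + 1 : ℕ) : ℝ)) := by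
      push_cast
      field_simp
      ring
    rw [this, abs_neg, abs_of_pos (by positivity)]
    push_cast
    exact hn.le)
  rw [dist_eq_norm] at h3
  exact h3

end PATM

theorem specPAT (hCST : SpecCST) : SpecPAT := by
  intro b β hb hβ A _ A0 T hT X hX hc s s' hs hs'
  obtain ⟨η, hη, hC⟩ := hCST b β hb hβ
  obtain ⟨r, hr, hU⟩ := PATM.unif X hc η hη
  have hr0 : (0 : ℝ) < (r : ℝ) := by exact_mod_cast hr
  have hmem : ∀ i : ℕ, i ≤ r → 0 ≤ (i : ℝ) / r ∧ (i : ℝ) / r ≤ 1 := by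
    intro i hi
    have : (i : ℝ) ≤ r := by exact_mod_cast hi
    exact ⟨by positivity, by rw [div_le_one hr0]; exact this⟩
  have key : ∀ i : ℕ, i ≤ r → ∀ u : A, Sg (X ((i : ℝ) / r)) u → T s = T u := by
    intro i
    induction i with
    | zero =>
      intro _ u hu
      have h0 : ((0 : ℕ) : ℝ) / (r : ℝ) = 0 := by simp
      rw [h0] at hu
      have g := hX 0 le_rfl zero_le_one
      exact hC A A0 T hT (X 0) (X 0) s u g.1 g.1 g.2 g.2 (by rw [sub_self, norm_zero]; exact hη.le) hs hu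
    | succ i ih =>
      intro hi u hu
      have hi' : i ≤ r := Nat.le_of_succ_le hi
      have g := hX _ (hmem i hi').1 (hmem i hi').2
      have g' := hX _ (hmem (i + 1) hi).1 (hmem (i + 1) hi).2
      obtain ⟨hsa, hn, x', hx1, hx2, hx3⟩ := g.2
      obtain ⟨w, hw⟩ := CSAM.exist (X ((i : ℝ) / r)) hsa ⟨⟨_, x', hx1, hx2⟩, rfl⟩
      have e1 := ih hi' w hw
      rw [e1]
      exact hC A A0 T hT _ _ w u g.1 g'.1 g.2 g'.2 (hU i hi) hw hu
  have hlast : (r : ℝ) / (r : ℝ) = 1 := div_self hr0.ne'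
  exact key r le_rfl s' (by rw [hlast]; exact hs')

end Pool.Agent.Lib.MP8a3537.AM
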