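import Pool.Agent.Lib.MP_8a3537_gt.AM.SpecC

/-!
# PCM: the operator `sum b_x` commutes with the representation at `ζ = 1`
-/

set_option linter.unusedVariables false

namespace Pool.Agent.Lib.MP8a3537.AM

open Pool.Agent.Lib.MP8a3537.SG Pool.Agent.Lib.MP8a3537.TW
open scoped BigOperators

namespace PCMM

variable {G X : Type} [Group G] [MulAction G X] [LinearOrder X] {m : ℕ}

open Classical in
theorem sum_left (Ω : Finset (Conf m X)) (F : Conf m X → ℂ) (a : Conf m X) (s : ℂ) :
    ∑ d : Ω, F (d : Conf m X) * (if a = (d : Conf m X) then s else 0) =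
      if a ∈ Ω then F a * s else 0 := by
  rw [Finset.sum_coe_sort Ω (fun d => F d * (if a = d then s else 0))]
  simp only [mul_ite, mul_zero, Finset.sum_ite_eq]

open Classical in
theorem bco_eq (w : X → ℝ) (c' c : Conf m X) :
    bco m w c' c = ∑ x ∈ c.support, if stp x c = c' then (w x : ℂ) * sx x c else 0 := rfl

open Classical in
theorem sum_right (Ω : Finset (Conf m X)) (F : Conf m X → ℂ) (w : X → ℝ) (c : Conf m X)
    (h : ∀ x ∈ c.support, stp x c ∈ Ω) :
    ∑ d : Ω, F (d : Conf m X) * bco m w (d : Conf m X) c =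
      ∑ x ∈ c.support, F (stp x c) * ((w x : ℂ) * sx x c) := by
  rw [Finset.sum_coe_sort Ω (fun d => F d * bco m w d c)]
  simp only [bco_eq, Finset.mul_sum]
  rw [Finset.sum_comm]
  refine Finset.sum_congr rfl fun x hx => ?_
  simp only [mul_ite, mul_zero, Finset.sum_ite_eq]
  rw [if_pos (h x hx)]

theorem sum_act (g : G) (c : Conf m X) (F : X → ℂ) :
    ∑ z ∈ (act g c).support, F z = ∑ x ∈ c.support, F (g • x) := by
  have : (act g c).support = c.support.map (MulAction.toPerm g).toEmbedding := rfl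
  rw [this, Finset.sum_map]
  rfl

end PCMM

open PCMM in
theorem specPCM (hCNF : SpecCNF) (hSGI : SpecSGI) (hVCO : SpecVCO) : SpecPCM := by
  intro G X _ _ _ m D Ω hΩ g
  classical
  ext c' c
  simp only [Matrix.mul_apply, Matrix.of_apply]
  have hv : ∀ d e : Conf m X, vco m D 1 g e d = if act g d = e then sg g d else 0 := by
    intro d e
    rw [(hVCO G X m D 1 g (fun _ => 1) d e).1]
  have hL : ∑ d : Ω, bco m (fun _ => (1 : ℝ)) (c' : Conf m X) d * vco m D 1 g (d : Conf m X) c =
      if act g (c : Conf m X) ∈ Ω then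
        bco m (fun _ => (1 : ℝ)) (c' : Conf m X) (act g (c : Conf m X)) * sg g (c : Conf m X)
      else 0 := by
    simp only [hv]
    exact sum_left Ω (fun d => bco m (fun _ => (1 : ℝ)) (c' : Conf m X) d) (act g (c : Conf m X))
      (sg g (c : Conf m X))
  have hR : ∑ d : Ω, vco m D 1 g (c' : Conf m X) d * bco m (fun _ => (1 : ℝ)) (d : Conf m X) c =
      ∑ x ∈ (c : Conf m X).support, (if stp (g • x) (act g (c : Conf m X)) = (c' : Conf m X) then
        sx (g • x) (act g (c : Conf m X)) * sg g (c : Conf m X) else 0) := by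
    rw [sum_right Ω (fun d => vco m D 1 g (c' : Conf m X) d) (fun _ => (1 : ℝ)) (c : Conf m X)
      (fun x hx => (hΩ (c : Conf m X) x (Finsupp.mem_support_iff.1 hx)).1 c.2)]
    refine Finset.sum_congr rfl fun x hx => ?_
    have hx0 : (c : Conf m X) x ≠ 0 := Finsupp.mem_support_iff.1 hx
    have h1 := (hCNF G X m (c : Conf m X)).2.2.2.2.2.2.2.1 g x
    have h2 := (hSGI G X m (c : Conf m X)).2.2.2.2.2.1 g x hx0
    rw [hv, h1, Complex.ofReal_one, one_mul, ite_mul, zero_mul, h2]
  rw [hL, hR]
  by_cases hmem : act g (c : Conf m X) ∈ Ω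
  · rw [if_pos hmem, bco_eq, sum_act, Finset.sum_mul]
    refine Finset.sum_congr rfl fun x _ => ?_
    rw [ite_mul, zero_mul, Complex.ofReal_one, one_mul]
  · rw [if_neg hmem]
    symm
    refine Finset.sum_eq_zero fun x hx => if_neg fun heq => hmem ?_
    have hx0 : (c : Conf m X) x ≠ 0 := Finsupp.mem_support_iff.1 hx
    have h3 : act g (c : Conf m X) (g • x) ≠ 0 := by
      rw [(hCNF G X m (c : Conf m X)).1 g x]
      exact hx0
    refine (hΩ (act g (c : Conf m X)) (g • x) h3).2 ?_
    rw [heq]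
    exact c'.2

end Pool.Agent.Lib.MP8a3537.AM
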