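import Pool.Agent.Lib.MP_8a3537_gt.AM.SpecC
import Pool.Agent.Lib.MP_8a3537_gt.SG.SCA

/-!
# MP_8a3537_gt, block C, module POL: the error beats every polynomial
-/

set_option linter.unusedVariables false

namespace Pool.Agent.Lib.MP8a3537.AM

open Pool.Agent.Lib.MP8a3537.SG Pool.Agent.Lib.MP8a3537.TW
open Filter Topology

theorem specPOL : SpecPOL := by
  intro e a c he he1 hc
  obtain ⟨j0, hj0⟩ := (specSCA e he he1).2.2
  rw [← tendsto_add_atTop_iff_nat j0]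
  have h1 : Tendsto (fun i : ℕ => ((2 ^ i : ℕ) : ℝ) ^ (2 * a) / 2 ^ (2 ^ i)) atTop (𝓝 0) :=
    (tendsto_pow_const_div_const_pow_of_one_lt (2 * a) (r := 2) (by norm_num)).comp
      (tendsto_pow_atTop_atTop_of_one_lt (by norm_num))
  have h2 : Tendsto (fun i : ℕ => c * (3 ^ (j0 + 1)) ^ a *
      (((2 ^ i : ℕ) : ℝ) ^ (2 * a) / 2 ^ (2 ^ i))) atTop (𝓝 0) := by
    have := h1.const_mul (c * (3 ^ (j0 + 1)) ^ a)
    rwa [mul_zero] at this
  refine squeeze_zero (fun i => ?_) (fun i => ?_) h2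
  · have := ((specSCA e he he1).2.1 (i + j0)).1
    positivity
  · have hd := hj0 i
    rw [add_comm j0 i] at hd
    have hd0 := ((specSCA e he he1).2.1 (i + j0)).1
    have h3 : (2 * 3 ^ (i + j0) + 1 : ℝ) ≤ 3 ^ (j0 + 1) * 3 ^ i := by
      have h4 : (1 : ℝ) ≤ 3 ^ (i + j0) := one_le_pow₀ (by norm_num)
      have h5 : (3 : ℝ) ^ (j0 + 1) * 3 ^ i = 3 * 3 ^ (i + j0) := by ring
      rw [h5]
      linarith
    have h6 : (2 * 3 ^ (i + j0) + 1 : ℝ) ^ a ≤ (3 ^ (j0 + 1)) ^ a * ((2 ^ i : ℕ) : ℝ) ^ (2 * a) := by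
      refine (pow_le_pow_left₀ (by positivity) h3 a).trans ?_
      rw [mul_pow]
      refine mul_le_mul_of_nonneg_left ?_ (by positivity)
      have h7 : (3 : ℝ) ^ i ≤ ((2 ^ i : ℕ) : ℝ) ^ 2 := by
        push_cast
        rw [← pow_mul, mul_comm i 2, pow_mul]
        exact pow_le_pow_left₀ (by norm_num) (by norm_num) i
      calc ((3 : ℝ) ^ i) ^ a ≤ (((2 ^ i : ℕ) : ℝ) ^ 2) ^ a := pow_le_pow_left₀ (by positivity) h7 a
        _ = ((2 ^ i : ℕ) : ℝ) ^ (2 * a) := by rw [← pow_mul]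
    have h8 : ((1 : ℝ) / 2) ^ (2 ^ i) = 1 / 2 ^ (2 ^ i) := by rw [one_div_pow]
    rw [h8] at hd
    calc c * (2 * 3 ^ (i + j0) + 1) ^ a * del e (i + j0)
        ≤ c * ((3 ^ (j0 + 1)) ^ a * ((2 ^ i : ℕ) : ℝ) ^ (2 * a)) * (1 / 2 ^ (2 ^ i)) := by
          refine mul_le_mul (mul_le_mul_of_nonneg_left h6 hc) hd hd0 (by positivity)
      _ = c * (3 ^ (j0 + 1)) ^ a * (((2 ^ i : ℕ) : ℝ) ^ (2 * a) / 2 ^ (2 ^ i)) := by ring

end Pool.Agent.Lib.MP8a3537.AM
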