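import Pool.Agent.Lib.MP_8a3537_gt.AM.SpecC

/-!
# Module RSA: the estimate of section 3
-/

set_option linter.unusedVariables false
set_option autoImplicit false

namespace Pool.Agent.Lib.MP8a3537.AM

open Pool.Agent.Lib.MP8a3537.SG Pool.Agent.Lib.MP8a3537.TW
open scoped BigOperators Matrix ComplexOrder InnerProductSpace

namespace RSAM

section

variable {C H : Type} [Fintype C] [DecidableEq C] [NormedAddCommGroup H] [InnerProductSpace ℂ H]

theorem prj_apply (c : C) (x : HC C H) : prj c x = x c := rfl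

theorem inc_apply (c c' : C) (h : H) : (inc c h : HC C H) c' = if c' = c then h else 0 := by
  change (Pi.single c h : C → H) c' = _
  rw [Pi.single_apply]

theorem hc_ext {x y : HC C H} (h : ∀ c, x c = y c) : x = y := PiLp.ext h

theorem inner_hc (x y : HC C H) : inner ℂ x y = ∑ c, inner ℂ (x c) (y c) := PiLp.inner_apply x y

theorem inner_inc (c : C) (h : H) (x : HC C H) : inner ℂ (inc c h : HC C H) x = inner ℂ h (x c) := by
  rw [inner_hc, Finset.sum_eq_single c]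
  · rw [inc_apply, if_pos rfl]
  · intro c' _ hc
    rw [inc_apply, if_neg hc, inner_zero_left]
  · intro h
    exact absurd (Finset.mem_univ c) h

theorem norm_inc (c : C) (h : H) : ‖(inc c h : HC C H)‖ = ‖h‖ := by
  have e : ‖(inc c h : HC C H)‖ ^ 2 = ‖h‖ ^ 2 := by
    rw [← inner_self_eq_norm_sq (𝕜 := ℂ), inner_inc, inc_apply, if_pos rfl,
      inner_self_eq_norm_sq]
  exact (sq_eq_sq₀ (norm_nonneg _) (norm_nonneg _)).mp e

theorem norm_inc_add (c : C) (h : H) (z : HC C H) (hz : z c = 0) :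
    ‖(inc c h : HC C H) + z‖ ^ 2 = ‖h‖ ^ 2 + ‖z‖ ^ 2 := by
  rw [@norm_add_sq ℂ, inner_inc, hz, inner_zero_right, norm_inc]
  simp

theorem ev_single {G : Type} [Group G] (g : G) (a : Bo H) : ev (MonoidAlgebra.single g a) = a := by
  change MonoidAlgebra.liftNC _ _ (MonoidAlgebra.single g a) = a
  rw [MonoidAlgebra.liftNC_single]
  simp

theorem ev_sum {G : Type} [Group G] (Θ : MonoidAlgebra (Bo H) G) :
    ev Θ = ∑ g ∈ Θ.coeff.support, Θ.coeff g := by
  conv_lhs => rw [← MonoidAlgebra.sum_coeff_single Θ]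
  rw [Finsupp.sum, map_sum]
  exact Finset.sum_congr rfl fun g _ => ev_single g _

theorem sca_mul (A B : Matrix C C ℂ) : (sca A * sca B : Matrix C C (Bo H)) = sca (A * B) := by
  ext1 c c'
  rw [Matrix.mul_apply]
  simp only [sca, Matrix.map_apply, Matrix.mul_apply]
  rw [Finset.sum_smul]
  exact Finset.sum_congr rfl fun d _ => by rw [smul_mul_smul_comm, one_mul]

theorem sca_add (A B : Matrix C C ℂ) : (sca A + sca B : Matrix C C (Bo H)) = sca (A + B) := by
  ext1 c c'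
  simp only [sca, Matrix.map_apply, Matrix.add_apply]
  rw [add_smul]

end

section

variable {C H : Type} [Fintype C] [DecidableEq C] [NormedAddCommGroup H] [InnerProductSpace ℂ H]
  [CompleteSpace H]

theorem sca_herm (A : Matrix C C ℂ) (hA : A.IsHermitian) :
    (sca A : Matrix C C (Bo H))ᴴ = sca A := by
  ext1 c c'
  rw [Matrix.conjTranspose_apply]
  simp only [sca, Matrix.map_apply]
  rw [star_smul, star_one]
  congr 1
  exact hA.apply c c'

theorem sca_apply (hM : SpecMOP) (A : Matrix C C ℂ) (x : HC C H) (c : C) :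
    (mop (sca A) x) c = ∑ c', A c c' • x c' := by
  rw [(hM C H).1]
  rfl

/-- the quadratic form of a diagonal -/
theorem diag_form (hM : SpecMOP) (w : C → ℝ) (x : HC C H) :
    (inner ℂ x (mop (sca (Matrix.diagonal fun c => (w c : ℂ))) x)).re = ∑ c, w c * ‖x c‖ ^ 2 := by
  rw [inner_hc, Complex.re_sum]
  refine Finset.sum_congr rfl fun c _ => ?_
  rw [sca_apply hM, Finset.sum_eq_single c]
  · rw [Matrix.diagonal_apply_eq, inner_smul_right, Complex.re_ofReal_mul]
    exact congrArg _ (inner_self_eq_norm_sq (𝕜 := ℂ) (x c))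
  · intro d _ hd
    rw [Matrix.diagonal_apply_ne _ (Ne.symm hd), zero_smul]
  · intro h
    exact absurd (Finset.mem_univ c) h

/-- the anticommutator -/
theorem anti_mat {G : Type} [Group G] (v : G → Matrix C C ℂ) (B Bp : Matrix C C ℂ) (sg : C → ℂ)
    (w : C → ℝ) (hcom : ∀ g, Bp * v g = v g * Bp)
    (hodd : ∀ c c', sg c * Bp c c' = -(Bp c c' * sg c'))
    (hanti : Bp * B + B * Bp = Matrix.diagonal fun c => (w c : ℂ)) (Θ : MonoidAlgebra (Bo H) G) :
    sca Bp * Lm v sg B Θ + Lm v sg B Θ * sca Bp = sca (Matrix.diagonal fun c => (w c : ℂ)) := by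
  have e : Lm v sg B Θ = (∑ g ∈ Θ.coeff.support,
      (Matrix.of fun c c' => (v g c c' * sg c') • Θ.coeff g)) + sca B := by
    ext1 c c'
    rw [Matrix.add_apply, Matrix.sum_apply]
    rfl
  rw [e, mul_add, add_mul, Finset.mul_sum, Finset.sum_mul]
  have hg : ∀ g ∈ Θ.coeff.support,
      sca Bp * (Matrix.of fun c c' => (v g c c' * sg c') • Θ.coeff g : Matrix C C (Bo H)) =
        -((Matrix.of fun c c' => (v g c c' * sg c') • Θ.coeff g : Matrix C C (Bo H)) * sca Bp) := by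
    intro g _
    ext1 c c'
    rw [Matrix.neg_apply, Matrix.mul_apply, Matrix.mul_apply]
    simp only [sca, Matrix.map_apply, Matrix.of_apply]
    have h1 : ∀ d, (Bp c d • (1 : Bo H)) * ((v g d c' * sg c') • Θ.coeff g) =
        (Bp c d * (v g d c' * sg c')) • Θ.coeff g := fun d => by
      rw [smul_mul_smul_comm, one_mul]
    have h2 : ∀ d, ((v g c d * sg d) • Θ.coeff g) * (Bp d c' • (1 : Bo H)) =
        ((v g c d * sg d) * Bp d c') • Θ.coeff g := fun d => by
      rw [smul_mul_smul_comm, mul_one]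
    simp only [h1, h2]
    rw [← Finset.sum_smul, ← Finset.sum_smul, ← neg_smul]
    congr 1
    have h3 : ∀ d, (v g c d * sg d) * Bp d c' = -(v g c d * Bp d c' * sg c') := fun d => by
      rw [mul_assoc, hodd]
      ring
    simp only [h3]
    have h4 : ∑ i, v g c i * Bp i c' = ∑ d, Bp c d * v g d c' := by
      have h5 := congrFun (congrFun (hcom g) c) c'
      rw [Matrix.mul_apply, Matrix.mul_apply] at h5
      exact h5.symm
    rw [Finset.sum_neg_distrib, neg_neg, ← Finset.sum_mul, h4, Finset.sum_mul]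
    exact Finset.sum_congr rfl fun d _ => by ring
  rw [Finset.sum_congr rfl hg, Finset.sum_neg_distrib]
  have e2 : ∀ X Y Z : Matrix C C (Bo H), -X + Y + (X + Z) = Y + Z := fun X Y Z => by abel
  rw [e2, sca_mul, sca_mul, sca_add, hanti]

end

/-- entries of `L` at the empty configuration -/
theorem entries {G : Type} [Group G] {S : Finset G} {C0 C1 b β : ℝ} {m : ℕ} {C : Type} [Fintype C]
    [DecidableEq C] {c0 : C} {v : ℝ → G → Matrix C C ℂ} {B Bp : Matrix C C ℂ} {sg : C → ℂ}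
    {p w : C → ℝ} {Q : Type} [MulAction G Q] {n : C → Fin (2 * m) → Q}
    (hD : Mod S C0 C1 b β m C c0 v B Bp sg p w Q n) {H : Type} [NormedAddCommGroup H]
    [InnerProductSpace ℂ H] (Θ : MonoidAlgebra (Bo H) G) :
    (∀ c, Lm (v 0) sg B Θ c c0 = if c = c0 then ev Θ else 0) ∧
      (∀ c, Lm (v 0) sg B Θ c0 c = if c = c0 then ev Θ else 0) ∧
      (∀ c, Bp c0 c = 0) := by
  have hB : ∀ c, B c0 c = 0 := fun c => by
    rw [← hD.bher.apply, hD.b0, star_zero]
  have hP : ∀ c, Bp c0 c = 0 := fun c => by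
    rw [← hD.pher.apply, hD.p0, star_zero]
  refine ⟨fun c => ?_, fun c => ?_, hP⟩
  · by_cases hc : c = c0
    · subst hc
      rw [if_pos rfl]
      simp only [Lm, Matrix.of_apply]
      rw [hD.b0, zero_smul, add_zero, ev_sum]
      exact Finset.sum_congr rfl fun g _ => by rw [hD.v00, hD.s0, one_mul, one_smul]
    · rw [if_neg hc]
      simp only [Lm, Matrix.of_apply]
      rw [hD.b0, zero_smul, add_zero]
      exact Finset.sum_eq_zero fun g _ => by rw [(hD.v0r g c hc).1, zero_mul, zero_smul]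
  · by_cases hc : c = c0
    · subst hc
      rw [if_pos rfl]
      simp only [Lm, Matrix.of_apply]
      rw [hD.b0, zero_smul, add_zero, ev_sum]
      exact Finset.sum_congr rfl fun g _ => by rw [hD.v00, hD.s0, one_mul, one_smul]
    · rw [if_neg hc]
      simp only [Lm, Matrix.of_apply]
      rw [hB, zero_smul, add_zero]
      exact Finset.sum_eq_zero fun g _ => by rw [(hD.v0r g c hc).2, zero_mul, zero_smul]

theorem real_est (b t : ℝ) (hb : 0 < b) (h0 : 0 ≤ t) (h1 : t ≤ 1) (a X0 X1 P Q R Y x : ℝ)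
    (hX0 : 0 ≤ X0) (ha : b ^ 2 * X0 ≤ a) (hX1 : 0 ≤ X1) (hP : b ^ 2 * X1 ≤ P) (hQ : X1 ≤ Q) (hR : 0 ≤ R)
    (hx : x = X0 + X1) (hY : Y = a + ((1 - t) ^ 2 * P + t ^ 2 * Q + t * (1 - t) * R)) :
    (min b 1 / 2) ^ 2 * x ≤ Y := by
  set μ := min b 1 with hμ
  have h2 : μ ≤ b := min_le_left _ _
  have h3 : μ ≤ 1 := min_le_right _ _
  have h4 : 0 < μ := lt_min hb one_pos
  have h5 : μ ^ 2 ≤ b ^ 2 := pow_le_pow_left₀ h4.le h2 2
  have h6 : μ ^ 2 ≤ 1 := by nlinarith
  have h7 : 0 ≤ t * (1 - t) * R := mul_nonneg (mul_nonneg h0 (by linarith)) hR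
  have h8 : (1 - t) ^ 2 * (μ ^ 2 * X1) ≤ (1 - t) ^ 2 * P :=
    mul_le_mul_of_nonneg_left ((mul_le_mul_of_nonneg_right h5 hX1).trans hP) (sq_nonneg _)
  have h9 : t ^ 2 * (μ ^ 2 * X1) ≤ t ^ 2 * Q := by
    refine mul_le_mul_of_nonneg_left (le_trans ?_ hQ) (sq_nonneg _)
    nlinarith
  have h10 : μ ^ 2 * X0 ≤ a := (mul_le_mul_of_nonneg_right h5 hX0).trans ha
  have h11 : 1 / 4 ≤ (1 - t) ^ 2 + t ^ 2 := by nlinarith [sq_nonneg (2 * t - 1)]
  have h12 : 0 ≤ μ ^ 2 * X1 := mul_nonneg (sq_nonneg _) hX1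
  have h13 : 0 ≤ μ ^ 2 * X0 := mul_nonneg (sq_nonneg _) hX0
  rw [hx, hY]
  have h14 : 1 / 4 * (μ ^ 2 * X1) ≤ ((1 - t) ^ 2 + t ^ 2) * (μ ^ 2 * X1) :=
    mul_le_mul_of_nonneg_right h11 h12
  nlinarith

end RSAM

open RSAM in
theorem specRSA (hM : SpecMOP) (hL : SpecLHM) : SpecRSA := by
  intro G _ S C0 C1 b β m C _ _ c0 v B Bp sg p w Q _ n hb hβ hD H _ _ _ Θ Θ' hΘ hn1 hsup hC0 hC1
  obtain ⟨hc1, hc2, hP⟩ := entries hD Θ
  obtain ⟨m1, m2, m3, m4, m5, m6, m7, m8⟩ := hM C H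
  set L := mop (Lm (v 0) sg B Θ) with hLdef
  have hLs : IsSelfAdjoint L := (hL G S C0 C1 b β m C c0 v B Bp sg p w Q n hD H Θ hΘ).1 0
  -- `L` on the corner
  have hLinc : ∀ h : H, L (inc c0 h) = inc c0 (ev Θ h) := fun h => by
    refine hc_ext fun c => ?_
    rw [hLdef, m1, inc_apply, Finset.sum_eq_single c0]
    · rw [inc_apply, if_pos rfl, hc1]
      split_ifs <;> simp
    · intro d _ hd
      rw [inc_apply, if_neg hd, map_zero]
    · intro h
      exact absurd (Finset.mem_univ c0) h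
  have hLc0 : ∀ x : HC C H, (L x) c0 = ev Θ (x c0) := fun x => by
    rw [hLdef, m1, Finset.sum_eq_single c0]
    · rw [hc2, if_pos rfl]
    · intro d _ hd
      rw [hc2, if_neg hd]
      simp
    · intro h
      exact absurd (Finset.mem_univ c0) h
  set P := (mop (sca Bp) : Bo (HC C H)) with hPdef
  have hPinc : ∀ h : H, P (inc c0 h) = 0 := fun h => by
    refine hc_ext fun c => ?_
    rw [hPdef, sca_apply hM, Finset.sum_eq_single c0]
    · rw [hD.p0, zero_smul]
      rfl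
    · intro d _ hd
      rw [inc_apply, if_neg hd, smul_zero]
    · intro h
      exact absurd (Finset.mem_univ c0) h
  have hPc0 : ∀ x : HC C H, (P x) c0 = 0 := fun x => by
    rw [hPdef, sca_apply hM]
    exact Finset.sum_eq_zero fun d _ => by rw [hP, zero_smul]
  have hPs : star P = P := by rw [hPdef, m5, sca_herm _ hD.pher]
  refine ⟨?_, ?_, ?_, ?_, ?_⟩
  · ext1 x
    exact hLinc (x c0)
  · ext1 x
    exact congrArg (inc c0) (hLc0 x)
  · ext1 x
    exact hPinc (x c0)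
  · ext1 x
    have e : ((inc c0 ∘L prj c0 : Bo (HC C H)) * P) x = inc c0 ((P x) c0) := rfl
    rw [e, hPc0, map_zero]
    rfl
  · intro t ht0 ht1 x
    set x1 : HC C H := x - inc c0 (x c0) with hx1
    have hx1c : x1 c0 = 0 := by
      have e : x1 c0 = x c0 - (inc c0 (x c0) : HC C H) c0 := rfl
      rw [e, inc_apply, if_pos rfl, sub_self]
    have hxx : x = inc c0 (x c0) + x1 := by rw [hx1, add_sub_cancel]
    have hPx : P x = P x1 := by
      conv_lhs => rw [hxx]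
      rw [map_add, hPinc, zero_add]
    set z : HC C H := ((1 - t : ℝ) : ℂ) • L x1 + (t : ℂ) • P x1 with hz
    have hzc : z c0 = 0 := by
      have e : z c0 = ((1 - t : ℝ) : ℂ) • (L x1) c0 + (t : ℂ) • (P x1) c0 := rfl
      rw [e, hLc0, hx1c, map_zero, hPc0, smul_zero, smul_zero, add_zero]
    have hy : ((inc c0 ∘L ev Θ ∘L prj c0) + ((1 - t : ℝ) : ℂ) • (L * (1 - inc c0 ∘L prj c0)) +
        (t : ℂ) • P : Bo (HC C H)) x = inc c0 (ev Θ (x c0)) + z := by
      have e : ((inc c0 ∘L ev Θ ∘L prj c0) + ((1 - t : ℝ) : ℂ) • (L * (1 - inc c0 ∘L prj c0)) +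
        (t : ℂ) • P : Bo (HC C H)) x = inc c0 (ev Θ (x c0)) + ((1 - t : ℝ) : ℂ) • L x1 +
          (t : ℂ) • P x := rfl
      rw [e, hPx, hz, add_assoc]
    have hgap := hD.gap H Θ Θ' hΘ hn1 hsup hC0 hC1 0
    have hn : ‖inc c0 (ev Θ (x c0)) + z‖ ^ 2 = ‖ev Θ (x c0)‖ ^ 2 + ‖z‖ ^ 2 :=
      norm_inc_add c0 _ z hzc
    have hnx : ‖x‖ ^ 2 = ‖x c0‖ ^ 2 + ‖x1‖ ^ 2 := by
      conv_lhs => rw [hxx]
      exact norm_inc_add c0 _ x1 hx1c
    have hz2 : ‖z‖ ^ 2 = (1 - t) ^ 2 * ‖L x1‖ ^ 2 + t ^ 2 * ‖P x1‖ ^ 2 +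
        t * (1 - t) * (2 * (inner ℂ (L x1) (P x1)).re) := by
      rw [hz, @norm_add_sq ℂ, norm_smul, norm_smul, inner_smul_left, inner_smul_right,
        Complex.norm_real, Complex.norm_real, Complex.conj_ofReal, mul_pow, mul_pow,
        Real.norm_eq_abs, Real.norm_eq_abs, sq_abs, sq_abs, ← mul_assoc, ← Complex.ofReal_mul]
      have e : (RCLike.re ((((1 - t) * t : ℝ) : ℂ) * inner ℂ (L x1) (P x1)) : ℝ) =
          (1 - t) * t * (inner ℂ (L x1) (P x1)).re := by
        rw [← Complex.re_ofReal_mul]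
        rfl
      rw [e]
      ring
    -- the cross term
    have hLadj : ∀ a c : HC C H, inner ℂ (L a) c = inner ℂ a (L c) := fun a c => by
      rw [← ContinuousLinearMap.adjoint_inner_right, ← ContinuousLinearMap.star_eq_adjoint, hLs.star_eq]
    have hPadj : ∀ a c : HC C H, inner ℂ (P a) c = inner ℂ a (P c) := fun a c => by
      rw [← ContinuousLinearMap.adjoint_inner_right, ← ContinuousLinearMap.star_eq_adjoint, hPs]
    have hanti : P * L + L * P = mop (sca (Matrix.diagonal fun c => (w c : ℂ))) := by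
      rw [hPdef, hLdef, ← (m3 _ _).1, ← (m3 _ _).1, ← (m3 _ _).2,
        anti_mat (v 0) B Bp sg w hD.pcom hD.podd hD.anti Θ]
    have hcr : 2 * (inner ℂ (L x1) (P x1)).re = ∑ c, w c * ‖x1 c‖ ^ 2 := by
      rw [← diag_form hM w x1, ← hanti]
      have e : (P * L + L * P) x1 = P (L x1) + L (P x1) := rfl
      have h1 : (inner ℂ x1 (P (L x1))).re = (inner ℂ (L x1) (P x1)).re := by
        rw [← hPadj, ← inner_conj_symm, Complex.conj_re]
      have h2 : (inner ℂ x1 (L (P x1))).re = (inner ℂ (L x1) (P x1)).re := by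
        rw [← hLadj]
      rw [e, inner_add_right, Complex.add_re, h1, h2, two_mul]
    have hpp : ‖P x1‖ ^ 2 = ∑ c, p c * ‖x1 c‖ ^ 2 := by
      rw [← diag_form hM p x1, ← hD.psq, ← sca_mul, (m3 _ _).1]
      have e : ((mop (sca Bp) : Bo (HC C H)) * (mop (sca Bp) : Bo (HC C H))) x1 = P (P x1) := rfl
      rw [e, ← hPadj]
      have e2 := inner_self_eq_norm_sq (𝕜 := ℂ) (P x1)
      rw [← e2]
      rfl
    have hpge : ‖x1‖ ^ 2 ≤ ‖P x1‖ ^ 2 := by
      rw [hpp, m7]
      refine Finset.sum_le_sum fun c _ => ?_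
      by_cases hc : c = c0
      · subst hc
        rw [hx1c, norm_zero]
        simp
      · nlinarith [hD.pge c hc, sq_nonneg ‖x1 c‖]
    have hL1 : b ^ 2 * ‖x1‖ ^ 2 ≤ ‖L x1‖ ^ 2 := by
      rw [← mul_pow]
      exact pow_le_pow_left₀ (mul_nonneg hb.le (norm_nonneg _)) (hgap x1).1 2
    have hL0 : b ^ 2 * ‖x c0‖ ^ 2 ≤ ‖ev Θ (x c0)‖ ^ 2 := by
      have h1 := (hgap (inc c0 (x c0))).1
      rw [norm_inc, ← hLdef, hLinc, norm_inc] at h1
      rw [← mul_pow]
      exact pow_le_pow_left₀ (mul_nonneg hb.le (norm_nonneg _)) h1 2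
    have hw : 0 ≤ 2 * (inner ℂ (L x1) (P x1)).re := by
      rw [hcr]
      exact Finset.sum_nonneg fun c _ => mul_nonneg (hD.wge c) (sq_nonneg _)
    have hfin := real_est b t hb ht0 ht1 (‖ev Θ (x c0)‖ ^ 2) (‖x c0‖ ^ 2) (‖x1‖ ^ 2) (‖L x1‖ ^ 2)
      (‖P x1‖ ^ 2) _ (‖inc c0 (ev Θ (x c0)) + z‖ ^ 2) (‖x‖ ^ 2) (sq_nonneg _) hL0 (sq_nonneg _) hL1
      hpge hw hnx (by rw [hn, hz2])
    rw [hy]
    rw [← mul_pow] at hfin
    exact (sq_le_sq₀ (mul_nonneg (by positivity) (norm_nonneg _)) (norm_nonneg _)).mp hfin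

end Pool.Agent.Lib.MP8a3537.AM
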