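import Pool.Agent.Lib.MP_8a3537_gt.AM.RSA
import Pool.Agent.Lib.MP_8a3537_gt.AM.CST
import Pool.Agent.Lib.MP_8a3537_gt.TW.CSA

/-!
# Module RST: restriction to the empty configuration at `t = 0` (section 3)
-/

set_option linter.unusedVariables false
set_option autoImplicit false

namespace Pool.Agent.Lib.MP8a3537.AM

open Pool.Agent.Lib.MP8a3537.SG Pool.Agent.Lib.MP8a3537.TW
open Filter Topology
open scoped BigOperators Matrix ComplexOrder InnerProductSpace

namespace RSTM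

theorem exists_sign {A : Type} [CStarAlgebra A] (x : A) (b β : ℝ) (h : Gpd x b β) : ∃ s, Sg x s := by
  obtain ⟨h1, -, x', h2, h3, -⟩ := h
  exact CSAM.exist x h1 ⟨⟨x, x', h2, h3⟩, rfl⟩

section

variable {C H : Type} [Fintype C] [DecidableEq C] [NormedAddCommGroup H] [InnerProductSpace ℂ H]

theorem prj_inc (c c' : C) : (prj c ∘L inc c' : Bo H) = if c = c' then 1 else 0 := by
  ext1 x
  have e : (prj c ∘L inc c' : Bo H) x = (inc c' x : HC C H) c := rfl
  rw [e, RSAM.inc_apply]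
  split_ifs <;> rfl

/-- the trace of a corner -/
theorem TT_corner (ω : Bo H →L[ℂ] ℂ) (c0 : C) (a : Bo H) :
    TT ω (inc c0 ∘L a ∘L prj c0 : Bo (HC C H)) = ω a := by
  unfold TT
  rw [Finset.sum_eq_single c0]
  · congr 1
    have e : (prj c0 ∘L (inc c0 ∘L a ∘L prj c0) ∘L inc c0 : Bo H) =
        (prj c0 ∘L inc c0) ∘L a ∘L (prj c0 ∘L inc c0) := rfl
    rw [e, prj_inc, if_pos rfl]
    rfl
  · intro c _ hc
    have e : (prj c ∘L (inc c0 ∘L a ∘L prj c0) ∘L inc c : Bo H) =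
        (prj c ∘L inc c0) ∘L a ∘L (prj c0 ∘L inc c) := rfl
    rw [e, prj_inc, if_neg hc]
    have e2 : ((0 : Bo H) ∘L a ∘L (prj c0 ∘L inc c) : Bo H) = 0 := by
      ext1 x
      rfl
    rw [e2, map_zero]
  · intro h
    exact absurd (Finset.mem_univ c0) h

end

section

variable {C H : Type} [Fintype C] [DecidableEq C] [NormedAddCommGroup H] [InnerProductSpace ℂ H]
  [CompleteSpace H]

theorem sca_diag_apply (hM : SpecMOP) (d : C → ℂ) (x : HC C H) (c : C) :
    (mop (sca (Matrix.diagonal d)) x) c = d c • x c := by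
  rw [RSAM.sca_apply hM, Finset.sum_eq_single c]
  · rw [Matrix.diagonal_apply_eq]
  · intro c' _ hc
    rw [Matrix.diagonal_apply_ne _ (Ne.symm hc), zero_smul]
  · intro h
    exact absurd (Finset.mem_univ c) h

theorem diag_inc (hM : SpecMOP) (d : C → ℂ) (c : C) (h : H) :
    mop (sca (Matrix.diagonal d)) (inc c h : HC C H) = d c • (inc c h : HC C H) := by
  refine RSAM.hc_ext fun c' => ?_
  rw [sca_diag_apply hM]
  have e : (d c • (inc c h : HC C H)) c' = d c • (inc c h : HC C H) c' := rfl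
  rw [e, RSAM.inc_apply]
  split_ifs with hc
  · rw [hc]
  · rw [smul_zero, smul_zero]

/-- conjugation by signs does not change the trace -/
theorem TT_conj (hM : SpecMOP) (ω : Bo H →L[ℂ] ℂ) (sg : C → ℂ) (hsg : ∀ c, sg c = 1 ∨ sg c = -1)
    (x : Bo (HC C H)) :
    TT ω ((mop (sca (Matrix.diagonal sg)) : Bo (HC C H)) * x * mop (sca (Matrix.diagonal sg))) =
      TT ω x := by
  unfold TT
  refine Finset.sum_congr rfl fun c _ => congrArg ω ?_
  ext1 h
  have e : (prj c ∘L ((mop (sca (Matrix.diagonal sg)) : Bo (HC C H)) * x *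
      mop (sca (Matrix.diagonal sg))) ∘L inc c) h =
      (mop (sca (Matrix.diagonal sg)) (x (mop (sca (Matrix.diagonal sg)) (inc c h : HC C H)))) c := rfl
  rw [e, diag_inc hM, sca_diag_apply hM, map_smul]
  have e2 : (sg c • x (inc c h : HC C H)) c = sg c • (x (inc c h : HC C H)) c := rfl
  have e3 : (prj c ∘L x ∘L inc c) h = (x (inc c h : HC C H)) c := rfl
  rw [e2, smul_smul, e3]
  rcases hsg c with h1 | h1
  · rw [h1, one_mul, one_smul]
  · rw [h1, neg_mul_neg, one_mul, one_smul]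

theorem mulx (U V : Bo (HC C H)) (x : HC C H) : (U * V) x = U (V x) := rfl

theorem sign_sq (hM : SpecMOP) (sg : C → ℂ) (hsg : ∀ c, sg c = 1 ∨ sg c = -1) :
    (mop (sca (Matrix.diagonal sg)) : Bo (HC C H)) * mop (sca (Matrix.diagonal sg)) = 1 := by
  ext1 x
  refine RSAM.hc_ext fun c => ?_
  rw [mulx, sca_diag_apply hM, sca_diag_apply hM, smul_smul]
  have e2 : ((1 : Bo (HC C H)) x) c = x c := rfl
  rw [e2]
  rcases hsg c with h1 | h1
  · rw [h1, one_mul, one_smul]
  · rw [h1, neg_mul_neg, one_mul, one_smul]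

theorem odd_conj (hM : SpecMOP) (sg : C → ℂ) (hsg : ∀ c, sg c = 1 ∨ sg c = -1) (A : Matrix C C ℂ)
    (hA : ∀ c c', sg c * A c c' = -(A c c' * sg c')) (t : ℂ) :
    (mop (sca (Matrix.diagonal sg)) : Bo (HC C H)) * (t • mop (sca A)) *
      mop (sca (Matrix.diagonal sg)) = -(t • mop (sca A)) := by
  ext1 x
  refine RSAM.hc_ext fun c => ?_
  rw [mulx, mulx, sca_diag_apply hM]
  have e2 : ((t • mop (sca A) : Bo (HC C H)) (mop (sca (Matrix.diagonal sg)) x : HC C H)) c =
      t • (mop (sca A) (mop (sca (Matrix.diagonal sg)) x : HC C H)) c := rfl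
  have e3 : ((-(t • mop (sca A)) : Bo (HC C H)) x) c = -(t • (mop (sca A) x) c) := rfl
  rw [e2, e3, RSAM.sca_apply hM, RSAM.sca_apply hM, ← smul_neg, smul_comm]
  congr 1
  rw [Finset.smul_sum, ← Finset.sum_neg_distrib]
  refine Finset.sum_congr rfl fun c' _ => ?_
  rw [sca_diag_apply hM, smul_smul, smul_smul, hA c c', ← neg_smul]
  congr 1
  rw [neg_mul, mul_assoc]
  rcases hsg c' with h1 | h1
  · rw [h1, one_mul, mul_one]
  · rw [h1, neg_mul_neg, one_mul, mul_one]

theorem single_mop (hM : SpecMOP) (c0 : C) :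
    mop (Matrix.of fun c c' => if c = c0 ∧ c' = c0 then (1 : Bo H) else 0) =
      (inc c0 ∘L prj c0 : Bo (HC C H)) := by
  ext1 x
  refine RSAM.hc_ext fun c => ?_
  rw [(hM C H).1, Finset.sum_eq_single c0]
  · have e : ((inc c0 ∘L prj c0 : Bo (HC C H)) x) c = (inc c0 (x c0) : HC C H) c := rfl
    rw [e, RSAM.inc_apply, Matrix.of_apply]
    by_cases hc : c = c0
    · rw [if_pos ⟨hc, rfl⟩, if_pos hc]
      rfl
    · rw [if_neg (fun h => hc h.1), if_neg hc]
      rfl
  · intro c' _ hc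
    rw [Matrix.of_apply, if_neg (fun h => hc h.2)]
    rfl
  · intro h
    exact absurd (Finset.mem_univ c0) h

end

end RSTM

open RSTM in
theorem specRST (hM : SpecMOP) (hT : SpecTTB) (hB : SpecBBL) (hI : SpecITS) (hL : SpecLHM)
    (hR : SpecRSA) (hP : SpecPAT) (hSGA : SpecSGA) (hSSC : SpecSSC) : SpecRST := by
  intro G _ S C0 C1 b β m C _ _ c0 v B Bp sg p w Q _ n hb hβ hD H _ _ _ Θ Θ' hΘ hn1 hsup hC0 hC1
    ω hcyc s0 s hs0 hs
  obtain ⟨m1, m2, m3, m4, m5, m6, m7, m8⟩ := hM C H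
  obtain ⟨r1, r2, r3, r4, r5⟩ := hR G S C0 C1 b β m C c0 v B Bp sg p w Q n hb hβ hD H Θ Θ' hΘ hn1
    hsup hC0 hC1
  obtain ⟨l1, l2, l3⟩ := hL G S C0 C1 b β m C c0 v B Bp sg p w Q n hD H Θ hΘ
  obtain ⟨⟨T, hTT, hTn⟩, hTr⟩ := hT C H ω
  obtain ⟨A0, hA0, htr⟩ := hTr (Algebra.adjoin ℂ (Set.range fun g => Θ.coeff g)) hcyc
  set L := mop (Lm (v 0) sg B Θ) with hLdef
  set P := (mop (sca Bp) : Bo (HC C H)) with hPdef
  set E0 : Bo (HC C H) := inc c0 ∘L prj c0 with hE0
  set Y : Bo H := ev Θ with hY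
  set EY : Bo (HC C H) := inc c0 ∘L Y ∘L prj c0 with hEY
  -- membership
  have mL : L ∈ A0 := (hA0 L).2 ⟨_, l3 0, rfl⟩
  have mP : P ∈ A0 := (hA0 P).2 ⟨_, fun c c' => Subalgebra.smul_mem _ (Subalgebra.one_mem _) _, rfl⟩
  have mE : E0 ∈ A0 := (hA0 E0).2 ⟨_, fun c c' => by
    rw [Matrix.of_apply]
    split_ifs
    · exact Subalgebra.one_mem _
    · exact Subalgebra.zero_mem _, (single_mop hM c0).symm⟩
  have mEY : EY ∈ A0 := by
    rw [← r1]
    exact A0.mul_mem mL mE
  -- selfadjointness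
  have aL : IsSelfAdjoint L := l1 0
  have aP : IsSelfAdjoint P := by
    show star P = P
    rw [hPdef, m5, RSAM.sca_herm _ hD.pher]
  have aE : IsSelfAdjoint E0 := by
    show star E0 = E0
    rw [hE0, ← single_mop hM c0, m5]
    congr 1
    ext1 c c'
    rw [Matrix.conjTranspose_apply, Matrix.of_apply, Matrix.of_apply]
    by_cases h : c = c0 ∧ c' = c0
    · rw [if_pos h, if_pos ⟨h.2, h.1⟩, star_one]
    · rw [if_neg h, if_neg (fun h' => h ⟨h'.2, h'.1⟩), star_zero]
  have aEY : IsSelfAdjoint EY := by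
    show star EY = EY
    conv_lhs => rw [← r1]
    rw [star_mul, aL.star_eq, aE.star_eq]
    exact r2
  have EYP : EY * P = 0 := by
    rw [← r1, mul_assoc, r4, mul_zero]
  have PEY : P * EY = 0 := by
    rw [← r2, ← mul_assoc, r3, zero_mul]
  have hLE : L * (1 - E0) = L - EY := by
    rw [mul_sub, mul_one, r1]
  have aLE : IsSelfAdjoint (L * (1 - E0)) := by
    rw [hLE]
    exact aL.sub aEY
  -- the path
  set X : ℝ → Bo (HC C H) := fun t => EY + ((1 - t : ℝ) : ℂ) • (L * (1 - E0)) + (t : ℂ) • P with hX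
  have hXc : Continuous X := by
    have c1 : Continuous fun t : ℝ => ((1 - t : ℝ) : ℂ) :=
      Complex.continuous_ofReal.comp (continuous_const.sub continuous_id)
    exact (continuous_const.add (c1.smul continuous_const)).add
      (Complex.continuous_ofReal.smul continuous_const)
  have hb' : 0 < min b 1 / 2 := by
    have : 0 < min b 1 := lt_min hb one_pos
    linarith
  obtain ⟨β', hβ'⟩ : ∃ β' : ℝ, β' = ‖EY‖ + ‖L * (1 - E0)‖ + ‖P‖ + 1 := ⟨_, rfl⟩
  have hβ0 : 0 < β' := by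
    rw [hβ']
    positivity
  have hsm : ∀ (r : ℝ) (Z : Bo (HC C H)), IsSelfAdjoint Z → IsSelfAdjoint ((r : ℂ) • Z) := by
    intro r Z hZ
    show star ((r : ℂ) • Z) = (r : ℂ) • Z
    rw [star_smul, hZ.star_eq]
    congr 1
    exact Complex.conj_ofReal _
  have hXg : ∀ t, 0 ≤ t → t ≤ 1 → Gpd (X t) (min b 1 / 2) β' := by
    intro t h0 h1
    refine hB (HC C H) (X t) _ β' hb' hβ0.le ((aEY.add (hsm _ _ aLE)).add (hsm _ _ aP)) fun x => ⟨?_, ?_⟩
    · exact r5 t h0 h1 x
    · refine (ContinuousLinearMap.le_opNorm _ _).trans (mul_le_mul_of_nonneg_right ?_ (norm_nonneg _))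
      rw [hX, hβ']
      refine (norm_add_le _ _).trans ?_
      have e1 : ‖(t : ℂ) • P‖ ≤ ‖P‖ := by
        rw [norm_smul, Complex.norm_real, Real.norm_of_nonneg h0]
        exact mul_le_of_le_one_left (norm_nonneg _) h1
      have e2 : ‖((1 - t : ℝ) : ℂ) • (L * (1 - E0))‖ ≤ ‖L * (1 - E0)‖ := by
        rw [norm_smul, Complex.norm_real, Real.norm_of_nonneg (by linarith)]
        exact mul_le_of_le_one_left (norm_nonneg _) (by linarith)
      have e3 := norm_add_le EY (((1 - t : ℝ) : ℂ) • (L * (1 - E0)))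
      linarith
  have hXm : ∀ t, X t ∈ A0 := fun t =>
    A0.add_mem (A0.add_mem mEY (A0.smul_mem (A0.mul_mem mL (A0.sub_mem A0.one_mem mE)) _))
      (A0.smul_mem mP _)
  have hX0 : X 0 = L := by
    show EY + ((1 - 0 : ℝ) : ℂ) • (L * (1 - E0)) + ((0 : ℝ) : ℂ) • P = L
    rw [sub_zero, Complex.ofReal_one, Complex.ofReal_zero, one_smul, zero_smul ℂ P, add_zero, hLE]
    abel
  have hX1 : X 1 = EY + P := by
    show EY + ((1 - 1 : ℝ) : ℂ) • (L * (1 - E0)) + ((1 : ℝ) : ℂ) • P = EY + P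
    rw [sub_self, Complex.ofReal_one, Complex.ofReal_zero, one_smul,
      zero_smul ℂ (L * (1 - E0)), add_zero]
  have g1 := hXg 1 zero_le_one le_rfl
  obtain ⟨s1, hs1⟩ := exists_sign _ _ _ g1
  have htrT : ∀ x ∈ A0, ∀ y ∈ A0, T (x * y) = T (y * x) := fun x hx y hy => by
    rw [hTT, hTT]
    exact htr x hx y hy
  have hpath : T s = T s1 := by
    refine hP (min b 1 / 2) β' hb' hβ0 (Bo (HC C H)) A0 T htrT X
      (fun t h0 h1 => ⟨hXm t, hXg t h0 h1⟩) hXc s s1 ?_ hs1
    rw [hX0]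
    exact hs
  -- the corner
  have hX1inc : ∀ h : H, X 1 (inc c0 h) = inc c0 (Y h) := by
    intro h
    rw [hX1]
    have e : (EY + P) (inc c0 h : HC C H) = inc c0 (Y ((inc c0 h : HC C H) c0)) + P (inc c0 h) := rfl
    have e2 : P (inc c0 h : HC C H) = 0 := by
      have e3 : (P * E0) (inc c0 h : HC C H) = P (inc c0 ((inc c0 h : HC C H) c0)) := rfl
      rw [RSAM.inc_apply, if_pos rfl, r3] at e3
      rw [← e3]
      rfl
    rw [e, e2, RSAM.inc_apply, if_pos rfl, add_zero]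
  have gY : Gpd Y (min b 1 / 2) β' := by
    refine hB H Y _ β' hb' hβ0.le ?_ fun x => ⟨?_, ?_⟩
    · show star Y = Y
      rw [ContinuousLinearMap.star_eq_adjoint]
      refine ((ContinuousLinearMap.eq_adjoint_iff Y Y).2 fun x y => ?_).symm
      have h1 : inner ℂ (X 1 (inc c0 x)) (inc c0 y : HC C H) =
          inner ℂ (inc c0 x : HC C H) (X 1 (inc c0 y)) := by
        have h2 := g1.1.star_eq
        rw [ContinuousLinearMap.star_eq_adjoint] at h2
        conv_rhs => rw [← h2]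
        rw [ContinuousLinearMap.adjoint_inner_right]
      rw [hX1inc, hX1inc, RSAM.inner_inc, RSAM.inner_inc, RSAM.inc_apply, RSAM.inc_apply,
        if_pos rfl, if_pos rfl] at h1
      exact h1
    · have h1 := r5 1 zero_le_one le_rfl (inc c0 x)
      have h2 : ‖X 1 (inc c0 x)‖ = ‖Y x‖ := by rw [hX1inc, RSAM.norm_inc]
      rw [RSAM.norm_inc] at h1
      exact h1.trans h2.le
    · have h1 := ContinuousLinearMap.le_opNorm (X 1) (inc c0 x)
      rw [hX1inc, RSAM.norm_inc, RSAM.norm_inc] at h1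
      exact h1.trans (mul_le_mul_of_nonneg_right g1.2.1 (norm_nonneg _))
  obtain ⟨-, -, k1⟩ := CSTM.scaled hSGA hSSC hb' hβ0 g1 hs1
  obtain ⟨-, -, k2⟩ := CSTM.scaled hSGA hSSC hb' hβ0 gY hs0
  set z : ℂ := ((1 / β' : ℝ) : ℂ) with hz
  -- the two iterations
  obtain ⟨I1, I2⟩ := hI
  have hit : ∀ j, TT ω (it (z • X 1) j) = ω (it (z • Y) j) := by
    intro j
    obtain ⟨i1, -, -⟩ := I1 (Bo (HC C H)) (z • EY) (z • P) 0 j
    have h1 : z • X 1 = z • EY + z • P := by rw [hX1, smul_add]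
    rw [h1, i1 (by rw [smul_mul_smul_comm, EYP, smul_zero])
      (by rw [smul_mul_smul_comm, PEY, smul_zero])]
    have h2 : z • EY = inc c0 ∘L (z • Y) ∘L prj c0 := by
      ext1 x
      have e : (inc c0 ∘L (z • Y) ∘L prj c0) x = (inc c0 (z • Y (x c0)) : HC C H) := rfl
      rw [e, map_smul]
      rfl
    have h3 : it (z • EY) j = inc c0 ∘L it (z • Y) j ∘L prj c0 := by
      rw [h2]
      exact I2 H (HC C H) (inc c0) (prj c0) (z • Y) j (by rw [prj_inc, if_pos rfl])
    have h4 : TT ω (it (z • P) j) = 0 := by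
      obtain ⟨-, n1, c1⟩ := I1 (Bo (HC C H)) (z • P) 0 (mop (sca (Matrix.diagonal sg))) j
      have c2 := c1 (sign_sq hM sg hD.spar)
      rw [hPdef, odd_conj hM sg hD.spar Bp hD.podd z, ← hPdef, n1] at c2
      have h5 := TT_conj hM ω sg hD.spar (it (z • P) j)
      rw [c2, ← hTT, ← hTT, map_neg] at h5
      rw [← hTT]
      have h6 : T (it (z • P) j) + T (it (z • P) j) = 0 := by
        nth_rewrite 1 [← h5]
        ring
      linear_combination (1 / 2) * h6
    rw [← hTT, map_add, hTT, hTT, h3, h4, add_zero]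
    exact TT_corner ω c0 _
  -- the limit
  have he : 0 < min (min b 1 / 2 / β') 1 := lt_min (div_pos hb' hβ0) one_pos
  have hdel := CSTM.del_tendsto _ he (min_le_right _ _)
  have lim1 : Tendsto (fun j => T (it (z • X 1) j)) atTop (𝓝 (T s1)) := by
    refine (T.continuous.tendsto s1).comp ?_
    rw [tendsto_iff_norm_sub_tendsto_zero]
    exact squeeze_zero (fun _ => norm_nonneg _) k1 hdel
  have lim2 : Tendsto (fun j => ω (it (z • Y) j)) atTop (𝓝 (ω s0)) := by
    refine (ω.continuous.tendsto s0).comp ?_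
    rw [tendsto_iff_norm_sub_tendsto_zero]
    exact squeeze_zero (fun _ => norm_nonneg _) k2 hdel
  have hfun : (fun j => T (it (z • X 1) j)) = fun j => ω (it (z • Y) j) := by
    funext j
    rw [hTT]
    exact hit j
  rw [hfun] at lim1
  rw [← hTT, hpath]
  exact tendsto_nhds_unique lim1 lim2

end Pool.Agent.Lib.MP8a3537.AM
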