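import Pool.Agent.Lib.MP_8a3537_gt.AM.SpecC
import Pool.Agent.Lib.MP_8a3537_gt.TW.CSA

/-!
# SGA: the estimate of the iteration for the sign, with a given lower bound
-/

set_option linter.unusedVariables false

namespace Pool.Agent.Lib.MP8a3537.AM

open Pool.Agent.Lib.MP8a3537.SG Pool.Agent.Lib.MP8a3537.TW
open Filter Topology

theorem specSGA : SpecSGA := by
  intro A _ a a' s e he he1 ha ha1 haa' ha'a ha'n hs j
  obtain ⟨hS1, hS2, hS3, t, ht⟩ := hs
  obtain ⟨X, hXdef⟩ : ∃ X : A, X = s * a := ⟨_, rfl⟩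
  have hXt : X = star t * t := hXdef.trans ht
  have hXsa : IsSelfAdjoint X := by
    rw [hXt]
    exact IsSelfAdjoint.star_mul_self t
  have hcomm : Commute s X := by
    show s * X = X * s
    rw [hXdef, mul_assoc s a s, ← hS3]
  have hAX : a = s * X := by
    rw [hXdef, ← mul_assoc, hS2, one_mul]
  have hSn : ‖s‖ ≤ 1 := by
    have h1 : ‖s * s‖ = ‖s‖ * ‖s‖ := by
      have := CStarRing.norm_star_mul_self (x := s)
      rwa [hS1] at this
    rw [hS2] at h1
    have h2 := CSAM.norm_one_le (A := A)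
    rw [h1] at h2
    nlinarith [norm_nonneg s]
  have hXn : ‖X‖ ≤ 1 := by
    rw [hXdef]
    calc ‖s * a‖ ≤ ‖s‖ * ‖a‖ := norm_mul_le _ _
      _ ≤ 1 * 1 := mul_le_mul hSn ha1 (norm_nonneg _) zero_le_one
      _ = 1 := one_mul 1
  have hsu : IsUnit s := ⟨⟨s, s, hS2, hS2⟩, rfl⟩
  have hau : IsUnit a := ⟨⟨a, a', haa', ha'a⟩, rfl⟩
  have hXu : IsUnit X := by
    rw [hXdef]
    exact hsu.mul hau
  obtain ⟨Y, hYdef⟩ : ∃ Y : A, Y = a' * s := ⟨_, rfl⟩
  have hXY : X * Y = 1 := by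
    rw [hXdef, hYdef, mul_assoc, ← mul_assoc a a' s, haa', one_mul, hS2]
  have hYn : ‖Y‖ ≤ 1 / e := by
    rw [hYdef]
    calc ‖a' * s‖ ≤ ‖a'‖ * ‖s‖ := norm_mul_le _ _
      _ ≤ 1 / e * 1 := mul_le_mul ha'n hSn (norm_nonneg _) (by positivity)
      _ = 1 / e := mul_one _
  obtain ⟨sc1, sc2, -⟩ := specSCA e he he1
  have hspec : ∀ x ∈ spectrum ℝ X, e ≤ x ∧ x ≤ 1 := by
    intro x hx
    have h0 : 0 ≤ x := by
      rw [hXt] at hx
      exact spectrum_star_mul_self_nonneg x hx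
    have h1 : |x| ≤ 1 := by
      have := spectrum.norm_le_norm_mul_of_mem hx
      rw [Real.norm_eq_abs] at this
      calc |x| ≤ ‖X‖ * ‖(1 : A)‖ := this
        _ ≤ 1 * 1 := mul_le_mul hXn CSAM.norm_one_le (norm_nonneg _) zero_le_one
        _ = 1 := one_mul 1
    refine ⟨?_, (le_abs_self x).trans h1⟩
    by_contra hlt
    push Not at hlt
    apply hx
    have hsmall : ‖(x : ℝ) • Y‖ < 1 := by
      rw [norm_smul, Real.norm_eq_abs, abs_of_nonneg h0]
      calc x * ‖Y‖ ≤ x * (1 / e) := mul_le_mul_of_nonneg_left hYn h0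
        _ < e * (1 / e) := mul_lt_mul_of_pos_right hlt (by positivity)
        _ = 1 := by field_simp
    have hu : IsUnit (1 - (x : ℝ) • Y) := isUnit_one_sub_of_norm_lt_one hsmall
    have e1 : algebraMap ℝ A x - X = -(X * (1 - (x : ℝ) • Y)) := by
      rw [mul_sub, mul_one, mul_smul_comm, hXY, Algebra.algebraMap_eq_smul_one]
      abel
    show IsUnit (algebraMap ℝ A x - X)
    rw [e1]
    exact (hXu.mul hu).neg
  have hit : it a j - s = s * cfc (fun x : ℝ => sj x j - 1) X := by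
    rw [hAX, SGNM.it_mul s X hS2 hcomm j, CSAM.it_cfc X hXsa j,
      cfc_sub (fun x : ℝ => sj x j) (fun _ : ℝ => (1 : ℝ)) X (SGNM.sj_cont j).continuousOn
        continuousOn_const, cfc_const_one ℝ X, mul_sub, mul_one]
  rw [hit]
  have hb : ‖cfc (fun x : ℝ => sj x j - 1) X‖ ≤ del e j := by
    apply norm_cfc_le (sc2 j).1
    intro x hx
    obtain ⟨hx1, hx2⟩ := hspec x hx
    have hx0 : 0 < x := he.trans_le hx1
    have := sc1 x j (by rwa [abs_of_pos hx0]) (by rwa [abs_of_pos hx0])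
    rw [sign_pos hx0] at this
    simpa using this
  calc ‖s * cfc (fun x : ℝ => sj x j - 1) X‖ ≤ ‖s‖ * ‖cfc (fun x : ℝ => sj x j - 1) X‖ :=
        norm_mul_le _ _
    _ ≤ 1 * del e j := mul_le_mul hSn hb (norm_nonneg _) zero_le_one
    _ = del e j := one_mul _

end Pool.Agent.Lib.MP8a3537.AM
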