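import Pool.Agent.Lib.MP_8a3537_gt.AM.Spec

/-!
# Signs of configurations (MP_8a3537_gt, folder AM, module SGI)
-/

set_option linter.unusedVariables false

namespace Pool.Agent.Lib.MP8a3537.AM

open scoped BigOperators
open Pool.Agent.Lib.MP8a3537.SG

namespace SGIM

open Classical in
/-- the sign of a proposition -/
noncomputable def e (P : Prop) : ℂ := if P then -1 else 1

lemma e_sq (P : Prop) : e P * e P = 1 := by
  unfold e
  split_ifs <;> norm_num

lemma e_false {P : Prop} (h : ¬P) : e P = 1 := by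
  unfold e
  rw [if_neg h]

lemma e_swap {X : Type} [LinearOrder X] {x y : X} (h : x ≠ y) : e (x < y) = -e (y < x) := by
  unfold e
  rcases lt_or_gt_of_ne h with h1 | h1
  · rw [if_pos h1, if_neg (not_lt.mpr h1.le)]
  · rw [if_neg (not_lt.mpr h1.le), if_pos h1, neg_neg]

lemma pow_card_filter {Y : Type} (S : Finset Y) (P : Y → Prop) [DecidablePred P] :
    (-1 : ℂ) ^ (S.filter P).card = ∏ y ∈ S, e (P y) := by
  rw [← Finset.prod_const, Finset.prod_filter]
  refine Finset.prod_congr rfl fun y _ => ?_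
  unfold e
  by_cases h : P y
  · rw [if_pos h, if_pos h]
  · rw [if_neg h, if_neg h]

variable {X : Type} [LinearOrder X]

lemma prod_symmDiff (O : Finset X) (x : X) (f : X → ℂ) (hf : f x * f x = 1) :
    ∏ y ∈ symmDiff O {x}, f y = f x * ∏ y ∈ O, f y := by
  by_cases hx : x ∈ O
  · have h1 : symmDiff O {x} = O.erase x := by
      ext y
      rw [Finset.mem_symmDiff, Finset.mem_erase, Finset.mem_singleton]
      constructor
      · rintro (⟨h2, h3⟩ | ⟨h2, h3⟩)
        · exact ⟨h3, h2⟩
        · rw [h2] at h3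
          exact absurd hx h3
      · rintro ⟨h2, h3⟩
        exact Or.inl ⟨h3, h2⟩
    rw [h1, ← Finset.mul_prod_erase O f hx, ← mul_assoc, hf, one_mul]
  · have h1 : symmDiff O {x} = insert x O := by
      ext y
      rw [Finset.mem_symmDiff, Finset.mem_insert, Finset.mem_singleton]
      constructor
      · rintro (⟨h2, h3⟩ | ⟨h2, h3⟩)
        · exact Or.inr h2
        · exact Or.inl h2
      · rintro (h2 | h2)
        · exact Or.inr ⟨h2, h2 ▸ hx⟩
        · exact Or.inl ⟨h2, fun h3 => hx (h3 ▸ h2)⟩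
    rw [h1, Finset.prod_insert hx]

variable {G : Type} [Group G] [MulAction G X]

/-- the sign of the inversions of `g` on `O` -/
noncomputable def I (g : G) (O : Finset X) : ℂ :=
  ∏ a ∈ O, ∏ b ∈ O, e (a < b ∧ g • b < g • a)

lemma I_insert (g : G) {O : Finset X} {x : X} (hx : x ∉ O) :
    I g (insert x O) = I g O * ∏ y ∈ O, (e (y < x) * e (g • y < g • x)) := by
  have h1 : ∀ y ∈ O, e (x < y ∧ g • y < g • x) * e (y < x ∧ g • x < g • y) =
      e (y < x) * e (g • y < g • x) := by
    intro y hy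
    have hne : y ≠ x := fun h => hx (h ▸ hy)
    have hne' : g • y ≠ g • x := fun h => hne (MulAction.injective g h)
    unfold e
    rcases lt_or_gt_of_ne hne with h2 | h2 <;> rcases lt_or_gt_of_ne hne' with h3 | h3 <;>
      simp [h2, h3, not_lt.mpr h2.le, not_lt.mpr h3.le]
  unfold I
  rw [Finset.prod_insert hx, Finset.prod_insert hx, e_false (fun h => lt_irrefl _ h.1), one_mul]
  have h2 : ∏ a ∈ O, ∏ b ∈ insert x O, e (a < b ∧ g • b < g • a) =
      (∏ a ∈ O, e (a < x ∧ g • x < g • a)) * ∏ a ∈ O, ∏ b ∈ O, e (a < b ∧ g • b < g • a) := by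
    rw [← Finset.prod_mul_distrib]
    exact Finset.prod_congr rfl fun a _ => Finset.prod_insert hx
  rw [h2, ← mul_assoc, ← Finset.prod_mul_distrib, Finset.prod_congr rfl h1, mul_comm]

lemma sg_eq {m : ℕ} (g : G) (c : Conf m X) : sg g c = I g (odd c) := by
  unfold sg I
  rw [pow_card_filter, Finset.prod_product]

lemma sx_eq {m : ℕ} (x : X) (c : Conf m X) : sx x c = ∏ y ∈ odd c, e (y < x) := by
  unfold sx
  rw [pow_card_filter]

lemma I_mul (g h : G) (O : Finset X) : I (g * h) O = I g (O.image fun x => h • x) * I h O := by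
  induction O using Finset.induction_on with
  | empty => simp [I]
  | insert x O hx ih =>
    have hx' : h • x ∉ O.image fun x => h • x := by
      intro h1
      obtain ⟨y, hy, h2⟩ := Finset.mem_image.mp h1
      exact hx ((MulAction.injective h h2) ▸ hy)
    rw [Finset.image_insert, I_insert _ hx, I_insert _ hx, I_insert _ hx', ih,
      Finset.prod_image fun a _ b _ h1 => MulAction.injective h h1]
    have h1 : ∏ y ∈ O, (e (y < x) * e ((g * h) • y < (g * h) • x)) =
        (∏ y ∈ O, (e (h • y < h • x) * e (g • h • y < g • h • x))) *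
          ∏ y ∈ O, (e (y < x) * e (h • y < h • x)) := by
      rw [← Finset.prod_mul_distrib]
      refine Finset.prod_congr rfl fun y _ => ?_
      rw [mul_smul, mul_smul]
      have h2 := e_sq (h • y < h • x)
      linear_combination (-(e (y < x) * e (g • h • y < g • h • x))) * h2
    rw [h1]
    ring

lemma I_symmDiff (g : G) (O : Finset X) (x : X) :
    I g (symmDiff O {x}) * ∏ y ∈ O, e (y < x) =
      (∏ y ∈ O.image (fun x => g • x), e (y < g • x)) * I g O := by
  rw [Finset.prod_image fun a _ b _ h1 => MulAction.injective g h1]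
  by_cases hx : x ∈ O
  · have h1 : symmDiff O {x} = O.erase x := by
      ext y
      rw [Finset.mem_symmDiff, Finset.mem_erase, Finset.mem_singleton]
      constructor
      · rintro (⟨h2, h3⟩ | ⟨h2, h3⟩)
        · exact ⟨h3, h2⟩
        · rw [h2] at h3
          exact absurd hx h3
      · rintro ⟨h2, h3⟩
        exact Or.inl ⟨h3, h2⟩
    have h2 : I g O = I g (O.erase x) * ∏ y ∈ O.erase x, (e (y < x) * e (g • y < g • x)) := by
      rw [← I_insert g (Finset.notMem_erase x O), Finset.insert_erase hx]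
    rw [h1, h2, ← Finset.mul_prod_erase O (fun y => e (y < x)) hx,
      ← Finset.mul_prod_erase O (fun y => e (g • y < g • x)) hx, e_false (lt_irrefl x),
      e_false (lt_irrefl (g • x)), one_mul, one_mul, Finset.prod_mul_distrib]
    have h3 : (∏ y ∈ O.erase x, e (g • y < g • x)) * ∏ y ∈ O.erase x, e (g • y < g • x) = 1 := by
      rw [← Finset.prod_mul_distrib]
      exact Finset.prod_eq_one fun y _ => e_sq _
    linear_combination (-(I g (O.erase x) * ∏ y ∈ O.erase x, e (y < x))) * h3
  · have h1 : symmDiff O {x} = insert x O := by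
      ext y
      rw [Finset.mem_symmDiff, Finset.mem_insert, Finset.mem_singleton]
      constructor
      · rintro (⟨h2, h3⟩ | ⟨h2, h3⟩)
        · exact Or.inr h2
        · exact Or.inl h2
      · rintro (h2 | h2)
        · exact Or.inr ⟨h2, h2 ▸ hx⟩
        · exact Or.inl ⟨h2, fun h3 => hx (h3 ▸ h2)⟩
    rw [h1, I_insert g hx, Finset.prod_mul_distrib]
    have h3 : (∏ y ∈ O, e (y < x)) * ∏ y ∈ O, e (y < x) = 1 := by
      rw [← Finset.prod_mul_distrib]
      exact Finset.prod_eq_one fun y _ => e_sq _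
    linear_combination (I g O * ∏ y ∈ O, e (g • y < g • x)) * h3

lemma pm (n : ℕ) : ((-1 : ℂ) ^ n) * ((-1) ^ n) = 1 ∧ (starRingEnd ℂ) ((-1 : ℂ) ^ n) = (-1) ^ n ∧
    ‖((-1 : ℂ) ^ n)‖ = 1 := by
  refine ⟨?_, ?_, ?_⟩
  · rw [← mul_pow]
    norm_num
  · rw [map_pow, map_neg, map_one]
  · rw [norm_pow, norm_neg, norm_one, one_pow]

end SGIM

open SGIM in
theorem specSGI (hCNF : SpecCNF) : SpecSGI := by
  intro G X _ _ _ m c
  have hodd : ∀ x, c x ≠ 0 → odd (stp x c) = symmDiff (odd c) {x} :=
    (hCNF G X m c).2.2.2.2.2.2.2.2.2.2.2.2.2.2.2.2.2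
  have hact : ∀ (g : G) (c' : Conf m X), odd (act g c') = (odd c').image fun x => g • x :=
    fun g c' => (hCNF G X m c').2.2.2.2.2.2.2.2.2.2.2.2.2.2.2.1 g
  have hflp : ∀ A : Finset X, odd (flp A c) = odd c :=
    (hCNF G X m c).2.2.2.2.2.2.2.2.2.2.2.2.2.2.2.2.1
  have hsx : ∀ x y, c y ≠ 0 → sx x (stp y c) = e (y < x) * sx x c := by
    intro x y hy
    rw [sx_eq, sx_eq, hodd y hy, prod_symmDiff (odd c) y (fun z => e (z < x)) (e_sq _)]
  refine ⟨?_, ?_, ?_, ?_, ?_, ?_, ?_, ?_, ?_, ?_, ?_, ?_, ?_⟩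
  · intro x hx
    rw [hsx x x hx, e_false (lt_irrefl x), one_mul]
  · intro x y hxy hx hy
    rw [hsx x y hy, hsx y x hx, e_swap hxy]
    ring
  · intro x hx
    unfold gam
    have h1 : ∀ S : Finset X, (-1 : ℂ) ^ S.card = ∏ _y ∈ S, (-1 : ℂ) := fun S => by
      rw [Finset.prod_const]
    rw [hodd x hx, h1, h1, prod_symmDiff (odd c) x (fun _ => (-1 : ℂ)) (by norm_num), neg_one_mul]
  · intro g h
    rw [sg_eq, sg_eq, sg_eq, hact, I_mul]
  · rw [sg_eq]
    unfold I
    refine Finset.prod_eq_one fun a _ => Finset.prod_eq_one fun b _ => e_false ?_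
    rw [one_smul, one_smul]
    exact fun h => lt_asymm h.1 h.2
  · intro g x hx
    rw [sg_eq, sg_eq, sx_eq, sx_eq, hodd x hx, hact, I_symmDiff]
  · intro g
    unfold gam
    rw [hact, Finset.card_image_of_injective _ (MulAction.injective g)]
  · intro A
    unfold gam
    rw [hflp]
  · intro x A
    rw [sx_eq, sx_eq, hflp]
  · intro g A
    rw [sg_eq, sg_eq, hflp]
  · intro x
    exact pm _
  · intro g
    exact pm _
  · exact pm _

end Pool.Agent.Lib.MP8a3537.AM
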