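import Pool.Agent.Lib.MP_8a3537_gt.AM.SpecC

/-!
# SSC: the sign of a positive multiple
-/

set_option linter.unusedVariables false

namespace Pool.Agent.Lib.MP8a3537.AM

theorem specSSC : SpecSSC := by
  intro A _ a s b hb hs
  obtain ⟨hS1, hS2, hS3, t, ht⟩ := hs
  refine ⟨hS1, hS2, ?_, ((Real.sqrt b : ℝ) : ℂ) • t, ?_⟩
  · rw [mul_smul_comm, smul_mul_assoc, hS3]
  · rw [mul_smul_comm, ht, star_smul, smul_mul_smul_comm]
    congr 1
    rw [show star ((Real.sqrt b : ℝ) : ℂ) = ((Real.sqrt b : ℝ) : ℂ) from Complex.conj_ofReal _,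
      ← Complex.ofReal_mul, Real.mul_self_sqrt hb.le]

end Pool.Agent.Lib.MP8a3537.AM
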