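import Pool.Agent.Lib.MP_8a3537_gt.AM.SpecC

/-!
# Module SYM: close symmetries have the same trace
-/

set_option linter.unusedVariables false

namespace Pool.Agent.Lib.MP8a3537.AM

open Filter Topology

namespace SYMM

/-- a trace on a subalgebra is a trace on its closure -/
theorem trace_closure {A : Type} [CStarAlgebra A] (A0 : Subalgebra ℂ A) (T : A →L[ℂ] ℂ)
    (h : ∀ x ∈ A0, ∀ y ∈ A0, T (x * y) = T (y * x)) :
    ∀ x ∈ A0.topologicalClosure, ∀ y ∈ A0.topologicalClosure, T (x * y) = T (y * x) := by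
  have h1 : ∀ y ∈ A0, ∀ x ∈ closure (A0 : Set A), T (x * y) = T (y * x) := by
    intro y hy
    have hc : IsClosed {x : A | T (x * y) = T (y * x)} :=
      isClosed_eq (T.continuous.comp (continuous_id.mul continuous_const))
        (T.continuous.comp (continuous_const.mul continuous_id))
    intro x hx
    exact closure_minimal (s := (A0 : Set A)) (fun x hx => h x hx y hy) hc hx
  intro x hx y hy
  have hc : IsClosed {y : A | T (x * y) = T (y * x)} :=
    isClosed_eq (T.continuous.comp (continuous_const.mul continuous_id))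
      (T.continuous.comp (continuous_id.mul continuous_const))
  exact closure_minimal (s := (A0 : Set A)) (fun y hy => h1 y hy x hx) hc hy

end SYMM

theorem specSYM : SpecSYM := by
  intro A _ A0 T hT s s' hs hs' h1 h1' hd
  have htr := SYMM.trace_closure A0 T hT
  obtain ⟨d, hdef⟩ : ∃ d : A, d = s' - s := ⟨_, rfl⟩
  have hsm : s ∈ A0.topologicalClosure := hs
  have hsm' : s' ∈ A0.topologicalClosure := hs'
  have hdm : d ∈ A0.topologicalClosure := by rw [hdef]; exact sub_mem hsm' hsm
  have e1 : s' * d = -(d * s) := by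
    rw [hdef, mul_sub, sub_mul, h1, h1']; abel
  have e2 : s * d = -(d * s') := by
    rw [hdef, mul_sub, sub_mul, h1, h1']; abel
  have hq : d * d = 2 - s * s' - s' * s := by
    rw [hdef, mul_sub, sub_mul, sub_mul, h1, h1', ← one_add_one_eq_two]; abel
  have c1 : Commute s (d * d) := by
    show s * (d * d) = d * d * s
    rw [← mul_assoc, e2, neg_mul, mul_assoc, e1, mul_neg, neg_neg, mul_assoc]
  have c2 : Commute s' (d * d) := by
    show s' * (d * d) = d * d * s'
    rw [← mul_assoc, e1, neg_mul, mul_assoc, e2, mul_neg, neg_neg, mul_assoc]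
  have e3 : d * (d * d) = 2 * d + s' * d * s' + s * d * s := by
    have a1 : d * s = -(s' * d) := by rw [e1, neg_neg]
    have a2 : d * s' = -(s * d) := by rw [e2, neg_neg]
    have b1 : d * (s * s') = -(s' * d * s') := by rw [← mul_assoc, a1, neg_mul]
    have b2 : d * (s' * s) = -(s * d * s) := by rw [← mul_assoc, a2, neg_mul]
    calc d * (d * d) = d * (2 - s * s' - s' * s) := by rw [hq]
      _ = d * 2 - d * (s * s') - d * (s' * s) := by rw [mul_sub, mul_sub]
      _ = d * 2 + s' * d * s' + s * d * s := by rw [b1, b2, sub_neg_eq_add, sub_neg_eq_add]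
      _ = 2 * d + s' * d * s' + s * d * s := by
        congr 2
        rw [← one_add_one_eq_two, mul_add, add_mul, mul_one, one_mul]
  have hqm : ∀ k, d * (d * d) ^ k ∈ A0.topologicalClosure := fun k =>
    mul_mem hdm (pow_mem (mul_mem hdm hdm) k)
  have step : ∀ k, T (d * (d * d) ^ (k + 1)) = 4 * T (d * (d * d) ^ k) := by
    intro k
    have f1 : d * (d * d) ^ (k + 1) = 2 * (d * (d * d) ^ k) + s' * (d * (d * d) ^ k * s') + s * (d * (d * d) ^ k * s) := by
      calc d * (d * d) ^ (k + 1) = d * (d * d) * (d * d) ^ k := by rw [pow_succ', mul_assoc d (d * d)]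
        _ = (2 * d + s' * d * s' + s * d * s) * (d * d) ^ k := by rw [e3]
        _ = 2 * (d * (d * d) ^ k) + s' * d * (s' * (d * d) ^ k) + s * d * (s * (d * d) ^ k) := by
          rw [add_mul, add_mul, mul_assoc 2 d, mul_assoc (s' * d) s', mul_assoc (s * d) s]
        _ = _ := by
          rw [(c2.pow_right k).eq, (c1.pow_right k).eq, mul_assoc s' d, mul_assoc s d, mul_assoc d, mul_assoc d]
    have g1 : T (s' * (d * (d * d) ^ k * s')) = T (d * (d * d) ^ k) := by
      rw [htr s' hsm' _ (mul_mem (hqm k) hsm'), mul_assoc, h1', mul_one]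
    have g2 : T (s * (d * (d * d) ^ k * s)) = T (d * (d * d) ^ k) := by
      rw [htr s hsm _ (mul_mem (hqm k) hsm), mul_assoc, h1, mul_one]
    have g3 : T (2 * (d * (d * d) ^ k)) = 2 * T (d * (d * d) ^ k) := by
      rw [two_mul, map_add, two_mul]
    rw [f1, map_add, map_add, g1, g2, g3]
    ring
  have h4 : ∀ k, T (d * (d * d) ^ k) = 4 ^ k * T d := by
    intro k
    induction k with
    | zero => simp
    | succ k ih => rw [step, ih]; ring
  have hdn : ‖d‖ < 2 := by rw [hdef, norm_sub_rev]; exact hd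
  have hT0 : T d = 0 := by
    by_contra hne
    have hpos : 0 < ‖T d‖ := norm_pos_iff.mpr hne
    obtain ⟨r, hr0, hr⟩ : ∃ r : ℝ, r = ‖d‖ ^ 2 / 4 ∧ 0 ≤ r := ⟨_, rfl, by positivity⟩
    have hr1 : r < 1 := by
      rw [hr0]
      nlinarith [norm_nonneg d]
    have hb : ∀ k : ℕ, ‖T d‖ ≤ ‖T‖ * ‖d‖ * r ^ k := by
      intro k
      have i1 : ‖T (d * (d * d) ^ k)‖ ≤ ‖T‖ * (‖d‖ * (‖d‖ ^ 2) ^ k) := by
        refine (T.le_opNorm _).trans (mul_le_mul_of_nonneg_left ?_ (norm_nonneg _))
        induction k with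
        | zero => simp
        | succ k ih =>
          rw [pow_succ, ← mul_assoc]
          refine (norm_mul_le _ _).trans ?_
          have i2 : ‖d * d‖ ≤ ‖d‖ ^ 2 := (norm_mul_le _ _).trans (by rw [pow_two])
          calc ‖d * (d * d) ^ k‖ * ‖d * d‖ ≤ (‖d‖ * (‖d‖ ^ 2) ^ k) * ‖d‖ ^ 2 :=
                mul_le_mul ih i2 (norm_nonneg _) (by positivity)
            _ = ‖d‖ * (‖d‖ ^ 2) ^ (k + 1) := by ring
      rw [h4, norm_mul, norm_pow] at i1
      have i3 : ‖(4 : ℂ)‖ = 4 := by norm_num
      rw [i3] at i1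
      have i4 : (4 : ℝ) ^ k * ‖T d‖ ≤ 4 ^ k * (‖T‖ * ‖d‖ * r ^ k) := by
        refine i1.trans (le_of_eq ?_)
        rw [hr0, div_pow]
        field_simp
      exact le_of_mul_le_mul_left i4 (by positivity)
    have hlim : Tendsto (fun k : ℕ => ‖T‖ * ‖d‖ * r ^ k) atTop (𝓝 (‖T‖ * ‖d‖ * 0)) :=
      (tendsto_pow_atTop_nhds_zero_of_lt_one hr hr1).const_mul _
    rw [mul_zero] at hlim
    have := ge_of_tendsto' hlim hb
    linarith
  rw [hdef, map_sub] at hT0
  exact (sub_eq_zero.mp hT0).symm

end Pool.Agent.Lib.MP8a3537.AM
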