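import Pool.Agent.Lib.MP_8a3537_gt.AM.SpecC

/-!
# TTB: the functional `T(x) = sum_c ω(x_cc)`
-/

set_option linter.unusedVariables false

namespace Pool.Agent.Lib.MP8a3537.AM

open Pool.Agent.Lib.MP8a3537.SG Pool.Agent.Lib.MP8a3537.TW
open Filter Topology
open scoped BigOperators Matrix

namespace TTBM

variable {C H : Type} [Fintype C] [DecidableEq C] [NormedAddCommGroup H] [InnerProductSpace ℂ H]

omit [DecidableEq C] in
lemma norm_prj (c : C) : ‖(prj c : HC C H →L[ℂ] H)‖ ≤ 1 := by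
  refine ContinuousLinearMap.opNorm_le_bound _ zero_le_one fun x => ?_
  rw [one_mul]
  exact PiLp.norm_apply_le x c

lemma norm_inc (c : C) : ‖(inc c : H →L[ℂ] HC C H)‖ ≤ 1 := by
  refine ContinuousLinearMap.opNorm_le_bound _ zero_le_one fun x => ?_
  rw [one_mul]
  exact (PiLp.norm_single (p := 2) (β := fun _ : C => H) c x).le

/-- the functional -/
noncomputable def TL (ω : Bo H →L[ℂ] ℂ) : Bo (HC C H) →ₗ[ℂ] ℂ where
  toFun x := TT ω x
  map_add' x y := by
    unfold TT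
    rw [← Finset.sum_add_distrib]
    refine Finset.sum_congr rfl fun c _ => ?_
    rw [← map_add]
    congr 1
  map_smul' z x := by
    unfold TT
    rw [RingHom.id_apply, smul_eq_mul, Finset.mul_sum]
    refine Finset.sum_congr rfl fun c _ => ?_
    rw [← smul_eq_mul, ← map_smul]
    congr 1

lemma bound (ω : Bo H →L[ℂ] ℂ) (x : Bo (HC C H)) :
    ‖TT ω x‖ ≤ (Fintype.card C * ‖ω‖) * ‖x‖ := by
  unfold TT
  calc ‖∑ c, ω (prj c ∘L x ∘L inc c)‖ ≤ ∑ c, ‖ω (prj c ∘L x ∘L inc c)‖ := norm_sum_le _ _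
    _ ≤ ∑ c : C, ‖ω‖ * ‖x‖ := by
      refine Finset.sum_le_sum fun c _ => ?_
      refine (ω.le_opNorm _).trans (mul_le_mul_of_nonneg_left ?_ (norm_nonneg _))
      calc ‖prj c ∘L x ∘L inc c‖ ≤ ‖(prj c : HC C H →L[ℂ] H)‖ * ‖x ∘L inc c‖ :=
            ContinuousLinearMap.opNorm_comp_le _ _
        _ ≤ 1 * (‖x‖ * ‖(inc c : H →L[ℂ] HC C H)‖) :=
            mul_le_mul (norm_prj c) (ContinuousLinearMap.opNorm_comp_le _ _) (norm_nonneg _)
              zero_le_one
        _ ≤ 1 * (‖x‖ * 1) := by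
            gcongr
            exact norm_inc c
        _ = ‖x‖ := by rw [one_mul, mul_one]
    _ = (Fintype.card C * ‖ω‖) * ‖x‖ := by
      rw [Finset.sum_const, Finset.card_univ, nsmul_eq_mul, mul_assoc]

end TTBM

open TTBM

theorem specTTB (hMOP : SpecMOP) : SpecTTB := by
  intro C H _ _ _ _ _ ω
  obtain ⟨m1, m2, m3, m4, m5, m6, m7, m8⟩ := hMOP C H
  refine ⟨⟨LinearMap.mkContinuous (TL ω) (Fintype.card C * ‖ω‖) (bound ω), fun x => rfl, ?_⟩, ?_⟩
  · exact LinearMap.mkContinuous_norm_le _ (by positivity) _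
  · intro W hW
    have hone : ∀ c c' : C, (1 : Matrix C C (Bo H)) c c' ∈ W := by
      intro c c'
      rw [Matrix.one_apply]
      split_ifs
      · exact W.one_mem
      · exact W.zero_mem
    refine ⟨{ carrier := {x | ∃ M : Matrix C C (Bo H), (∀ c c', M c c' ∈ W) ∧ x = mop M}
              mul_mem' := ?_, add_mem' := ?_, algebraMap_mem' := ?_ }, fun x => Iff.rfl, ?_⟩
    · rintro x y ⟨M, hM, rfl⟩ ⟨N, hN, rfl⟩
      refine ⟨M * N, fun c c' => ?_, (m3 M N).1.symm⟩
      rw [Matrix.mul_apply]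
      exact W.sum_mem fun i _ => W.mul_mem (hM _ _) (hN _ _)
    · rintro x y ⟨M, hM, rfl⟩ ⟨N, hN, rfl⟩
      exact ⟨M + N, fun c c' => W.add_mem (hM _ _) (hN _ _), (m3 M N).2.symm⟩
    · intro z
      refine ⟨z • 1, fun c c' => W.smul_mem (hone c c') z, ?_⟩
      rw [m4, m2, Algebra.algebraMap_eq_smul_one]
    · rintro x ⟨M, hM, rfl⟩ y ⟨N, hN, rfl⟩
      have key : ∀ M N : Matrix C C (Bo H), TT ω (mop M * mop N) = ∑ c, ∑ c', ω (M c c' * N c' c) := by
        intro M N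
        unfold TT
        refine Finset.sum_congr rfl fun c _ => ?_
        rw [← (m3 M N).1, m6, Matrix.mul_apply, map_sum]
      rw [key, key, Finset.sum_comm]
      refine Finset.sum_congr rfl fun c _ => Finset.sum_congr rfl fun c' _ => ?_
      exact hW _ (hM _ _) _ (hN _ _)

end Pool.Agent.Lib.MP8a3537.AM
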