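import Pool.Agent.Lib.MP_8a3537_gt.AM.SpecC
import Pool.Agent.Lib.MP_8a3537_gt.TW.CSA

/-!
# TWO: the path from `t = 0` to `t = 1`
-/

set_option linter.unusedVariables false

namespace Pool.Agent.Lib.MP8a3537.AM

open Pool.Agent.Lib.MP8a3537.SG Pool.Agent.Lib.MP8a3537.TW
open Filter Topology

theorem specTWO (hRST : SpecRST) (hPAT : SpecPAT) (hTTB : SpecTTB) (hBBL : SpecBBL)
    (hLHM : SpecLHM) : SpecTWO := by
  intro G _ S C0 C1 b β m C _ _ c0 v B Bp sg p w Q _ n hb hβ hM H _ _ _ Θ Θ' hH hn hS hC0 hC1 ω hω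
    s0 s hs0 hs
  obtain ⟨hsa, hcont, hmem⟩ :=
    hLHM G S C0 C1 b β m C c0 v B Bp sg p w Q n hM H Θ hH
  obtain ⟨⟨T, hT, -⟩, hA⟩ := hTTB C H ω
  obtain ⟨A0, hA0, htr⟩ := hA (Algebra.adjoin ℂ (Set.range fun g => Θ.coeff g)) hω
  have hg : ∀ t, Gpd (mop (Lm (v t) sg B Θ)) b β := fun t =>
    hBBL (HC C H) _ b β hb hβ.le (hsa t) fun x =>
      hM.gap H Θ Θ' hH hn hS hC0 hC1 t x
  have hu : IsUnit (mop (Lm (v 0) sg B Θ)) := by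
    obtain ⟨-, -, x', h1, h2, -⟩ := hg 0
    exact ⟨⟨_, x', h1, h2⟩, rfl⟩
  obtain ⟨s1, hs1⟩ := CSAM.exist (mop (Lm (v 0) sg B Θ)) (hsa 0) hu
  have h0 : TT ω s1 = ω s0 :=
    hRST G S C0 C1 b β m C c0 v B Bp sg p w Q n hb hβ hM H Θ Θ' hH hn hS hC0 hC1 ω hω s0 s1 hs0 hs1
  have h1 := hPAT b β hb hβ (Bo (HC C H)) A0 T
    (fun x hx y hy => by rw [hT, hT]; exact htr x hx y hy)
    (fun t => mop (Lm (v t) sg B Θ))
    (fun t _ _ => ⟨(hA0 _).mpr ⟨_, fun c c' => hmem t c c', rfl⟩, hg t⟩) hcont s1 s hs1 hs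
  rw [hT, hT] at h1
  rw [← h1, h0]

end Pool.Agent.Lib.MP8a3537.AM
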