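import Pool.Agent.Lib.MP_8a3537_gt.AM.Spec

/-!
# Module VCO: the coefficients of the operators `V_g` and `B`
-/

set_option linter.unusedVariables false
set_option linter.unusedSectionVars false

namespace Pool.Agent.Lib.MP8a3537.AM

open scoped BigOperators
open Pool.Agent.Lib.MP8a3537.SG

namespace VCOM

variable {G X : Type} [Group G] [MulAction G X] [LinearOrder X] {m : ℕ}

theorem mem_com (D : Dat G X) (g : G) (x : X) : x ∈ (D.com g).toFinset ↔ ¬(x ∈ D.M ↔ g • x ∈ D.M) := by
  rw [Set.Finite.mem_toFinset]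
  exact Iff.rfl

theorem ph_one (D : Dat G X) (g : G) (x : X) : ph D 1 g x = 1 := by
  unfold ph
  split_ifs <;> simp

theorem ph_neg (D : Dat G X) (g : G) (x : X) (hx : x ∈ (D.com g).toFinset) : ph D (-1) g x = -1 := by
  rw [mem_com] at hx
  unfold ph
  by_cases h1 : x ∈ D.M
  · by_cases h2 : g • x ∈ D.M
    · exact absurd (iff_of_true h1 h2) hx
    · rw [if_pos h1, if_neg h2]
  · by_cases h2 : g • x ∈ D.M
    · rw [if_neg h1, if_pos h2]
      simp
    · exact absurd (iff_of_false h1 h2) hx

theorem ph_inv (D : Dat G X) (ζ : ℂ) (g : G) (x : X) : ph D ζ g⁻¹ (g • x) = (starRingEnd ℂ) (ph D ζ g x) := by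
  unfold ph
  rw [inv_smul_smul]
  by_cases h1 : x ∈ D.M
  · by_cases h2 : g • x ∈ D.M
    · simp [h1, h2]
    · simp [h1, h2]
  · by_cases h2 : g • x ∈ D.M
    · simp [h1, h2]
    · simp [h1, h2]

theorem ph_cont (D : Dat G X) (g : G) (x : X) : Continuous fun ζ : ℂ => ph D ζ g x := by
  unfold ph
  split_ifs
  · exact continuous_const
  · exact continuous_id
  · exact Complex.continuous_conj
  · exact continuous_const

theorem vco_ne (D : Dat G X) (ζ : ℂ) (g : G) (c' c : Conf m X) (h : vco m D ζ g c' c ≠ 0) :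
    ∃ A : Finset X, A ⊆ (D.com g).toFinset ∧ act g (flp A c) = c' := by
  classical
  unfold vco at h
  obtain ⟨A, hA, hne⟩ := Finset.exists_ne_zero_of_sum_ne_zero h
  refine ⟨A, Finset.mem_powerset.mp hA, ?_⟩
  by_contra hc
  rw [if_neg hc] at hne
  exact hne rfl

theorem bco_ne (w : X → ℝ) (c' c : Conf m X) (h : bco m w c' c ≠ 0) : ∃ x, c x ≠ 0 ∧ stp x c = c' := by
  classical
  unfold bco at h
  obtain ⟨x, hx, hne⟩ := Finset.exists_ne_zero_of_sum_ne_zero h
  refine ⟨x, Finsupp.mem_support_iff.mp hx, ?_⟩
  by_contra hc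
  rw [if_neg hc] at hne
  exact hne rfl

end VCOM

open VCOM in
theorem specVCO (hCNF : SpecCNF) (hSGI : SpecSGI) : SpecVCO := by
  classical
  intro G X _ _ _ m D ζ g w c c'
  have act_smul : ∀ (c : Conf m X) (g : G) (x : X), act g c (g • x) = c x := fun c => (hCNF G X m c).1
  have act_one : ∀ c : Conf m X, act (1 : G) c = c := fun c => (hCNF G X m c).2.1
  have act_mul : ∀ (c : Conf m X) (g h : G), act (g * h) c = act g (act h c) := fun c => (hCNF G X m c).2.2.1
  have stp_stp : ∀ (c : Conf m X) (x : X), c x ≠ 0 → stp x (stp x c) = c := fun c => (hCNF G X m c).2.2.2.2.2.1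
  have stp_ne : ∀ (c : Conf m X) (x : X), c x ≠ 0 → stp x c x ≠ 0 := fun c => (hCNF G X m c).2.2.2.2.2.2.2.2.1
  have stp_supp : ∀ (c : Conf m X) (x : X), c x ≠ 0 → (stp x c).support = c.support := fun c => (hCNF G X m c).2.2.2.2.2.2.2.2.2.1
  have flp_apply : ∀ (c : Conf m X) (A : Finset X) (x : X), flp A c x = if x ∈ A then (c x).rev else c x :=
    fun c => (hCNF G X m c).2.2.2.2.2.2.2.2.2.2.1
  have flp_empty : ∀ c : Conf m X, flp ∅ c = c := fun c => (hCNF G X m c).2.2.2.2.2.2.2.2.2.2.2.1
  have flp_flp : ∀ (c : Conf m X) (A B : Finset X), flp A (flp B c) = flp (symmDiff A B) c :=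
    fun c => (hCNF G X m c).2.2.2.2.2.2.2.2.2.2.2.2.1
  have act_flp : ∀ (c : Conf m X) (g : G) (A : Finset X), act g (flp A c) = flp (A.image fun x => g • x) (act g c) :=
    fun c => (hCNF G X m c).2.2.2.2.2.2.2.2.2.2.2.2.2.1
  have sx_stp : ∀ (c : Conf m X) (x : X), c x ≠ 0 → sx x (stp x c) = sx x c := fun c => (hSGI G X m c).1
  have gam_stp : ∀ (c : Conf m X) (x : X), c x ≠ 0 → gam (stp x c) = -gam c := fun c => (hSGI G X m c).2.2.1
  have sg_mul : ∀ (c : Conf m X) (g h : G), sg (g * h) c = sg g (act h c) * sg h c := fun c => (hSGI G X m c).2.2.2.1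
  have sg_one : ∀ c : Conf m X, sg (1 : G) c = 1 := fun c => (hSGI G X m c).2.2.2.2.1
  have gam_act : ∀ (c : Conf m X) (g : G), gam (act g c) = gam c := fun c => (hSGI G X m c).2.2.2.2.2.2.1
  have gam_flp : ∀ (c : Conf m X) (A : Finset X), gam (flp A c) = gam c := fun c => (hSGI G X m c).2.2.2.2.2.2.2.1
  have sg_flp : ∀ (c : Conf m X) (g : G) (A : Finset X), sg g (flp A c) = sg g c := fun c => (hSGI G X m c).2.2.2.2.2.2.2.2.2.1
  have sx_sq : ∀ (c : Conf m X) (x : X), sx x c * sx x c = 1 ∧ (starRingEnd ℂ) (sx x c) = sx x c ∧ ‖sx x c‖ = 1 :=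
    fun c => (hSGI G X m c).2.2.2.2.2.2.2.2.2.2.1
  have sg_sq : ∀ (c : Conf m X) (g : G), sg g c * sg g c = 1 ∧ (starRingEnd ℂ) (sg g c) = sg g c ∧ ‖sg g c‖ = 1 :=
    fun c => (hSGI G X m c).2.2.2.2.2.2.2.2.2.2.2.1
  refine ⟨?_, ?_, ?_, ?_, ⟨?_, ?_⟩, ?_, ?_, ?_⟩
  · -- ζ = 1
    unfold vco
    rw [Finset.sum_eq_single (∅ : Finset X)]
    · rw [flp_empty]
      congr 1
      rw [Finset.prod_empty, one_mul, Finset.prod_eq_one, mul_one]
      intro x _
      rw [ph_one]
      norm_num
    · intro A hA hne
      obtain ⟨x, hx⟩ := Finset.nonempty_iff_ne_empty.mpr hne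
      rw [Finset.prod_eq_zero hx (by rw [ph_one]; norm_num), zero_mul, mul_zero, ite_self]
    · intro h
      exact absurd (Finset.empty_mem_powerset _) h
  · -- ζ = -1
    unfold vco
    rw [Finset.sum_eq_single (D.com g).toFinset]
    · congr 1
      rw [Finset.sdiff_self, Finset.prod_empty, mul_one, Finset.prod_eq_one, mul_one]
      intro x hx
      rw [ph_neg D g x hx]
      norm_num
    · intro A hA hne
      have hss : ∃ x ∈ (D.com g).toFinset, x ∉ A := by
        by_contra hcon
        exact hne (Finset.Subset.antisymm (Finset.mem_powerset.mp hA) fun y hy =>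
          by_contra fun hyA => hcon ⟨y, hy, hyA⟩)
      obtain ⟨x, hx, hxA⟩ := hss
      rw [Finset.prod_eq_zero (i := x) (s := (D.com g).toFinset \ A) (Finset.mem_sdiff.mpr ⟨hx, hxA⟩)
        (by rw [ph_neg D g x hx]; norm_num), mul_zero, mul_zero, ite_self]
    · intro h
      exact absurd (Finset.mem_powerset_self _) h
  · -- adjoint
    unfold vco
    rw [map_sum]
    have himg : (D.com g⁻¹).toFinset = (D.com g).toFinset.image fun x => g • x := by
      ext x
      rw [Finset.mem_image]
      constructor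
      · intro hx
        refine ⟨g⁻¹ • x, ?_, smul_inv_smul g x⟩
        rw [mem_com] at hx ⊢
        rw [smul_inv_smul]
        exact fun h => hx h.symm
      · rintro ⟨y, hy, rfl⟩
        rw [mem_com] at hy ⊢
        rw [inv_smul_smul]
        exact fun h => hy h.symm
    have hinj : Function.Injective fun x : X => g • x := MulAction.injective g
    symm
    refine Finset.sum_bij (fun A _ => A.image fun x => g • x) ?_ ?_ ?_ ?_
    · intro A hA
      rw [Finset.mem_powerset, himg]
      exact Finset.image_subset_image (Finset.mem_powerset.mp hA)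
    · intro A _ B _ h
      exact Finset.image_injective hinj h
    · intro B hB
      rw [Finset.mem_powerset, himg] at hB
      obtain ⟨A, hA, rfl⟩ := Finset.subset_image_iff.mp hB
      exact ⟨A, Finset.mem_powerset.mpr hA, rfl⟩
    · intro A hA
      have hiff : (act g (flp A c) = c') ↔ (act g⁻¹ (flp (A.image fun x => g • x) c') = c) := by
        constructor
        · rintro rfl
          rw [← act_flp, flp_flp, symmDiff_self, ← act_mul, inv_mul_cancel, act_one]
          exact flp_empty c
        · intro h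
          have h2 : act g c = flp (A.image fun x => g • x) c' := by
            rw [← h, ← act_mul, mul_inv_cancel, act_one]
          rw [act_flp, h2, flp_flp, symmDiff_self]
          exact flp_empty c'
      by_cases hc : act g (flp A c) = c'
      · rw [if_pos hc, if_pos (hiff.mp hc), map_mul, map_mul, map_prod, map_prod, (sg_sq c g).2.1]
        have hs : sg g⁻¹ c' = sg g c := by
          have h1 := sg_mul (flp A c) g⁻¹ g
          rw [inv_mul_cancel, sg_one, hc, sg_flp] at h1
          have h2 := (sg_sq c g).1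
          calc sg g⁻¹ c' = sg g⁻¹ c' * (sg g c * sg g c) := by rw [h2, mul_one]
            _ = (sg g⁻¹ c' * sg g c) * sg g c := by ring
            _ = sg g c := by rw [← h1, one_mul]
        rw [hs, himg, ← Finset.image_sdiff _ _ hinj, Finset.prod_image (fun x _ y _ h => hinj h),
          Finset.prod_image (fun x _ y _ h => hinj h)]
        congr 2
        · refine Finset.prod_congr rfl fun x _ => ?_
          rw [ph_inv, map_div₀, map_sub, map_one]
          rw [Complex.conj_ofNat]
        · refine Finset.prod_congr rfl fun x _ => ?_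
          rw [ph_inv, map_div₀, map_add, map_one]
          rw [Complex.conj_ofNat]
      · rw [if_neg hc, if_neg (fun h => hc (hiff.mpr h)), map_zero]
  · intro h
    obtain ⟨A, hA, rfl⟩ := vco_ne D ζ g c' c h
    rw [gam_act, gam_flp]
  · -- symmetry of B
    have key : ∀ c c' : Conf m X, bco m w c c' ≠ 0 → bco m w c c' = bco m w c' c := by
      intro c c' h
      obtain ⟨x, hx, hxc⟩ := bco_ne w c c' h
      have hsupp : c.support = c'.support := by rw [← hxc]; exact stp_supp c' x hx
      unfold bco
      rw [hsupp]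
      refine Finset.sum_congr rfl fun y hy => ?_
      have hy' : c' y ≠ 0 := Finsupp.mem_support_iff.mp hy
      have hy2 : c y ≠ 0 := Finsupp.mem_support_iff.mp (hsupp ▸ hy)
      by_cases h1 : stp y c' = c
      · have h2 : stp y c = c' := by rw [← h1]; exact stp_stp c' y hy'
        rw [if_pos h1, if_pos h2, ← h1, sx_stp c' y hy']
      · have h2 : stp y c ≠ c' := fun h2 => h1 (by rw [← h2]; exact stp_stp c y hy2)
        rw [if_neg h1, if_neg h2]
    by_cases h : bco m w c c' = 0
    · by_cases h' : bco m w c' c = 0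
      · rw [h, h']
      · exact (key c' c h').symm
    · exact key c c' h
  · unfold bco
    rw [map_sum]
    refine Finset.sum_congr rfl fun x _ => ?_
    split_ifs
    · rw [map_mul, Complex.conj_ofReal, (sx_sq c x).2.1]
    · exact map_zero _
  · intro h
    obtain ⟨x, hx, rfl⟩ := bco_ne w c' c h
    exact gam_stp c x hx
  · unfold vco
    refine continuous_finsetSum _ fun A _ => ?_
    split_ifs
    · refine continuous_const.mul ((continuous_finsetProd _ fun x _ => ?_).mul (continuous_finsetProd _ fun x _ => ?_))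
      · exact (continuous_const.sub (ph_cont D g x)).div_const 2
      · exact (continuous_const.add (ph_cont D g x)).div_const 2
    · exact continuous_const
  · intro h x hx
    obtain ⟨A, hA, rfl⟩ := vco_ne D ζ g c' c h
    rw [act_smul, flp_apply] at hx
    by_cases hxA : x ∈ A
    · right
      exact (mem_com D g x).mp (hA hxA)
    · rw [if_neg hxA] at hx
      exact Or.inl hx

end Pool.Agent.Lib.MP8a3537.AM
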