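import Pool.Agent.Lib.MP_8a3537_gt.AM.MON

/-!
# Module VEX: the matrix coefficients of the representation `V_g`
-/

set_option linter.unusedVariables false
set_option autoImplicit false

namespace Pool.Agent.Lib.MP8a3537.AM

open scoped BigOperators

namespace VEXM

variable {G X V : Type} [Group G] [MulAction G X] [LinearOrder X] [NormedAddCommGroup V]
  [InnerProductSpace ℂ V] {m : ℕ}

theorem opR_single (A : Finset X) (z : X → ℂ) (c : Conf m X) (v : V) :
    opR m V A z (Finsupp.single c v) = ∑ B ∈ A.powerset,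
      ((∏ x ∈ B, (1 - z x) / 2) * ∏ x ∈ A \ B, (1 + z x) / 2) • Finsupp.single (flp B c) v := by
  rw [opR, LinearMap.sum_apply]
  refine Finset.sum_congr rfl fun B _ => ?_
  rw [LinearMap.smul_apply, opF, MONM.mon_single, one_smul]

theorem coeff (hS : SpecSGI) (D : Dat G X) (ζ : ℂ) (g : G) (c c' : Conf m X) (v : V) :
    opV m V D ζ g (Finsupp.single c v) c' = vco m D ζ g c' c • v := by
  classical
  have hsg : ∀ B : Finset X, sg g (flp B c) = sg g c := fun B =>
    (hS G X m c).2.2.2.2.2.2.2.2.2.1 g B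
  rw [opV, LinearMap.comp_apply, opR_single, map_sum, Finsupp.finset_sum_apply, vco, Finset.sum_smul]
  refine Finset.sum_congr rfl fun B _ => ?_
  rw [map_smul, opU, MONM.mon_single, Finsupp.smul_apply, Finsupp.single_apply, hsg B]
  by_cases h : act g (flp B c) = c'
  · rw [if_pos h, if_pos h, smul_smul, mul_comm]
  · rw [if_neg h, if_neg h, smul_zero, zero_smul]

theorem flp_empty (c : Conf m X) : flp (∅ : Finset X) c = c := by
  ext x
  simp [flp]

theorem opF_empty (ψ : HS m X V) : opF m V ∅ ψ = ψ := by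
  induction ψ using Finsupp.induction_linear with
  | zero => rw [map_zero]
  | add f g hf hg => rw [map_add, hf, hg]
  | single c v => rw [opF, MONM.mon_single, one_smul, flp_empty]

theorem opR_one (A : Finset X) (z : X → ℂ) (hz : ∀ x, z x = 1) (ψ : HS m X V) :
    opR m V A z ψ = ψ := by
  rw [opR, LinearMap.sum_apply, Finset.sum_eq_single ∅]
  · rw [LinearMap.smul_apply, opF_empty, Finset.prod_empty, one_mul, Finset.sdiff_empty,
      Finset.prod_eq_one, one_smul]
    intro x _
    rw [hz x]
    norm_num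
  · intro B _ hB
    obtain ⟨x, hx⟩ := Finset.nonempty_iff_ne_empty.mpr hB
    rw [LinearMap.smul_apply, Finset.prod_eq_zero hx, zero_mul, zero_smul]
    rw [hz x, sub_self, zero_div]
  · intro h
    exact absurd (Finset.empty_mem_powerset A) h

theorem ph_one (D : Dat G X) (g : G) (x : X) : ph D 1 g x = 1 := by
  unfold ph
  rw [map_one]
  simp

end VEXM

theorem specVEX (hS : SpecSGI) : SpecVEX := by
  intro G X V _ _ _ _ _ m D ζ g c c' v
  refine ⟨VEXM.coeff hS D ζ g c c' v, fun ψ => ?_, fun ψ => ?_⟩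
  · rw [opV, LinearMap.comp_apply, VEXM.opR_one _ _ (VEXM.ph_one D g)]
  · have h : ψ = ∑ c ∈ ψ.support, Finsupp.single c (ψ c) := (Finsupp.sum_single ψ).symm
    calc opV m V D ζ g ψ c' = opV m V D ζ g (∑ c ∈ ψ.support, Finsupp.single c (ψ c)) c' := by
          rw [← h]
      _ = ∑ c ∈ ψ.support, vco m D ζ g c' c • ψ c := by
          rw [map_sum, Finsupp.finset_sum_apply]
          exact Finset.sum_congr rfl fun c _ => VEXM.coeff hS D ζ g c c' _

end Pool.Agent.Lib.MP8a3537.AM
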