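import Pool.Agent.Lib.MP_8a3537_gt.AM.Spec2

/-!
# VGP: the representation `V_g` (MP_8a3537_gt, folder AM)
-/

set_option linter.unusedVariables false

namespace Pool.Agent.Lib.MP8a3537.AM

open scoped BigOperators
open Pool.Agent.Lib.MP8a3537.SG

namespace VGPM

variable {G X : Type} [Group G] [MulAction G X]

theorem ph_norm (D : Dat G X) (ζ : ℂ) (hζ : ‖ζ‖ = 1) (g : G) (x : X) : ‖ph D ζ g x‖ = 1 := by
  classical
  unfold ph
  have h1 : ‖(starRingEnd ℂ) ζ‖ = 1 := by rw [RCLike.norm_conj, hζ]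
  split_ifs <;> simp [hζ]

theorem ph_one (D : Dat G X) (ζ : ℂ) (g : G) (x : X) (h : x ∈ D.M ↔ g • x ∈ D.M) : ph D ζ g x = 1 := by
  classical
  unfold ph
  by_cases h1 : x ∈ D.M
  · rw [if_pos h1, if_pos (h.mp h1)]
  · rw [if_neg h1, if_neg fun h2 => h1 (h.mpr h2)]

theorem ph_mul (D : Dat G X) (ζ : ℂ) (hζ : ‖ζ‖ = 1) (g h : G) (x : X) :
    ph D ζ g (h • x) * ph D ζ h x = ph D ζ (g * h) x := by
  classical
  have h1 : ζ * (starRingEnd ℂ) ζ = 1 := by
    rw [Complex.mul_conj, Complex.normSq_eq_norm_sq, hζ]; simp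
  have h2 : (starRingEnd ℂ) ζ * ζ = 1 := by rw [mul_comm, h1]
  unfold ph
  rw [mul_smul]
  split_ifs <;> simp [h1, h2]

theorem mem_del (D : Dat G X) (g : G) (x : X) : x ∈ (D.com g).toFinset ↔ ¬(x ∈ D.M ↔ g • x ∈ D.M) := by
  rw [Set.Finite.mem_toFinset]; rfl

theorem not_mem_del (D : Dat G X) (g : G) (x : X) (h : x ∉ (D.com g).toFinset) : x ∈ D.M ↔ g • x ∈ D.M := by
  rw [mem_del] at h
  exact not_not.mp h

end VGPM

open VGPM

theorem specVGP (hOPS : SpecOPS) (hRRR : SpecRRR) : SpecVGP := by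
  classical
  intro G X V _ _ _ _ _ m D ζ hζ
  have hU1 : ∀ ψ : HS m X V, opU m V (1 : G) ψ = ψ := fun ψ => (hOPS G X V m ψ ψ).1
  have hUm : ∀ (ψ : HS m X V) (g h : G), opU m V (g * h) ψ = opU m V g (opU m V h ψ) := fun ψ => (hOPS G X V m ψ ψ).2.1
  have hUn : ∀ (ψ : HS m X V) (g : G), ‖opU m V g ψ‖ = ‖ψ‖ := fun ψ => (hOPS G X V m ψ ψ).2.2.1
  have hF0 : ∀ ψ : HS m X V, opF m V ∅ ψ = ψ := fun ψ => (hOPS G X V m ψ ψ).2.2.2.1
  have hUb : ∀ (ψ : HS m X V) (g : G) x, opU m V g (opb m V x ψ) = opb m V (g • x) (opU m V g ψ) :=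
    fun ψ => (hOPS G X V m ψ ψ).2.2.2.2.2.2.2.2.2.2.2.1
  have hUG : ∀ (ψ : HS m X V) (g : G), opU m V g (opG m V ψ) = opG m V (opU m V g ψ) :=
    fun ψ => (hOPS G X V m ψ ψ).2.2.2.2.2.2.2.2.2.2.2.2.2.2.1
  have hRm := fun (A : Finset X) (z z' : X → ℂ) (ψ : HS m X V) => (hRRR G X V m A z z' ψ).2.1
  have hRext := fun (A : Finset X) (z : X → ℂ) (ψ : HS m X V) => (hRRR G X V m A z z ψ).2.2.1
  have hRcg := fun (A : Finset X) (z z' : X → ℂ) (ψ : HS m X V) => (hRRR G X V m A z z' ψ).2.2.2.1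
  have hRn := fun (A : Finset X) (z : X → ℂ) (ψ : HS m X V) => (hRRR G X V m A z z ψ).2.2.2.2.1
  have hRU := fun (A : Finset X) (z : X → ℂ) (ψ : HS m X V) => (hRRR G X V m A z z ψ).2.2.2.2.2.1
  have hRb := fun (A : Finset X) (z : X → ℂ) (ψ : HS m X V) => (hRRR G X V m A z z ψ).2.2.2.2.2.2.1
  have hRG := fun (A : Finset X) (z : X → ℂ) (ψ : HS m X V) => (hRRR G X V m A z z ψ).2.2.2.2.2.2.2
  have hV : ∀ (g : G) (ψ : HS m X V), opV m V D ζ g ψ = opU m V g (opR m V (D.com g).toFinset (ph D ζ g) ψ) := fun g ψ => rfl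
  have h1 : ∀ ψ : HS m X V, opV m V D ζ 1 ψ = ψ := by
    intro ψ
    have hd : (D.com (1 : G)).toFinset = ∅ := by
      ext x
      rw [mem_del]
      simp
    rw [hV, hU1, hd]
    unfold opR
    simp [hF0]
  have h2 : ∀ (g h : G) (ψ : HS m X V), opV m V D ζ (g * h) ψ = opV m V D ζ g (opV m V D ζ h ψ) := by
    intro g h ψ
    rw [hV, hV, hV]
    have e1 : ∀ φ : HS m X V, opR m V (D.com g).toFinset (ph D ζ g) (opU m V h φ) =
        opU m V h (opR m V ((D.com g).toFinset.image fun x => h⁻¹ • x) (fun x => ph D ζ g (h • x)) φ) := by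
      intro φ
      rw [hRU ((D.com g).toFinset.image fun x => h⁻¹ • x) (ph D ζ g) φ h, Finset.image_image]
      congr 1
      have : ((fun x => h • x) ∘ fun x : X => h⁻¹ • x) = id := by
        funext x; simp
      rw [this, Finset.image_id]
    rw [e1, hUm]
    congr 2
    set A' : Finset X := (D.com g).toFinset.image fun x => h⁻¹ • x with hA'
    have hmem : ∀ x, x ∉ A' → ph D ζ g (h • x) = 1 := by
      intro x hx
      apply ph_one
      apply not_mem_del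
      intro hx2
      apply hx
      rw [hA', Finset.mem_image]
      exact ⟨h • x, hx2, by simp⟩
    have hmem' : ∀ x, x ∉ A' → (h • x ∈ D.M ↔ g • h • x ∈ D.M) := by
      intro x hx
      apply not_mem_del
      intro hx2
      apply hx
      rw [hA', Finset.mem_image]
      exact ⟨h • x, hx2, by simp⟩
    rw [← hRext A' (fun x => ph D ζ g (h • x)) _ (A' ∪ (D.com h).toFinset) Finset.subset_union_left (fun x _ hx => hmem x hx),
      ← hRext (D.com h).toFinset (ph D ζ h) _ (A' ∪ (D.com h).toFinset) Finset.subset_union_right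
        (fun x _ hx => ph_one D ζ h x (not_mem_del D h x hx)), hRm]
    rw [hRcg _ (fun x => ph D ζ g (h • x) * ph D ζ h x) (ph D ζ (g * h)) ψ (fun x _ => ph_mul D ζ hζ g h x)]
    refine (hRext (D.com (g * h)).toFinset (ph D ζ (g * h)) ψ (A' ∪ (D.com h).toFinset) ?_
      (fun x _ hx => ph_one D ζ (g * h) x (not_mem_del D (g * h) x hx))).symm
    intro x hx
    by_contra hc
    rw [Finset.mem_union, not_or] at hc
    rw [mem_del] at hx
    apply hx
    rw [mul_smul, not_mem_del D h x hc.2]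
    exact hmem' x hc.1
  have h3 : ∀ (g : G) (ψ : HS m X V), ‖opV m V D ζ g ψ‖ = ‖ψ‖ := by
    intro g ψ
    rw [hV, hUn]
    exact hRn _ _ ψ (fun x _ => ph_norm D ζ hζ g x)
  intro ψ φ
  refine ⟨h1 ψ, fun g h => h2 g h ψ, fun g => h3 g ψ, ?_, ?_, ?_⟩
  · intro g x hx
    rw [hV, hV, hRb _ _ ψ x (fun hx2 => absurd hx ((mem_del D g x).mp hx2)), hUb]
  · intro g
    rw [hV, hV, hRG, hUG]
  · intro g
    have e1 : opV m V D ζ g (opV m V D ζ g⁻¹ φ) = φ := by
      rw [← h2, mul_inv_cancel, h1]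
    let L : HS m X V →ₗᵢ[ℂ] HS m X V := ⟨opV m V D ζ g, fun ψ => h3 g ψ⟩
    have e2 := L.inner_map_map ψ (opV m V D ζ g⁻¹ φ)
    have e3 : L (opV m V D ζ g⁻¹ φ) = φ := e1
    have e4 : L ψ = opV m V D ζ g ψ := rfl
    rw [e3, e4] at e2
    exact e2

end Pool.Agent.Lib.MP8a3537.AM
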