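import Pool.Agent.Lib.MP_8a3537_gt.AM.SpecC
import Pool.Agent.Lib.MP_8a3537_gt.TW.MOM
import Pool.Agent.Lib.MP_8a3537_gt.SG.MNB

/-!
# WDB: traces of polynomials in the matrix `L`
-/

set_option linter.unusedVariables false

namespace Pool.Agent.Lib.MP8a3537.AM

open Pool.Agent.Lib.MP8a3537.SG Pool.Agent.Lib.MP8a3537.TW
open scoped BigOperators

namespace WDBM

variable {G C H : Type} [Group G] [Fintype C] [DecidableEq C] [NormedAddCommGroup H]
  [InnerProductSpace ℂ H] [CompleteSpace H]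

theorem evl_single (Θ : MonoidAlgebra (Bo H) G) (l : FreeMonoid G) (a : ℂ) :
    evl Θ (MonoidAlgebra.single l a) = a • wd Θ l.toList := by
  unfold evl wd
  rw [MonoidAlgebra.lift_single, FreeMonoid.lift_apply]

theorem map_Lu (S : Finset G) (v : G → Matrix C C ℂ) (sg : C → ℂ) (B : Matrix C C ℂ)
    (Θ : MonoidAlgebra (Bo H) G) (hS : Θ.coeff.support ⊆ S) :
    (evl Θ).mapMatrix (Lu S v sg B) = Lm v sg B Θ := by
  ext1 c c'
  show evl Θ ((∑ g ∈ S, MonoidAlgebra.single (FreeMonoid.of g) (v g c c' * sg c')) +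
    MonoidAlgebra.single 1 (B c c')) =
    (∑ g ∈ Θ.coeff.support, (v g c c' * sg c') • Θ.coeff g) + B c c' • (1 : Bo H)
  rw [map_add, map_sum, evl_single]
  congr 1
  have h1 : ∀ g : G, evl Θ (MonoidAlgebra.single (FreeMonoid.of g) (v g c c' * sg c')) =
      (v g c c' * sg c') • Θ.coeff g := by
    intro g
    rw [evl_single]
    unfold wd
    simp
  rw [Finset.sum_congr rfl fun g _ => h1 g]
  symm
  refine Finset.sum_subset hS fun g _ hg => ?_
  rw [Finsupp.notMem_support_iff.1 hg, smul_zero]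

/-- `mop` as a homomorphism of algebras -/
noncomputable def mopA (hMOP : SpecMOP) (C H : Type) [Fintype C] [DecidableEq C]
    [NormedAddCommGroup H] [InnerProductSpace ℂ H] [CompleteSpace H] :
    Matrix C C (Bo H) →ₐ[ℂ] Bo (HC C H) where
  toFun M := mop M
  map_one' := (hMOP C H).2.1
  map_mul' M N := ((hMOP C H).2.2.1 M N).1
  map_zero' := by
    have h := ((hMOP C H).2.2.1 (0 : Matrix C C (Bo H)) 0).2
    rw [add_zero] at h
    have h2 : mop (0 : Matrix C C (Bo H)) + 0 = mop 0 + mop 0 := by rw [add_zero]; exact h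
    exact (add_left_cancel h2).symm
  map_add' M N := ((hMOP C H).2.2.1 M N).2
  commutes' z := by
    show mop (algebraMap ℂ (Matrix C C (Bo H)) z) = algebraMap ℂ (Bo (HC C H)) z
    rw [Algebra.algebraMap_eq_smul_one, Algebra.algebraMap_eq_smul_one, (hMOP C H).2.2.2.1,
      (hMOP C H).2.1]

theorem TT_mop (hMOP : SpecMOP) (ω : Bo H →L[ℂ] ℂ) (M : Matrix C C (Bo H)) :
    TT ω (mop M) = ∑ c, ω (M c c) := by
  unfold TT
  exact Finset.sum_congr rfl fun c _ => by rw [(hMOP C H).2.2.2.2.2.1 M c c]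

theorem TT_it (hMOP : SpecMOP) (S : Finset G) (v : G → Matrix C C ℂ) (sg : C → ℂ)
    (B : Matrix C C ℂ) (Θ : MonoidAlgebra (Bo H) G) (hS : Θ.coeff.support ⊆ S)
    (ω : Bo H →L[ℂ] ℂ) (t : ℝ) (j : ℕ) :
    TT ω (it ((t : ℂ) • mop (Lm v sg B Θ)) j) =
      ∑ c, ω (evl Θ ((it ((t : ℂ) • Lu S v sg B) j) c c)) := by
  have h1 : it ((t : ℂ) • mop (Lm v sg B Θ)) j =
      mop ((evl Θ).mapMatrix (it ((t : ℂ) • Lu S v sg B) j)) := by
    have h2 : (t : ℂ) • mop (Lm v sg B Θ) =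
        mopA hMOP C H ((evl Θ).mapMatrix ((t : ℂ) • Lu S v sg B)) := by
      rw [map_smul, map_smul, map_Lu S v sg B Θ hS]
      rfl
    rw [h2, ← MNBM.map_it, ← MNBM.map_it]
    rfl
  rw [h1, TT_mop hMOP]
  rfl

theorem it_entry (M : Matrix C C (FA G)) (t : ℂ) (j : ℕ) (c : C) :
    (it (t • M) j) c c =
      ∑ l ∈ Finset.range (3 ^ j + 1), ((qj j).coeff l * t ^ l) • ((M ^ l) c c) := by
  rw [MOMM.it_eq_aeval,
    Polynomial.aeval_eq_sum_range' (Nat.lt_succ_of_le (MOMM.natDegree_qj j)) (t • M),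
    Matrix.sum_apply]
  refine Finset.sum_congr rfl fun l _ => ?_
  rw [smul_pow, smul_smul, Matrix.smul_apply]

theorem agree {H₁ H₂ : Type} [NormedAddCommGroup H₁] [InnerProductSpace ℂ H₁] [CompleteSpace H₁]
    [NormedAddCommGroup H₂] [InnerProductSpace ℂ H₂] [CompleteSpace H₂]
    (Θ₁ : MonoidAlgebra (Bo H₁) G) (Θ₂ : MonoidAlgebra (Bo H₂) G) (ω₁ : Bo H₁ →L[ℂ] ℂ)
    (ω₂ : Bo H₂ →L[ℂ] ℂ) (h : ∀ l : List G, l.prod = 1 → ω₁ (wd Θ₁ l) = ω₂ (wd Θ₂ l))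
    (z : FA G) (hz : ∀ l : FreeMonoid G, z.coeff l ≠ 0 → l.toList.prod = 1) :
    ω₁ (evl Θ₁ z) = ω₂ (evl Θ₂ z) := by
  have key : ∀ {K : Type} [NormedAddCommGroup K] [InnerProductSpace ℂ K] [CompleteSpace K]
      (Θ : MonoidAlgebra (Bo K) G) (ω : Bo K →L[ℂ] ℂ),
      ω (evl Θ z) = ∑ l ∈ z.coeff.support, z.coeff l * ω (wd Θ l.toList) := by
    intro K _ _ _ Θ ω
    unfold evl wd
    rw [MonoidAlgebra.lift_apply, Finsupp.sum, map_sum]
    refine Finset.sum_congr rfl fun l _ => ?_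
    rw [map_smul, smul_eq_mul, FreeMonoid.lift_apply]
  rw [key, key]
  refine Finset.sum_congr rfl fun l hl => ?_
  rw [h _ (hz l (Finsupp.mem_support_iff.1 hl))]

end WDBM

open WDBM in
theorem specWDB (hWDA : SpecWDA) (hMOP : SpecMOP) : SpecWDB := by
  intro G _ C _ _ S m v sg B Q _ n h1 h2 h3 H₁ H₂ _ _ _ _ _ _ Θ₁ Θ₂ ω₁ ω₂ hS₁ hS₂ hw t j hj
  rw [TT_it hMOP S v sg B Θ₁ hS₁, TT_it hMOP S v sg B Θ₂ hS₂]
  refine Finset.sum_congr rfl fun c _ => ?_
  rw [it_entry, map_sum, map_sum, map_sum, map_sum]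
  refine Finset.sum_congr rfl fun l hl => ?_
  rw [map_smul, map_smul, map_smul, map_smul]
  congr 1
  refine agree Θ₁ Θ₂ ω₁ ω₂ hw _ fun w hw' => ?_
  exact hWDA G C S m v sg B Q n h1 h2 h3 l
    (lt_of_le_of_lt (Nat.lt_succ_iff.1 (Finset.mem_range.1 hl)) hj) c w hw'

end Pool.Agent.Lib.MP8a3537.AM
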