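import Pool.Agent.Lib.MP_8a3537_gt.AM.Spec2

/-!
# YYY: the operator `Y` (MP_8a3537_gt, folder AM)
-/

set_option linter.unusedVariables false

namespace Pool.Agent.Lib.MP8a3537.AM

open scoped BigOperators
open Pool.Agent.Lib.MP8a3537.SG

namespace YYYM

section lift

variable {X V : Type} [NormedAddCommGroup V] [InnerProductSpace ℂ V] {m : ℕ}

theorem lft_apply (A : V →L[ℂ] V) (ψ : HS m X V) (c : Conf m X) : lft m X A ψ c = A (ψ c) := rfl

theorem lft_mul (A B : V →L[ℂ] V) (ψ : HS m X V) : lft m X (A * B) ψ = lft m X A (lft m X B ψ) := by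
  ext c
  rfl

theorem lft_one (ψ : HS m X V) : lft m X (1 : V →L[ℂ] V) ψ = ψ := by
  ext c
  rfl

theorem lft_zero (ψ : HS m X V) : lft m X (0 : V →L[ℂ] V) ψ = 0 := by
  ext c
  rfl

theorem lft_add (A B : V →L[ℂ] V) (ψ : HS m X V) :
    lft m X (A + B) ψ = lft m X A ψ + lft m X B ψ := by
  ext c
  rfl

theorem lft_sub (A B : V →L[ℂ] V) (ψ : HS m X V) :
    lft m X (A - B) ψ = lft m X A ψ - lft m X B ψ := by
  ext c
  rfl

/-- operators with scalar coefficients commute with `lft A` -/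
theorem comm_lft (Φ : HS m X V →ₗ[ℂ] HS m X V) (k : Conf m X → Conf m X → ℂ)
    (h : ∀ (ψ : HS m X V) c', Φ ψ c' = ∑ c ∈ ψ.support, k c' c • ψ c) (A : V →L[ℂ] V)
    (ψ : HS m X V) : Φ (lft m X A ψ) = lft m X A (Φ ψ) := by
  ext c'
  rw [h, lft_apply, h, map_sum]
  have h1 : (lft m X A ψ).support ⊆ ψ.support := by
    intro c hc
    rw [Finsupp.mem_support_iff] at hc ⊢
    intro h0
    apply hc
    rw [lft_apply, h0, map_zero]
  rw [Finset.sum_subset h1 fun c _ hc => by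
    rw [Finsupp.notMem_support_iff.mp hc, smul_zero]]
  refine Finset.sum_congr rfl fun c _ => ?_
  rw [map_smul, lft_apply]

theorem Mon_id_apply (a : Conf m X → ℂ) (φ : HS m X V) (t : Conf m X) :
    Mon V (fun t => t) a φ t = a t • φ t := by
  classical
  unfold Mon
  rw [Finsupp.lsum_apply, Finsupp.sum, Finsupp.finsetSum_apply]
  have h1 : ∀ u ∈ φ.support, (a u • (Finsupp.lsingle u : V →ₗ[ℂ] HS m X V)) (φ u) t =
      if u = t then a t • φ t else 0 := by
    intro u _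
    show (a u • Finsupp.single u (φ u) : HS m X V) t = _
    rw [Finsupp.smul_apply, Finsupp.single_apply]
    split_ifs with h
    · rw [h]
    · rw [smul_zero]
  refine (Finset.sum_congr rfl h1).trans ?_
  rw [Finset.sum_ite_eq']
  split_ifs with h
  · rfl
  · rw [Finsupp.notMem_support_iff.mp h, smul_zero]

theorem opG_lft (A : V →L[ℂ] V) (ψ : HS m X V) :
    opG m V (lft m X A ψ) = lft m X A (opG m V ψ) := by
  ext c
  unfold opG
  rw [Mon_id_apply, lft_apply, lft_apply, Mon_id_apply, map_smul]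

theorem norm_lft (A : V →L[ℂ] V) (ψ : HS m X V) : ‖lft m X A ψ‖ ≤ ‖A‖ * ‖ψ‖ := by
  refine (pow_le_pow_iff_left₀ (norm_nonneg _) (by positivity) two_ne_zero).1 ?_
  rw [mul_pow, norm_sq, norm_sq, Finset.mul_sum]
  have h1 : (lft m X A ψ).support ⊆ ψ.support := by
    intro c hc
    rw [Finsupp.mem_support_iff] at hc ⊢
    intro h0
    apply hc
    rw [lft_apply, h0, map_zero]
  refine (Finset.sum_le_sum_of_subset_of_nonneg h1 fun _ _ _ => sq_nonneg _).trans ?_
  refine Finset.sum_le_sum fun c _ => ?_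
  rw [lft_apply, ← mul_pow]
  exact pow_le_pow_left₀ (norm_nonneg _) (A.le_opNorm _) 2

theorem inner_lft [CompleteSpace V] (A : V →L[ℂ] V) (ψ φ : HS m X V) :
    inner ℂ (lft m X A ψ) φ = inner ℂ ψ (lft m X (star A) φ) := by
  classical
  rw [inner_def, inner_def, fin2_eq _ _ ψ.support (by
    intro c hc
    rw [Finsupp.mem_support_iff] at hc ⊢
    intro h0
    apply hc
    rw [lft_apply, h0, map_zero]), fin2]
  refine Finset.sum_congr rfl fun c _ => ?_
  rw [lft_apply, lft_apply, ContinuousLinearMap.star_eq_adjoint,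
    ContinuousLinearMap.adjoint_inner_right]

end lift

section main

variable {G X V : Type} [Group G] [MulAction G X] [LinearOrder X] [NormedAddCommGroup V]
  [InnerProductSpace ℂ V] {m : ℕ} (D : Dat G X) (ζ : ℂ)

theorem opY_eq (y : MonoidAlgebra (V →L[ℂ] V) G) (ψ : HS m X V) (s : Finset G)
    (hs : y.coeff.support ⊆ s) :
    opY m D ζ y ψ = ∑ g ∈ s, opV m V D ζ g (lft m X (y.coeff g) ψ) := by
  unfold opY
  rw [Finsupp.sum, LinearMap.sum_apply]
  refine Finset.sum_subset hs fun g _ hg => ?_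
  show opV m V D ζ g (lft m X (y.coeff g) ψ) = 0
  rw [Finsupp.notMem_support_iff.mp hg, lft_zero, map_zero]

theorem opY_add (y y' : MonoidAlgebra (V →L[ℂ] V) G) (ψ : HS m X V) :
    opY m D ζ (y + y') ψ = opY m D ζ y ψ + opY m D ζ y' ψ := by
  classical
  set s := y.coeff.support ∪ y'.coeff.support ∪ (y + y').coeff.support with hs
  rw [opY_eq D ζ y ψ s (by rw [hs]; intro g hg; simp only [Finset.mem_union]; exact Or.inl (Or.inl hg)),
    opY_eq D ζ y' ψ s (by rw [hs]; intro g hg; simp only [Finset.mem_union]; exact Or.inl (Or.inr hg)),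
    opY_eq D ζ (y + y') ψ s (by rw [hs]; intro g hg; simp only [Finset.mem_union]; exact Or.inr hg),
    ← Finset.sum_add_distrib]
  refine Finset.sum_congr rfl fun g _ => ?_
  rw [← map_add, ← lft_add]
  rfl

theorem opY_sub (y y' : MonoidAlgebra (V →L[ℂ] V) G) (ψ : HS m X V) :
    opY m D ζ (y - y') ψ = opY m D ζ y ψ - opY m D ζ y' ψ := by
  have h := opY_add D ζ (y - y') y' ψ
  rw [sub_add_cancel] at h
  rw [h, add_sub_cancel_right]

theorem opY_zero (ψ : HS m X V) : opY m D ζ (0 : MonoidAlgebra (V →L[ℂ] V) G) ψ = 0 := by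
  rw [opY_eq D ζ 0 ψ ∅ (by simp)]
  rfl

theorem opY_single (g : G) (A : V →L[ℂ] V) (ψ : HS m X V) :
    opY m D ζ (MonoidAlgebra.single g A) ψ = opV m V D ζ g (lft m X A ψ) := by
  have h1 : (MonoidAlgebra.single g A : MonoidAlgebra (V →L[ℂ] V) G).coeff.support ⊆ {g} :=
    Finsupp.support_single_subset
  have h2 : (MonoidAlgebra.single g A : MonoidAlgebra (V →L[ℂ] V) G).coeff g = A :=
    Finsupp.single_eq_same
  rw [opY_eq D ζ _ ψ {g} h1, Finset.sum_singleton, h2]

end main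

end YYYM

open YYYM in
theorem specYYY (hVGP : SpecVGP) (hVEX : SpecVEX) (hNRM : SpecNRM) : SpecYYY := by
  intro G X V _ _ _ _ _ _ m D ζ hζ y ψ φ
  have hV1 : ∀ ψ : HS m X V, opV m V D ζ (1 : G) ψ = ψ := fun ψ => (hVGP G X V m D ζ hζ ψ ψ).1
  have hV2 : ∀ (ψ : HS m X V) (g h : G), opV m V D ζ (g * h) ψ = opV m V D ζ g (opV m V D ζ h ψ) :=
    fun ψ => (hVGP G X V m D ζ hζ ψ ψ).2.1
  have hV3 : ∀ (ψ : HS m X V) (g : G), ‖opV m V D ζ g ψ‖ = ‖ψ‖ :=
    fun ψ => (hVGP G X V m D ζ hζ ψ ψ).2.2.1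
  have hV5 : ∀ (ψ : HS m X V) (g : G), opV m V D ζ g (opG m V ψ) = opG m V (opV m V D ζ g ψ) :=
    fun ψ => (hVGP G X V m D ζ hζ ψ ψ).2.2.2.2.1
  have hV6 : ∀ (ψ φ : HS m X V) (g : G), inner ℂ (opV m V D ζ g ψ) φ = inner ℂ ψ (opV m V D ζ g⁻¹ φ) :=
    fun ψ φ => (hVGP G X V m D ζ hζ ψ φ).2.2.2.2.2
  have hcV : ∀ (g : G) (A : V →L[ℂ] V) (ψ : HS m X V),
      opV m V D ζ g (lft m X A ψ) = lft m X A (opV m V D ζ g ψ) := fun g A ψ =>
    comm_lft (opV m V D ζ g) (vco m D ζ g)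
      (fun ψ c' => (hVEX G X V m D ζ g c' c' 0).2.2 ψ) A ψ
  have hcB : ∀ (w : X → ℝ) (A : V →L[ℂ] V) (ψ : HS m X V),
      opB m V w (lft m X A ψ) = lft m X A (opB m V w ψ) := fun w A ψ =>
    comm_lft (opB m V w) (bco m w)
      (fun ψ c' => (hNRM X V m w ψ ψ).2.2.2.2.2.2.2 c') A ψ
  refine ⟨?_, ?_, fun y' => opY_sub D ζ y' y ψ, ?_, ?_, ?_, ?_⟩
  · intro y'
    induction y' using MonoidAlgebra.induction_linear with
    | zero => rw [zero_mul, opY_zero, opY_zero]
    | add a b ha hb => rw [add_mul, opY_add, opY_add, ha, hb]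
    | single g A =>
      induction y using MonoidAlgebra.induction_linear with
      | zero => rw [mul_zero, opY_zero, map_zero]
      | add a b ha hb => rw [mul_add, opY_add, opY_add, ha, hb, map_add]
      | single h B =>
        rw [MonoidAlgebra.single_mul_single, opY_single, opY_single, opY_single, hV2, lft_mul, ← hcV]
  · rw [MonoidAlgebra.one_def, opY_single, lft_one, hV1]
  · rw [opY_eq D ζ y ψ _ (Finset.Subset.refl _)]
    refine (norm_sum_le _ _).trans ?_
    rw [n1, Finset.sum_mul]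
    refine Finset.sum_le_sum fun g _ => ?_
    rw [hV3]
    exact norm_lft _ _
  · intro hy
    rw [opY_eq D ζ y ψ _ (Finset.Subset.refl _), opY_eq D ζ y φ _ (Finset.Subset.refl _), sum_inner,
      inner_sum]
    have hinv : ∀ g ∈ y.coeff.support, g⁻¹ ∈ y.coeff.support := by
      intro g hg
      rw [Finsupp.mem_support_iff] at hg ⊢
      rw [hy g]
      intro h0
      exact hg (star_eq_zero.1 h0)
    refine Finset.sum_bij (fun g _ => g⁻¹) hinv (fun a _ b _ h => inv_injective h)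
      (fun g hg => ⟨g⁻¹, hinv g hg, inv_inv g⟩) fun g _ => ?_
    rw [hV6, inner_lft, hy g, hcV]
  · rw [opY_eq D ζ y (opG m V ψ) _ (Finset.Subset.refl _), opY_eq D ζ y ψ _ (Finset.Subset.refl _),
      map_sum]
    refine Finset.sum_congr rfl fun g _ => ?_
    rw [← opG_lft, hV5]
  · intro w S ε κ hε hκ hS hE
    rw [opY_eq D ζ y (opB m V w ψ) _ (Finset.Subset.refl _), opY_eq D ζ y ψ _ (Finset.Subset.refl _),
      map_sum, ← Finset.sum_sub_distrib]
    refine (norm_sum_le _ _).trans ?_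
    rw [n1, Finset.sum_mul]
    refine Finset.sum_le_sum fun g hg => ?_
    have h1 := hE g (hS hg) (lft m X (y.coeff g) ψ)
    rw [hcB] at h1
    refine h1.trans ?_
    have h2 := norm_lft (y.coeff g) (opB m V w ψ)
    have h3 := norm_lft (y.coeff g) ψ
    calc ε * ‖lft m X (y.coeff g) (opB m V w ψ)‖ + κ * ‖lft m X (y.coeff g) ψ‖
        ≤ ε * (‖y.coeff g‖ * ‖opB m V w ψ‖) + κ * (‖y.coeff g‖ * ‖ψ‖) :=
          add_le_add (mul_le_mul_of_nonneg_left h2 hε) (mul_le_mul_of_nonneg_left h3 hκ)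
      _ = ‖y.coeff g‖ * (ε * ‖opB m V w ψ‖ + κ * ‖ψ‖) := by ring

end Pool.Agent.Lib.MP8a3537.AM
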