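import Pool.Agent.Lib.MP_8a3537_gt.AM.BDL
import Pool.Agent.Lib.MP_8a3537_gt.AM.BBA
import Pool.Agent.Lib.MP_8a3537_gt.AM.BBL
import Pool.Agent.Lib.MP_8a3537_gt.AM.BRG
import Pool.Agent.Lib.MP_8a3537_gt.AM.CAR
import Pool.Agent.Lib.MP_8a3537_gt.AM.CNF
import Pool.Agent.Lib.MP_8a3537_gt.AM.COM
import Pool.Agent.Lib.MP_8a3537_gt.AM.CST
import Pool.Agent.Lib.MP_8a3537_gt.AM.EFR
import Pool.Agent.Lib.MP_8a3537_gt.AM.GAB
import Pool.Agent.Lib.MP_8a3537_gt.AM.GPM
import Pool.Agent.Lib.MP_8a3537_gt.AM.ITS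
import Pool.Agent.Lib.MP_8a3537_gt.AM.LEV
import Pool.Agent.Lib.MP_8a3537_gt.AM.LHM
import Pool.Agent.Lib.MP_8a3537_gt.AM.LPI
import Pool.Agent.Lib.MP_8a3537_gt.AM.MOB
import Pool.Agent.Lib.MP_8a3537_gt.AM.MON
import Pool.Agent.Lib.MP_8a3537_gt.AM.MOP
import Pool.Agent.Lib.MP_8a3537_gt.AM.NRM
import Pool.Agent.Lib.MP_8a3537_gt.AM.OPS
import Pool.Agent.Lib.MP_8a3537_gt.AM.PAT
import Pool.Agent.Lib.MP_8a3537_gt.AM.PCM
import Pool.Agent.Lib.MP_8a3537_gt.AM.POL
import Pool.Agent.Lib.MP_8a3537_gt.AM.RRR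
import Pool.Agent.Lib.MP_8a3537_gt.AM.RSA
import Pool.Agent.Lib.MP_8a3537_gt.AM.RST
import Pool.Agent.Lib.MP_8a3537_gt.AM.SGA
import Pool.Agent.Lib.MP_8a3537_gt.AM.SGI
import Pool.Agent.Lib.MP_8a3537_gt.AM.SSC
import Pool.Agent.Lib.MP_8a3537_gt.AM.SYM
import Pool.Agent.Lib.MP_8a3537_gt.AM.TTB
import Pool.Agent.Lib.MP_8a3537_gt.AM.TWO
import Pool.Agent.Lib.MP_8a3537_gt.AM.VCO
import Pool.Agent.Lib.MP_8a3537_gt.AM.VEX
import Pool.Agent.Lib.MP_8a3537_gt.AM.VGP
import Pool.Agent.Lib.MP_8a3537_gt.AM.WDA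
import Pool.Agent.Lib.MP_8a3537_gt.AM.WDB
import Pool.Agent.Lib.MP_8a3537_gt.AM.YYY

/-!
# Assembly of the blocks M and C: the core theorem for all groups with property W
-/

namespace Pool.Agent.Lib.MP8a3537.AM

theorem all_SGI : SpecSGI := specSGI specCNF
theorem all_VCO : SpecVCO := specVCO specCNF all_SGI
theorem all_LEV : SpecLEV := specLEV all_VCO specCNF
theorem all_OPS : SpecOPS := specOPS specMON specCNF all_SGI
theorem all_RRR : SpecRRR := specRRR all_OPS
theorem all_VGP : SpecVGP := specVGP all_OPS all_RRR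
theorem all_VEX : SpecVEX := specVEX all_SGI
theorem all_NRM : SpecNRM := specNRM specMON all_OPS specCNF all_SGI
theorem all_EFR : SpecEFR := specEFR all_VGP all_NRM all_OPS all_VCO all_VEX
theorem all_YYY : SpecYYY := specYYY all_VGP all_VEX all_NRM
theorem all_BRG : SpecBRG := specBRG specMON all_VEX all_NRM
theorem all_BDL : SpecBDL := specBDL specGAB all_YYY all_EFR all_NRM all_BRG all_OPS specCNF all_VCO all_VEX
theorem all_GPM : SpecGPM := specGPM specMOP all_BDL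
theorem all_BBA : SpecBBA := specBBA specCNF all_SGI
theorem all_PCM : SpecPCM := specPCM specCNF all_SGI all_VCO
theorem all_MOB : SpecMOB := specMOB all_BBA all_PCM all_GPM specCNF all_SGI all_VCO all_LEV specCAR

theorem all_CST : SpecCST := specCST specSGA specSSC specSYM specLPI
theorem all_PAT : SpecPAT := specPAT all_CST
theorem all_TTB : SpecTTB := specTTB specMOP
theorem all_LHM : SpecLHM := specLHM specMOP
theorem all_RSA : SpecRSA := specRSA specMOP all_LHM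
theorem all_RST : SpecRST := specRST specMOP all_TTB specBBL specITS all_LHM all_RSA all_PAT specSGA specSSC
theorem all_TWO : SpecTWO := specTWO all_RST all_PAT all_TTB specBBL all_LHM
theorem all_WDB : SpecWDB := specWDB specWDA specMOP
theorem all_COM : SpecCOM := specCOM all_TWO all_WDB specPOL specSGA specSSC all_TTB specBBL all_LHM

/-- the core theorem for all groups with property W -/
theorem all_CORE : SpecCORE := specCORE all_MOB all_COM

end Pool.Agent.Lib.MP8a3537.AM
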