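import Pool.Agent.Lib.MP_8a3537_gt.AM.SpecF

/-!
# CLS: classes of groups
-/

set_option autoImplicit false

namespace Pool.Agent.Lib.MP8a3537.AM

open Pool.Agent.Lib.MP8a3537.SG

theorem specCLS (hTFW : SpecTFW) (hNAM : SpecNAM) : SpecCLS := by
  refine ⟨?_, ?_⟩
  · intro G _ h g hg
    obtain ⟨K, iK, f, hf, hK⟩ := h g hg
    rcases hK with hK | hK
    · exact ⟨K, iK, f, hf, hTFW.1 K hK⟩
    · exact ⟨K, iK, f, hf, hTFW.2 K hK⟩
  · intro G _ h g hg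
    obtain ⟨K, hK, hzK, hnil, htf⟩ := h g hg
    refine ⟨G ⧸ K, inferInstance, QuotientGroup.mk' K, ?_, Or.inl (hNAM (G ⧸ K) hnil htf)⟩
    intro h1
    exact hzK ((QuotientGroup.eq_one_iff g).1 h1)

end Pool.Agent.Lib.MP8a3537.AM
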