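import Pool.Agent.Lib.MP_8a3537_gt.AM.SpecF
import Pool.Agent.Lib.MP_8a3537_gt.TW.COR

/-!
# MP_8a3537_gt, folder AM, module CO2: the twisted trace of the sign is a rational polynomial

The proof of `TW/COR.lean` with `ES2` instead of `LGB` and `EST`.
-/

set_option linter.unusedVariables false

namespace Pool.Agent.Lib.MP8a3537.AM

open Pool.Agent.Lib.MP8a3537.SG
open Pool.Agent.Lib.MP8a3537.TW
open Filter Topology
open scoped BigOperators Pointwise Matrix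

open Pool.Agent.Lib.MP8a3537.TW.CORM in
/-- **CO2**. -/
theorem specCO2 (hCLQ : TW.SpecCLQ) (hNQ2 : SpecNQ2) (hCOE : TW.SpecCOE) (hES2 : SpecES2) :
    SpecCO2 := by
  classical
  intro Γ G _ _ π z hE hFG hzn hW ι _ _ y y' x' hy hyy
  obtain ⟨δ, b1, hδ, hb1, hgap⟩ := hES2 Γ G π z hE hW ι y y' x' hy hyy
  obtain ⟨b2, hb2, hcoe⟩ := hCOE Γ ι y hy
  obtain ⟨hD, C₂, R, I, hC₂, hI⟩ := hNQ2 Γ z hFG hzn hE.central
  -- the finite set
  let S : Finset Γ := insert 1 (Finset.univ.biUnion fun i : ι => Finset.univ.biUnion fun j : ι =>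
    (y i j).coeff.support)
  have hS1 : (1 : Γ) ∈ S := Finset.mem_insert_self _ _
  have hSs : ∀ (b : ℂ) (i j : ι), ((b • y) i j).coeff.support ⊆ S := by
    intro b i j g hg
    refine Finset.mem_insert_of_mem ?_
    rw [Finset.mem_biUnion]
    refine ⟨i, Finset.mem_univ _, ?_⟩
    rw [Finset.mem_biUnion]
    refine ⟨j, Finset.mem_univ _, ?_⟩
    rw [Finsupp.mem_support_iff] at hg ⊢
    intro h0
    apply hg
    change b • (y i j).coeff g = 0
    rw [h0, smul_zero]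
  obtain ⟨C₁, r, hC₁, hdist⟩ := hD S
  let C := max C₁ C₂
  have hC : 0 ≤ C := hC₁.trans (le_max_left _ _)
  let K : ℕ → ℕ := fun j => ⌊C * ((3 : ℝ) ^ j) ^ r⌋₊
  have hK : ∀ j, (K j : ℝ) ≤ C * ((3 : ℝ) ^ j) ^ r := fun j => Nat.floor_le (by positivity)
  have hsupp : ∀ (b : ℂ) j i (k : ℤ), ((it (b • y) j) i i).coeff (z ^ k) ≠ 0 → |k| ≤ K j := by
    intro b j i k hne
    have h1 : z ^ k ∈ S ^ (3 ^ j) := specSUP Γ ι (b • y) S hS1 (hSs b) j i i (Finsupp.mem_support_iff.2 hne)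
    have h2 := hdist (3 ^ j) k (Nat.one_le_pow _ _ (by norm_num)) h1
    push_cast at h2
    have h3 : |(k : ℝ)| ≤ C * ((3 : ℝ) ^ j) ^ r := h2.trans (by
      apply mul_le_mul_of_nonneg_right (le_max_left _ _); positivity)
    have h4 : k.natAbs ≤ K j := by
      apply Nat.le_floor
      rw [Nat.cast_natAbs, Int.cast_abs]
      exact h3
    rw [Int.abs_eq_natAbs]
    exact_mod_cast h4
  -- the representations of the grid
  have hex : ∀ (M : ℕ) (p : ℤ), ∃ ρ : Γ →* Matrix.unitaryGroup (Fin (I M)) ℂ, 0 < M →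
      ((ρ z : Matrix.unitaryGroup (Fin (I M)) ℂ) : Matrix (Fin (I M)) (Fin (I M)) ℂ) = ex (p / M) • 1 := by
    intro M p
    by_cases hM : 0 < M
    · obtain ⟨ρ, hρ⟩ := (hI M hM).2.2 p
      exact ⟨ρ, fun _ => hρ⟩
    · exact ⟨1, fun h => absurd h hM⟩
  choose ρ hρ using hex
  let v : ℕ → ℤ → ℝ := fun M p => ((sgn (twist (ρ M p) y) : ℤ) : ℝ) / I M
  have hmain : ∀ b : ℝ, 0 < b → b ≤ min b1 b2 → ∃ e : ℝ, 0 < e ∧ e ≤ 1 ∧
      (∀ θ : ℝ, |θ| < δ → ∀ (κ : Type) [Fintype κ] [DecidableEq κ] (σ : Γ →* Matrix.unitaryGroup κ ℂ),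
        ((σ z : Matrix.unitaryGroup κ ℂ) : Matrix κ κ ℂ) = ex θ • 1 →
        ∀ j, ‖(Fintype.card κ : ℂ) * tauZ z θ (it ((b : ℂ) • y) j) - ((sgn (twist σ y) : ℤ) : ℂ)‖ ≤
          Fintype.card ι * Fintype.card κ * del e j) ∧
      ∃ Q : Polynomial ℚ, (∀ M : ℕ, 0 < M → ∀ p : ℤ, |(p : ℝ)| < δ * M →
        v M p = Polynomial.aeval ((p : ℝ) / M) Q) ∧
      ∀ j (θ : ℝ), |θ| < δ → ‖tauZ z θ (it ((b : ℂ) • y) j) - ((Polynomial.aeval θ Q : ℝ) : ℂ)‖ ≤
        Fintype.card ι * del e j := by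
    intro b hb hbm
    obtain ⟨e, he, he1, hg⟩ := hgap b hb (hbm.trans (min_le_left _ _))
    have hc := hcoe b hb (hbm.trans (min_le_right _ _))
    refine ⟨e, he, he1, hg, ?_⟩
    let T : ℕ → ℤ → ℂ := fun j k => ∑ i, ((it ((b : ℂ) • y) j) i i).coeff (z ^ k)
    have hT : ∀ j k, ‖T j k‖ ≤ Fintype.card ι := by
      intro j k
      refine (norm_sum_le _ _).trans ?_
      refine (Finset.sum_le_sum fun i _ => hc j i (z ^ k)).trans ?_
      simp
    have htau : ∀ j θ, tauZ z θ (it ((b : ℂ) • y) j) =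
        ∑ k ∈ Finset.Icc (-(K j : ℤ)) (K j), T j k * ex (θ * k) :=
      fun j θ => tauZ_eq hE θ (K j) _ (hsupp b j)
    have key := hCLQ e (Fintype.card ι) C δ r R T K I v he he1 (Nat.cast_nonneg _) hC hδ hK hT ?_ ?_
    · obtain ⟨Q, hQ1, hQ2⟩ := key
      refine ⟨Q, hQ1, fun j θ hθ => ?_⟩
      rw [htau]
      exact hQ2 j θ hθ
    · intro M hM
      refine ⟨(hI M hM).1, ?_⟩
      refine ((hI M hM).2.1).trans ?_
      apply mul_le_mul_of_nonneg_right (le_max_right _ _); positivity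
    · intro M hM p hp
      have hIp : (0 : ℝ) < I M := by exact_mod_cast (hI M hM).1
      have hIC : ((I M : ℕ) : ℂ) ≠ 0 := by exact_mod_cast (hI M hM).1.ne'
      have hMR : (0 : ℝ) < M := by exact_mod_cast hM
      refine ⟨⟨sgn (twist (ρ M p) y), mul_div_cancel₀ _ hIp.ne'⟩, fun j => ?_⟩
      have hθ : |(p : ℝ) / M| < δ := by
        rw [abs_div, abs_of_pos hMR, div_lt_iff₀ hMR]
        exact hp
      have h1 := hg _ hθ (Fin (I M)) (ρ M p) (hρ M p hM) j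
      rw [Fintype.card_fin, htau] at h1
      have h3 : ∑ k ∈ Finset.Icc (-(K j : ℤ)) (K j), T j k * ex ((p : ℝ) / M * k) = F (T j) (K j) M p := by
        unfold F
        refine Finset.sum_congr rfl fun k _ => ?_
        rw [div_mul_eq_mul_div]
      rw [h3] at h1
      have h4 : ((I M : ℕ) : ℂ) * F (T j) (K j) M p - ((sgn (twist (ρ M p) y) : ℤ) : ℂ) =
          ((I M : ℕ) : ℂ) * (F (T j) (K j) M p - (v M p : ℂ)) := by
        show _ = ((I M : ℕ) : ℂ) * (F (T j) (K j) M p - ((((sgn (twist (ρ M p) y) : ℤ) : ℝ) / I M : ℝ) : ℂ))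
        push_cast
        rw [mul_sub, mul_div_cancel₀ _ hIC]
      rw [h4, norm_mul, Complex.norm_natCast] at h1
      have h5 : (I M : ℝ) * ‖F (T j) (K j) M p - (v M p : ℂ)‖ ≤
          I M * (Fintype.card ι * del e j) := h1.trans (le_of_eq (by ring))
      exact le_of_mul_le_mul_left h5 hIp
  have hbm : 0 < min b1 b2 := lt_min hb1 hb2
  obtain ⟨e0, he0, he01, hg0, Q, hQ1, hQ2⟩ := hmain _ hbm le_rfl
  refine ⟨δ, min b1 b2, Q, hδ, hbm, ?_, ?_⟩
  · intro b hb hb' θ hθ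
    obtain ⟨e, he, he1, -, Q', hQ'1, hQ'2⟩ := hmain b hb hb'
    have hQQ : Q' = Q := poly_eq hδ Q' Q fun M hM p hp => by rw [← hQ'1 M hM p hp, ← hQ1 M hM p hp]
    rw [← hQQ]
    exact tendsto_of_le he he1 fun j => hQ'2 j θ hθ
  · have h0 : |(0 : ℝ)| < δ := by rw [abs_zero]; exact hδ
    have hex0 : (((1 : Γ →* Matrix.unitaryGroup Unit ℂ) z : Matrix.unitaryGroup Unit ℂ) :
        Matrix Unit Unit ℂ) = ex 0 • 1 := by
      rw [STPM.ex_zero, one_smul]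
      rfl
    have h1 : Tendsto (fun j => (Fintype.card Unit : ℂ) * tauZ z 0 (it (((min b1 b2 : ℝ) : ℂ) • y) j)) atTop
        (𝓝 ((sgn (twist (1 : Γ →* Matrix.unitaryGroup Unit ℂ) y) : ℤ) : ℂ)) :=
      tendsto_of_le he0 he01 fun j => hg0 0 h0 Unit 1 hex0 j
    have h2 := tendsto_of_le he0 he01 fun j => hQ2 j 0 h0
    have h3 := tendsto_nhds_unique h1 (by simpa using h2)
    rw [sgn_trivial] at h3
    have h4 : ((sgn (augM y) : ℤ) : ℝ) = Polynomial.aeval (0 : ℝ) Q := by exact_mod_cast h3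
    have h5 : Polynomial.aeval (0 : ℝ) Q = ((Q.eval 0 : ℚ) : ℝ) := by
      have : (0 : ℝ) = algebraMap ℚ ℝ 0 := by simp
      rw [this, Polynomial.aeval_algebraMap_apply]
      simp
    rw [h5] at h4
    exact_mod_cast h4.symm

end Pool.Agent.Lib.MP8a3537.AM
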