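import Pool.Agent.Lib.MP_8a3537_gt.AM.SpecF
import Pool.Agent.Lib.MP_8a3537_gt.TW.CSA

/-!
# EGP: the estimate in C*-algebras (MP_8a3537_gt, folder AM)
-/

set_option linter.unusedVariables false

namespace Pool.Agent.Lib.MP8a3537.AM

open Pool.Agent.Lib.MP8a3537.SG
open Pool.Agent.Lib.MP8a3537.TW
open Filter Topology

namespace EGPM

variable {A : Type} [CStarAlgebra A]

/-- the estimate with an explicit gap -/
theorem core2 (a s Y : A) (hs : Sg a s) (ha : IsSelfAdjoint a) (hu : IsUnit a) (hY : a * Y = 1) (ha1 : ‖a‖ ≤ 1)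
    (e : ℝ) (he : 0 < e) (he1 : e ≤ 1) (hYe : e * ‖Y‖ ≤ 1) (j : ℕ) : ‖it a j - s‖ ≤ del e j := by
  obtain ⟨hS1, hS2, hS3, t, ht⟩ := hs
  obtain ⟨X, hXdef⟩ : ∃ X : A, X = s * a := ⟨_, rfl⟩
  have hXt : X = star t * t := hXdef.trans ht
  have hXsa : IsSelfAdjoint X := by
    rw [hXt]
    exact IsSelfAdjoint.star_mul_self t
  have hcomm : Commute s X := by
    show s * X = X * s
    rw [hXdef, mul_assoc s a s, ← hS3]
  have hAX : a = s * X := by
    rw [hXdef, ← mul_assoc, hS2, one_mul]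
  have hSn : ‖s‖ ≤ 1 := by
    have h1 : ‖s * s‖ = ‖s‖ * ‖s‖ := by
      have := CStarRing.norm_star_mul_self (x := s)
      rwa [hS1] at this
    rw [hS2] at h1
    have h2 := CSAM.norm_one_le (A := A)
    rw [h1] at h2
    nlinarith [norm_nonneg s]
  have hXn : ‖X‖ ≤ 1 := by
    rw [hXdef]
    calc ‖s * a‖ ≤ ‖s‖ * ‖a‖ := norm_mul_le _ _
      _ ≤ 1 * 1 := mul_le_mul hSn ha1 (norm_nonneg _) zero_le_one
      _ = 1 := one_mul 1
  have hsu : IsUnit s := ⟨⟨s, s, hS2, hS2⟩, rfl⟩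
  have hXu : IsUnit X := by
    rw [hXdef]
    exact hsu.mul hu
  have hXY : X * (Y * s) = 1 := by
    rw [hXdef, mul_assoc, ← mul_assoc a Y s, hY, one_mul, hS2]
  have hYs : ‖Y * s‖ ≤ ‖Y‖ := by
    calc ‖Y * s‖ ≤ ‖Y‖ * ‖s‖ := norm_mul_le _ _
      _ ≤ ‖Y‖ * 1 := mul_le_mul_of_nonneg_left hSn (norm_nonneg _)
      _ = ‖Y‖ := mul_one _
  obtain ⟨sc1, sc2, -⟩ := specSCA e he he1
  have hspec : ∀ x ∈ spectrum ℝ X, e ≤ x ∧ x ≤ 1 := by
    intro x hx
    have h0 : 0 ≤ x := by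
      rw [hXt] at hx
      exact spectrum_star_mul_self_nonneg x hx
    have h1 : |x| ≤ 1 := by
      have := spectrum.norm_le_norm_mul_of_mem hx
      rw [Real.norm_eq_abs] at this
      calc |x| ≤ ‖X‖ * ‖(1 : A)‖ := this
        _ ≤ 1 * 1 := mul_le_mul hXn CSAM.norm_one_le (norm_nonneg _) zero_le_one
        _ = 1 := one_mul 1
    refine ⟨?_, (le_abs_self x).trans h1⟩
    by_contra hlt
    push Not at hlt
    apply hx
    have hsmall : ‖(x : ℝ) • (Y * s)‖ < 1 := by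
      rw [norm_smul, Real.norm_eq_abs, abs_of_nonneg h0]
      rcases (norm_nonneg Y).eq_or_lt with hY0 | hY0
      · have : ‖Y * s‖ = 0 := le_antisymm (by rw [hY0]; exact hYs) (norm_nonneg _)
        rw [this, mul_zero]
        exact one_pos
      · calc x * ‖Y * s‖ ≤ x * ‖Y‖ := mul_le_mul_of_nonneg_left hYs h0
          _ < e * ‖Y‖ := mul_lt_mul_of_pos_right hlt hY0
          _ ≤ 1 := hYe
    have hu : IsUnit (1 - (x : ℝ) • (Y * s)) := isUnit_one_sub_of_norm_lt_one hsmall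
    have e1 : algebraMap ℝ A x - X = -(X * (1 - (x : ℝ) • (Y * s))) := by
      rw [mul_sub, mul_one, mul_smul_comm, hXY, Algebra.algebraMap_eq_smul_one]
      abel
    show IsUnit (algebraMap ℝ A x - X)
    rw [e1]
    exact (hXu.mul hu).neg
  have hit : it a j - s = s * cfc (fun x : ℝ => sj x j - 1) X := by
    rw [hAX, SGNM.it_mul s X hS2 hcomm j, CSAM.it_cfc X hXsa j,
      cfc_sub (fun x : ℝ => sj x j) (fun _ : ℝ => (1 : ℝ)) X (SGNM.sj_cont j).continuousOn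
        continuousOn_const, cfc_const_one ℝ X, mul_sub, mul_one]
  rw [hit]
  have hb : ‖cfc (fun x : ℝ => sj x j - 1) X‖ ≤ del e j := by
    apply norm_cfc_le (sc2 j).1
    intro x hx
    obtain ⟨hx1, hx2⟩ := hspec x hx
    have hx0 : 0 < x := he.trans_le hx1
    have := sc1 x j (by rwa [abs_of_pos hx0]) (by rwa [abs_of_pos hx0])
    rw [sign_pos hx0] at this
    simpa using this
  calc ‖s * cfc (fun x : ℝ => sj x j - 1) X‖ ≤ ‖s‖ * ‖cfc (fun x : ℝ => sj x j - 1) X‖ :=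
        norm_mul_le _ _
    _ ≤ 1 * del e j := mul_le_mul hSn hb (norm_nonneg _) zero_le_one
    _ = del e j := one_mul _

/-- the inverse and its norm -/
theorem inv (X X' : A) (C1 : ℝ) (hX : IsSelfAdjoint X) (h1 : ‖X' * X - 1‖ ≤ 1 / 2) (h2 : ‖X'‖ ≤ C1) :
    ∃ Y : A, X * Y = 1 ∧ Y * X = 1 ∧ ‖Y‖ ≤ 2 * C1 := by
  have h3 : IsUnit (X' * X) := by
    have h4 : ‖1 - X' * X‖ < 1 := by
      rw [norm_sub_rev]
      linarith
    have h5 := isUnit_one_sub_of_norm_lt_one h4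
    rwa [sub_sub_cancel] at h5
  obtain ⟨u, hu⟩ := h3
  obtain ⟨L, hL⟩ : ∃ L : A, L * X = 1 := ⟨((u⁻¹ : Aˣ) : A) * X', by rw [mul_assoc, ← hu, Units.inv_mul]⟩
  have hR : X * star L = 1 := by
    have := congrArg star hL
    rwa [star_mul, star_one, hX.star_eq] at this
  have hLR : L = star L := left_inv_eq_right_inv hL hR
  refine ⟨L, by rw [hLR]; exact hR, hL, ?_⟩
  have hXL : X * L = 1 := by rw [hLR]; exact hR
  have h6 : L = X' - (X' * X - 1) * L := by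
    rw [sub_mul, mul_assoc, hXL, mul_one, one_mul, sub_sub_cancel]
  have h7 : ‖L‖ ≤ C1 + 1 / 2 * ‖L‖ := by
    calc ‖L‖ = ‖X' - (X' * X - 1) * L‖ := by rw [← h6]
      _ ≤ ‖X'‖ + ‖(X' * X - 1) * L‖ := norm_sub_le _ _
      _ ≤ C1 + 1 / 2 * ‖L‖ := add_le_add h2 ((norm_mul_le _ _).trans
          (mul_le_mul_of_nonneg_right h1 (norm_nonneg _)))
  linarith

end EGPM

open EGPM in
/-- **EGP**. -/
theorem specEGP : SpecEGP := by
  intro A _ X X' b C1 hX h1 h2 hC hb hb2 hbX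
  obtain ⟨Y, hXY, hYX, hYn⟩ := inv X X' C1 hX h1 h2
  have hXu : IsUnit X := ⟨⟨X, Y, hXY, hYX⟩, rfl⟩
  refine ⟨hXu, fun S hS j => ?_⟩
  have hb' : ((b : ℂ)) ≠ 0 := by exact_mod_cast hb.ne'
  have hsa : IsSelfAdjoint ((b : ℂ) • X) := by
    show star ((b : ℂ) • X) = (b : ℂ) • X
    rw [star_smul, hX.star_eq]
    congr 1
    exact Complex.conj_ofReal b
  have hub : IsUnit ((b : ℂ) • X) := by
    have h2 : (b : ℂ) • X = algebraMap ℂ A (b : ℂ) * X := by
      rw [Algebra.algebraMap_eq_smul_one, smul_mul_assoc, one_mul]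
    rw [h2]
    exact ((Units.mk0 (b : ℂ) hb').isUnit.map (algebraMap ℂ A)).mul hXu
  have hn : ‖(b : ℂ) • X‖ ≤ 1 := by
    rw [norm_smul, Complex.norm_real, Real.norm_eq_abs, abs_of_pos hb]
    exact hbX
  have hs' : Sg ((b : ℂ) • X) S := by
    obtain ⟨hS1, hS2, hS3, t, ht⟩ := hS
    refine ⟨hS1, hS2, ?_, ((Real.sqrt b : ℝ) : ℂ) • t, ?_⟩
    · rw [mul_smul_comm, smul_mul_assoc, hS3]
    · rw [mul_smul_comm, ht, star_smul, smul_mul_smul_comm]
      congr 1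
      rw [show star ((Real.sqrt b : ℝ) : ℂ) = ((Real.sqrt b : ℝ) : ℂ) from Complex.conj_ofReal _,
        ← Complex.ofReal_mul, Real.mul_self_sqrt hb.le]
  have hY' : ((b : ℂ) • X) * ((b : ℂ)⁻¹ • Y) = 1 := by
    rw [smul_mul_smul_comm, mul_inv_cancel₀ hb', one_smul, hXY]
  refine core2 ((b : ℂ) • X) S ((b : ℂ)⁻¹ • Y) hs' hsa hub hY' hn (b / (2 * C1)) (by positivity) ?_ ?_ j
  · rw [div_le_one (by positivity)]
    exact hb2
  · rw [norm_smul, norm_inv, Complex.norm_real, Real.norm_eq_abs, abs_of_pos hb]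
    calc b / (2 * C1) * (b⁻¹ * ‖Y‖) ≤ b / (2 * C1) * (b⁻¹ * (2 * C1)) := by
          apply mul_le_mul_of_nonneg_left _ (by positivity)
          exact mul_le_mul_of_nonneg_left hYn (by positivity)
      _ = 1 := by field_simp

end Pool.Agent.Lib.MP8a3537.AM
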