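import Pool.Agent.Lib.MP_8a3537_gt.AM.SpecF
import Pool.Agent.Lib.MP_8a3537_gt.TW.EST
import Pool.Agent.Lib.MP_8a3537_gt.TW.XIX
import Pool.Agent.Lib.MP_8a3537_gt.TW.PSM
import Pool.Agent.Lib.MP_8a3537_gt.TW.HRX
import Pool.Agent.Lib.MP_8a3537_gt.SG.TRI

/-!
# ES2: the estimate for the twisted trace (MP_8a3537_gt, folder AM)
-/

set_option linter.unusedVariables false

namespace Pool.Agent.Lib.MP8a3537.AM

open Pool.Agent.Lib.MP8a3537.SG
open Pool.Agent.Lib.MP8a3537.TW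
open Filter Topology
open scoped BigOperators Pointwise ComplexOrder Matrix

namespace ES2M

lemma repA_single {Γ κ : Type} [Group Γ] [Fintype κ] [DecidableEq κ] (σ : Γ →* Matrix.unitaryGroup κ ℂ) (g : Γ) (c : ℂ) :
    repA σ (MonoidAlgebra.single g c) = c • ((σ g : Matrix.unitaryGroup κ ℂ) : Matrix κ κ ℂ) := by
  unfold repA
  rw [MonoidAlgebra.lift_single]
  rfl

lemma starHom {Γ κ : Type} [Group Γ] [Fintype κ] [DecidableEq κ] (σ : Γ →* Matrix.unitaryGroup κ ℂ) :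
    StarHom ((repA σ : CG Γ →ₐ[ℂ] Matrix κ κ ℂ) : CG Γ →+* Matrix κ κ ℂ) := by
  intro g r
  change star (repA σ (MonoidAlgebra.single g r)) = repA σ (MonoidAlgebra.single g⁻¹ (star r))
  rw [repA_single, repA_single, star_smul, map_inv, Matrix.UnitaryGroup.inv_val]

lemma bd_scalar {κ : Type} [Fintype κ] [DecidableEq κ] (r : ℂ) : Bd (r • (1 : Matrix κ κ ℂ)) ‖r‖ := by
  intro v
  rw [Finset.mul_sum]
  refine le_of_eq (Finset.sum_congr rfl fun i _ => ?_)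
  rw [Matrix.smul_mulVec, Matrix.one_mulVec, Pi.smul_apply, norm_smul, mul_pow]

section
variable {Γ G ι κ : Type} [Group Γ] [Group G] [Fintype ι] [DecidableEq ι] [Fintype κ] [DecidableEq κ]

lemma xi_smul (Φ : CG Γ →+* Matrix κ κ ℂ) (π : Γ →* G) (Ξ : CG Γ →+* Matrix κ κ (CG G)) (hΞ : IsXi Φ π Ξ)
    (hΦ : ∀ r : ℂ, Φ (MonoidAlgebra.single 1 r) = r • 1) (c : ℂ) (u : CG Γ) : Ξ (c • u) = c • Ξ u := by
  have h1 : c • u = MonoidAlgebra.single 1 c * u := by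
    rw [Algebra.smul_def]
    rfl
  have h2 : Ξ (MonoidAlgebra.single 1 c) = c • (1 : Matrix κ κ (CG G)) := by
    ext1 i j
    rw [hΞ, hΦ, map_one, Matrix.smul_apply, Matrix.smul_apply, Matrix.one_apply, Matrix.one_apply]
    split_ifs
    · rw [smul_eq_mul, mul_one, MonoidAlgebra.one_def, MonoidAlgebra.smul_single, smul_eq_mul, mul_one]
    · rw [smul_zero, smul_zero, MonoidAlgebra.single_zero]
  rw [h1, map_mul, h2, Matrix.smul_mul, Matrix.one_mul]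

lemma psh_it (Φ : CG Γ →+* Matrix κ κ ℂ) (π : Γ →* G) (Ξ : CG Γ →+* Matrix κ κ (CG G)) (hΞ : IsXi Φ π Ξ)
    (hΦ : ∀ r : ℂ, Φ (MonoidAlgebra.single 1 r) = r • 1)
    (Ψ : Matrix ι ι (CG Γ) →+* Matrix (ι × κ) (ι × κ) (CG G)) (hΨ : ∀ x, Ψ x = psh Ξ x) (y : Matrix ι ι (CG Γ)) (c : ℂ) (j : ℕ) :
    it (c • psh Ξ y) j = psh Ξ (it (c • y) j) := by
  have hs : ∀ (c : ℂ) (x : Matrix ι ι (CG Γ)), psh Ξ (c • x) = c • psh Ξ x := by
    intro c x
    ext1 p q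
    have := congrFun (congrFun (xi_smul Φ π Ξ hΞ hΦ c (x p.1 q.1)) p.2) q.2
    exact this
  induction j with
  | zero => exact (hs c y).symm
  | succ j ih =>
    change (3 / 2 : ℂ) • it (c • psh Ξ y) j - (1 / 2 : ℂ) • (it (c • psh Ξ y) j) ^ 3 =
      psh Ξ ((3 / 2 : ℂ) • it (c • y) j - (1 / 2 : ℂ) • (it (c • y) j) ^ 3)
    rw [ih, ← hΨ ((3 / 2 : ℂ) • it (c • y) j - (1 / 2 : ℂ) • (it (c • y) j) ^ 3), map_sub, hΨ, hΨ, hs, hs, ← hΨ (it (c • y) j ^ 3), map_pow, hΨ]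

lemma tr_single (π : Γ →* G) (z : Γ) (hC : CExt Γ G π z) (σ : Γ →* Matrix.unitaryGroup κ ℂ)
    (θ : ℝ) (hz : ((σ z : Matrix.unitaryGroup κ ℂ) : Matrix κ κ ℂ) = ex θ • (1 : Matrix κ κ ℂ)) (g : Γ) (c : ℂ) :
    ind π.ker g * (repA σ (MonoidAlgebra.single g c)).trace = (Fintype.card κ : ℂ) * (chiH ⊥ z θ g * c) := by
  classical
  by_cases hg : π g = 1
  · obtain ⟨k, hk⟩ := (hC.ker g).1 hg
    have h1 : ∃ k : ℤ, g * (z ^ k)⁻¹ ∈ (⊥ : Subgroup Γ) := ⟨k, by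
      rw [hk, mul_inv_cancel]; exact Subgroup.one_mem _⟩
    have h2 : chiH ⊥ z θ g = ex (θ * k) := by
      unfold chiH
      rw [dif_pos h1]
      have h3 : g * (z ^ h1.choose)⁻¹ ∈ (⊥ : Subgroup Γ) := h1.choose_spec
      generalize h1.choose = k' at h3 ⊢
      rw [Subgroup.mem_bot, mul_inv_eq_one, hk] at h3
      have h4 : k' = k := by
        by_contra hne
        have h5 : z ^ (k' - k) = 1 := by
          rw [zpow_sub, ← h3, mul_inv_cancel]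
        exact hC.inf _ (sub_ne_zero.2 hne) h5
      rw [h4]
    have h3 : ind π.ker g = 1 := by
      unfold ind
      rw [if_pos ((MonoidHom.mem_ker).2 hg)]
    rw [h2, h3, one_mul, repA_single, hk, ESTM.scal_int σ z θ hz k, Matrix.trace_smul, Matrix.trace_smul,
      Matrix.trace_one, smul_eq_mul, smul_eq_mul]
    ring
  · have h1 : ¬ ∃ k : ℤ, g * (z ^ k)⁻¹ ∈ (⊥ : Subgroup Γ) := by
      rintro ⟨k, hk⟩
      rw [Subgroup.mem_bot, mul_inv_eq_one] at hk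
      exact hg ((hC.ker g).2 ⟨k, hk⟩)
    have h2 : chiH ⊥ z θ g = 0 := by
      unfold chiH
      rw [dif_neg h1]
    have h3 : ind π.ker g = 0 := by
      unfold ind
      rw [if_neg (fun h => hg ((MonoidHom.mem_ker).1 h))]
    rw [h2, h3, zero_mul, zero_mul, mul_zero]

end

end ES2M

open ES2M in
/-- **ES2**. -/
theorem specES2 (hPQ : SpecPQ) (hNBX : SpecNBX) : SpecES2 := by
  classical
  obtain ⟨hN1, hN2, hN3, -, -⟩ := hNBX
  intro Γ G _ _ π z hC hRW ι _ _ y y' x' hy hinv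
  let Bn : Matrix ι ι (CG Γ) → ℝ := fun u =>
    ∑ i, ∑ j, ∑ g ∈ (u i j).coeff.support, ‖(u i j).coeff g‖
  have hBn0 : ∀ u, 0 ≤ Bn u := fun u => Finset.sum_nonneg fun _ _ => Finset.sum_nonneg fun _ _ =>
    Finset.sum_nonneg fun _ _ => norm_nonneg _
  have hpi : 0 < Real.pi := Real.pi_pos
  have hx'0 : 0 < Bn x' + 1 := by linarith [hBn0 x']
  have hy0 : 0 < Bn y + 1 := by linarith [hBn0 y]
  have hy'0 : 1 ≤ Bn y' + 1 := by linarith [hBn0 y']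
  refine ⟨1 / (4 * Real.pi * (Bn x' + 1)), min (1 / (Bn y + 1)) 1, by positivity,
    lt_min (by positivity) one_pos, fun b hb hb1 => ?_⟩
  have hbh : b * Bn y ≤ 1 := by
    have h1 : b ≤ 1 / (Bn y + 1) := hb1.trans (min_le_left _ _)
    have h2 : b * (Bn y + 1) ≤ 1 := by rwa [le_div_iff₀ hy0] at h1
    nlinarith
  have hb11 : b ≤ 1 := hb1.trans (min_le_right _ _)
  refine ⟨b / (2 * (Bn y' + 1)), by positivity, ?_, fun θ hθ κ _ _ σ hz j => ?_⟩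
  · rw [div_le_one (by positivity)]
    linarith
  set Φ : CG Γ →+* Matrix κ κ ℂ := ((repA σ : CG Γ →ₐ[ℂ] Matrix κ κ ℂ) : CG Γ →+* Matrix κ κ ℂ) with hΦdef
  have hΦ : StarHom Φ := starHom σ
  have hΦ1 : ∀ r : ℂ, Φ (MonoidAlgebra.single 1 r) = r • 1 := by
    intro r
    change repA σ (MonoidAlgebra.single 1 r) = _
    rw [repA_single, map_one, Matrix.UnitaryGroup.one_val]
  have hΦz : Φ (MonoidAlgebra.single z 1) = ex θ • (1 : Matrix κ κ ℂ) := by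
    change repA σ (MonoidAlgebra.single z 1) = _
    rw [repA_single, one_smul, hz]
  obtain ⟨Ξ, hΞ⟩ := specXIX ℂ Γ G κ Φ π
  obtain ⟨⟨Ψ, hΨ⟩, -, hZ⟩ := specPSM ℂ Γ G ι κ Φ π Ξ hΞ
  obtain ⟨hherm, haug⟩ := specHRX ℂ Γ G ι κ Φ π Ξ hΞ hΦ
  have hyh : IsHerm (psh Ξ y) := by
    have h1 := (hherm 1 1 y (Or.inl ⟨rfl, rfl⟩) (fun i j g => by
      rw [one_smul]
      exact hy i j g)).1
    rwa [one_smul] at h1
  have hπz : π z = 1 := (hC.ker z).2 ⟨1, (zpow_one z).symm⟩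
  have hyi : psh Ξ y' * psh Ξ y = 1 + (ex θ - 1) • psh Ξ x' := by
    rw [← hΨ, ← hΨ, ← map_mul, hinv, map_add, map_one, hΨ, hZ z (ex θ) x' hΦz, hπz]
    congr 1
    have e1 : (MonoidAlgebra.single (1 : G) (ex θ) - 1 : CG G) = (ex θ - 1) • 1 := by
      rw [sub_smul, one_smul, MonoidAlgebra.one_def, MonoidAlgebra.smul_single, smul_eq_mul, mul_one]
    rw [e1]
    ext1 p q
    rw [Matrix.scalar_apply, Matrix.diagonal_mul, Matrix.smul_apply, Algebra.smul_mul_assoc, one_mul]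
  have hnb : ∀ u : Matrix ι ι (CG Γ), Nb (psh Ξ u) (Bn u) := fun u =>
    hN1 ℂ Γ G ι κ Φ π Ξ (fun r => ‖r‖) hΞ hΦ (fun r => ⟨norm_nonneg r, by
      rw [hΦ1]
      exact bd_scalar r⟩) u
  have ht : ‖ex θ - 1‖ * Bn x' ≤ 1 / 2 := by
    have h1 := TRIM.ex_sub_one θ
    have h2 : 2 * Real.pi * |θ| * (Bn x' + 1) ≤ 1 / 2 := by
      have h3 : |θ| * (4 * Real.pi * (Bn x' + 1)) < 1 := by
        rwa [lt_div_iff₀ (by positivity)] at hθ
      nlinarith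
    calc ‖ex θ - 1‖ * Bn x' ≤ (2 * Real.pi * |θ|) * Bn x' :=
          mul_le_mul_of_nonneg_right h1 (hBn0 x')
      _ ≤ 2 * Real.pi * |θ| * (Bn x' + 1) := by
          apply mul_le_mul_of_nonneg_left (by linarith) (by positivity)
      _ ≤ 1 / 2 := h2
  have hPQ' := hPQ G hRW (ι × κ) (psh Ξ y) (psh Ξ y') ((ex θ - 1) • psh Ξ x') b (Bn y) (Bn y' + 1) hyh hyi
    (hN3 G (ι × κ) _ _ _ (hN2 G (ι × κ) _ (ex θ - 1) _ (hnb x')) ht)
    (hN3 G (ι × κ) _ _ _ (hnb y') (by linarith)) (hnb y) (by linarith) hb (by linarith) hbh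
  have h1 := hPQ'.2 j
  rw [psh_it Φ π Ξ hΞ hΦ1 Ψ hΨ y (b : ℂ) j, (haug _).2, (haug _).1, Fintype.card_prod, Nat.cast_mul] at h1
  have h2 : trW Φ (ind π.ker) (it ((b : ℂ) • y) j) = (Fintype.card κ : ℂ) * tauZ z θ (it ((b : ℂ) • y) j) := by
    unfold trW tauZ
    rw [Finset.mul_sum]
    refine Finset.sum_congr rfl fun i _ => ?_
    rw [Finset.mul_sum]
    exact Finset.sum_congr rfl fun g _ => ES2M.tr_single π z hC σ θ hz g _
  have h3 : blk Φ y = twist σ y := rfl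
  rw [h2, h3] at h1
  exact h1

end Pool.Agent.Lib.MP8a3537.AM
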