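import Pool.Agent.Lib.MP_8a3537_gt.AM.SpecF
import Pool.Agent.Lib.MP_8a3537_gt.TW.EXI
import Pool.Agent.Lib.MP_8a3537_gt.TW.XIX

/-!
# EX2: the representations of Theorem 2 (a) exist for all rational `θ` (MP_8a3537_gt, folder AM)
-/

set_option linter.unusedVariables false

namespace Pool.Agent.Lib.MP8a3537.AM

open Pool.Agent.Lib.MP8a3537.SG
open Pool.Agent.Lib.MP8a3537.TW
open Filter Topology
open scoped BigOperators Pointwise ComplexOrder Matrix

open EXIM in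
/-- **EX2**. -/
theorem specEX2 (hNQ2 : SpecNQ2) : SpecEX2 := by
  intro R E _ _ _ H _ z hFG hZN hz κ0 _ _ Φ0 hΦ0 hΦ0z M hM p
  have hzc : ∀ g : E ⧸ H, g * (z : E ⧸ H) = (z : E ⧸ H) * g := by
    intro g
    obtain ⟨e, rfl⟩ := QuotientGroup.mk_surjective g
    rw [← QuotientGroup.mk_mul, hz, QuotientGroup.mk_mul]
  have hFΓ : Group.FG (E ⧸ H) := Group.fg_of_surjective (QuotientGroup.mk'_surjective H)
  obtain ⟨-, C, r, I, -, hI⟩ := hNQ2 (E ⧸ H) (z : E ⧸ H) hFΓ hZN hzc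
  obtain ⟨hI0, -, hρ⟩ := hI M hM
  obtain ⟨ρ, hρz⟩ := hρ p
  obtain ⟨Ξ, hΞ⟩ := specXIX R E (E ⧸ H) κ0 Φ0 (QuotientGroup.mk' H)
  have hval : ∀ (g : E) (r : R) (a b : κ0 × Fin (I M)), ((twH ρ).comp Ξ) (MonoidAlgebra.single g r) a b =
      Φ0 (MonoidAlgebra.single g r) a.1 b.1 * (ρ (g : E ⧸ H) : Matrix (Fin (I M)) (Fin (I M)) ℂ) a.2 b.2 := by
    intro g r a b
    change (repA ρ (Ξ (MonoidAlgebra.single g r) a.1 b.1)) a.2 b.2 = _
    rw [hΞ]
    unfold repA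
    rw [MonoidAlgebra.lift_single, Matrix.smul_apply]
    rfl
  refine ⟨κ0 × Fin (I M), inferInstance, inferInstance, (twH ρ).comp Ξ, I M, hI0, ?_, ?_, ?_⟩
  · intro g r
    ext a b
    rw [Matrix.star_apply, hval, hval, star_mul']
    have h1 : star (Φ0 (MonoidAlgebra.single g r) b.1 a.1) =
        Φ0 (MonoidAlgebra.single g⁻¹ (star r)) a.1 b.1 := by
      rw [← hΦ0 g r, Matrix.star_apply]
    have h2 : star ((ρ (g : E ⧸ H) : Matrix (Fin (I M)) (Fin (I M)) ℂ) b.2 a.2) =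
        (ρ ((g⁻¹ : E) : E ⧸ H) : Matrix (Fin (I M)) (Fin (I M)) ℂ) a.2 b.2 := by
      rw [QuotientGroup.mk_inv, map_inv]
      rfl
    rw [h1, h2]
  · ext a b
    rw [hval, hΦ0z, hρz, Matrix.smul_apply, Matrix.smul_apply]
    obtain ⟨a1, a2⟩ := a
    obtain ⟨b1, b2⟩ := b
    simp only [Matrix.one_apply, Prod.mk.injEq]
    by_cases h1 : a1 = b1 <;> by_cases h2 : a2 = b2 <;> simp [h1, h2]
  · intro g hg r
    have h1 : ((g : E ⧸ H)) = 1 := (QuotientGroup.eq_one_iff g).2 hg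
    rw [Matrix.trace, Fintype.sum_prod_type, Matrix.trace, Finset.mul_sum]
    refine Finset.sum_congr rfl fun a _ => ?_
    have h2 : ∀ s : Fin (I M), (((twH ρ).comp Ξ) (MonoidAlgebra.single g r)).diag (a, s) =
        (Φ0 (MonoidAlgebra.single g r)).diag a := by
      intro s
      rw [Matrix.diag_apply, hval, h1, map_one, Matrix.diag_apply]
      simp
    rw [Finset.sum_congr rfl fun s _ => h2 s]
    simp

end Pool.Agent.Lib.MP8a3537.AM
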