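import Pool.Agent.Lib.MP_8a3537_gt.AM.SpecF
import Pool.Agent.Lib.MP_8a3537_gt.TW.REB
import Pool.Agent.Lib.MP_8a3537_gt.TW.CSA
import Pool.Agent.Lib.MP_8a3537_gt.TW.MOM

/-!
# GTM: general traces (MP_8a3537_gt, folder AM)
-/

set_option linter.unusedVariables false

namespace Pool.Agent.Lib.MP8a3537.AM

open scoped BigOperators Matrix
open Pool.Agent.Lib.MP8a3537.SG
open Pool.Agent.Lib.MP8a3537.TW
open Filter Topology

namespace GTMM

section ev

variable {A G : Type} [Group G] [Ring A]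

theorem ev_single (g : G) (a : A) : ev (MonoidAlgebra.single g a) = a := by
  unfold ev
  rw [MonoidAlgebra.liftNCRingHom_single]
  simp

theorem ev_sum (y : MonoidAlgebra A G) (s : Finset G) (hs : y.coeff.support ⊆ s) : ev y = ∑ g ∈ s, y.coeff g := by
  refine (REBM.hom_sum_of_subset (ev : MonoidAlgebra A G →+* A).toAddMonoidHom y s hs).trans ?_
  refine Finset.sum_congr rfl fun g _ => ?_
  exact ev_single g _

end ev

/-- the coefficient at `q`, as an additive map -/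
noncomputable def cfA {B Q : Type} [Ring B] [Group Q] (q : Q) : MonoidAlgebra B Q →+ B where
  toFun x := x.coeff q
  map_zero' := rfl
  map_add' x y := rfl

/-- a variant of `REBM.star_psi` for two additive maps -/
theorem star_F {R E B : Type} [Ring R] [StarRing R] [Group E] [Ring B] [StarRing B] (F F' : MonoidAlgebra R E →+ B)
    (hF : ∀ g r, star (F (MonoidAlgebra.single g r)) = F' (MonoidAlgebra.single g⁻¹ (star r)))
    {ι : Type} (ε : ℤ) (h : Matrix ι ι (MonoidAlgebra R E)) (hε : EpsHerm ε h) (i j : ι) :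
    star (F (h j i)) = ε • F' (h i j) := by
  classical
  have hs1 : (h j i).coeff.support ⊆ (h j i).coeff.support ∪ ((h i j).coeff.support.image fun g => g⁻¹) := Finset.subset_union_left
  have h1' := REBM.hom_sum_of_subset F (h j i) _ hs1
  have hs2 : (h i j).coeff.support ⊆ ((h j i).coeff.support ∪ ((h i j).coeff.support.image fun g => g⁻¹)).image fun g => g⁻¹ := by
    intro g hg
    refine Finset.mem_image.2 ⟨g⁻¹, Finset.mem_union_right _ (Finset.mem_image.2 ⟨g, hg, rfl⟩), inv_inv g⟩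
  have h2' := REBM.hom_sum_of_subset F' (h i j) _ hs2
  rw [Finset.sum_image (fun a _ b _ hab => inv_injective hab)] at h2'
  rw [h1', h2', star_sum, Finset.smul_sum]
  refine Finset.sum_congr rfl fun g _ => ?_
  have h3 : ∀ r : R, F' (MonoidAlgebra.single g⁻¹ (ε • r)) = ε • F' (MonoidAlgebra.single g⁻¹ r) := by
    intro r
    rw [← MonoidAlgebra.smul_single]
    exact map_zsmul F' ε _
  rw [hF g, hε i j g, star_zsmul, star_star, h3]

end GTMM

open GTMM

theorem specGTM (hURT : SpecURT) (hMPL : SpecMPL) (hMMA : SpecMMA) (hXIG : SpecXIG) : SpecGTM := by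
  classical
  intro R E _ _ _ H _ hRW ι _ _ h ε c hc hε hu V _ _ _ ψ w hψ hw
  obtain ⟨Ξ, hΞ⟩ := hXIG R E (E ⧸ H) (V →L[ℂ] V) ψ (QuotientGroup.mk' H)
  obtain ⟨H', i1, i2, i3, Ω, hΩs, hΩn, hΩw⟩ := hMPL ι V
  obtain ⟨w', hw'⟩ := hΩw w
  obtain ⟨Θ, hΘ⟩ := hMMA (V →L[ℂ] V) (E ⧸ H) ι
  -- the ring homomorphism
  let Υ : Matrix ι ι (MonoidAlgebra R E) →+* MonoidAlgebra (H' →L[ℂ] H') (E ⧸ H) :=
    (MonoidAlgebra.mapRingHom (E ⧸ H) (Ω : Matrix ι ι (V →L[ℂ] V) →+* (H' →L[ℂ] H'))).comp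
      ((Θ : Matrix ι ι (MonoidAlgebra (V →L[ℂ] V) (E ⧸ H)) →+* MonoidAlgebra (Matrix ι ι (V →L[ℂ] V)) (E ⧸ H)).comp Ξ.mapMatrix)
  have hΥ : ∀ x q, (Υ x).coeff q = Ω (Matrix.of fun i j => (Ξ (x i j)).coeff q) := by
    intro x q
    show (MonoidAlgebra.mapRingHom (E ⧸ H) (Ω : Matrix ι ι (V →L[ℂ] V) →+* (H' →L[ℂ] H')) (Θ (Ξ.mapMatrix x))).coeff q = _
    rw [MonoidAlgebra.coeff_mapRingHom]
    show Ω ((Θ (Ξ.mapMatrix x)).coeff q) = _
    congr 1
    funext i j
    rw [hΘ]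
    rfl
  have hΞev : ∀ x : MonoidAlgebra R E, ev (Ξ x) = ψ x := by
    intro x
    have h1 := REBM.hom_sum (((ev : MonoidAlgebra (V →L[ℂ] V) (E ⧸ H) →+* (V →L[ℂ] V)).comp Ξ).toAddMonoidHom) x
    have h2 := REBM.hom_sum ψ.toAddMonoidHom x
    refine Eq.trans h1 (Eq.trans (Finset.sum_congr rfl fun g _ => ?_) h2.symm)
    show ev (Ξ (MonoidAlgebra.single g (x.coeff g))) = ψ (MonoidAlgebra.single g (x.coeff g))
    rw [hΞ, ev_single]
  have hΥev : ∀ x, ev (Υ x) = Ω (x.map ψ) := by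
    intro x
    let s : Finset (E ⧸ H) := (Υ x).coeff.support ∪ Finset.univ.biUnion fun i => Finset.univ.biUnion fun j => (Ξ (x i j)).coeff.support
    rw [ev_sum (Υ x) s Finset.subset_union_left, Finset.sum_congr rfl fun q _ => hΥ x q, ← map_sum]
    congr 1
    funext i j
    rw [Matrix.sum_apply]
    show ∑ q ∈ s, (Ξ (x i j)).coeff q = ψ (x i j)
    rw [← hΞev, ev_sum (Ξ (x i j)) s]
    intro q hq
    refine Finset.mem_union_right _ (Finset.mem_biUnion.2 ⟨i, Finset.mem_univ _, Finset.mem_biUnion.2 ⟨j, Finset.mem_univ _, hq⟩⟩)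
  have hFs : ∀ (q : E ⧸ H) (g : E) (r : R), (Ξ (MonoidAlgebra.single g r)).coeff q =
      if QuotientGroup.mk' H g = q then ψ (MonoidAlgebra.single g r) else 0 := by
    intro q g r
    rw [hΞ]
    exact Finsupp.single_apply
  have hcoef : ∀ (x : MonoidAlgebra R E) (q : E ⧸ H), (Ξ x).coeff q =
      ψ (∑ g ∈ x.coeff.support, if QuotientGroup.mk' H g = q then MonoidAlgebra.single g (x.coeff g) else 0) := by
    intro x q
    have h1 := REBM.hom_sum ((cfA q).comp Ξ.toAddMonoidHom) x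
    refine Eq.trans h1 ?_
    rw [map_sum]
    refine Finset.sum_congr rfl fun g _ => ?_
    show (Ξ (MonoidAlgebra.single g (x.coeff g))).coeff q = _
    rw [hFs]
    split_ifs
    · rfl
    · rw [map_zero]
  have hc0 : c ≠ 0 := REAM.unit01_ne hc
  obtain ⟨hinv, hinv1, hinv2⟩ : ∃ h' : Matrix ι ι (MonoidAlgebra R E), h' * h = 1 ∧ h * h' = 1 := by
    obtain ⟨u, rfl⟩ := hu
    exact ⟨(u⁻¹ : (Matrix ι ι (MonoidAlgebra R E))ˣ), u.inv_mul, u.mul_inv⟩
  have hstarcf : ∀ (q : E ⧸ H) (i j : ι), star ((Ξ (h j i)).coeff q) = ε • (Ξ (h i j)).coeff q⁻¹ := by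
    intro q i j
    refine star_F ((cfA q).comp Ξ.toAddMonoidHom) ((cfA q⁻¹).comp Ξ.toAddMonoidHom) ?_ ε h hε i j
    intro g r
    show star ((Ξ (MonoidAlgebra.single g r)).coeff q) = (Ξ (MonoidAlgebra.single g⁻¹ (star r))).coeff q⁻¹
    rw [hFs, hFs, map_inv]
    by_cases hq : QuotientGroup.mk' H g = q
    · rw [if_pos hq, if_pos (by rw [hq])]
      exact hψ g r
    · rw [if_neg hq, if_neg fun h0 => hq (inv_injective h0)]
      exact star_zero _
  have hherm : Herm (c • Υ h) := by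
    intro q
    show c • (Υ h).coeff q⁻¹ = star (c • (Υ h).coeff q)
    rw [hΥ, hΥ, star_smul, ← hΩs]
    have h1 : (Matrix.of fun i j => (Ξ (h i j)).coeff q)ᴴ = ε • (Matrix.of fun i j => (Ξ (h i j)).coeff q⁻¹) := by
      funext i j
      exact hstarcf q i j
    rw [h1, map_zsmul, ← Int.cast_smul_eq_zsmul ℂ, smul_smul, REBM.conj_mul hc]
  have hmul : (c⁻¹ • Υ hinv) * (c • Υ h) = 1 := by
    rw [smul_mul_smul_comm, inv_mul_cancel₀ hc0, one_smul, ← map_mul, hinv1, map_one]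
  -- the trace
  let L : MonoidAlgebra (H' →L[ℂ] H') (E ⧸ H) →ₗ[ℂ] ℂ :=
    { toFun := fun z => w' (z.coeff 1)
      map_add' := fun a b => by rw [MonoidAlgebra.coeff_add, Finsupp.add_apply, map_add]
      map_smul' := fun t a => by rw [MonoidAlgebra.coeff_smul, Finsupp.smul_apply, map_smul]; rfl }
  have hL : ∀ x, L (Υ x) = trF w ψ (ind H) x := by
    intro x
    show w' ((Υ x).coeff 1) = _
    rw [hΥ, hw']
    unfold trF
    refine Finset.sum_congr rfl fun i _ => ?_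
    show w ((Ξ (x i i)).coeff 1) = _
    have h1 := REBM.hom_sum ((w : (V →L[ℂ] V) →ₗ[ℂ] ℂ).toAddMonoidHom.comp ((cfA 1).comp Ξ.toAddMonoidHom)) (x i i)
    refine Eq.trans h1 (Finset.sum_congr rfl fun g _ => ?_)
    show w ((Ξ (MonoidAlgebra.single g ((x i i).coeff g))).coeff 1) = _
    rw [hFs]
    unfold ind
    by_cases hg : g ∈ H
    · have hm : QuotientGroup.mk' H g = 1 := (QuotientGroup.eq_one_iff g).2 hg
      rw [if_pos hm, if_pos hg, one_mul]
    · have hm : ¬ QuotientGroup.mk' H g = 1 := fun h0 => hg ((QuotientGroup.eq_one_iff g).1 h0)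
      rw [if_neg hm, if_neg hg, zero_mul, map_zero]
  -- the traciality
  let T : Matrix ι ι (MonoidAlgebra R E) →* (H' →L[ℂ] H') :=
    ((Ω : Matrix ι ι (V →L[ℂ] V) →+* (H' →L[ℂ] H')).comp ψ.mapMatrix : Matrix ι ι (MonoidAlgebra R E) →+* (H' →L[ℂ] H'))
  have hT : ∀ X, T X = Ω (X.map ψ) := fun X => rfl
  have hTw : ∀ X Y, w' (T X * T Y) = w' (T Y * T X) := by
    intro X Y
    rw [hT, hT, ← map_mul, ← map_mul, hw', hw']
    simp only [Matrix.mul_apply, Matrix.map_apply, map_sum]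
    rw [Finset.sum_comm]
    refine Finset.sum_congr rfl fun i _ => Finset.sum_congr rfl fun j _ => ?_
    exact hw _ _
  have hadj : Algebra.adjoin ℂ (Set.range fun q => (c • Υ h).coeff q) ≤ Algebra.adjoin ℂ ((MonoidHom.mrange T : Submonoid (H' →L[ℂ] H')) : Set (H' →L[ℂ] H')) := by
    rw [Algebra.adjoin_le_iff]
    rintro a ⟨q, rfl⟩
    show c • (Υ h).coeff q ∈ _
    refine Subalgebra.smul_mem _ (Algebra.subset_adjoin ?_) c
    refine ⟨Matrix.of fun i j => ∑ g ∈ (h i j).coeff.support, if QuotientGroup.mk' H g = q then MonoidAlgebra.single g ((h i j).coeff g) else 0, ?_⟩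
    rw [hT, hΥ]
    congr 1
    funext i j
    exact (hcoef (h i j) q).symm
  have hspan : ∀ a ∈ Algebra.adjoin ℂ (Set.range fun q => (c • Υ h).coeff q), a ∈ Submodule.span ℂ (Set.range T) := by
    intro a ha
    have h1 := hadj ha
    rw [← Subalgebra.mem_toSubmodule, Algebra.adjoin_eq_span, Submonoid.closure_eq] at h1
    exact h1
  have hcyc : Cyc (w' : (H' →L[ℂ] H') → ℂ) (c • Υ h) := by
    intro a ha b hb
    have ha' := hspan a ha
    have hb' := hspan b hb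
    refine Submodule.span_induction (p := fun a _ => w' (a * b) = w' (b * a)) ?_ ?_ ?_ ?_ ha'
    · rintro _ ⟨X, rfl⟩
      refine Submodule.span_induction (p := fun b _ => w' (T X * b) = w' (b * T X)) ?_ ?_ ?_ ?_ hb'
      · rintro _ ⟨Y, rfl⟩
        exact hTw X Y
      · rw [mul_zero, zero_mul]
      · intro x y _ _ hx hy
        rw [mul_add, add_mul, map_add, map_add, hx, hy]
      · intro t x _ hx
        rw [mul_smul_comm, smul_mul_assoc, map_smul, map_smul, hx]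
    · rw [mul_zero, zero_mul]
    · intro x y _ _ hx hy
      rw [mul_add, add_mul, map_add, map_add, hx, hy]
    · intro t x _ hx
      rw [mul_smul_comm, smul_mul_assoc, map_smul, map_smul, hx]
  -- the constants
  have hn0 : ∀ z : MonoidAlgebra (H' →L[ℂ] H') (E ⧸ H), 0 ≤ n1 z := fun z => Finset.sum_nonneg fun _ _ => norm_nonneg _
  have hC1 : 0 < n1 (c⁻¹ • Υ hinv) + 1 := by have := hn0 (c⁻¹ • Υ hinv); linarith
  have hC2 : 0 < n1 (c • Υ h) + 1 := by have := hn0 (c • Υ h); linarith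
  refine ⟨min 1 (1 / (n1 (c • Υ h) + 1)), lt_min one_pos (by positivity), ?_⟩
  intro b hb hbb S hS
  have hb1 : b ≤ 1 := hbb.trans (min_le_left _ _)
  have hb2 : b ≤ 1 / (n1 (c • Υ h) + 1) := hbb.trans (min_le_right _ _)
  have hb3 : b ≤ 2 * (n1 (c⁻¹ • Υ hinv) + 1) := by have := hn0 (c⁻¹ • Υ hinv); linarith
  have hb4 : b * n1 (c • Υ h) ≤ 1 := by
    rw [le_div_iff₀ hC2] at hb2
    nlinarith [hn0 (c • Υ h)]
  have hn1 : n1 ((c⁻¹ • Υ hinv) * (c • Υ h) - 1) ≤ 1 / 2 := by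
    rw [hmul, sub_self]
    unfold n1
    simp
  obtain ⟨-, hU⟩ := hURT (E ⧸ H) hRW H' (c • Υ h) (c⁻¹ • Υ hinv) w' b (n1 (c⁻¹ • Υ hinv) + 1) hherm hn1 (by linarith) hC1 hb hb3 hb4 hcyc
  have hevy : ev (c • Υ h) = Ω (c • h.map ψ) := by
    have e1 : Ω (c • h.map ψ) = c • ev (Υ h) := by rw [map_smul, hΥev]
    rw [e1]
    let s : Finset (E ⧸ H) := (Υ h).coeff.support
    have hs : (c • Υ h).coeff.support ⊆ s := Finsupp.support_smul
    rw [ev_sum _ s hs, ev_sum (Υ h) s (Finset.Subset.refl _), Finset.smul_sum]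
    rfl
  have hSg : Sg (ev (c • Υ h)) (Ω S) := by
    rw [hevy]
    refine ⟨?_, ?_, ?_, ?_⟩
    · rw [← hΩs, hS.self]
    · rw [← map_mul, hS.sq, map_one]
    · rw [← map_mul, ← map_mul, hS.comm]
    · obtain ⟨t, ht⟩ := hS.pos
      exact ⟨Ω t, by rw [← map_mul, ht, map_mul, hΩs]⟩
  have hfin := hU (Ω S) hSg
  have he0 : 0 < b / (2 * (n1 (c⁻¹ • Υ hinv) + 1)) := by positivity
  have he1 : b / (2 * (n1 (c⁻¹ • Υ hinv) + 1)) ≤ 1 := by
    rw [div_le_one (by positivity)]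
    exact hb3
  have hdel := CSAM.del_tendsto he0 he1
  have hseq : ∀ j, w' ((it ((b : ℂ) • (c • Υ h)) j).coeff 1) = momJ (fun l => trF w ψ (ind H) (h ^ l)) (b * c) j := by
    intro j
    rw [smul_smul]
    refine Eq.trans (specMOM _ (Υ h) ((b : ℂ) * c) L j) ?_
    congr 1
    funext l
    rw [← map_pow, hL]
  rw [← hw' S, tendsto_iff_norm_sub_tendsto_zero]
  refine squeeze_zero (fun _ => norm_nonneg _) (fun j => ?_) (by simpa using hdel.const_mul ‖w'‖)
  rw [← hseq j]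
  exact hfin j

end Pool.Agent.Lib.MP8a3537.AM
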