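import Pool.Agent.Lib.MP_8a3537_gt.AM.SpecF
import Pool.Agent.Lib.MP_8a3537_gt.TW.REB
import Pool.Agent.Lib.MP_8a3537_gt.TW.CSM

/-!
# Module GTR: comparison of general traces (MP_8a3537_gt, folder AM)
-/

set_option linter.unusedVariables false

namespace Pool.Agent.Lib.MP8a3537.AM

open scoped BigOperators Matrix
open Pool.Agent.Lib.MP8a3537.SG
open Pool.Agent.Lib.MP8a3537.TW
open Filter Topology

namespace GTRM

theorem xunit {R E B ι : Type} [Ring R] [Group E] [CStarAlgebra B] [Fintype ι] [DecidableEq ι] (ψ : MonoidAlgebra R E →+* B)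
    (h : Matrix ι ι (MonoidAlgebra R E)) (hu : IsUnit h) {ε : ℤ} {c : ℂ} (hc : Unit01 ε c) : IsUnit (c • h.map ψ) := by
  refine REAM.isUnit_smul (REAM.unit01_ne hc) ?_
  have hmap : ψ.mapMatrix h = h.map ψ := rfl
  rw [← hmap]
  exact hu.map _

theorem trF_congr {R E ι A₁ A₂ : Type} [Ring R] [Group E] [Fintype ι] [Ring A₁] [Ring A₂] (H : Subgroup E) (w₁ : A₁ → ℂ) (w₂ : A₂ → ℂ)
    (ψ₁ : MonoidAlgebra R E → A₁) (ψ₂ : MonoidAlgebra R E → A₂)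
    (h : ∀ g ∈ H, ∀ r : R, w₁ (ψ₁ (MonoidAlgebra.single g r)) = w₂ (ψ₂ (MonoidAlgebra.single g r))) (x : Matrix ι ι (MonoidAlgebra R E)) :
    trF w₁ ψ₁ (ind H) x = trF w₂ ψ₂ (ind H) x := by
  unfold trF
  refine Finset.sum_congr rfl fun i _ => Finset.sum_congr rfl fun g _ => ?_
  unfold ind
  by_cases hg : g ∈ H
  · rw [if_pos hg, h g hg]
  · rw [if_neg hg, zero_mul, zero_mul]

theorem om_trF {R E B ι A : Type} [Ring R] [Group E] [CStarAlgebra B] [Fintype ι] [Ring A] (H : Subgroup E)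
    (w : A → ℂ) (Φ : MonoidAlgebra R E → A) (ψ : MonoidAlgebra R E →+* B) (ω : B →L[ℂ] ℂ)
    (h1 : ∀ g ∈ H, ∀ r : R, ω (ψ (MonoidAlgebra.single g r)) = w (Φ (MonoidAlgebra.single g r)))
    (h2 : ∀ g ∉ H, ∀ r : R, ω (ψ (MonoidAlgebra.single g r)) = 0) (x : Matrix ι ι (MonoidAlgebra R E)) :
    ∑ i, ω (ψ (x i i)) = trF w Φ (ind H) x := by
  unfold trF
  refine Finset.sum_congr rfl fun i _ => ?_
  have h3 := REBM.hom_sum ((ω : B →ₗ[ℂ] ℂ).toAddMonoidHom.comp ψ.toAddMonoidHom) (x i i)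
  refine Eq.trans h3 (Finset.sum_congr rfl fun g _ => ?_)
  show ω (ψ (MonoidAlgebra.single g ((x i i).coeff g))) = _
  unfold ind
  by_cases hg : g ∈ H
  · rw [if_pos hg, one_mul, h1 g hg]
  · rw [if_neg hg, zero_mul, h2 g hg]

end GTRM

theorem specGTR (hGTM : SpecGTM) (hCSM : SpecCSM) (hMOM : SpecMOM) : SpecGTR := by
  intro R E _ _ _ H _ hRW ι _ _ h ε c hc hε hu V₁ _ _ _ ψ₁ w₁ hψ₁ ht₁
  obtain ⟨b1, hb1, hl1⟩ := hGTM R E H hRW ι h ε c hc hε hu V₁ ψ₁ w₁ hψ₁ ht₁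
  refine ⟨(hCSM (V₁ →L[ℂ] V₁) ι (c • h.map ψ₁) (REBM.herm ψ₁ hψ₁ ε c h hc hε) (GTRM.xunit ψ₁ h hu hc)).1, ?_, ?_⟩
  · intro V₂ _ _ _ ψ₂ w₂ hψ₂ ht₂ hw S₁ S₂ hS₁ hS₂
    obtain ⟨b2, hb2, hl2⟩ := hGTM R E H hRW ι h ε c hc hε hu V₂ ψ₂ w₂ hψ₂ ht₂
    have hb : 0 < min b1 b2 := lt_min hb1 hb2
    have l1 := hl1 (min b1 b2) hb (min_le_left _ _) S₁ hS₁
    have l2 := hl2 (min b1 b2) hb (min_le_right _ _) S₂ hS₂
    have key : (fun l => trF w₁ ψ₁ (ind H) (h ^ l)) = fun l => trF w₂ ψ₂ (ind H) (h ^ l) := by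
      funext l
      exact GTRM.trF_congr H (fun x => w₁ x) (fun x => w₂ x) (fun x => ψ₁ x) (fun x => ψ₂ x) hw (h ^ l)
    rw [key] at l1
    exact tendsto_nhds_unique l1 l2
  · intro B _ ψ₂ ω hψ₂ hω1 hω2
    obtain ⟨hex, b2, hb2, hl2⟩ := hCSM B ι (c • h.map ψ₂) (REBM.herm ψ₂ hψ₂ ε c h hc hε) (GTRM.xunit ψ₂ h hu hc)
    refine ⟨hex, fun S₁ S₂ hS₁ hS₂ => ?_⟩
    have hb : 0 < min b1 b2 := lt_min hb1 hb2
    have l1 := hl1 (min b1 b2) hb (min_le_left _ _) S₁ hS₁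
    have l2 := hl2 (min b1 b2) hb (min_le_right _ _) S₂ hS₂ ω
    have key : (fun j => ∑ i, ω ((it (((min b1 b2 : ℝ) : ℂ) • (c • h.map ψ₂)) j) i i)) =
        fun j => momJ (fun l => trF w₁ ψ₁ (ind H) (h ^ l)) (((min b1 b2 : ℝ) : ℂ) * c) j := by
      funext j
      rw [smul_smul]
      refine Eq.trans (hMOM (Matrix ι ι B) (h.map ψ₂) (((min b1 b2 : ℝ) : ℂ) * c) (REBM.omL ω) j) ?_
      congr 1
      funext l
      refine Eq.trans ?_ (GTRM.om_trF H (fun x => w₁ x) (fun x => ψ₁ x) ψ₂ ω hω1 hω2 (h ^ l))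
      show ∑ i, ω (((h.map ψ₂) ^ l) i i) = ∑ i, ω (ψ₂ ((h ^ l) i i))
      have hmap : ∀ x : Matrix ι ι (MonoidAlgebra R E), ψ₂.mapMatrix x = x.map ψ₂ := fun x => rfl
      rw [← hmap h, ← map_pow]
      rfl
    rw [key] at l2
    exact tendsto_nhds_unique l2 l1

end Pool.Agent.Lib.MP8a3537.AM
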