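import Pool.Agent.Lib.MP_8a3537_gt.AM.SpecF

/-!
Row 311, module LAM: the operators `a ⊗ λ_k` on `lp (K, H)` (helper43).
-/

set_option autoImplicit false

namespace Pool.Agent.Lib.MP8a3537.AM

open scoped BigOperators InnerProductSpace

namespace LAMM

variable {K H : Type} [Group K] [NormedAddCommGroup H] [InnerProductSpace ℂ H]

/-- square summable families -/
abbrev L2 (K H : Type) [NormedAddCommGroup H] : Type := lp (fun _ : K => H) 2

lemma two_pos : (0 : ℝ) < (2 : ENNReal).toReal := by norm_num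

lemma summ (v : L2 K H) : Summable fun l : K => ‖v l‖ ^ (2 : ENNReal).toReal :=
  (lp.hasSum_norm two_pos v).summable

lemma bdd (k : K) (a : H →L[ℂ] H) (v : L2 K H) (l : K) :
    ‖a (v (k⁻¹ * l))‖ ^ (2 : ENNReal).toReal ≤
      ‖a‖ ^ (2 : ENNReal).toReal * ‖v (k⁻¹ * l)‖ ^ (2 : ENNReal).toReal := by
  rw [← Real.mul_rpow (norm_nonneg _) (norm_nonneg _)]
  exact Real.rpow_le_rpow (norm_nonneg _) (a.le_opNorm _) two_pos.le

lemma summ2 (k : K) (a : H →L[ℂ] H) (v : L2 K H) :
    Summable fun l : K => ‖a‖ ^ (2 : ENNReal).toReal * ‖v (k⁻¹ * l)‖ ^ (2 : ENNReal).toReal := by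
  have h := (summ v).comp_injective (Equiv.mulLeft k⁻¹).injective
  exact h.mul_left _

lemma mem (k : K) (a : H →L[ℂ] H) (v : L2 K H) :
    Memℓp (fun l : K => a (v (k⁻¹ * l))) 2 := by
  apply memℓp_gen
  exact Summable.of_nonneg_of_le (fun l => Real.rpow_nonneg (norm_nonneg _) _) (bdd k a v)
    (summ2 k a v)

/-- the operator as a linear map -/
noncomputable def U0 (k : K) (a : H →L[ℂ] H) : L2 K H →ₗ[ℂ] L2 K H where
  toFun v := ⟨fun l : K => a (v (k⁻¹ * l)), mem k a v⟩
  map_add' u v := by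
    apply lp.ext
    funext l
    change a ((u + v : L2 K H) (k⁻¹ * l)) = a (u (k⁻¹ * l)) + a (v (k⁻¹ * l))
    rw [lp.coeFn_add, Pi.add_apply, map_add]
  map_smul' c v := by
    apply lp.ext
    funext l
    change a ((c • v : L2 K H) (k⁻¹ * l)) = c • a (v (k⁻¹ * l))
    rw [lp.coeFn_smul, Pi.smul_apply, map_smul]

lemma U0_apply (k : K) (a : H →L[ℂ] H) (v : L2 K H) (l : K) :
    (U0 k a v : K → H) l = a (v (k⁻¹ * l)) := rfl

lemma U0_norm (k : K) (a : H →L[ℂ] H) (v : L2 K H) : ‖U0 k a v‖ ≤ ‖a‖ * ‖v‖ := by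
  apply lp.norm_le_of_tsum_le two_pos (mul_nonneg (norm_nonneg _) (norm_nonneg _))
  rw [Real.mul_rpow (norm_nonneg _) (norm_nonneg _), lp.norm_rpow_eq_tsum two_pos v]
  have h1 : ∑' l : K, ‖(U0 k a v : K → H) l‖ ^ (2 : ENNReal).toReal ≤
      ∑' l : K, ‖a‖ ^ (2 : ENNReal).toReal * ‖v (k⁻¹ * l)‖ ^ (2 : ENNReal).toReal := by
    refine Summable.tsum_le_tsum (bdd k a v) ?_ (summ2 k a v)
    exact summ (U0 k a v)
  refine h1.trans (le_of_eq ?_)
  rw [tsum_mul_left]
  congr 1
  exact (Equiv.mulLeft k⁻¹).tsum_eq (fun l => ‖v l‖ ^ (2 : ENNReal).toReal)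

/-- the operator `a ⊗ λ_k` -/
noncomputable def U1 (k : K) (a : H →L[ℂ] H) : L2 K H →L[ℂ] L2 K H :=
  (U0 k a).mkContinuous ‖a‖ (U0_norm k a)

lemma U1_apply (k : K) (a : H →L[ℂ] H) (v : L2 K H) (l : K) :
    (U1 k a v : K → H) l = a (v (k⁻¹ * l)) := rfl

/-- linear in `a` -/
noncomputable def U (k : K) : (H →L[ℂ] H) →ₗ[ℂ] (L2 K H →L[ℂ] L2 K H) where
  toFun a := U1 k a
  map_add' a b := by
    ext1 v
    apply lp.ext
    funext l
    rw [add_apply, lp.coeFn_add, Pi.add_apply, U1_apply, U1_apply, U1_apply]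
    rfl
  map_smul' c a := by
    ext1 v
    apply lp.ext
    funext l
    rw [smul_apply, lp.coeFn_smul, Pi.smul_apply, U1_apply, U1_apply]
    rfl

lemma U_apply (k : K) (a : H →L[ℂ] H) (v : L2 K H) (l : K) :
    (U k a v : K → H) l = a (v (k⁻¹ * l)) := rfl

lemma U_one : U (1 : K) (1 : H →L[ℂ] H) = 1 := by
  ext1 v
  apply lp.ext
  funext l
  rw [U_apply, inv_one, one_mul]
  rfl

lemma U_mul (k l : K) (a b : H →L[ℂ] H) : U k a * U l b = U (k * l) (a * b) := by
  ext1 v
  apply lp.ext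
  funext m
  rw [ContinuousLinearMap.mul_apply, U_apply, U_apply, U_apply, mul_inv_rev, mul_assoc]
  rfl

lemma U_star [CompleteSpace H] (k : K) (a : H →L[ℂ] H) : star (U k a) = U k⁻¹ (star a) := by
  rw [ContinuousLinearMap.star_eq_adjoint, ContinuousLinearMap.star_eq_adjoint]
  symm
  rw [ContinuousLinearMap.eq_adjoint_iff]
  intro x y
  rw [lp.inner_eq_tsum, lp.inner_eq_tsum]
  rw [← (Equiv.mulLeft k).tsum_eq (fun i => ⟪x i, (U k a y : K → H) i⟫_ℂ)]
  apply tsum_congr
  intro l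
  rw [U_apply, inv_inv, ContinuousLinearMap.adjoint_inner_left, Equiv.coe_mulLeft, U_apply,
    inv_mul_cancel_left]

lemma U_norm (k : K) (a : H →L[ℂ] H) : ‖U k a‖ ≤ ‖a‖ :=
  LinearMap.mkContinuous_norm_le _ (norm_nonneg _) (U0_norm k a)

open Classical in
/-- the inclusion at `1` -/
noncomputable def inOne (K H : Type) [Group K] [NormedAddCommGroup H] [InnerProductSpace ℂ H] :
    H →L[ℂ] L2 K H :=
  LinearMap.mkContinuous
    { toFun := fun x => lp.single 2 (1 : K) x
      map_add' := fun x y => lp.single_add (E := fun _ : K => H) 2 (1 : K) x y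
      map_smul' := fun c x => by
        rw [RingHom.id_apply]
        exact lp.single_smul (E := fun _ : K => H) 2 (1 : K) c x } 1 (by
    intro x
    rw [one_mul]
    exact (lp.norm_single (E := fun _ : K => H) (p := 2) (by norm_num) (1 : K) x).le)

open Classical in
lemma inOne_apply (x : H) (l : K) : (inOne K H x : K → H) l = if l = 1 then x else 0 := by
  change (lp.single (E := fun _ : K => H) 2 (1 : K) x : K → H) l = _
  rw [lp.single_apply, Pi.single_apply]

/-- the evaluation at `1` -/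
noncomputable def evOne (K H : Type) [Group K] [NormedAddCommGroup H] [InnerProductSpace ℂ H] :
    L2 K H →L[ℂ] H :=
  LinearMap.mkContinuous
    { toFun := fun v => v (1 : K)
      map_add' := fun u v => rfl
      map_smul' := fun c v => rfl } 1 (by
    intro v
    rw [one_mul]
    exact lp.norm_apply_le_norm (by norm_num) v 1)

lemma evOne_apply (v : L2 K H) : evOne K H v = v (1 : K) := rfl

lemma inOne_norm : ‖inOne K H‖ ≤ 1 := by
  classical
  apply ContinuousLinearMap.opNorm_le_bound _ zero_le_one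
  intro x
  rw [one_mul]
  exact (lp.norm_single (E := fun _ : K => H) (p := 2) (by norm_num) (1 : K) x).le

lemma evOne_norm : ‖evOne K H‖ ≤ 1 := by
  apply ContinuousLinearMap.opNorm_le_bound _ zero_le_one
  intro v
  rw [one_mul]
  exact lp.norm_apply_le_norm (by norm_num) v 1

/-- the functional `T ↦ w (E T V)` -/
noncomputable def wGen {H H' : Type} [NormedAddCommGroup H] [InnerProductSpace ℂ H]
    [NormedAddCommGroup H'] [InnerProductSpace ℂ H'] (e : H' →L[ℂ] H) (v : H →L[ℂ] H')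
    (w : (H →L[ℂ] H) →L[ℂ] ℂ) : (H' →L[ℂ] H') →L[ℂ] ℂ :=
  w.comp ((ContinuousLinearMap.compL ℂ H H' H e).comp
    ((ContinuousLinearMap.compL ℂ H H' H').flip v))

lemma wGen_apply {H H' : Type} [NormedAddCommGroup H] [InnerProductSpace ℂ H]
    [NormedAddCommGroup H'] [InnerProductSpace ℂ H'] (e : H' →L[ℂ] H) (v : H →L[ℂ] H')
    (w : (H →L[ℂ] H) →L[ℂ] ℂ) (T : H' →L[ℂ] H') : wGen e v w T = w (e.comp (T.comp v)) := rfl

lemma wGen_norm {H H' : Type} [NormedAddCommGroup H] [InnerProductSpace ℂ H]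
    [NormedAddCommGroup H'] [InnerProductSpace ℂ H'] (e : H' →L[ℂ] H) (v : H →L[ℂ] H')
    (w : (H →L[ℂ] H) →L[ℂ] ℂ) (he : ‖e‖ ≤ 1) (hv : ‖v‖ ≤ 1) : ‖wGen e v w‖ ≤ ‖w‖ := by
  refine ContinuousLinearMap.opNorm_le_bound _ w.opNorm_nonneg ?_
  intro T
  rw [wGen_apply]
  refine (w.le_opNorm _).trans (mul_le_mul_of_nonneg_left ?_ w.opNorm_nonneg)
  refine (ContinuousLinearMap.opNorm_comp_le _ _).trans ?_
  refine (mul_le_mul he (ContinuousLinearMap.opNorm_comp_le _ _) (norm_nonneg _)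
    zero_le_one).trans ?_
  rw [one_mul]
  exact mul_le_of_le_one_right (norm_nonneg _) hv

open Classical in
lemma wBig_apply (w : (H →L[ℂ] H) →L[ℂ] ℂ) (k : K) (a : H →L[ℂ] H) :
    wGen (evOne K H) (inOne K H) w (U k a) = if k = 1 then w a else 0 := by
  rw [wGen_apply]
  have h : (evOne K H).comp ((U k a).comp (inOne K H)) = if k = 1 then a else 0 := by
    ext1 x
    rw [ContinuousLinearMap.comp_apply, ContinuousLinearMap.comp_apply, evOne_apply, U_apply, inOne_apply,
      mul_one]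
    by_cases hk : k = 1
    · rw [if_pos (by rw [hk, inv_one]), if_pos hk]
    · rw [if_neg (by rw [inv_eq_one]; exact hk), if_neg hk, map_zero]
      rfl
  rw [h]
  split_ifs
  · rfl
  · exact map_zero w

end LAMM

open LAMM in
theorem specLAM : SpecLAM := by
  intro K H _ _ _ _
  refine ⟨L2 K H, inferInstance, inferInstance, inferInstance, U, U_one, U_mul, U_star, U_norm, ?_⟩
  intro w
  exact ⟨wGen (evOne K H) (inOne K H) w, wGen_norm _ _ w evOne_norm inOne_norm,
    fun k a => wBig_apply w k a⟩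

end Pool.Agent.Lib.MP8a3537.AM
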