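import Pool.Agent.Lib.MP_8a3537_gt.AM.SpecF

/-!
# MMA: matrices over `A[G]` are elements of `M(A)[G]` (MP_8a3537_gt, folder AM)
-/

set_option linter.unusedVariables false
set_option linter.unusedSectionVars false

namespace Pool.Agent.Lib.MP8a3537.AM

open scoped BigOperators Matrix
open Pool.Agent.Lib.MP8a3537.SG
open Pool.Agent.Lib.MP8a3537.TW

namespace MMAM

section

variable {A G : Type} [Ring A] [Group G]

theorem coeff_mul_left (x y : MonoidAlgebra A G) (S : Finset G) (hS : x.coeff.support ⊆ S) (k : G) :
    (x * y).coeff k = ∑ g ∈ S, x.coeff g * y.coeff (g⁻¹ * k) := by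
  classical
  rw [MonoidAlgebra.coeff_mul, Finsupp.sum, ← Finset.sum_subset hS]
  · refine Finset.sum_congr rfl fun g _ => ?_
    rw [Finsupp.sum, Finset.sum_eq_single (g⁻¹ * k)]
    · rw [mul_inv_cancel_left, if_pos rfl]
    · intro b _ hb
      rw [if_neg]
      rintro rfl
      exact hb (by rw [inv_mul_cancel_left])
    · intro h
      rw [mul_inv_cancel_left, if_pos rfl, Finsupp.notMem_support_iff.mp h, mul_zero]
  · intro g _ hg
    rw [Finsupp.notMem_support_iff.mp hg, zero_mul]

end

section

variable {A G ι : Type} [Ring A] [Algebra ℂ A] [Group G] [Fintype ι] [DecidableEq ι]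

/-- a common support -/
noncomputable def sup (x : Matrix ι ι (MonoidAlgebra A G)) : Finset G :=
  open Classical in Finset.univ.biUnion fun i => Finset.univ.biUnion fun j => (x i j).coeff.support

theorem sub_sup (x : Matrix ι ι (MonoidAlgebra A G)) (i j : ι) : (x i j).coeff.support ⊆ sup x := by
  classical
  intro g hg
  unfold sup
  rw [Finset.mem_biUnion]
  exact ⟨i, Finset.mem_univ _, Finset.mem_biUnion.mpr ⟨j, Finset.mem_univ _, hg⟩⟩

/-- the coefficient matrices -/
noncomputable def th (x : Matrix ι ι (MonoidAlgebra A G)) : MonoidAlgebra (Matrix ι ι A) G :=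
  MonoidAlgebra.ofCoeff (Finsupp.onFinset (sup x) (fun g => Matrix.of fun i j => (x i j).coeff g) (by
    intro g hg
    by_contra h
    apply hg
    ext i j
    exact Finsupp.notMem_support_iff.mp fun h' => h (sub_sup x i j h')))

theorem th_apply (x : Matrix ι ι (MonoidAlgebra A G)) (g : G) (i j : ι) : (th x).coeff g i j = (x i j).coeff g := rfl

end

end MMAM

open MMAM in
theorem specMMA : SpecMMA := by
  classical
  intro A G ι _ _ _ _ _
  have hsup : ∀ x : Matrix ι ι (MonoidAlgebra A G), (th x).coeff.support ⊆ sup x := by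
    intro x g hg
    by_contra h
    apply Finsupp.mem_support_iff.mp hg
    ext i j
    rw [th_apply]
    exact Finsupp.notMem_support_iff.mp fun h' => h (sub_sup x i j h')
  have hext : ∀ x y : MonoidAlgebra (Matrix ι ι A) G, (∀ g i j, x.coeff g i j = y.coeff g i j) → x = y := by
    intro x y h
    apply MonoidAlgebra.ext
    ext g i j
    exact h g i j
  refine ⟨AlgHom.ofLinearMap
    { toFun := th
      map_add' := fun x y => hext _ _ fun g i j => by
        rw [th_apply, MonoidAlgebra.coeff_add, Finsupp.add_apply, Matrix.add_apply, Matrix.add_apply, MonoidAlgebra.coeff_add,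
          Finsupp.add_apply, th_apply, th_apply]
      map_smul' := fun c x => hext _ _ fun g i j => by
        rw [th_apply, RingHom.id_apply, MonoidAlgebra.coeff_smul, Finsupp.smul_apply, Matrix.smul_apply, Matrix.smul_apply,
          MonoidAlgebra.coeff_smul, Finsupp.smul_apply, th_apply] } ?_ ?_, fun x g i j => rfl⟩
  · refine hext _ _ fun g i j => ?_
    show (th (1 : Matrix ι ι (MonoidAlgebra A G))).coeff g i j = _
    rw [th_apply, Matrix.one_apply, MonoidAlgebra.one_def, MonoidAlgebra.one_def, MonoidAlgebra.coeff_single_apply]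
    by_cases hij : i = j
    · subst hij
      rw [if_pos rfl, MonoidAlgebra.coeff_single_apply]
      by_cases hg : (1 : G) = g
      · rw [if_pos hg, if_pos hg, Matrix.one_apply_eq]
      · rw [if_neg hg, if_neg hg, Matrix.zero_apply]
    · rw [if_neg hij]
      by_cases hg : (1 : G) = g
      · rw [if_pos hg, Matrix.one_apply_ne hij]; rfl
      · rw [if_neg hg, Matrix.zero_apply]; rfl
  · intro x y
    refine hext _ _ fun k i j => ?_
    show (th (x * y)).coeff k i j = (th x * th y).coeff k i j
    rw [th_apply, coeff_mul_left (th x) (th y) (sup x) (hsup x) k, Matrix.mul_apply, MonoidAlgebra.coeff_sum, Finsupp.finsetSum_apply,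
      Matrix.sum_apply]
    simp_rw [Matrix.mul_apply, th_apply]
    rw [Finset.sum_comm]
    refine Finset.sum_congr rfl fun l _ => ?_
    exact coeff_mul_left _ _ (sup x) (sub_sup x i l) k

end Pool.Agent.Lib.MP8a3537.AM
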