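import Pool.Agent.Lib.MP_8a3537_gt.AM.SpecF

/-!
Row 311, module MPL: matrices of operators act on the Hilbert sum (helper43).
-/

set_option autoImplicit false

namespace Pool.Agent.Lib.MP8a3537.AM

open scoped BigOperators InnerProductSpace Matrix

namespace MPLM

variable {ι H : Type} [Fintype ι] [DecidableEq ι] [NormedAddCommGroup H] [InnerProductSpace ℂ H]
  [CompleteSpace H]

/-- the Hilbert sum -/
abbrev HS (ι H : Type) [NormedAddCommGroup H] : Type := PiLp 2 (fun _ : ι => H)

/-- the coordinate projection -/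
noncomputable def P (i : ι) : HS ι H →L[ℂ] H := PiLp.proj 2 (fun _ : ι => H) i

/-- the inclusion of a coordinate -/
noncomputable def V (i : ι) : H →L[ℂ] HS ι H := ContinuousLinearMap.adjoint (P i)

lemma P_apply (i : ι) (v : HS ι H) : P i v = v i := rfl

lemma V_apply (i : ι) (x : H) : V i x = PiLp.single 2 i x := by
  apply ext_inner_right ℂ
  intro v
  rw [V, ContinuousLinearMap.adjoint_inner_left, P_apply, PiLp.inner_apply, Finset.sum_eq_single i]
  · rw [PiLp.single_eq_same]
  · intro j _ hj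
    rw [PiLp.single_eq_of_ne 2 hj, inner_zero_left]
  · intro h; exact absurd (Finset.mem_univ _) h

lemma PV (i j : ι) : (P i).comp (V j) = if i = j then (1 : H →L[ℂ] H) else 0 := by
  ext1 x
  rw [ContinuousLinearMap.comp_apply, V_apply, P_apply]
  by_cases h : i = j
  · subst h
    rw [if_pos rfl, PiLp.single_eq_same]
    rfl
  · rw [if_neg h, PiLp.single_eq_of_ne 2 h]
    rfl

lemma VP : ∑ i : ι, (V i).comp (P i) = (1 : HS ι H →L[ℂ] HS ι H) := by
  ext1 v
  rw [sum_apply]
  ext i
  have h1 : (∑ j : ι, ((V j).comp (P j)) v).ofLp i = ∑ j : ι, (((V j).comp (P j)) v).ofLp i := by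
    rw [WithLp.ofLp_sum, Finset.sum_apply]
  rw [h1, Finset.sum_eq_single i]
  · rw [ContinuousLinearMap.comp_apply, V_apply, PiLp.single_eq_same]
    rfl
  · intro j _ hj
    rw [ContinuousLinearMap.comp_apply, V_apply, PiLp.single_eq_of_ne 2 (Ne.symm hj)]
  · intro h; exact absurd (Finset.mem_univ _) h

lemma P_norm (i : ι) : ‖(P i : HS ι H →L[ℂ] H)‖ ≤ 1 := by
  apply ContinuousLinearMap.opNorm_le_bound _ zero_le_one
  intro v
  rw [one_mul]
  exact PiLp.norm_apply_le v i

lemma V_norm (i : ι) : ‖(V i : H →L[ℂ] HS ι H)‖ ≤ 1 := by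
  rw [V, LinearIsometryEquiv.norm_map]
  exact P_norm i

/-- one block -/
noncomputable def blo (i j : ι) (x : H →L[ℂ] H) : HS ι H →L[ℂ] HS ι H :=
  (V i).comp (x.comp (P j))

lemma blo_mul (i j k l : ι) (x y : H →L[ℂ] H) :
    blo i j x * blo k l y = if j = k then blo i l (x * y) else 0 := by
  have h : blo i j x * blo k l y = (V i).comp (x.comp (((P j).comp (V k)).comp (y.comp (P l)))) :=
    rfl
  rw [h, PV]
  split_ifs
  · rfl
  · rw [ContinuousLinearMap.zero_comp, ContinuousLinearMap.comp_zero, ContinuousLinearMap.comp_zero]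

lemma blo_zero (i j : ι) : blo i j (0 : H →L[ℂ] H) = 0 := by
  rw [blo, ContinuousLinearMap.zero_comp, ContinuousLinearMap.comp_zero]

lemma blo_add (i j : ι) (x y : H →L[ℂ] H) : blo i j (x + y) = blo i j x + blo i j y := by
  rw [blo, ContinuousLinearMap.add_comp, ContinuousLinearMap.comp_add]; rfl

lemma blo_smul (i j : ι) (c : ℂ) (x : H →L[ℂ] H) : blo i j (c • x) = c • blo i j x := by
  rw [blo, ContinuousLinearMap.smul_comp, ContinuousLinearMap.comp_smul]; rfl

lemma blo_sum (i j : ι) {α : Type} (s : Finset α) (f : α → H →L[ℂ] H) :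
    blo i j (∑ a ∈ s, f a) = ∑ a ∈ s, blo i j (f a) := by
  classical
  induction s using Finset.induction_on with
  | empty => rw [Finset.sum_empty, Finset.sum_empty, blo_zero]
  | insert a s ha ih => rw [Finset.sum_insert ha, Finset.sum_insert ha, blo_add, ih]

lemma blo_star (i j : ι) (x : H →L[ℂ] H) : star (blo i j x) = blo j i (star x) := by
  rw [ContinuousLinearMap.star_eq_adjoint, ContinuousLinearMap.star_eq_adjoint, blo, blo,
    ContinuousLinearMap.adjoint_comp, ContinuousLinearMap.adjoint_comp, V,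
    ContinuousLinearMap.adjoint_adjoint, V]
  rfl

/-- the block operator -/
noncomputable def Om0 (x : Matrix ι ι (H →L[ℂ] H)) : HS ι H →L[ℂ] HS ι H :=
  ∑ i, ∑ j, blo i j (x i j)

lemma Om0_one : Om0 (1 : Matrix ι ι (H →L[ℂ] H)) = 1 := by
  rw [Om0, ← VP]
  apply Finset.sum_congr rfl
  intro i _
  rw [Finset.sum_eq_single i]
  · rw [Matrix.one_apply_eq]
    rfl
  · intro j _ hj
    rw [Matrix.one_apply_ne (Ne.symm hj), blo_zero]
  · intro h; exact absurd (Finset.mem_univ _) h

lemma Om0_mul (x y : Matrix ι ι (H →L[ℂ] H)) : Om0 (x * y) = Om0 x * Om0 y := by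
  rw [Om0, Om0, Om0, Finset.sum_mul]
  apply Finset.sum_congr rfl
  intro i _
  rw [Finset.sum_mul]
  have h1 : ∀ j : ι, blo i j (x i j) * ∑ k, ∑ l, blo k l (y k l) =
      ∑ l, blo i l (x i j * y j l) := by
    intro j
    rw [Finset.mul_sum, Finset.sum_eq_single j]
    · rw [Finset.mul_sum]
      apply Finset.sum_congr rfl
      intro l _
      rw [blo_mul, if_pos rfl]
    · intro k _ hk
      rw [Finset.mul_sum]
      apply Finset.sum_eq_zero
      intro l _
      rw [blo_mul, if_neg (Ne.symm hk)]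
    · intro h; exact absurd (Finset.mem_univ _) h
  rw [Finset.sum_congr rfl (fun j _ => h1 j), Finset.sum_comm]
  apply Finset.sum_congr rfl
  intro l _
  rw [Matrix.mul_apply, blo_sum]

lemma Om0_add (x y : Matrix ι ι (H →L[ℂ] H)) : Om0 (x + y) = Om0 x + Om0 y := by
  rw [Om0, Om0, Om0, ← Finset.sum_add_distrib]
  apply Finset.sum_congr rfl
  intro i _
  rw [← Finset.sum_add_distrib]
  apply Finset.sum_congr rfl
  intro j _
  rw [Matrix.add_apply, blo_add]

lemma Om0_smul (c : ℂ) (x : Matrix ι ι (H →L[ℂ] H)) : Om0 (c • x) = c • Om0 x := by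
  rw [Om0, Om0, Finset.smul_sum]
  apply Finset.sum_congr rfl
  intro i _
  rw [Finset.smul_sum]
  apply Finset.sum_congr rfl
  intro j _
  rw [Matrix.smul_apply, blo_smul]

/-- the homomorphism -/
noncomputable def Om : Matrix ι ι (H →L[ℂ] H) →ₐ[ℂ] (HS ι H →L[ℂ] HS ι H) :=
  AlgHom.ofLinearMap
    { toFun := Om0, map_add' := Om0_add, map_smul' := Om0_smul } Om0_one Om0_mul

lemma Om_apply (x : Matrix ι ι (H →L[ℂ] H)) : Om x = ∑ i, ∑ j, blo i j (x i j) := rfl

lemma Om_star (x : Matrix ι ι (H →L[ℂ] H)) : Om xᴴ = star (Om x) := by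
  rw [Om_apply, Om_apply, ContinuousLinearMap.star_eq_adjoint, map_sum, Finset.sum_comm]
  apply Finset.sum_congr rfl
  intro i _
  rw [map_sum]
  apply Finset.sum_congr rfl
  intro j _
  rw [Matrix.conjTranspose_apply, ← ContinuousLinearMap.star_eq_adjoint, blo_star]

lemma Om_norm (x : Matrix ι ι (H →L[ℂ] H)) : ‖Om x‖ ≤ ∑ i, ∑ j, ‖x i j‖ := by
  rw [Om_apply]
  refine (norm_sum_le _ _).trans (Finset.sum_le_sum fun i _ => ?_)
  refine (norm_sum_le _ _).trans (Finset.sum_le_sum fun j _ => ?_)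
  refine (ContinuousLinearMap.opNorm_comp_le _ _).trans ?_
  refine (mul_le_mul (V_norm i) (ContinuousLinearMap.opNorm_comp_le _ _) (norm_nonneg _)
      zero_le_one).trans ?_
  rw [one_mul]
  exact mul_le_of_le_one_right (norm_nonneg _) (P_norm j)

lemma PVx (x : Matrix ι ι (H →L[ℂ] H)) (k : ι) : (P k).comp ((Om x).comp (V k)) = x k k := by
  ext1 v
  rw [ContinuousLinearMap.comp_apply, ContinuousLinearMap.comp_apply, Om_apply,
    sum_apply, map_sum, Finset.sum_eq_single k]
  · rw [sum_apply, map_sum, Finset.sum_eq_single k]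
    · rw [blo, ContinuousLinearMap.comp_apply, ContinuousLinearMap.comp_apply]
      have h1 := DFunLike.congr_fun (PV (H := H) k k) v
      have h2 := DFunLike.congr_fun (PV (H := H) k k) (x k k v)
      rw [if_pos rfl, ContinuousLinearMap.comp_apply] at h1 h2
      rw [h1]
      exact h2
    · intro j _ hj
      rw [blo, ContinuousLinearMap.comp_apply, ContinuousLinearMap.comp_apply]
      have h1 := DFunLike.congr_fun (PV (H := H) j k) v
      rw [if_neg hj, ContinuousLinearMap.comp_apply] at h1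
      rw [h1, zero_apply, map_zero, map_zero, map_zero]
    · intro h; exact absurd (Finset.mem_univ _) h
  · intro i _ hi
    rw [sum_apply, map_sum]
    apply Finset.sum_eq_zero
    intro j _
    rw [blo, ContinuousLinearMap.comp_apply]
    have h1 := DFunLike.congr_fun (PV (H := H) k i) ((x i j).comp (P j) (V k v))
    rw [if_neg (Ne.symm hi), ContinuousLinearMap.comp_apply] at h1
    exact h1
  · intro h; exact absurd (Finset.mem_univ _) h

/-- the functional -/
noncomputable def wBig (ι : Type) [Fintype ι] [DecidableEq ι] {H : Type} [NormedAddCommGroup H]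
    [InnerProductSpace ℂ H] [CompleteSpace H] (w : (H →L[ℂ] H) →L[ℂ] ℂ) :
    (HS ι H →L[ℂ] HS ι H) →L[ℂ] ℂ :=
  ∑ i : ι, w.comp ((ContinuousLinearMap.compL ℂ H (HS ι H) H (P i)).comp
    ((ContinuousLinearMap.compL ℂ H (HS ι H) (HS ι H)).flip (V i)))

lemma wBig_apply (w : (H →L[ℂ] H) →L[ℂ] ℂ) (x : Matrix ι ι (H →L[ℂ] H)) :
    wBig ι w (Om x) = ∑ i, w (x i i) := by
  rw [wBig, sum_apply]
  apply Finset.sum_congr rfl
  intro i _
  rw [← PVx x i]
  rfl

end MPLM

open MPLM in
theorem specMPL : SpecMPL := by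
  intro ι H _ _ _ _ _
  refine ⟨HS ι H, inferInstance, inferInstance, inferInstance, Om, Om_star, Om_norm, ?_⟩
  intro w
  exact ⟨wBig ι w, fun x => wBig_apply w x⟩

end Pool.Agent.Lib.MP8a3537.AM
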