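import Pool.Agent.Lib.MP_8a3537_gt.AM.Spec

/-!
# Nilpotent groups satisfy the Foelner condition (MP_8a3537_gt, folder AM, module NAM)
-/

set_option linter.unusedVariables false

namespace Pool.Agent.Lib.MP8a3537.AM

open scoped BigOperators
open Pool.Agent.Lib.MP8a3537.SG
open Filter Topology

namespace NAMM

/-- the Foelner condition -/
def Fol (G : Type) [Group G] : Prop :=
  ∀ (S : Finset G) (ε : ℝ), 0 < ε → ∃ F : Finset G, F.Nonempty ∧
    ∀ s ∈ S, ((open Classical in F.filter fun x => s * x ∉ F).card : ℝ) ≤ ε * F.card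

lemma cfi {α : Type} (S : Finset α) (p : α → Prop) (i1 i2 : DecidablePred p) :
    (@Finset.filter α p i1 S).card = (@Finset.filter α p i2 S).card := by
  rw [Subsingleton.elim i1 i2]

/-! ### Abelian groups: polynomial growth -/

section comm

variable {Z : Type} [CommGroup Z]

open Classical in
/-- the box with side `n + 1` -/
noncomputable def box (S : Finset Z) (n : ℕ) : Finset Z :=
  (Finset.univ : Finset (S → Fin (n + 1))).image fun k => ∏ s : S, (s : Z) ^ ((k s : Fin (n + 1)) : ℕ)

lemma card_box_le (S : Finset Z) (n : ℕ) : (box S n).card ≤ (n + 1) ^ S.card := by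
  classical
  refine Finset.card_image_le.trans ?_
  rw [Finset.card_univ, Fintype.card_fun, Fintype.card_fin, Fintype.card_coe]

lemma box_nonempty (S : Finset Z) (n : ℕ) : (box S n).Nonempty := by
  classical
  exact Finset.univ_nonempty.image _

lemma box_mono (S : Finset Z) (n : ℕ) : box S n ⊆ box S (n + 1) := by
  classical
  intro x hx
  obtain ⟨k, _, rfl⟩ := Finset.mem_image.mp hx
  exact Finset.mem_image.mpr ⟨fun s => (k s).castSucc, Finset.mem_univ _, rfl⟩

lemma mul_box (S : Finset Z) (n : ℕ) {s x : Z} (hs : s ∈ S) (hx : x ∈ box S n) :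
    s * x ∈ box S (n + 1) := by
  classical
  obtain ⟨k, _, rfl⟩ := Finset.mem_image.mp hx
  have h1 : ∀ t : S, (((if t = ⟨s, hs⟩ then (k t).succ else (k t).castSucc : Fin (n + 2))) : ℕ) =
      (if t = ⟨s, hs⟩ then 1 else 0) + (k t : ℕ) := by
    intro t
    by_cases h : t = ⟨s, hs⟩
    · rw [if_pos h, if_pos h, Fin.val_succ, Nat.add_comm]
    · rw [if_neg h, if_neg h, Fin.val_castSucc, Nat.zero_add]
  refine Finset.mem_image.mpr ⟨fun t => if t = ⟨s, hs⟩ then (k t).succ else (k t).castSucc,
    Finset.mem_univ _, ?_⟩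
  simp only [h1, pow_add, Finset.prod_mul_distrib]
  congr 1
  rw [Finset.prod_eq_single ⟨s, hs⟩]
  · rw [if_pos rfl, pow_one]
  · intro t _ ht
    rw [if_neg ht, pow_zero]
  · intro h
    exact absurd (Finset.mem_univ _) h

lemma exists_slow (S : Finset Z) {ε : ℝ} (hε : 0 < ε) :
    ∃ n, ((box S (n + 1)).card : ℝ) ≤ (1 + ε) * (box S n).card := by
  by_contra hcon
  push Not at hcon
  have h1 : ∀ n, (1 + ε) ^ n ≤ ((box S n).card : ℝ) := by
    intro n
    induction n with
    | zero =>
      rw [pow_zero]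
      exact_mod_cast Finset.card_pos.mpr (box_nonempty S 0)
    | succ n ih =>
      rw [pow_succ']
      exact (mul_le_mul_of_nonneg_left ih (by linarith)).trans (hcon n).le
  have h2 := tendsto_pow_const_div_const_pow_of_one_lt S.card (r := 1 + ε) (by linarith)
  have h3 := h2.eventually (gt_mem_nhds (show (0 : ℝ) < 1 / (1 + ε) by positivity))
  obtain ⟨N, hN⟩ := Filter.eventually_atTop.mp h3
  have h4 := hN (N + 1) (Nat.le_succ N)
  have h5 : ((box S N).card : ℝ) ≤ ((N + 1 : ℕ) : ℝ) ^ S.card := by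
    exact_mod_cast card_box_le S N
  have h6 := (h1 N).trans h5
  have h7 : (0 : ℝ) < (1 + ε) ^ (N + 1) := by positivity
  rw [div_lt_iff₀ h7, pow_succ'] at h4
  have h8 : 1 / (1 + ε) * ((1 + ε) * (1 + ε) ^ N) = (1 + ε) ^ N := by
    field_simp
  rw [h8] at h4
  linarith

lemma fol_comm : Fol Z := by
  classical
  intro S ε hε
  obtain ⟨n, hn⟩ := exists_slow S hε
  refine ⟨box S n, box_nonempty S n, fun s hs => ?_⟩
  have h1 : (((box S n).filter fun x => s * x ∉ box S n).image fun x => s * x) ⊆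
      box S (n + 1) \ box S n := by
    intro y hy
    obtain ⟨x, hx, rfl⟩ := Finset.mem_image.mp hy
    rw [Finset.mem_filter] at hx
    rw [Finset.mem_sdiff]
    exact ⟨mul_box S n hs hx.1, hx.2⟩
  have h2 := Finset.card_le_card h1
  rw [Finset.card_image_of_injective _ (mul_right_injective s),
    Finset.card_sdiff_of_subset (box_mono S n)] at h2
  have h3 := Finset.card_le_card (box_mono S n)
  have h4 : (((box S n).filter fun x => s * x ∉ box S n).card : ℝ) ≤
      ((box S (n + 1)).card : ℝ) - (box S n).card := by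
    rw [← Nat.cast_sub h3]
    exact_mod_cast h2
  have h5 : ((open Classical in (box S n).filter fun x => s * x ∉ box S n).card : ℝ) =
      (((box S n).filter fun x => s * x ∉ box S n).card : ℝ) := by
    congr
  rw [h5]
  linarith

end comm

lemma fol_of_comm (Z : Type) [hZ : Group Z] (h : ∀ a b : Z, a * b = b * a) : Fol Z :=
  @fol_comm Z { hZ with mul_comm := h }

/-! ### Central extensions -/

lemma fol_ext (G : Type) [Group G] (hQ : Fol (G ⧸ Subgroup.center G)) : Fol G := by
  classical
  intro S ε hε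
  let π : G →* G ⧸ Subgroup.center G := QuotientGroup.mk' (Subgroup.center G)
  let t : G ⧸ Subgroup.center G → G := Quotient.out
  have ht : ∀ u, π (t u) = u := fun u => QuotientGroup.out_eq' u
  obtain ⟨FQ, hFQ, hQ1⟩ := hQ (S.image π) (ε / 2) (by linarith)
  have hz : ∀ (s : G) (u : G ⧸ Subgroup.center G),
      (t (π s * u))⁻¹ * (s * t u) ∈ Subgroup.center G := by
    intro s u
    have h1 : π ((t (π s * u))⁻¹ * (s * t u)) = 1 := by
      rw [map_mul, map_inv, map_mul, ht, ht, inv_mul_cancel]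
    exact (QuotientGroup.eq_one_iff _).mp h1
  let z : G → G ⧸ Subgroup.center G → Subgroup.center G := fun s u => ⟨_, hz s u⟩
  have hzt : ∀ s u, t (π s * u) * (z s u : G) = s * t u := by
    intro s u
    show t (π s * u) * ((t (π s * u))⁻¹ * (s * t u)) = s * t u
    rw [mul_inv_cancel_left]
  obtain ⟨A, hA, hA1⟩ := fol_of_comm (Subgroup.center G)
    (fun a b => Subtype.ext (Subgroup.mem_center_iff.mp b.2 a))
    ((S ×ˢ FQ).image fun p => z p.1 p.2) (ε / 2) (by linarith)
  let φ : (G ⧸ Subgroup.center G) × Subgroup.center G → G := fun p => t p.1 * (p.2 : G)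
  have hπ : ∀ p, π (φ p) = p.1 := by
    intro p
    show π (t p.1 * (p.2 : G)) = p.1
    have h1 : π (p.2 : G) = 1 := (QuotientGroup.eq_one_iff _).mpr p.2.2
    rw [map_mul, ht, h1, mul_one]
  have hφ : Function.Injective φ := by
    intro p q h
    have h1 : p.1 = q.1 := by rw [← hπ p, ← hπ q, h]
    have h2 : t p.1 * (p.2 : G) = t q.1 * (q.2 : G) := h
    rw [h1] at h2
    exact Prod.ext h1 (Subtype.ext (mul_left_cancel h2))
  refine ⟨(FQ ×ˢ A).image φ, (hFQ.product hA).image _, fun s hs => ?_⟩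
  have hcard : ((FQ ×ˢ A).image φ).card = FQ.card * A.card := by
    rw [Finset.card_image_of_injective _ hφ, Finset.card_product]
  have h1 : (((FQ ×ˢ A).image φ).filter fun x => s * x ∉ (FQ ×ˢ A).image φ) ⊆
      (((FQ.filter fun u => π s * u ∉ FQ) ×ˢ A) ∪
        (FQ.biUnion fun u => ((A.filter fun a => z s u * a ∉ A).image fun a => (u, a)))).image φ := by
    intro x hx
    rw [Finset.mem_filter] at hx
    obtain ⟨p, hp, rfl⟩ := Finset.mem_image.mp hx.1
    rw [Finset.mem_product] at hp
    refine Finset.mem_image_of_mem _ ?_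
    rw [Finset.mem_union]
    by_cases h2 : π s * p.1 ∈ FQ
    · right
      rw [Finset.mem_biUnion]
      refine ⟨p.1, hp.1, Finset.mem_image.mpr ⟨p.2, ?_, rfl⟩⟩
      rw [Finset.mem_filter]
      refine ⟨hp.2, fun h3 => hx.2 ?_⟩
      refine Finset.mem_image.mpr ⟨(π s * p.1, z s p.1 * p.2), Finset.mem_product.mpr ⟨h2, h3⟩, ?_⟩
      show t (π s * p.1) * ((z s p.1 * p.2 : Subgroup.center G) : G) = s * (t p.1 * (p.2 : G))
      rw [Subgroup.coe_mul, ← mul_assoc, hzt, mul_assoc]
    · left
      rw [Finset.mem_product, Finset.mem_filter]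
      exact ⟨⟨hp.1, h2⟩, hp.2⟩
  have h2 := (Finset.card_le_card h1).trans (Finset.card_image_le.trans (Finset.card_union_le _ _))
  rw [Finset.card_product] at h2
  have h3 : (((FQ.filter fun u => π s * u ∉ FQ).card : ℕ) : ℝ) ≤ ε / 2 * FQ.card := by
    have h4 := hQ1 (π s) (Finset.mem_image_of_mem _ hs)
    rw [cfi FQ (fun u => π s * u ∉ FQ) _ _] at h4
    exact h4
  have h5 : (((FQ.biUnion fun u => ((A.filter fun a => z s u * a ∉ A).image fun a => (u, a))).card
      : ℕ) : ℝ) ≤ FQ.card * (ε / 2 * A.card) := by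
    have h6 : ((FQ.biUnion fun u => ((A.filter fun a => z s u * a ∉ A).image
        fun a => (u, a))).card : ℝ) ≤ ∑ u ∈ FQ, ((A.filter fun a => z s u * a ∉ A).card : ℝ) := by
      have h7 : (FQ.biUnion fun u => ((A.filter fun a => z s u * a ∉ A).image
        fun a => (u, a))).card ≤ ∑ u ∈ FQ, (A.filter fun a => z s u * a ∉ A).card :=
        Finset.card_biUnion_le.trans (Finset.sum_le_sum fun u _ => Finset.card_image_le)
      exact_mod_cast h7
    refine h6.trans ?_
    rw [← nsmul_eq_mul]
    refine Finset.sum_le_card_nsmul _ _ _ fun u hu => ?_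
    have h8 := hA1 (z s u) (Finset.mem_image.mpr ⟨(s, u), Finset.mem_product.mpr ⟨hs, hu⟩, rfl⟩)
    rw [cfi A (fun a => z s u * a ∉ A) _ _] at h8
    exact h8
  have h9 : ((open Classical in ((FQ ×ˢ A).image φ).filter fun x => s * x ∉ (FQ ×ˢ A).image φ).card : ℝ) =
      ((((FQ ×ˢ A).image φ).filter fun x => s * x ∉ (FQ ×ˢ A).image φ).card : ℝ) := by
    congr
  rw [h9, hcard]
  have h10 : ((((FQ ×ˢ A).image φ).filter fun x => s * x ∉ (FQ ×ˢ A).image φ).card : ℝ) ≤
      ((FQ.filter fun u => π s * u ∉ FQ).card : ℝ) * A.card +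
        ((FQ.biUnion fun u => ((A.filter fun a => z s u * a ∉ A).image fun a => (u, a))).card : ℝ) := by
    exact_mod_cast h2
  have h11 : ((FQ.filter fun u => π s * u ∉ FQ).card : ℝ) * A.card ≤ ε / 2 * FQ.card * A.card :=
    mul_le_mul_of_nonneg_right h3 (Nat.cast_nonneg _)
  push_cast
  linarith

lemma fol_base (G : Type) [Group G] (h : ∀ a b : G, a = b) : Fol G := by
  classical
  intro S ε hε
  refine ⟨{1}, Finset.singleton_nonempty _, fun s _ => ?_⟩
  refine le_of_eq_of_le (b := (0 : ℝ)) ?_ (by positivity)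
  rw [Nat.cast_eq_zero, Finset.card_eq_zero]
  refine Finset.eq_empty_of_forall_notMem fun x hx => ?_
  rw [Finset.mem_filter] at hx
  exact hx.2 (Finset.mem_singleton.mpr (h _ _))

lemma fol_nilpotent (G : Type) [Group G] [hG : Group.IsNilpotent G] : Fol G := by
  refine Group.nilpotent_center_quotient_ind (P := fun G _ _ => Fol G) G ?_ ?_
  · intro G _ _
    exact fol_base G fun a b => Subsingleton.elim a b
  · intro G _ _ h
    exact fol_ext G h

end NAMM

theorem specNAM : SpecNAM := by
  intro G _ hG htf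
  exact ⟨htf, NAMM.fol_nilpotent G⟩

end Pool.Agent.Lib.MP8a3537.AM
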