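import Pool.Agent.Lib.MP_8a3537_gt.AM.SpecF
import Pool.Agent.Lib.MP_8a3537_gt.TW.BDX

/-!
# MP_8a3537_gt, folder AM, module NBX: bounds for the sum of the norms of the coefficients
-/

set_option linter.unusedVariables false

namespace Pool.Agent.Lib.MP8a3537.AM

open Pool.Agent.Lib.MP8a3537.SG
open Pool.Agent.Lib.MP8a3537.TW
open scoped BigOperators Matrix

namespace NBXM

/-- the matrix with the block `A` at the place `(i, j)` -/
noncomputable def blk1 {ι κ : Type} [DecidableEq ι] (i j : ι) (A : Matrix κ κ ℂ) : Matrix (ι × κ) (ι × κ) ℂ :=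
  Matrix.of fun p q => if p.1 = i ∧ q.1 = j then A p.2 q.2 else 0

lemma bd_blk1 {ι κ : Type} [Fintype ι] [DecidableEq ι] [Fintype κ] (i j : ι) (A : Matrix κ κ ℂ) (α : ℝ) (hA : Bd A α) :
    Bd (blk1 i j A) α := by
  intro v
  have hK := hA (fun b : κ => v (j, b))
  have h1 : ∀ (i' : ι) (a : κ), ((blk1 i j A).mulVec v) (i', a) =
      if i' = i then (A.mulVec (fun b : κ => v (j, b))) a else 0 := by
    intro i' a
    simp only [Matrix.mulVec, dotProduct, blk1, Matrix.of_apply]
    rw [Fintype.sum_prod_type]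
    split_ifs with hi
    · rw [Finset.sum_eq_single j]
      · refine Finset.sum_congr rfl fun b _ => ?_
        rw [if_pos ⟨hi, rfl⟩]
      · intro j' _ hj
        refine Finset.sum_eq_zero fun b _ => ?_
        rw [if_neg (fun h => hj h.2), zero_mul]
      · intro h
        exact absurd (Finset.mem_univ j) h
    · refine Finset.sum_eq_zero fun j' _ => Finset.sum_eq_zero fun b _ => ?_
      rw [if_neg (fun h => hi h.1), zero_mul]
  have h2 : ∑ p, ‖((blk1 i j A).mulVec v) p‖ ^ 2 = ∑ x : κ, ‖(A.mulVec (fun b : κ => v (j, b))) x‖ ^ 2 := by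
    rw [Fintype.sum_prod_type, Finset.sum_eq_single i]
    · refine Finset.sum_congr rfl fun a _ => ?_
      rw [h1, if_pos rfl]
    · intro i' _ hi
      refine Finset.sum_eq_zero fun a _ => ?_
      rw [h1, if_neg hi]
      simp
    · intro h
      exact absurd (Finset.mem_univ i) h
  have h3 : ∑ x : κ, ‖v (j, x)‖ ^ 2 ≤ ∑ q, ‖v q‖ ^ 2 := by
    rw [Fintype.sum_prod_type]
    exact Finset.single_le_sum (f := fun j' => ∑ b, ‖v (j', b)‖ ^ 2)
      (fun j' _ => Finset.sum_nonneg fun b _ => sq_nonneg _) (Finset.mem_univ j)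
  rw [h2]
  exact hK.trans (mul_le_mul_of_nonneg_left h3 (sq_nonneg α))

section

variable {R E G : Type} [Ring R] [StarRing R] [Group E] [Group G]

open Classical in
lemma cf_psh {ι κ : Type} [Fintype ι] [DecidableEq ι] [Fintype κ] [DecidableEq κ]
    (Φ : MonoidAlgebra R E →+* Matrix κ κ ℂ) (π : E →* G) (Ξ : MonoidAlgebra R E →+* Matrix κ κ (CG G))
    (hΞ : IsXi Φ π Ξ) (u : Matrix ι ι (MonoidAlgebra R E)) (g' : G) :
    cf (psh Ξ u) g' = ∑ i, ∑ j, ∑ g ∈ (u i j).coeff.support,
      (if π g = g' then blk1 i j (Φ (MonoidAlgebra.single g ((u i j).coeff g))) else 0) := by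
  have key : ∀ (x : MonoidAlgebra R E) (a b : κ), (Ξ x a b).coeff g' =
      ∑ g ∈ x.coeff.support, if π g = g' then Φ (MonoidAlgebra.single g (x.coeff g)) a b else 0 := by
    intro x a b
    let Ψ : MonoidAlgebra R E →+ ℂ :=
      { toFun := fun x => (Ξ x a b).coeff g'
        map_zero' := by
          rw [map_zero]
          rfl
        map_add' := fun x y => by
          rw [map_add, Matrix.add_apply]
          rfl }
    have h1 := BDXM.sum_coeff Ψ x
    refine h1.trans (Finset.sum_congr rfl fun g _ => ?_)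
    change (Ξ (MonoidAlgebra.single g (x.coeff g)) a b).coeff g' = _
    rw [hΞ, MonoidAlgebra.coeff_single, Finsupp.single_apply]
  ext ⟨i', a⟩ ⟨j', b⟩
  change (Ξ (u i' j') a b).coeff g' = _
  rw [key]
  simp only [Matrix.sum_apply]
  rw [Finset.sum_eq_single i']
  · rw [Finset.sum_eq_single j']
    · refine Finset.sum_congr rfl fun g _ => ?_
      split_ifs
      · simp [blk1]
      · rfl
    · intro j _ hj
      refine Finset.sum_eq_zero fun g _ => ?_
      split_ifs
      · simp only [blk1, Matrix.of_apply]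
        rw [if_neg (fun h => hj h.2.symm)]
      · rfl
    · intro h
      exact absurd (Finset.mem_univ j') h
  · intro i _ hi
    refine Finset.sum_eq_zero fun j _ => Finset.sum_eq_zero fun g _ => ?_
    split_ifs
    · simp only [blk1, Matrix.of_apply]
      rw [if_neg (fun h => hi h.1.symm)]
    · rfl
  · intro h
    exact absurd (Finset.mem_univ i') h

end

end NBXM

open NBXM

/-- **NBX**. -/
theorem specNBX (hBDA : TW.SpecBDA) : SpecNBX := by
  classical
  refine ⟨?_, ?_, ?_, ?_, ?_⟩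
  · intro R E G ι κ _ _ _ _ _ _ _ _ Φ π Ξ β hΞ hΦ hβ u
    refine ⟨∑ i, ∑ j, ∑ g ∈ (u i j).coeff.support, Finsupp.single (π g) (β ((u i j).coeff g)), ?_, le_of_eq ?_⟩
    · intro g'
      rw [cf_psh Φ π Ξ hΞ u g']
      simp only [Finsupp.coe_finsetSum, Finset.sum_apply]
      refine BDXM.bd_sum hBDA Finset.univ _ _ fun i _ => ?_
      refine BDXM.bd_sum hBDA Finset.univ _ _ fun j _ => ?_
      refine BDXM.bd_sum hBDA _ _ _ fun g _ => ?_
      rw [Finsupp.single_apply]
      split_ifs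
      · exact ⟨(hβ _).1, bd_blk1 i j _ _ (BDXM.bd_single hBDA Φ hΦ β hβ g _)⟩
      · exact ⟨le_rfl, BDXM.bd_zero⟩
    · let S : (G →₀ ℝ) →+ ℝ := Finsupp.liftAddHom (fun _ => AddMonoidHom.id ℝ)
      change S _ = _
      rw [map_sum]
      refine Finset.sum_congr rfl fun i _ => ?_
      rw [map_sum]
      refine Finset.sum_congr rfl fun j _ => ?_
      rw [map_sum]
      refine Finset.sum_congr rfl fun g _ => ?_
      change Finsupp.liftAddHom (fun _ => AddMonoidHom.id ℝ) (Finsupp.single (π g) (β ((u i j).coeff g))) = _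
      rw [Finsupp.liftAddHom_apply_single]
      rfl
  · intro G ι _ _ a c β h
    obtain ⟨f, hf, hs⟩ := h
    refine ⟨‖c‖ • f, fun g => ⟨?_, ?_⟩, ?_⟩
    · exact mul_nonneg (norm_nonneg _) (hf g).1
    · intro v
      have h1 : cf (c • a) g = c • cf a g := rfl
      rw [h1, Matrix.smul_mulVec]
      have h2 := (hf g).2 v
      have h3 : ∀ i, ‖(c • (cf a g).mulVec v) i‖ ^ 2 = ‖c‖ ^ 2 * ‖((cf a g).mulVec v) i‖ ^ 2 := by
        intro i
        rw [Pi.smul_apply, smul_eq_mul, norm_mul, mul_pow]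
      rw [Finset.sum_congr rfl fun i _ => h3 i, ← Finset.mul_sum]
      have h4 : ((‖c‖ • f) g) ^ 2 * ∑ i, ‖v i‖ ^ 2 = ‖c‖ ^ 2 * ((f g) ^ 2 * ∑ i, ‖v i‖ ^ 2) := by
        rw [Finsupp.smul_apply, smul_eq_mul]
        ring
      rw [h4]
      exact mul_le_mul_of_nonneg_left h2 (sq_nonneg _)
    · have h5 : (‖c‖ • f).sum (fun _ x => x) = ‖c‖ * f.sum (fun _ x => x) := by
        rw [Finsupp.sum_smul_index (fun _ => rfl), Finsupp.mul_sum]
      rw [h5]
      exact mul_le_mul_of_nonneg_left hs (norm_nonneg _)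
  · intro G ι _ _ a β γ h hβγ
    obtain ⟨f, hf, hs⟩ := h
    exact ⟨f, hf, hs.trans hβγ⟩
  · intro G ι _ _ a
    have hb : ∀ g : G, ∃ β : ℝ, 1 ≤ β ∧ Bd (cf a g) β := fun g => hBDA.1 ι (cf a g)
    choose β hβ1 hβ2 using hb
    let s : Finset G := Finset.univ.biUnion fun i : ι => Finset.univ.biUnion fun j : ι => (a i j).coeff.support
    have hs : ∀ g, g ∉ s → cf a g = 0 := by
      intro g hg
      ext i j
      change (a i j).coeff g = 0
      by_contra hne
      apply hg
      rw [Finset.mem_biUnion]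
      refine ⟨i, Finset.mem_univ _, ?_⟩
      rw [Finset.mem_biUnion]
      exact ⟨j, Finset.mem_univ _, Finsupp.mem_support_iff.2 hne⟩
    let f : G →₀ ℝ := Finsupp.onFinset s (fun g => if g ∈ s then β g else 0) (by
      intro g hg
      by_contra h
      exact hg (if_neg h))
    refine ⟨max 1 (f.sum (fun _ x => x)), le_max_left _ _, f, fun g => ?_, le_max_right _ _⟩
    change 0 ≤ (if g ∈ s then β g else 0) ∧ Bd (cf a g) (if g ∈ s then β g else 0)
    split_ifs with h
    · exact ⟨zero_le_one.trans (hβ1 g), hβ2 g⟩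
    · rw [hs g h]
      exact ⟨le_rfl, BDXM.bd_zero⟩
  · intro G ι _ _
    refine ⟨0, fun g => ⟨le_rfl, ?_⟩, ?_⟩
    · have h1 : cf (0 : Matrix ι ι (CG G)) g = 0 := rfl
      rw [h1]
      exact BDXM.bd_zero
    · rw [Finsupp.sum_zero_index]

end Pool.Agent.Lib.MP8a3537.AM
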