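import Pool.Agent.Lib.MP_8a3537_gt.AM.SpecF
import Pool.Agent.Lib.MP_8a3537_gt.TW.NQU

/-!
# NQ2: distortion and finite quotients along a central element of a finitely generated group
-/

set_option linter.unusedVariables false

namespace Pool.Agent.Lib.MP8a3537.AM

open Pool.Agent.Lib.MP8a3537.SG
open Pool.Agent.Lib.MP8a3537.TW
open scoped BigOperators Pointwise

theorem specNQ2 (hNDR : SpecNDR) (hGRD : SpecGRD) : SpecNQ2 := by
  intro G iG z hfg hR hcen
  obtain ⟨K, hK, hzK, hnil, htf⟩ := hR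
  set c : G ⧸ K := QuotientGroup.mk' K z with hc
  have hc1 : c ≠ 1 := by
    intro h
    exact hzK ((QuotientGroup.eq_one_iff z).1 h)
  have hccen : ∀ g : G ⧸ K, g * c = c * g := by
    intro g
    obtain ⟨g, rfl⟩ := QuotientGroup.mk'_surjective K g
    rw [hc, ← map_mul, ← map_mul, hcen]
  have hfg' : Group.FG (G ⧸ K) := by
    have := hfg
    exact Group.fg_of_surjective (QuotientGroup.mk'_surjective K)
  obtain ⟨hD, C, r, hC⟩ := hNDR (G ⧸ K) c hfg' hnil htf hccen hc1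
  refine ⟨?_, ?_⟩
  · intro F
    classical
    obtain ⟨C', r', hC', h'⟩ := hD (F.image (QuotientGroup.mk' K))
    refine ⟨C', r', hC', fun L k hL hk => h' L k hL ?_⟩
    have h1 := NQUM.image_mem_pow (QuotientGroup.mk' K) F L (z ^ k) (NQUM.pow_cast _ _ F L _ hk)
    rw [map_zpow] at h1
    exact NQUM.pow_cast _ _ _ L _ h1
  · have key : ∀ M : ℕ, 0 < M → ∃ I : ℕ, 0 < I ∧ (I : ℝ) ≤ max C 0 * (M : ℝ) ^ r ∧
        ∀ p : ℤ, ∃ ρ : G →* Matrix.unitaryGroup (Fin I) ℂ,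
          ((ρ z : Matrix.unitaryGroup (Fin I) ℂ) : Matrix (Fin I) (Fin I) ℂ) = ex (p / M) • 1 := by
      intro M hM
      obtain ⟨L, hLn, hLi, hLb, hLd⟩ := hC M hM
      obtain ⟨I, hI, hI2, hI3⟩ := hGRD (G ⧸ K) c L M hccen hLn hLi hM hLd
      refine ⟨I, hI, ?_, ?_⟩
      · calc (I : ℝ) ≤ (L.index : ℝ) := by exact_mod_cast hI2
          _ ≤ C * (M : ℝ) ^ r := hLb
          _ ≤ max C 0 * (M : ℝ) ^ r := by
            exact mul_le_mul_of_nonneg_right (le_max_left _ _) (by positivity)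
      · intro p
        obtain ⟨ρ, hρ⟩ := hI3 p
        exact ⟨ρ.comp (QuotientGroup.mk' K), hρ⟩
    have key2 : ∀ M : ℕ, ∃ I : ℕ, 0 < M → 0 < I ∧ (I : ℝ) ≤ max C 0 * (M : ℝ) ^ r ∧
        ∀ p : ℤ, ∃ ρ : G →* Matrix.unitaryGroup (Fin I) ℂ,
          ((ρ z : Matrix.unitaryGroup (Fin I) ℂ) : Matrix (Fin I) (Fin I) ℂ) = ex (p / M) • 1 := by
      intro M
      rcases Nat.eq_zero_or_pos M with h | h
      · exact ⟨0, fun h2 => absurd h (by omega)⟩
      · obtain ⟨I, hI⟩ := key M h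
        exact ⟨I, fun _ => hI⟩
    choose I hI using key2
    exact ⟨max C 0, r, I, le_max_right _ _, fun M hM => hI M hM⟩

end Pool.Agent.Lib.MP8a3537.AM
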