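import Pool.Agent.Lib.MP_8a3537_gt.AM.SpecF
import Pool.Agent.Lib.MP_8a3537_gt.TW.CSA

/-!
# URT: the uniform residual theorem (MP_8a3537_gt, block F)
-/

set_option linter.unusedVariables false

namespace Pool.Agent.Lib.MP8a3537.AM

open scoped BigOperators Matrix
open Pool.Agent.Lib.MP8a3537.SG
open Pool.Agent.Lib.MP8a3537.TW
open Filter Topology

namespace URTM

/-! ## The iteration and homomorphisms -/

lemma it_map {A B : Type} [Ring A] [Algebra ℂ A] [Ring B] [Algebra ℂ B] (φ : A →+* B)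
    (hφ : ∀ (c : ℂ) x, φ (c • x) = c • φ x) (x : A) (j : ℕ) : it (φ x) j = φ (it x j) := by
  induction j with
  | zero => rfl
  | succ j ih =>
    show (3 / 2 : ℂ) • it (φ x) j - (1 / 2 : ℂ) • (it (φ x) j) ^ 3 = φ ((3 / 2 : ℂ) • it x j - (1 / 2 : ℂ) • (it x j) ^ 3)
    rw [ih, map_sub, hφ, hφ, map_pow]

/-! ## The augmentation and the norm -/

section basic
variable {A G K : Type} [Group G] [Group K]

lemma ev_single [Ring A] (g : G) (a : A) : ev (MonoidAlgebra.single g a) = a := by
  simp [ev]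

lemma ev_sum [Ring A] (x : MonoidAlgebra A G) : ev x = ∑ g ∈ x.coeff.support, x.coeff g := by
  conv_lhs => rw [← MonoidAlgebra.sum_coeff_single x]
  rw [Finsupp.sum, map_sum]
  exact Finset.sum_congr rfl fun g _ => ev_single g _

lemma ev_smul [Ring A] [Algebra ℂ A] (c : ℂ) (x : MonoidAlgebra A G) : ev (c • x) = c • ev x := by
  induction x using MonoidAlgebra.induction_linear with
  | zero => simp
  | add x y hx hy => rw [smul_add, map_add, hx, hy, map_add, smul_add]
  | single g a => rw [MonoidAlgebra.smul_single, ev_single, ev_single]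

lemma ev_norm [NormedRing A] (x : MonoidAlgebra A G) : ‖ev x‖ ≤ n1 x := by
  rw [ev_sum]
  exact norm_sum_le _ _

lemma n1_nonneg [NormedRing A] (x : MonoidAlgebra A G) : 0 ≤ n1 x :=
  Finset.sum_nonneg fun _ _ => norm_nonneg _

lemma n1_of_subset [NormedRing A] (x : MonoidAlgebra A G) {s : Finset G}
    (hs : x.coeff.support ⊆ s) : n1 x = ∑ g ∈ s, ‖x.coeff g‖ :=
  Finset.sum_subset hs fun g _ hg => by rw [Finsupp.notMem_support_iff.mp hg, norm_zero]

lemma n1_add [NormedRing A] (x y : MonoidAlgebra A G) : n1 (x + y) ≤ n1 x + n1 y := by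
  classical
  rw [n1_of_subset x (Finset.subset_union_left (s₂ := y.coeff.support)),
    n1_of_subset y (Finset.subset_union_right (s₁ := x.coeff.support)),
    n1_of_subset (x + y) (s := x.coeff.support ∪ y.coeff.support) Finsupp.support_add,
    ← Finset.sum_add_distrib]
  exact Finset.sum_le_sum fun g _ => norm_add_le _ _

lemma n1_zero [NormedRing A] : n1 (0 : MonoidAlgebra A G) = 0 := by
  simp [n1]

lemma n1_single [NormedRing A] (g : G) (a : A) : n1 (MonoidAlgebra.single g a) = ‖a‖ := by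
  rw [n1_of_subset (MonoidAlgebra.single g a) (s := {g}) Finsupp.support_single_subset,
    Finset.sum_singleton]
  simp

lemma n1_sum [NormedRing A] {J : Type} (s : Finset J) (F : J → MonoidAlgebra A G) :
    n1 (∑ i ∈ s, F i) ≤ ∑ i ∈ s, n1 (F i) := by
  classical
  induction s using Finset.induction_on with
  | empty => simp [n1_zero]
  | insert a s ha ih =>
    rw [Finset.sum_insert ha, Finset.sum_insert ha]
    exact (n1_add _ _).trans (by linarith)

lemma n1_map {B : Type} [NormedRing A] [NormedRing B]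
    (F : MonoidAlgebra A G →+* MonoidAlgebra B K)
    (hF : ∀ g a, n1 (F (MonoidAlgebra.single g a)) ≤ ‖a‖) (x : MonoidAlgebra A G) :
    n1 (F x) ≤ n1 x := by
  conv_lhs => rw [← MonoidAlgebra.sum_coeff_single x]
  rw [Finsupp.sum, map_sum]
  exact (n1_sum _ _).trans (Finset.sum_le_sum fun g _ => hF g _)

lemma herm_supp [Ring A] [StarRing A] {y : MonoidAlgebra A G} (hy : Herm y) (g : G) :
    g ∈ y.coeff.support ↔ g⁻¹ ∈ y.coeff.support := by
  rw [Finsupp.mem_support_iff, Finsupp.mem_support_iff, hy g, ne_eq, ne_eq, star_eq_zero]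

lemma herm_ev [Ring A] [StarRing A] {y : MonoidAlgebra A G} (hy : Herm y) :
    IsSelfAdjoint (ev y) := by
  show star (ev y) = ev y
  rw [ev_sum, star_sum]
  refine Finset.sum_equiv (Equiv.inv G) (fun g => herm_supp hy g) fun g _ => ?_
  exact (hy g).symm

/-! ## The homomorphism `A[G] → A[K]` -/

/-- the homomorphism induced by `f` -/
noncomputable def mD (A : Type) [Ring A] (f : G →* K) : MonoidAlgebra A G →+* MonoidAlgebra A K :=
  MonoidAlgebra.mapDomainRingHom A f

lemma mD_single [Ring A] (f : G →* K) (g : G) (a : A) :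
    mD A f (MonoidAlgebra.single g a) = MonoidAlgebra.single (f g) a := by
  simp [mD]

lemma mD_smul [Ring A] [Algebra ℂ A] (f : G →* K) (c : ℂ) (x : MonoidAlgebra A G) :
    mD A f (c • x) = c • mD A f x := by
  induction x using MonoidAlgebra.induction_linear with
  | zero => simp
  | add x y hx hy => rw [smul_add, map_add, hx, hy, map_add, smul_add]
  | single g a => rw [MonoidAlgebra.smul_single, mD_single, mD_single, MonoidAlgebra.smul_single]

lemma mD_ev [Ring A] (f : G →* K) (x : MonoidAlgebra A G) : ev (mD A f x) = ev x := by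
  induction x using MonoidAlgebra.induction_linear with
  | zero => simp
  | add x y hx hy => rw [map_add, map_add, hx, hy, map_add]
  | single g a => rw [mD_single, ev_single, ev_single]

lemma mD_n1 [NormedRing A] (f : G →* K) (x : MonoidAlgebra A G) : n1 (mD A f x) ≤ n1 x :=
  n1_map _ (fun g a => by rw [mD_single, n1_single]) x

open Classical in
lemma mD_coeff [Ring A] (f : G →* K) (x : MonoidAlgebra A G) (k : K) :
    (mD A f x).coeff k = ∑ g ∈ x.coeff.support, if f g = k then x.coeff g else 0 := by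
  conv_lhs => rw [← MonoidAlgebra.sum_coeff_single x]
  rw [Finsupp.sum, map_sum, MonoidAlgebra.coeff_sum, Finsupp.finsetSum_apply]
  refine Finset.sum_congr rfl fun g _ => ?_
  rw [mD_single, MonoidAlgebra.coeff_single_apply]

lemma mD_mem [Ring A] {S : Type} [SetLike S A] [AddSubmonoidClass S A] (s : S) (f : G →* K)
    (x : MonoidAlgebra A G) (hx : ∀ g, x.coeff g ∈ s) (k : K) : (mD A f x).coeff k ∈ s := by
  classical
  rw [mD_coeff]
  refine sum_mem fun g _ => ?_
  split_ifs
  · exact hx g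
  · exact zero_mem s

lemma mD_one [Ring A] (f : G →* K) (x : MonoidAlgebra A G)
    (h : ∀ g ∈ x.coeff.support, g ≠ 1 → f g ≠ 1) : (mD A f x).coeff 1 = x.coeff 1 := by
  classical
  rw [mD_coeff]
  by_cases h1 : (1 : G) ∈ x.coeff.support
  · rw [Finset.sum_eq_single_of_mem 1 h1]
    · rw [if_pos (map_one f)]
    · intro g hg hg1
      rw [if_neg (h g hg hg1)]
  · rw [Finsupp.notMem_support_iff.mp h1]
    refine Finset.sum_eq_zero fun g hg => ?_
    have hg1 : g ≠ 1 := fun e => h1 (e ▸ hg)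
    rw [if_neg (h g hg hg1)]

lemma mD_herm [Ring A] [StarRing A] (f : G →* K) {y : MonoidAlgebra A G} (hy : Herm y) :
    Herm (mD A f y) := by
  classical
  intro k
  rw [mD_coeff, mD_coeff, star_sum]
  refine Finset.sum_equiv (Equiv.inv G) (fun g => herm_supp hy g) fun g _ => ?_
  have e : (Equiv.inv G) g = g⁻¹ := rfl
  rw [e, map_inv]
  by_cases h : f g = k⁻¹
  · rw [if_pos h, if_pos (by rw [h, inv_inv]), hy g, star_star]
  · rw [if_neg h, if_neg (fun h' => h (by rw [← h', inv_inv])), star_zero]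

end basic

/-! ## The operators `Λ` -/

section lam

variable {K A B : Type} [Group K] [Ring A] [Algebra ℂ A] [Ring B] [Algebra ℂ B]
  (U : K → A →ₗ[ℂ] B) (h1 : U 1 1 = 1) (hm : ∀ k l a b, U k a * U l b = U (k * l) (a * b))

/-- `a ↦ U 1 a` -/
noncomputable def fU : A →+* B where
  toFun a := U 1 a
  map_one' := h1
  map_mul' a b := by rw [hm, mul_one]
  map_zero' := map_zero _
  map_add' a b := map_add _ a b

/-- `k ↦ U k 1` -/
noncomputable def gU : K →* B where
  toFun k := U k 1
  map_one' := h1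
  map_mul' k l := by rw [hm, mul_one]

lemma cU (a : A) (k : K) : Commute (fU U h1 hm a) (gU U h1 hm k) := by
  show U 1 a * U k 1 = U k 1 * U 1 a
  rw [hm, hm, one_mul, mul_one, mul_one, one_mul]

/-- `∑ a_k k ↦ ∑ U k a_k` -/
noncomputable def LE : MonoidAlgebra A K →+* B :=
  MonoidAlgebra.liftNCRingHom (fU U h1 hm) (gU U h1 hm) (cU U h1 hm)

lemma LE_single (k : K) (a : A) : LE U h1 hm (MonoidAlgebra.single k a) = U k a := by
  rw [LE, MonoidAlgebra.liftNCRingHom_single]
  show U 1 a * U k 1 = U k a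
  rw [hm, one_mul, mul_one]

lemma LE_smul (c : ℂ) (x : MonoidAlgebra A K) : LE U h1 hm (c • x) = c • LE U h1 hm x := by
  induction x using MonoidAlgebra.induction_linear with
  | zero => simp
  | add x y hx hy => rw [smul_add, map_add, hx, hy, map_add, smul_add]
  | single g a => rw [MonoidAlgebra.smul_single, LE_single, LE_single, map_smul]

/-- `k ↦ (U k 1) k` -/
noncomputable def gL : K →* MonoidAlgebra B K where
  toFun k := MonoidAlgebra.single k (U k 1)
  map_one' := by rw [h1, MonoidAlgebra.one_def]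
  map_mul' k l := by rw [MonoidAlgebra.single_mul_single, hm, mul_one]

/-- `∑ a_k k ↦ ∑ (U k a_k) k` -/
noncomputable def LG : MonoidAlgebra A K →+* MonoidAlgebra B K :=
  MonoidAlgebra.liftNCRingHom (MonoidAlgebra.singleOneRingHom.comp (fU U h1 hm)) (gL U h1 hm)
    (fun a k => by
      show MonoidAlgebra.single 1 (U 1 a) * MonoidAlgebra.single k (U k 1) =
        MonoidAlgebra.single k (U k 1) * MonoidAlgebra.single 1 (U 1 a)
      rw [MonoidAlgebra.single_mul_single, MonoidAlgebra.single_mul_single, hm, hm, one_mul,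
        mul_one, mul_one, one_mul])

lemma LG_single (k : K) (a : A) : LG U h1 hm (MonoidAlgebra.single k a) = MonoidAlgebra.single k (U k a) := by
  rw [LG, MonoidAlgebra.liftNCRingHom_single]
  show MonoidAlgebra.single 1 (U 1 a) * MonoidAlgebra.single k (U k 1) = _
  rw [MonoidAlgebra.single_mul_single, hm, one_mul, mul_one]

lemma LG_coeff (x : MonoidAlgebra A K) (k : K) : (LG U h1 hm x).coeff k = U k (x.coeff k) := by
  classical
  induction x using MonoidAlgebra.induction_linear with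
  | zero => simp
  | add x y hx hy =>
    rw [map_add, MonoidAlgebra.coeff_add, Finsupp.add_apply, hx, hy, MonoidAlgebra.coeff_add,
      Finsupp.add_apply, map_add]
  | single g a =>
    rw [LG_single, MonoidAlgebra.coeff_single_apply, MonoidAlgebra.coeff_single_apply]
    split_ifs with h
    · rw [h]
    · rw [map_zero]

lemma LG_ev (x : MonoidAlgebra A K) : ev (LG U h1 hm x) = LE U h1 hm x := by
  induction x using MonoidAlgebra.induction_linear with
  | zero => simp
  | add x y hx hy => rw [map_add, map_add, hx, hy, map_add]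
  | single g a => rw [LG_single, ev_single, LE_single]

lemma LG_wd (x : MonoidAlgebra A K) (l : List K) : wd (LG U h1 hm x) l = U l.prod (wd x l) := by
  induction l with
  | nil => simp [wd, h1]
  | cons k l ih =>
    have e1 : wd (LG U h1 hm x) (k :: l) = (LG U h1 hm x).coeff k * wd (LG U h1 hm x) l := by
      simp [wd]
    have e2 : wd x (k :: l) = x.coeff k * wd x l := by
      simp [wd]
    rw [e1, e2, ih, LG_coeff, hm, List.prod_cons]

lemma LG_herm [StarRing A] [StarRing B] (hs : ∀ k a, star (U k a) = U k⁻¹ (star a))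
    {y : MonoidAlgebra A K} (hy : Herm y) : Herm (LG U h1 hm y) := by
  intro k
  rw [LG_coeff, LG_coeff, hy k, hs]

lemma LE_w (w : A →ₗ[ℂ] ℂ) (w' : B →ₗ[ℂ] ℂ)
    (hw : ∀ k a, w' (U k a) = open Classical in if k = 1 then w a else 0) (x : MonoidAlgebra A K) :
    w' (LE U h1 hm x) = w (x.coeff 1) := by
  classical
  induction x using MonoidAlgebra.induction_linear with
  | zero => simp
  | add x y hx hy =>
    rw [map_add, map_add, hx, hy, MonoidAlgebra.coeff_add, Finsupp.add_apply, map_add]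
  | single g a =>
    rw [LE_single, hw, MonoidAlgebra.coeff_single_apply]
    split_ifs with h
    · rfl
    · rw [map_zero]

lemma LG_n1 {A B : Type} [NormedRing A] [NormedAlgebra ℂ A] [NormedRing B] [NormedAlgebra ℂ B]
    (U : K → A →ₗ[ℂ] B) (h1 : U 1 1 = 1) (hm : ∀ k l a b, U k a * U l b = U (k * l) (a * b))
    (hn : ∀ k a, ‖U k a‖ ≤ ‖a‖) (x : MonoidAlgebra A K) : n1 (LG U h1 hm x) ≤ n1 x :=
  n1_map _ (fun g a => by rw [LG_single, n1_single]; exact hn g a) x

/-! ## The trace property -/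

/-- elements with coefficients in `A0` -/
noncomputable def mA (A0 : Subalgebra ℂ A) : MonoidAlgebra A0 K →+* MonoidAlgebra A K :=
  MonoidAlgebra.mapRingHom K (A0.val : A0 →+* A)

lemma mA_single (A0 : Subalgebra ℂ A) (k : K) (a : A0) :
    mA A0 (MonoidAlgebra.single k a) = MonoidAlgebra.single k (a : A) := by
  simp [mA]

lemma rep (y : MonoidAlgebra A K) (a : B)
    (ha : a ∈ Algebra.adjoin ℂ (Set.range fun k => (LG U h1 hm y).coeff k)) :
    ∃ X : MonoidAlgebra (Algebra.adjoin ℂ (Set.range fun g => y.coeff g)) K,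
      LE U h1 hm (mA _ X) = a := by
  induction ha using Algebra.adjoin_induction with
  | mem x hx =>
    obtain ⟨k, rfl⟩ := hx
    refine ⟨MonoidAlgebra.single k ⟨y.coeff k, Algebra.subset_adjoin ⟨k, rfl⟩⟩, ?_⟩
    rw [mA_single, LE_single]
    show _ = (LG U h1 hm y).coeff k
    rw [LG_coeff]
  | algebraMap r =>
    refine ⟨MonoidAlgebra.single 1 (algebraMap ℂ _ r), ?_⟩
    rw [mA_single, LE_single]
    show U 1 (algebraMap ℂ A r) = _
    rw [Algebra.algebraMap_eq_smul_one, map_smul, h1, Algebra.algebraMap_eq_smul_one]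
  | add x x' _ _ hx hx' =>
    obtain ⟨X, hX⟩ := hx
    obtain ⟨X', hX'⟩ := hx'
    exact ⟨X + X', by rw [map_add, map_add, hX, hX']⟩
  | mul x x' _ _ hx hx' =>
    obtain ⟨X, hX⟩ := hx
    obtain ⟨X', hX'⟩ := hx'
    exact ⟨X * X', by rw [map_mul, map_mul, hX, hX']⟩

lemma tr_aux (A0 : Subalgebra ℂ A) (w : A →ₗ[ℂ] ℂ) (hw : ∀ a ∈ A0, ∀ b ∈ A0, w (a * b) = w (b * a))
    (X Y : MonoidAlgebra A0 K) :
    w ((mA A0 X * mA A0 Y).coeff 1) = w ((mA A0 Y * mA A0 X).coeff 1) := by
  classical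
  induction X using MonoidAlgebra.induction_linear with
  | zero => simp
  | add x x' hx hx' =>
    rw [map_add, add_mul, mul_add, MonoidAlgebra.coeff_add, MonoidAlgebra.coeff_add,
      Finsupp.add_apply, Finsupp.add_apply, map_add, map_add, hx, hx']
  | single k a =>
    induction Y using MonoidAlgebra.induction_linear with
    | zero => simp
    | add x x' hx hx' =>
      rw [map_add, add_mul, mul_add, MonoidAlgebra.coeff_add, MonoidAlgebra.coeff_add,
        Finsupp.add_apply, Finsupp.add_apply, map_add, map_add, hx, hx']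
    | single l b =>
      rw [mA_single, mA_single, MonoidAlgebra.single_mul_single, MonoidAlgebra.single_mul_single,
        MonoidAlgebra.coeff_single_apply, MonoidAlgebra.coeff_single_apply]
      by_cases h : k * l = 1
      · have h' : l * k = 1 := by
          rw [mul_eq_one_iff_eq_inv.mp h, mul_inv_cancel]
        rw [if_pos h, if_pos h', hw a a.2 b b.2]
      · have h' : ¬ l * k = 1 := fun e => h (by
          rw [mul_eq_one_iff_eq_inv.mp e, mul_inv_cancel])
        rw [if_neg h, if_neg h']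

lemma cyc (w : A →ₗ[ℂ] ℂ) (w' : B →ₗ[ℂ] ℂ)
    (hw : ∀ k a, w' (U k a) = open Classical in if k = 1 then w a else 0) (y : MonoidAlgebra A K)
    (hy : Cyc w y) : Cyc w' (LG U h1 hm y) := by
  intro a ha b hb
  obtain ⟨X, rfl⟩ := rep U h1 hm y a ha
  obtain ⟨Y, rfl⟩ := rep U h1 hm y b hb
  rw [← map_mul (LE U h1 hm), ← map_mul (LE U h1 hm), LE_w U h1 hm w w' hw,
    LE_w U h1 hm w w' hw]
  exact tr_aux _ w (fun a ha b hb => hy a ha b hb) X Y

end lam

end URTM

open URTM in
theorem specURT (hEGP : SpecEGP) (hLAM : SpecLAM) (hWRS : SpecWRS) (hCORE : SpecCORE) :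
    SpecURT := by
  intro G _ hG H _ _ _ y y' w b C1 hy hyy hy' hC1 hb hbC hby hcyc
  have e1 : ‖ev y' * ev y - 1‖ ≤ 1 / 2 := by
    rw [← map_mul, ← map_one (ev : MonoidAlgebra (H →L[ℂ] H) G →+* _), ← map_sub]
    exact (ev_norm _).trans hyy
  obtain ⟨hu, hmain⟩ := hEGP (H →L[ℂ] H) (ev y) (ev y') b C1 (herm_ev hy) e1
    ((ev_norm y').trans hy') hC1 hb hbC ((mul_le_mul_of_nonneg_left (ev_norm y) hb.le).trans hby)
  refine ⟨hu, fun S hS j => ?_⟩
  classical
  obtain ⟨K, _, f, hK, hf⟩ := hWRS G hG ((it ((b : ℂ) • y) j).coeff.support.erase 1) (by simp)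
  have hcoreK := hCORE K hK
  obtain ⟨H', _, _, _, U, h1, hm, hs, hn, hw⟩ := hLAM K H
  obtain ⟨w', hwn, hw'⟩ := hw w
  -- the elements over `K`
  have k1 : Herm (mD _ f y) := mD_herm f hy
  have k2 : n1 (mD _ f y' * mD _ f y - 1) ≤ 1 / 2 := by
    rw [← map_mul, ← map_one (mD (H →L[ℂ] H) f), ← map_sub]
    exact (mD_n1 f _).trans hyy
  have k3 : Herm (LG U h1 hm (mD _ f y)) := LG_herm U h1 hm hs k1
  have k4 : n1 (LG U h1 hm (mD _ f y') * LG U h1 hm (mD _ f y) - 1) ≤ 1 / 2 := by
    rw [← map_mul, ← map_one (LG U h1 hm), ← map_sub]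
    exact (LG_n1 U h1 hm hn _).trans k2
  have k5 : Cyc w (mD _ f y) := by
    have hle : Algebra.adjoin ℂ (Set.range fun k => (mD _ f y).coeff k) ≤
        Algebra.adjoin ℂ (Set.range fun g => y.coeff g) := by
      refine Algebra.adjoin_le ?_
      rintro _ ⟨k, rfl⟩
      exact mD_mem (Algebra.adjoin ℂ (Set.range fun g => y.coeff g)) f y
        (fun g => Algebra.subset_adjoin (Set.mem_range_self g)) k
    exact fun a ha c hc => hcyc a (hle ha) c (hle hc)
  have k6 : Cyc w' (LG U h1 hm (mD _ f y)) :=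
    cyc U h1 hm (w : (H →L[ℂ] H) →ₗ[ℂ] ℂ) (w' : (H' →L[ℂ] H') →ₗ[ℂ] ℂ) hw' _ k5
  have k7 : ∀ l : List K, l.prod = 1 → w (wd (mD _ f y) l) = w' (wd (LG U h1 hm (mD _ f y)) l) := by
    intro l hl
    rw [LG_wd, hl, hw', if_pos rfl]
  -- EGP for the second element
  have m1 : ‖ev (LG U h1 hm (mD _ f y')) * ev (LG U h1 hm (mD _ f y)) - 1‖ ≤ 1 / 2 := by
    rw [← map_mul, ← map_one (ev : MonoidAlgebra (H' →L[ℂ] H') K →+* _), ← map_sub]
    exact (ev_norm _).trans k4
  obtain ⟨hu', hmain'⟩ := hEGP (H' →L[ℂ] H') (ev (LG U h1 hm (mD _ f y)))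
    (ev (LG U h1 hm (mD _ f y'))) b C1 (herm_ev k3) m1
    ((ev_norm _).trans ((LG_n1 U h1 hm hn _).trans ((mD_n1 f _).trans hy'))) hC1 hb hbC
    ((mul_le_mul_of_nonneg_left ((ev_norm _).trans ((LG_n1 U h1 hm hn _).trans (mD_n1 f _)))
      hb.le).trans hby)
  obtain ⟨S', hS'⟩ := CSAM.exist (ev (LG U h1 hm (mD _ f y))) (herm_ev k3) hu'
  have hSK : Sg (ev (mD _ f y)) S := by
    rw [mD_ev]
    exact hS
  have hww : w S = w' S' :=
    hcoreK H H' (mD _ f y) (mD _ f y') (LG U h1 hm (mD _ f y)) (LG U h1 hm (mD _ f y')) w w'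
      k1 k3 k2 k4 k5 k6 k7 S S' hSK hS'
  have hit : w ((it ((b : ℂ) • y) j).coeff 1) =
      w' (it ((b : ℂ) • ev (LG U h1 hm (mD _ f y))) j) := by
    rw [LG_ev, ← LE_smul, ← mD_smul, it_map (LE U h1 hm) (LE_smul U h1 hm),
      it_map (mD _ f) (mD_smul f)]
    have := LE_w U h1 hm (w : (H →L[ℂ] H) →ₗ[ℂ] ℂ) (w' : (H' →L[ℂ] H') →ₗ[ℂ] ℂ) hw'
      (mD _ f (it ((b : ℂ) • y) j))
    have h2 : (mD _ f (it ((b : ℂ) • y) j)).coeff 1 = (it ((b : ℂ) • y) j).coeff 1 :=
      mD_one f _ fun g hg hg1 => hf g (Finset.mem_erase.mpr ⟨hg1, hg⟩)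
    rw [h2] at this
    exact this.symm
  rw [hit, hww, ← map_sub]
  have hd := hmain' S' hS' j
  have hd0 : 0 ≤ del (b / (2 * C1)) j := (norm_nonneg _).trans hd
  calc ‖w' (it ((b : ℂ) • ev (LG U h1 hm (mD _ f y))) j - S')‖
      ≤ ‖w'‖ * ‖it ((b : ℂ) • ev (LG U h1 hm (mD _ f y))) j - S'‖ := w'.le_opNorm _
    _ ≤ ‖w'‖ * del (b / (2 * C1)) j := mul_le_mul_of_nonneg_left hd (norm_nonneg _)
    _ ≤ ‖w‖ * del (b / (2 * C1)) j := mul_le_mul_of_nonneg_right hwn hd0

end Pool.Agent.Lib.MP8a3537.AM
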