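import Pool.Agent.Lib.MP_8a3537_gt.AM.SpecF
import Pool.Agent.Lib.MP_8a3537_gt.AM.URT
import Pool.Agent.Lib.MP_8a3537_gt.SG.SPE

/-!
# PQ: finite dimensional coefficients (MP_8a3537_gt, block F)
-/

set_option linter.unusedVariables false

namespace Pool.Agent.Lib.MP8a3537.AM

open scoped BigOperators Matrix
open Pool.Agent.Lib.MP8a3537.SG
open Pool.Agent.Lib.MP8a3537.TW
open Filter Topology

namespace PQM

/-! ## The sign of a hermitian matrix -/

section sign
variable {κ : Type} [Fintype κ] [DecidableEq κ]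

lemma sg_exists (A : Matrix κ κ ℂ) (hA : A.IsHermitian) (hu : IsUnit A) :
    ∃ S : Matrix κ κ ℂ, Sg A S ∧ S.trace = ((sgn A : ℤ) : ℂ) := by
  have h0 : ∀ i, hA.eigenvalues i ≠ 0 := by
    intro i hi
    have h1 := hA.mulVec_eigenvectorBasis i
    rw [hi, zero_smul] at h1
    have h2 : (hA.eigenvectorBasis i).ofLp = 0 := by
      obtain ⟨u, hu'⟩ := hu
      have h3 : ((u⁻¹ : (Matrix κ κ ℂ)ˣ) : Matrix κ κ ℂ) * A = 1 := by rw [← hu', Units.inv_mul]
      have h4 : (((u⁻¹ : (Matrix κ κ ℂ)ˣ) : Matrix κ κ ℂ)).mulVec (A.mulVec (hA.eigenvectorBasis i).ofLp) =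
          (((u⁻¹ : (Matrix κ κ ℂ)ˣ) : Matrix κ κ ℂ)).mulVec 0 :=
        congrArg (fun v => (((u⁻¹ : (Matrix κ κ ℂ)ˣ) : Matrix κ κ ℂ)).mulVec v) h1
      rw [Matrix.mulVec_mulVec, h3, Matrix.one_mulVec, Matrix.mulVec_zero] at h4
      exact h4
    have h5 := (hA.eigenvectorBasis.orthonormal).ne_zero i
    apply h5
    ext k
    exact congrFun h2 k
  have hspec := hA.spectral_theorem
  have e1 : ∀ X : Matrix κ κ ℂ, X * A = X * Unitary.conjStarAlgAut ℂ (Matrix κ κ ℂ) hA.eigenvectorUnitary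
      (Matrix.diagonal (RCLike.ofReal ∘ hA.eigenvalues)) := fun X => congrArg (fun Y => X * Y) hspec
  have e2 : ∀ X : Matrix κ κ ℂ, A * X = Unitary.conjStarAlgAut ℂ (Matrix κ κ ℂ) hA.eigenvectorUnitary
      (Matrix.diagonal (RCLike.ofReal ∘ hA.eigenvalues)) * X := fun X => congrArg (fun Y => Y * X) hspec
  have hstar : ∀ d : κ → ℝ, star (Matrix.diagonal fun i => (d i : ℂ)) = Matrix.diagonal fun i => (d i : ℂ) := by
    intro d
    rw [Matrix.star_eq_conjTranspose, Matrix.diagonal_conjTranspose]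
    congr 1
    funext i
    exact Complex.conj_ofReal (d i)
  refine ⟨Unitary.conjStarAlgAut ℂ (Matrix κ κ ℂ) hA.eigenvectorUnitary
      (Matrix.diagonal fun i => (((SignType.sign (hA.eigenvalues i) : SignType) : ℝ) : ℂ)), ⟨?_, ?_, ?_, ?_⟩, ?_⟩
  · rw [← map_star, hstar]
  · rw [← map_mul, Matrix.diagonal_mul_diagonal]
    have : (fun i => (((SignType.sign (hA.eigenvalues i) : SignType) : ℝ) : ℂ) *
        (((SignType.sign (hA.eigenvalues i) : SignType) : ℝ) : ℂ)) = fun _ => 1 := by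
      funext i
      rcases lt_or_gt_of_ne (h0 i) with h | h
      · simp [h]
      · simp [h]
    rw [this, Matrix.diagonal_one, map_one]
  · rw [e1, e2, ← map_mul, ← map_mul]
    congr 1
    rw [show (RCLike.ofReal ∘ hA.eigenvalues : κ → ℂ) = fun i => ((hA.eigenvalues i : ℝ) : ℂ) from rfl,
      Matrix.diagonal_mul_diagonal, Matrix.diagonal_mul_diagonal]
    congr 1
    funext i
    exact mul_comm _ _
  · refine ⟨Unitary.conjStarAlgAut ℂ (Matrix κ κ ℂ) hA.eigenvectorUnitary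
      (Matrix.diagonal fun i => ((Real.sqrt |hA.eigenvalues i| : ℝ) : ℂ)), ?_⟩
    rw [← map_star, hstar, ← map_mul, e1, ← map_mul]
    congr 1
    rw [show (RCLike.ofReal ∘ hA.eigenvalues : κ → ℂ) = fun i => ((hA.eigenvalues i : ℝ) : ℂ) from rfl,
      Matrix.diagonal_mul_diagonal, Matrix.diagonal_mul_diagonal]
    congr 1
    funext i
    rw [← Complex.ofReal_mul, ← Complex.ofReal_mul, Real.mul_self_sqrt (abs_nonneg _)]
    congr 1
    rcases lt_or_gt_of_ne (h0 i) with h | h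
    · simp [h, abs_of_neg h]
    · simp [h, abs_of_pos h]
  · rw [SPEM.trace_conj, Matrix.trace_diagonal]
    have h3 : ((sgn A : ℤ) : ℂ) = ((∑ i, ((SignType.sign (hA.eigenvalues i) : SignType) : ℝ) : ℝ) : ℂ) := by
      rw [← SPEM.sgn_eq A hA]
      push_cast
      rfl
    rw [h3]
    push_cast
    rfl

end sign

/-! ## Matrices as operators -/

section mat
variable {ι : Type} [Fintype ι] [DecidableEq ι]

/-- bounded operators on `ℂ^ι` -/
abbrev OpE (ι : Type) [Fintype ι] := EuclideanSpace ℂ ι →L[ℂ] EuclideanSpace ℂ ι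

/-- the isomorphism -/
noncomputable def tE (ι : Type) [Fintype ι] [DecidableEq ι] : Matrix ι ι ℂ ≃⋆ₐ[ℂ] OpE ι :=
  Matrix.toEuclideanCLM (n := ι) (𝕜 := ℂ)

lemma tE_apply (A : Matrix ι ι ℂ) (v : EuclideanSpace ℂ ι) (i : ι) : (tE ι A v) i = A.mulVec (⇑v) i := by
  simp [tE]

lemma tE_norm {A : Matrix ι ι ℂ} {β : ℝ} (hβ : 0 ≤ β) (h : Bd A β) : ‖tE ι A‖ ≤ β := by
  refine ContinuousLinearMap.opNorm_le_bound _ hβ fun v => ?_
  rw [EuclideanSpace.norm_eq, EuclideanSpace.norm_eq]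
  refine Real.sqrt_le_iff.mpr ⟨by positivity, ?_⟩
  rw [mul_pow, Real.sq_sqrt (Finset.sum_nonneg fun i _ => by positivity)]
  refine le_trans (le_of_eq ?_) (h (⇑v))
  exact Finset.sum_congr rfl fun i _ => by rw [tE_apply]

/-- the trace -/
noncomputable def wT (ι : Type) [Fintype ι] [DecidableEq ι] : OpE ι →L[ℂ] ℂ :=
  LinearMap.mkContinuous
    { toFun := fun T => ((tE ι).symm T).trace
      map_add' := fun S T => by rw [map_add, Matrix.trace_add]
      map_smul' := fun c T => by rw [map_smul, Matrix.trace_smul]; rfl } (Fintype.card ι) (by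
    intro T
    show ‖((tE ι).symm T).trace‖ ≤ _
    rw [Matrix.trace]
    refine (norm_sum_le _ _).trans ?_
    have : ∀ i ∈ Finset.univ, ‖((tE ι).symm T).diag i‖ ≤ ‖T‖ := by
      intro i _
      have h1 : ((tE ι).symm T).diag i = (T (EuclideanSpace.single i (1 : ℂ))) i := by
        have h2 : T = tE ι ((tE ι).symm T) := ((tE ι).apply_symm_apply T).symm
        conv_rhs => rw [h2]
        rw [tE_apply]
        simp
      rw [h1]
      calc ‖(T (EuclideanSpace.single i (1 : ℂ))) i‖ ≤ ‖T (EuclideanSpace.single i (1 : ℂ))‖ :=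
            PiLp.norm_apply_le _ i
        _ ≤ ‖T‖ * ‖(EuclideanSpace.single i (1 : ℂ) : EuclideanSpace ℂ ι)‖ := T.le_opNorm _
        _ = ‖T‖ := by simp
    refine (Finset.sum_le_sum this).trans ?_
    simp)

lemma wT_norm : ‖wT ι‖ ≤ Fintype.card ι :=
  LinearMap.mkContinuous_norm_le _ (by positivity) _

lemma wT_tE (A : Matrix ι ι ℂ) : wT ι (tE ι A) = A.trace := by
  show ((tE ι).symm (tE ι A)).trace = A.trace
  rw [(tE ι).symm_apply_apply]

lemma wT_comm (S T : OpE ι) : wT ι (S * T) = wT ι (T * S) := by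
  show ((tE ι).symm (S * T)).trace = ((tE ι).symm (T * S)).trace
  rw [map_mul, map_mul, Matrix.trace_mul_comm]

end mat

/-! ## The homomorphism -/

section up
variable {G ι : Type} [Group G] [Fintype ι] [DecidableEq ι]
  (Θ : Matrix ι ι (CG G) →ₐ[ℂ] MonoidAlgebra (Matrix ι ι ℂ) G)

/-- matrices over `C[G]` as elements of `B(ℂ^ι)[G]` -/
noncomputable def up : Matrix ι ι (CG G) →+* MonoidAlgebra (OpE ι) G :=
  (MonoidAlgebra.mapRingHom G (((tE ι : Matrix ι ι ℂ ≃⋆ₐ[ℂ] OpE ι) : Matrix ι ι ℂ ≃+* OpE ι) : Matrix ι ι ℂ →+* OpE ι)).comp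
    (Θ : Matrix ι ι (CG G) →+* MonoidAlgebra (Matrix ι ι ℂ) G)

variable (hΘ : ∀ x g i j, (Θ x).coeff g i j = (x i j).coeff g)

include hΘ in
lemma up_coeff (x : Matrix ι ι (CG G)) (g : G) : (up Θ x).coeff g = tE ι (cf x g) := by
  have h1 : (Θ x).coeff g = cf x g := by
    ext i j
    exact hΘ x g i j
  rw [← h1]
  exact MonoidAlgebra.coeff_mapRingHom _ _ _

include hΘ in
lemma up_smul (c : ℂ) (x : Matrix ι ι (CG G)) : up Θ (c • x) = c • up Θ x := by
  apply MonoidAlgebra.coeff_injective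
  ext1 g
  rw [up_coeff Θ hΘ, MonoidAlgebra.coeff_smul_apply, up_coeff Θ hΘ, ← map_smul]
  congr 1

include hΘ in
lemma up_n1 {x : Matrix ι ι (CG G)} {β : ℝ} (hx : Nb x β) : n1 (up Θ x) ≤ β := by
  classical
  obtain ⟨f, hf, hs⟩ := hx
  refine le_trans ?_ hs
  rw [Finsupp.sum, n1]
  calc ∑ g ∈ (up Θ x).coeff.support, ‖(up Θ x).coeff g‖
      ≤ ∑ g ∈ (up Θ x).coeff.support, f g := by
        refine Finset.sum_le_sum fun g _ => ?_
        rw [up_coeff Θ hΘ]
        exact tE_norm (hf g).1 (hf g).2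
    _ ≤ ∑ g ∈ (up Θ x).coeff.support ∪ f.support, f g :=
        Finset.sum_le_sum_of_subset_of_nonneg Finset.subset_union_left fun g _ _ => (hf g).1
    _ = ∑ g ∈ f.support, f g := by
        symm
        refine Finset.sum_subset Finset.subset_union_right fun g _ hg => ?_
        exact Finsupp.notMem_support_iff.mp hg

include hΘ in
lemma up_herm {x : Matrix ι ι (CG G)} (hx : IsHerm x) : Herm (up Θ x) := by
  intro g
  rw [up_coeff Θ hΘ, up_coeff Θ hΘ, ← map_star]
  congr 1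
  ext i j
  show (x i j).coeff g⁻¹ = star ((x j i).coeff g)
  rw [hx i j g]
  exact (star_star _).symm

include hΘ in
lemma up_ev (x : Matrix ι ι (CG G)) : ev (up Θ x) = tE ι (augM x) := by
  classical
  have h1 : ev (Θ x) = augM x := by
    rw [URTM.ev_sum]
    ext i j
    rw [Matrix.sum_apply]
    have h2 : ∀ g ∈ (Θ x).coeff.support, (Θ x).coeff g i j = (x i j).coeff g := fun g _ => hΘ x g i j
    rw [Finset.sum_congr rfl h2]
    show _ = aug (x i j)
    have h3 : aug (x i j) = (x i j).coeff.sum fun _ c => c := by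
      rw [aug, MonoidAlgebra.lift_apply]
      refine Finsupp.sum_congr fun g _ => ?_
      simp
    rw [h3, Finsupp.sum]
    symm
    refine Finset.sum_subset ?_ fun g _ hg => Finsupp.notMem_support_iff.mp hg
    intro g hg
    rw [Finsupp.mem_support_iff] at hg ⊢
    intro h
    apply hg
    rw [← hΘ x g i j, h]
    rfl
  rw [← h1]
  have h4 : ∀ z : MonoidAlgebra (Matrix ι ι ℂ) G,
      ev (MonoidAlgebra.mapRingHom G (((tE ι : Matrix ι ι ℂ ≃⋆ₐ[ℂ] OpE ι) : Matrix ι ι ℂ ≃+* OpE ι) : Matrix ι ι ℂ →+* OpE ι) z) = tE ι (ev z) := by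
    intro z
    induction z using MonoidAlgebra.induction_linear with
    | zero => simp
    | add x y hx hy => rw [map_add, map_add, hx, hy, map_add, map_add]
    | single g a =>
      rw [MonoidAlgebra.mapRingHom_single, URTM.ev_single, URTM.ev_single]
      rfl
  exact h4 (Θ x)

end up

end PQM

open PQM URTM in
theorem specPQ (hURT : SpecURT) (hMMA : SpecMMA) : SpecPQ := by
  intro G _ hG ι _ _ a a' d b β β' ha had hd ha' hβ hβ' hb hbb hbβ
  obtain ⟨Θ, hΘ⟩ := hMMA ℂ G ι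
  have k1 : Herm (up Θ a) := up_herm Θ hΘ ha
  have k2 : n1 (up Θ a' * up Θ a - 1) ≤ 1 / 2 := by
    have : up Θ a' * up Θ a - 1 = up Θ d := by
      rw [← map_mul, had, map_add, map_one]
      abel
    rw [this]
    exact up_n1 Θ hΘ hd
  have k3 : Cyc (wT ι) (up Θ a) := fun x _ y _ => wT_comm x y
  obtain ⟨hu, hmain⟩ := hURT G hG (EuclideanSpace ℂ ι) (up Θ a) (up Θ a') (wT ι) b β' k1 k2
    (up_n1 Θ hΘ ha') hβ' hb hbb ((mul_le_mul_of_nonneg_left (up_n1 Θ hΘ hβ) hb.le).trans hbβ) k3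
  rw [up_ev Θ hΘ] at hu hmain
  have hu2 : IsUnit (augM a) := by
    have := hu.map (tE ι).symm
    rwa [(tE ι).symm_apply_apply] at this
  have hsa : (augM a).IsHermitian := by
    have h1 := herm_ev k1
    rw [up_ev Θ hΘ] at h1
    have h2 : star (tE ι (augM a)) = tE ι (augM a) := h1
    rw [← map_star] at h2
    exact (tE ι).injective h2
  refine ⟨hu2, fun j => ?_⟩
  obtain ⟨S, ⟨s1, s2, s3, t, ht⟩, hS⟩ := sg_exists (augM a) hsa hu2
  have hSg : Sg (tE ι (augM a)) (tE ι S) := by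
    refine ⟨by rw [← map_star, s1], by rw [← map_mul, s2, map_one], by rw [← map_mul, ← map_mul, s3],
      tE ι t, by rw [← map_star, ← map_mul, ← map_mul, ht]⟩
  have key := hmain (tE ι S) hSg j
  rw [wT_tE, hS] at key
  have e1 : (it ((b : ℂ) • up Θ a) j).coeff 1 = tE ι (cf (it ((b : ℂ) • a) j) 1) := by
    have hm := it_map (A := Matrix ι ι (CG G)) (B := MonoidAlgebra (OpE ι) G) (up Θ) (up_smul Θ hΘ) ((b : ℂ) • a) j
    rw [← up_smul Θ hΘ, hm, up_coeff Θ hΘ]
  rw [e1, wT_tE] at key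
  have e2 : (cf (it ((b : ℂ) • a) j) 1).trace = tau (it ((b : ℂ) • a) j) := rfl
  rw [e2] at key
  have hd0 : 0 ≤ del (b / (2 * β')) j := by
    have h1 : 0 < b / (2 * β') := by positivity
    have h2 : b / (2 * β') ≤ 1 := by
      rw [div_le_one (by positivity)]
      exact hbb
    exact ((specSCA _ h1 h2).2.1 j).1
  exact key.trans (mul_le_mul_of_nonneg_right wT_norm hd0)

end Pool.Agent.Lib.MP8a3537.AM
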