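import Pool.Agent.Lib.MP_8a3537_gt.AM.SpecF
import Pool.Agent.Lib.MP_8a3537_gt.TW.REA
import Pool.Agent.Lib.MP_8a3537_gt.TW.XIX
import Pool.Agent.Lib.MP_8a3537_gt.TW.PSM
import Pool.Agent.Lib.MP_8a3537_gt.TW.HRX
import Pool.Agent.Lib.MP_8a3537_gt.TW.MOM

/-!
# Module RA2: Theorem 1 (a) for quotients which are residually groups with property W
-/

set_option linter.unusedVariables false

namespace Pool.Agent.Lib.MP8a3537.AM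

open Pool.Agent.Lib.MP8a3537.SG
open Pool.Agent.Lib.MP8a3537.TW
open Filter Topology
open scoped BigOperators Pointwise ComplexOrder Matrix

theorem specRA2 (hLI2 : SpecLI2) : SpecRA2 := by
  intro R E _ _ _ H _ hRT ι _ _ h ε c hc hε hu κ₁ κ₂ _ _ _ _ Φ₁ Φ₂ k₁ k₂ hΦ₁ hΦ₂ hk
  obtain ⟨Ξ₁, hΞ₁⟩ := specXIX R E (E ⧸ H) κ₁ Φ₁ (QuotientGroup.mk' H)
  obtain ⟨Ξ₂, hΞ₂⟩ := specXIX R E (E ⧸ H) κ₂ Φ₂ (QuotientGroup.mk' H)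
  obtain ⟨hh1, hu1, ha1⟩ := REAM.y_good specPSM specHRX Φ₁ (QuotientGroup.mk' H) Ξ₁ hΞ₁ hΦ₁ h ε c hc hε hu
  obtain ⟨hh2, hu2, ha2⟩ := REAM.y_good specPSM specHRX Φ₂ (QuotientGroup.mk' H) Ξ₂ hΞ₂ hΦ₂ h ε c hc hε hu
  obtain ⟨b1, hb1, hl1⟩ := hLI2 (E ⧸ H) hRT (ι × κ₁) (c • psh Ξ₁ h) hh1 hu1
  obtain ⟨b2, hb2, hl2⟩ := hLI2 (E ⧸ H) hRT (ι × κ₂) (c • psh Ξ₂ h) hh2 hu2
  have hb : 0 < min b1 b2 := lt_min hb1 hb2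
  have l1 := hl1 (min b1 b2) hb (min_le_left _ _)
  have l2 := hl2 (min b1 b2) hb (min_le_right _ _)
  have l1' := l1.const_mul (k₁ : ℂ)
  have l2' := l2.const_mul (k₂ : ℂ)
  have key : (fun j => (k₁ : ℂ) * tau (it (((min b1 b2 : ℝ) : ℂ) • (c • psh Ξ₁ h)) j)) =
      fun j => (k₂ : ℂ) * tau (it (((min b1 b2 : ℝ) : ℂ) • (c • psh Ξ₂ h)) j) := by
    funext j
    rw [REAM.tau_it specPSM specHRX specMOM Φ₁ (QuotientGroup.mk' H) Ξ₁ hΞ₁ hΦ₁ h _ c j,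
      REAM.tau_it specPSM specHRX specMOM Φ₂ (QuotientGroup.mk' H) Ξ₂ hΞ₂ hΦ₂ h _ c j,
      ← REAM.momJ_smul, ← REAM.momJ_smul, QuotientGroup.ker_mk']
    congr 1
    funext l
    exact REAM.trW_eq H Φ₁ Φ₂ k₁ k₂ hk (h ^ l)
  rw [key] at l1'
  have := tendsto_nhds_unique l1' l2'
  rw [ha1, ha2] at this
  exact_mod_cast this

end Pool.Agent.Lib.MP8a3537.AM
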