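import Pool.Agent.Lib.MP_8a3537_gt.AM.SpecF
import Pool.Agent.Lib.MP_8a3537_gt.TW.REB
import Pool.Agent.Lib.MP_8a3537_gt.TW.XIX
import Pool.Agent.Lib.MP_8a3537_gt.TW.PSM
import Pool.Agent.Lib.MP_8a3537_gt.TW.HRX
import Pool.Agent.Lib.MP_8a3537_gt.TW.MOM
import Pool.Agent.Lib.MP_8a3537_gt.TW.CSA
import Pool.Agent.Lib.MP_8a3537_gt.TW.CSM

/-!
# RB2: Theorem 1 (b) (MP_8a3537_gt, folder AM)
-/

set_option linter.unusedVariables false

namespace Pool.Agent.Lib.MP8a3537.AM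

open Pool.Agent.Lib.MP8a3537.SG
open Pool.Agent.Lib.MP8a3537.TW
open Filter Topology
open scoped BigOperators Pointwise ComplexOrder Matrix

/-- **RB2**. -/
theorem specRB2 (hLI2 : SpecLI2) : SpecRB2 := by
  intro R E _ _ _ H _ hRT ι _ _ h ε c hc hε hu κ _ _ Φ B _ ψ ω hΦ hψ hω1 hω2
  obtain ⟨Ξ, hΞ⟩ := specXIX R E (E ⧸ H) κ Φ (QuotientGroup.mk' H)
  obtain ⟨hh1, hu1, ha1⟩ := REAM.y_good specPSM specHRX Φ (QuotientGroup.mk' H) Ξ hΞ hΦ h ε c hc hε hu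
  obtain ⟨b1, hb1, hl1⟩ := hLI2 (E ⧸ H) hRT (ι × κ) (c • psh Ξ h) hh1 hu1
  have hmap : ∀ x : Matrix ι ι (MonoidAlgebra R E), ψ.mapMatrix x = x.map ψ := fun x => rfl
  have hXu : IsUnit (c • h.map ψ) := by
    refine REAM.isUnit_smul (REAM.unit01_ne hc) ?_
    rw [← hmap]
    exact hu.map _
  obtain ⟨hex, b2, hb2, hl2⟩ := (specCSM specCSA) B ι (c • h.map ψ) (REBM.herm ψ hψ ε c h hc hε) hXu
  refine ⟨hex, fun S hS => ?_⟩
  have hb : 0 < min b1 b2 := lt_min hb1 hb2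
  have l1 := hl1 (min b1 b2) hb (min_le_left _ _)
  have l2 := hl2 (min b1 b2) hb (min_le_right _ _) S hS ω
  have key : (fun j => ∑ i, ω ((it (((min b1 b2 : ℝ) : ℂ) • (c • h.map ψ)) j) i i)) =
      fun j => tau (it (((min b1 b2 : ℝ) : ℂ) • (c • psh Ξ h)) j) := by
    funext j
    rw [REAM.tau_it specPSM specHRX specMOM Φ (QuotientGroup.mk' H) Ξ hΞ hΦ h _ c j, QuotientGroup.ker_mk', smul_smul]
    refine Eq.trans (specMOM (Matrix ι ι B) (h.map ψ) (((min b1 b2 : ℝ) : ℂ) * c) (REBM.omL ω) j) ?_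
    congr 1
    funext l
    rw [← REBM.om_trW H Φ ψ ω hω1 hω2 (h ^ l)]
    show ∑ i, ω (((h.map ψ) ^ l) i i) = ∑ i, ω (ψ ((h ^ l) i i))
    rw [← hmap h, ← map_pow]
    rfl
  rw [key] at l2
  have := tendsto_nhds_unique l2 l1
  rw [ha1] at this
  exact this

end Pool.Agent.Lib.MP8a3537.AM
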