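import Pool.Agent.Lib.MP_8a3537_gt.AM.SpecF

/-!
# Module SUB: subgroups (MP_8a3537_gt, folder AM)
-/

set_option linter.unusedVariables false

namespace Pool.Agent.Lib.MP8a3537.AM

open scoped BigOperators Matrix
open Pool.Agent.Lib.MP8a3537.SG
open Pool.Agent.Lib.MP8a3537.TW
open Filter Topology

theorem specSUB : SpecSUB := by
  refine ⟨?_, ?_⟩
  · intro G G' _ _ f hf h g hg
    have hfg : f g ≠ 1 := fun e => hg (hf (by rw [e, map_one]))
    obtain ⟨K, _, φ, h1, h2⟩ := h (f g) hfg
    exact ⟨K, inferInstance, φ.comp f, h1, h2⟩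
  · rintro Γ Γ' _ _ f z ⟨K, hK, hz, hnil, htf⟩
    have hLn : (K.comap f).Normal := inferInstance
    have hle : K.comap f ≤ Subgroup.comap f K := le_rfl
    let ψ : Γ ⧸ K.comap f →* Γ' ⧸ K := QuotientGroup.map (K.comap f) K f hle
    have hinj : Function.Injective ψ := by
      rw [injective_iff_map_eq_one]
      intro x hx
      obtain ⟨g, rfl⟩ := QuotientGroup.mk_surjective x
      have hx' : ((f g : Γ') : Γ' ⧸ K) = 1 := hx
      rw [QuotientGroup.eq_one_iff] at hx' ⊢
      exact hx'
    refine ⟨K.comap f, hLn, fun h => hz h, ?_, ?_⟩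
    · have := hnil
      refine Subgroup.isNilpotent_of_ker_le_center ψ ?_
      rw [(MonoidHom.ker_eq_bot_iff ψ).2 hinj]
      exact bot_le
    · intro x n hn hx
      apply hinj
      rw [map_one]
      refine htf (ψ x) n hn ?_
      rw [← map_pow, hx, map_one]

end Pool.Agent.Lib.MP8a3537.AM
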