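import Pool.Agent.Lib.MP_8a3537_gt.AM.Spec

/-!
# TFW: torsion-free amenable groups have the property W (MP_8a3537_gt, folder AM)
-/

set_option autoImplicit false

namespace Pool.Agent.Lib.MP8a3537.AM

open scoped BigOperators

namespace TFWM

/-- an element with a finite orbit -/
theorem pow_eq_one_of_finite {G : Type} [Group G] (q x : G) (F : Finset G)
    (h : ∀ n : ℕ, q ^ n * x ∈ F) : ∃ n : ℕ, 0 < n ∧ q ^ n = 1 := by
  obtain ⟨a, b, hab, he⟩ := Finite.exists_ne_map_eq_of_infinite
    (fun n : ℕ => (⟨q ^ n * x, h n⟩ : F))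
  have he' : q ^ a * x = q ^ b * x := congrArg Subtype.val he
  have he2 : q ^ a = q ^ b := mul_right_cancel he'
  rcases lt_or_gt_of_ne hab with hl | hl
  · refine ⟨b - a, by omega, ?_⟩
    rw [pow_sub _ hl.le, he2, mul_inv_cancel]
  · refine ⟨a - b, by omega, ?_⟩
    rw [pow_sub _ hl.le, he2, mul_inv_cancel]

theorem amen (hWGT : SpecWGT) (G : Type) [Group G] (h : TFA G) : W G := by
  classical
  intro S ε hε
  obtain ⟨F, hFne, hF⟩ := h.2 (S ∪ S.image fun s => s⁻¹) (ε / 4) (by linarith)
  have hFc : (0 : ℝ) < F.card := by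
    exact_mod_cast Finset.card_pos.mpr hFne
  obtain ⟨ω, hω1, hω2, hω3, hω4⟩ := hWGT G G S ε (2 / F.card)
    (F ∪ (S ×ˢ F).image fun p => p.1⁻¹ * p.2) hε (by positivity)
  have hcom : ∀ g : G, {x : G | ¬(x ∈ (F : Set G) ↔ g • x ∈ (F : Set G))}.Finite := by
    intro g
    refine (F ∪ F.image fun y => g⁻¹ * y).finite_toSet.subset fun x hx => ?_
    rw [Finset.mem_coe, Finset.mem_union, Finset.mem_image]
    by_cases hxF : x ∈ F
    · exact Or.inl hxF
    · right
      refine ⟨g * x, ?_, by group⟩
      by_contra hgx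
      apply hx
      simp only [Finset.mem_coe, smul_eq_mul]
      exact ⟨fun h => absurd h hxF, fun h => absurd h hgx⟩
  refine ⟨G, inferInstance, ⟨(F : Set G), ω, fun x => lt_of_lt_of_le (by positivity) (hω1 x), hcom,
    hω4⟩, ⟨hω3, fun s hs => ?_⟩, ?_⟩
  · -- the sum of the weights
    have hsub : (hcom s).toFinset ⊆ (F.filter fun x => s * x ∉ F) ∪
        ((F.filter fun x => s⁻¹ * x ∉ F).image fun y => s⁻¹ * y) := by
      intro x hx
      rw [Set.Finite.mem_toFinset, Set.mem_ofPred_eq] at hx
      simp only [Finset.mem_coe, smul_eq_mul] at hx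
      rw [Finset.mem_union, Finset.mem_filter, Finset.mem_image]
      by_cases hxF : x ∈ F
      · left
        exact ⟨hxF, fun h => hx ⟨fun _ => h, fun _ => hxF⟩⟩
      · right
        have hsx : s * x ∈ F := by
          by_contra hn
          exact hx ⟨fun h => absurd h hxF, fun h => absurd h hn⟩
        refine ⟨s * x, Finset.mem_filter.mpr ⟨hsx, ?_⟩, by group⟩
        rwa [← mul_assoc, inv_mul_cancel, one_mul]
    have hin : ∀ x ∈ (hcom s).toFinset, ω x = 2 / F.card := by
      intro x hx
      apply hω2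
      rw [Set.Finite.mem_toFinset, Set.mem_ofPred_eq] at hx
      simp only [Finset.mem_coe, smul_eq_mul] at hx
      rw [Finset.mem_union, Finset.mem_image]
      by_cases hxF : x ∈ F
      · exact Or.inl hxF
      · right
        have hsx : s * x ∈ F := by
          by_contra hn
          exact hx ⟨fun h => absurd h hxF, fun h => absurd h hn⟩
        exact ⟨(s, s * x), Finset.mem_product.mpr ⟨hs, hsx⟩, by simp⟩
    have hcard : ((hcom s).toFinset.card : ℝ) ≤ ε / 2 * F.card := by
      have h1 : ((hcom s).toFinset.card : ℝ) ≤ ((F.filter fun x => s * x ∉ F).card : ℝ) +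
          ((F.filter fun x => s⁻¹ * x ∉ F).card : ℝ) := by
        have h2 := (Finset.card_le_card hsub).trans (Finset.card_union_le _ _)
        have h3 := h2.trans (Nat.add_le_add_left Finset.card_image_le _)
        exact_mod_cast h3
      have h4 := hF s (Finset.mem_union_left _ hs)
      have h5 := hF s⁻¹ (Finset.mem_union_right _ (Finset.mem_image_of_mem _ hs))
      have h6 : ((F.filter fun x => s * x ∉ F).card : ℝ) ≤ ε / 4 * F.card := by
        convert h4 using 2
      have h7 : ((F.filter fun x => s⁻¹ * x ∉ F).card : ℝ) ≤ ε / 4 * F.card := by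
        convert h5 using 2
      linarith
    show ∑ x ∈ (hcom s).toFinset, ω x ≤ ε
    rw [Finset.sum_congr rfl hin, Finset.sum_const, nsmul_eq_mul]
    calc ((hcom s).toFinset.card : ℝ) * (2 / F.card) ≤ (ε / 2 * F.card) * (2 / F.card) :=
          mul_le_mul_of_nonneg_right hcard (by positivity)
      _ = ε := by field_simp
  · -- free
    intro q hq N hN
    obtain ⟨F', hF', hsum⟩ := hN
    by_contra hcon
    have hcon' : ∀ x, x ∈ N ↔ q * x ∈ N := fun x => by
      by_contra hx
      exact hcon ⟨x, hx⟩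
    have hNfin : ∀ x ∈ N, x ∈ F ∪ F' := by
      intro x hx
      rw [Finset.mem_union]
      by_cases hxF : x ∈ F
      · exact Or.inl hxF
      · right
        apply hF'
        intro hiff
        exact hxF (hiff.mp hx)
    have hne : ∃ x, x ∈ N := by
      by_contra hno
      have hsub : F ⊆ F' := by
        intro x hx
        apply hF'
        intro hiff
        exact hno ⟨x, hiff.mpr hx⟩
      have h1 : ∑ x ∈ F, ω x ≤ ∑ x ∈ F', ω x :=
        Finset.sum_le_sum_of_subset_of_nonneg hsub fun x _ _ =>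
          le_trans (div_nonneg zero_le_two hFc.le) (hω1 x)
      have h2 : ∑ x ∈ F, ω x = 2 := by
        rw [Finset.sum_congr rfl fun x hx => hω2 x (Finset.mem_union_left _ hx), Finset.sum_const,
          nsmul_eq_mul]
        exact mul_div_cancel₀ 2 hFc.ne'
      have h3 : ∑ x ∈ F', ω x ≤ 1 := hsum
      linarith
    obtain ⟨x0, hx0⟩ := hne
    have hall : ∀ n : ℕ, q ^ n * x0 ∈ N := by
      intro n
      induction n with
      | zero =>
        rw [pow_zero, one_mul]
        exact hx0
      | succ n ih =>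
        rw [pow_succ', mul_assoc]
        exact (hcon' _).mp ih
    obtain ⟨n, hn, hqn⟩ := pow_eq_one_of_finite q x0 (F ∪ F') fun n => hNfin _ (hall n)
    exact hq (h.1 q n hn hqn)

theorem cne (hWGT : SpecWGT) (G : Type) [Group G] (h : CNE G) : W G := by
  classical
  intro S ε hε
  obtain ⟨X, inst, M, hcom, hfree⟩ := h
  obtain ⟨ω, hω1, hω2, hω3, hω4⟩ := hWGT G X S ε
    (ε / ((S.biUnion fun s => (hcom s).toFinset).card + 1))
    (S.biUnion fun s => (hcom s).toFinset) hε (by positivity)
  refine ⟨X, inst, ⟨M, ω, fun x => lt_of_lt_of_le (by positivity) (hω1 x), hcom, hω4⟩,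
    ⟨hω3, fun s hs => ?_⟩, ?_⟩
  · have hin : ∀ x ∈ (hcom s).toFinset, x ∈ S.biUnion fun s => (hcom s).toFinset := by
      intro x hx
      rw [Finset.mem_biUnion]
      exact ⟨s, hs, hx⟩
    show ∑ x ∈ (hcom s).toFinset, ω x ≤ ε
    rw [Finset.sum_congr rfl fun x hx => hω2 x (hin x hx), Finset.sum_const, nsmul_eq_mul]
    have hcard : ((hcom s).toFinset.card : ℝ) ≤ (S.biUnion fun s => (hcom s).toFinset).card := by
      exact_mod_cast Finset.card_le_card hin
    rw [mul_div_assoc', div_le_iff₀ (by positivity)]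
    nlinarith
  · intro q hq N hN
    obtain ⟨F', hF', -⟩ := hN
    exact hfree q hq N (F'.finite_toSet.subset fun x hx => hF' x hx)

end TFWM

open TFWM in
/-- TFW -/
theorem specTFW (hWGT : SpecWGT) : SpecTFW :=
  ⟨fun G _ h => amen hWGT G h, fun G _ h => cne hWGT G h⟩

end Pool.Agent.Lib.MP8a3537.AM
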