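import Pool.Agent.Lib.MP_8a3537_gt.AM.Spec

/-!
# Module WPR: the property W for products and for the trivial group
-/

set_option linter.unusedVariables false

namespace Pool.Agent.Lib.MP8a3537.AM

open scoped BigOperators

namespace WPRM

/-- the action of a product on a disjoint union -/
@[reducible] def actSum (G1 G2 X1 X2 : Type) [Group G1] [Group G2] [MulAction G1 X1] [MulAction G2 X2] :
    MulAction (G1 × G2) (X1 ⊕ X2) where
  smul g x := Sum.map (fun y => g.1 • y) (fun y => g.2 • y) x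
  one_smul x := by
    cases x with
    | inl x => exact congrArg Sum.inl (one_smul G1 x)
    | inr x => exact congrArg Sum.inr (one_smul G2 x)
  mul_smul g h x := by
    cases x with
    | inl x => exact congrArg Sum.inl (mul_smul g.1 h.1 x)
    | inr x => exact congrArg Sum.inr (mul_smul g.2 h.2 x)

variable {G1 G2 X1 X2 : Type} [Group G1] [Group G2] [MulAction G1 X1] [MulAction G2 X2]

attribute [local instance] actSum

theorem smul_inl (g : G1 × G2) (x : X1) : g • (Sum.inl x : X1 ⊕ X2) = Sum.inl (g.1 • x) := rfl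

theorem smul_inr (g : G1 × G2) (x : X2) : g • (Sum.inr x : X1 ⊕ X2) = Sum.inr (g.2 • x) := rfl

/-- the commensurated set of the disjoint union -/
def MS (M1 : Set X1) (M2 : Set X2) : Set (X1 ⊕ X2) := {x | Sum.elim (fun y => y ∈ M1) (fun y => y ∈ M2) x}

theorem inl_MS (M1 : Set X1) (M2 : Set X2) (x : X1) : (Sum.inl x : X1 ⊕ X2) ∈ MS M1 M2 ↔ x ∈ M1 := Iff.rfl

theorem inr_MS (M1 : Set X1) (M2 : Set X2) (x : X2) : (Sum.inr x : X1 ⊕ X2) ∈ MS M1 M2 ↔ x ∈ M2 := Iff.rfl

theorem comSet (D1 : Dat G1 X1) (D2 : Dat G2 X2) (g : G1 × G2) :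
    {x : X1 ⊕ X2 | ¬(x ∈ MS D1.M D2.M ↔ g • x ∈ MS D1.M D2.M)} =
      Sum.inl '' {x : X1 | ¬(x ∈ D1.M ↔ g.1 • x ∈ D1.M)} ∪ Sum.inr '' {x : X2 | ¬(x ∈ D2.M ↔ g.2 • x ∈ D2.M)} := by
  ext x
  cases x with
  | inl x =>
    constructor
    · intro h
      exact Or.inl ⟨x, h, rfl⟩
    · rintro (⟨y, hy, he⟩ | ⟨y, hy, he⟩)
      · cases he
        exact hy
      · cases he
  | inr x =>
    constructor
    · intro h
      exact Or.inr ⟨x, h, rfl⟩
    · rintro (⟨y, hy, he⟩ | ⟨y, hy, he⟩)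
      · cases he
      · cases he
        exact hy

/-- the data of the disjoint union -/
def DS (D1 : Dat G1 X1) (D2 : Dat G2 X2) : Dat (G1 × G2) (X1 ⊕ X2) where
  M := MS D1.M D2.M
  ω := Sum.elim D1.ω D2.ω
  pos x := by
    cases x with
    | inl x => exact D1.pos x
    | inr x => exact D2.pos x
  com g := by
    rw [comSet]
    exact ((D1.com g.1).image _).union ((D2.com g.2).image _)
  fin := by
    have h : {x : X1 ⊕ X2 | Sum.elim D1.ω D2.ω x ≤ 1} = Sum.inl '' {x | D1.ω x ≤ 1} ∪ Sum.inr '' {x | D2.ω x ≤ 1} := by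
      ext x
      cases x with
      | inl x =>
        constructor
        · intro h
          exact Or.inl ⟨x, h, rfl⟩
        · rintro (⟨y, hy, he⟩ | ⟨y, hy, he⟩)
          · cases he
            exact hy
          · cases he
      | inr x =>
        constructor
        · intro h
          exact Or.inr ⟨x, h, rfl⟩
        · rintro (⟨y, hy, he⟩ | ⟨y, hy, he⟩)
          · cases he
          · cases he
            exact hy
    rw [h]
    exact (D1.fin.image _).union (D2.fin.image _)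

theorem DS_sum (D1 : Dat G1 X1) (D2 : Dat G2 X2) (g : G1 × G2) :
    ∑ x ∈ ((DS D1 D2).com g).toFinset, (DS D1 D2).ω x =
      ∑ x ∈ (D1.com g.1).toFinset, D1.ω x + ∑ x ∈ (D2.com g.2).toFinset, D2.ω x := by
  classical
  have h : ((DS D1 D2).com g).toFinset = (D1.com g.1).toFinset.disjSum (D2.com g.2).toFinset := by
    ext x
    cases x with
    | inl x =>
      rw [Finset.inl_mem_disjSum, Set.Finite.mem_toFinset, Set.Finite.mem_toFinset]
      exact Iff.rfl
    | inr x =>
      rw [Finset.inr_mem_disjSum, Set.Finite.mem_toFinset, Set.Finite.mem_toFinset]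
      exact Iff.rfl
  rw [h, Finset.sum_disjSum]
  rfl

theorem DS_good (D1 : Dat G1 X1) (D2 : Dat G2 X2) (S : Finset (G1 × G2)) (S1 : Finset G1) (S2 : Finset G2) (ε : ℝ)
    (hε : 0 < ε) (h1 : ∀ s ∈ S, s.1 ∈ S1) (h2 : ∀ s ∈ S, s.2 ∈ S2) (hD1 : D1.Good S1 (ε / 2)) (hD2 : D2.Good S2 (ε / 2)) :
    (DS D1 D2).Good S ε := by
  constructor
  · intro s hs x
    cases x with
    | inl x =>
      have h := hD1.1 s.1 (h1 s hs) x
      have hp := D1.pos x
      show D1.ω (s.1 • x) ≤ (1 + ε) * D1.ω x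
      nlinarith
    | inr x =>
      have h := hD2.1 s.2 (h2 s hs) x
      have hp := D2.pos x
      show D2.ω (s.2 • x) ≤ (1 + ε) * D2.ω x
      nlinarith
  · intro s hs
    rw [DS_sum]
    have e1 := hD1.2 s.1 (h1 s hs)
    have e2 := hD2.2 s.2 (h2 s hs)
    linarith

theorem DS_free (D1 : Dat G1 X1) (D2 : Dat G2 X2) (h1 : D1.Free) (h2 : D2.Free) : (DS D1 D2).Free := by
  classical
  intro q hq N hN
  obtain ⟨F, hF, hs⟩ := hN
  by_cases hq1 : q.1 = 1
  · have hq2 : q.2 ≠ 1 := fun h => hq (Prod.ext hq1 h)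
    obtain ⟨x, hx⟩ := h2 q.2 hq2 {x | (Sum.inr x : X1 ⊕ X2) ∈ N} ⟨F.toRight, fun x hx => by
      rw [Finset.mem_toRight]
      exact hF (Sum.inr x) hx, by
      refine le_trans ?_ hs
      have hm : ∑ x ∈ F.toRight, D2.ω x = ∑ x ∈ F.toRight.map Function.Embedding.inr, (DS D1 D2).ω x := by
        rw [Finset.sum_map]
        rfl
      rw [hm]
      refine Finset.sum_le_sum_of_subset_of_nonneg ?_ fun x _ _ => ((DS D1 D2).pos x).le
      intro y hy
      rw [Finset.mem_map] at hy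
      obtain ⟨z, hz, rfl⟩ := hy
      exact Finset.mem_toRight.mp hz⟩
    exact ⟨Sum.inr x, hx⟩
  · obtain ⟨x, hx⟩ := h1 q.1 hq1 {x | (Sum.inl x : X1 ⊕ X2) ∈ N} ⟨F.toLeft, fun x hx => by
      rw [Finset.mem_toLeft]
      exact hF (Sum.inl x) hx, by
      refine le_trans ?_ hs
      have hm : ∑ x ∈ F.toLeft, D1.ω x = ∑ x ∈ F.toLeft.map Function.Embedding.inl, (DS D1 D2).ω x := by
        rw [Finset.sum_map]
        rfl
      rw [hm]
      refine Finset.sum_le_sum_of_subset_of_nonneg ?_ fun x _ _ => ((DS D1 D2).pos x).le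
      intro y hy
      rw [Finset.mem_map] at hy
      obtain ⟨z, hz, rfl⟩ := hy
      exact Finset.mem_toLeft.mp hz⟩
    exact ⟨Sum.inl x, hx⟩

/-- the data on the empty set -/
def DE (G : Type) [Group G] [MulAction G Empty] : Dat G Empty where
  M := ∅
  ω x := x.elim
  pos x := x.elim
  com g := Set.toFinite _
  fin := Set.toFinite _

end WPRM

open WPRM in
theorem specWPR : SpecWPR := by
  classical
  refine ⟨?_, ?_⟩
  · intro G1 G2 _ _ hW1 hW2 S ε hε
    obtain ⟨X1, i1, D1, hD1, hF1⟩ := hW1 (S.image Prod.fst) (ε / 2) (half_pos hε)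
    obtain ⟨X2, i2, D2, hD2, hF2⟩ := hW2 (S.image Prod.snd) (ε / 2) (half_pos hε)
    refine ⟨X1 ⊕ X2, actSum G1 G2 X1 X2, DS D1 D2, ?_, DS_free D1 D2 hF1 hF2⟩
    exact DS_good D1 D2 S (S.image Prod.fst) (S.image Prod.snd) ε hε (fun s hs => Finset.mem_image_of_mem _ hs)
      (fun s hs => Finset.mem_image_of_mem _ hs) hD1 hD2
  · intro G _ hG S ε hε
    let i : MulAction G Empty := { smul := fun _ x => x, one_smul := fun x => rfl, mul_smul := fun _ _ x => rfl }
    refine ⟨Empty, i, DE G, ⟨fun s _ x => x.elim, fun s _ => ?_⟩, fun q hq => absurd (Subsingleton.elim q 1) hq⟩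
    have h : ((DE G).com s).toFinset = ∅ := Finset.eq_empty_of_forall_notMem fun x => x.elim
    rw [h, Finset.sum_empty]
    exact hε.le

end Pool.Agent.Lib.MP8a3537.AM
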