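import Pool.Agent.Lib.MP_8a3537_gt.AM.SpecF

/-! Module WRS (helper56). -/

set_option autoImplicit false

namespace Pool.Agent.Lib.MP8a3537.AM

theorem specWRS (hWPR : SpecWPR) : SpecWRS := by
  classical
  intro G _ hG T
  induction T using Finset.induction_on with
  | empty =>
    intro _
    exact ⟨PUnit, inferInstance, 1, hWPR.2 PUnit inferInstance, fun t ht => absurd ht (by simp)⟩
  | insert g T hg ih =>
    intro h1
    rw [Finset.mem_insert, not_or] at h1
    obtain ⟨K1, i1, f1, hf1, hK1⟩ := hG g (fun h => h1.1 h.symm)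
    obtain ⟨K2, i2, f2, hK2, hf2⟩ := ih h1.2
    refine ⟨K1 × K2, inferInstance, f1.prod f2, hWPR.1 K1 K2 hK1 hK2, fun t ht => ?_⟩
    rw [Finset.mem_insert] at ht
    rcases ht with rfl | ht
    · intro h
      apply hf1
      have := congrArg Prod.fst h
      simpa using this
    · intro h
      apply hf2 t ht
      have := congrArg Prod.snd h
      simpa using this

end Pool.Agent.Lib.MP8a3537.AM
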