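import Pool.Agent.Lib.MP_8a3537_gt.AM.SpecF

/-!
# XIG: induced maps of group rings (MP_8a3537_gt, folder AM)
-/

set_option linter.unusedVariables false

namespace Pool.Agent.Lib.MP8a3537.AM

open scoped BigOperators Matrix
open Pool.Agent.Lib.MP8a3537.SG
open Pool.Agent.Lib.MP8a3537.TW

theorem specXIG : SpecXIG := by
  intro R E G A _ _ _ _ ψ π
  have hone : ψ (MonoidAlgebra.single (1 : E) (1 : R)) = 1 := by
    rw [← MonoidAlgebra.one_def, map_one]
  let f : R →+* MonoidAlgebra A G :=
    { toFun := fun r => MonoidAlgebra.single (1 : G) (ψ (MonoidAlgebra.single 1 r))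
      map_one' := by
        rw [hone, MonoidAlgebra.one_def]
      map_mul' := fun r s => by
        have h : (MonoidAlgebra.single (1 : E) (r * s)) =
            MonoidAlgebra.single (1 : E) r * MonoidAlgebra.single (1 : E) s := by
          rw [MonoidAlgebra.single_mul_single, mul_one]
        rw [h, map_mul, MonoidAlgebra.single_mul_single, mul_one]
      map_zero' := by
        rw [MonoidAlgebra.single_zero, map_zero, MonoidAlgebra.single_zero]
      map_add' := fun r s => by
        rw [MonoidAlgebra.single_add, map_add, MonoidAlgebra.single_add] }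
  let g : E →* MonoidAlgebra A G :=
    { toFun := fun a => MonoidAlgebra.single (π a) (ψ (MonoidAlgebra.single a 1))
      map_one' := by
        rw [hone, map_one, MonoidAlgebra.one_def]
      map_mul' := fun a b => by
        have h : (MonoidAlgebra.single (a * b) (1 : R)) =
            MonoidAlgebra.single a (1 : R) * MonoidAlgebra.single b (1 : R) := by
          rw [MonoidAlgebra.single_mul_single, mul_one]
        rw [h, map_mul, map_mul, MonoidAlgebra.single_mul_single] }
  have hcomm : ∀ (r : R) (a : E), Commute (f r) (g a) := by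
    intro r a
    change MonoidAlgebra.single (1 : G) (ψ (MonoidAlgebra.single 1 r)) * MonoidAlgebra.single (π a) (ψ (MonoidAlgebra.single a 1)) =
      MonoidAlgebra.single (π a) (ψ (MonoidAlgebra.single a 1)) * MonoidAlgebra.single (1 : G) (ψ (MonoidAlgebra.single 1 r))
    rw [MonoidAlgebra.single_mul_single, MonoidAlgebra.single_mul_single, ← map_mul, ← map_mul, MonoidAlgebra.single_mul_single,
      MonoidAlgebra.single_mul_single, one_mul, mul_one, one_mul, mul_one, one_mul, mul_one]
  refine ⟨MonoidAlgebra.liftNCRingHom f g hcomm, ?_⟩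
  intro a r
  have h1 : MonoidAlgebra.liftNCRingHom f g hcomm (MonoidAlgebra.single a r) = f r * g a :=
    MonoidAlgebra.liftNC_single _ _ _ _
  rw [h1]
  change MonoidAlgebra.single (1 : G) (ψ (MonoidAlgebra.single 1 r)) * MonoidAlgebra.single (π a) (ψ (MonoidAlgebra.single a 1)) = _
  rw [MonoidAlgebra.single_mul_single, ← map_mul, MonoidAlgebra.single_mul_single, one_mul, mul_one, one_mul]

end Pool.Agent.Lib.MP8a3537.AM
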