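import Pool.Agent.Lib.MP_8a3537_gt.TW.All
import Pool.Agent.Lib.MP_8a3537_gt.AM.AllC
import Pool.Agent.Lib.MP_8a3537_gt.AM.CLS
import Pool.Agent.Lib.MP_8a3537_gt.AM.CO2
import Pool.Agent.Lib.MP_8a3537_gt.AM.EGP
import Pool.Agent.Lib.MP_8a3537_gt.AM.ES2
import Pool.Agent.Lib.MP_8a3537_gt.AM.EX2
import Pool.Agent.Lib.MP_8a3537_gt.AM.GTM
import Pool.Agent.Lib.MP_8a3537_gt.AM.GTR
import Pool.Agent.Lib.MP_8a3537_gt.AM.LAM
import Pool.Agent.Lib.MP_8a3537_gt.AM.LI2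
import Pool.Agent.Lib.MP_8a3537_gt.AM.MMA
import Pool.Agent.Lib.MP_8a3537_gt.AM.MPL
import Pool.Agent.Lib.MP_8a3537_gt.AM.NAM
import Pool.Agent.Lib.MP_8a3537_gt.AM.NBX
import Pool.Agent.Lib.MP_8a3537_gt.AM.NQ2
import Pool.Agent.Lib.MP_8a3537_gt.AM.PQ
import Pool.Agent.Lib.MP_8a3537_gt.AM.RA2
import Pool.Agent.Lib.MP_8a3537_gt.AM.RB2
import Pool.Agent.Lib.MP_8a3537_gt.AM.SUB
import Pool.Agent.Lib.MP_8a3537_gt.AM.TFW
import Pool.Agent.Lib.MP_8a3537_gt.AM.TG2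
import Pool.Agent.Lib.MP_8a3537_gt.AM.TI2
import Pool.Agent.Lib.MP_8a3537_gt.AM.URT
import Pool.Agent.Lib.MP_8a3537_gt.AM.WGT
import Pool.Agent.Lib.MP_8a3537_gt.AM.WPR
import Pool.Agent.Lib.MP_8a3537_gt.AM.WRS
import Pool.Agent.Lib.MP_8a3537_gt.AM.XIG

/-!
# Assembly of block F of MP_8a3537_gt, folder AM
-/

namespace Pool.Agent.Lib.MP8a3537.AM

open Pool.Agent.Lib.MP8a3537.SG Pool.Agent.Lib.MP8a3537.TW

theorem all_TFW : SpecTFW := specTFW specWGT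

theorem all_CLS : SpecCLS := specCLS all_TFW specNAM

theorem all_WRS : SpecWRS := specWRS specWPR

theorem all_URT : SpecURT := specURT specEGP specLAM all_WRS all_CORE

theorem all_PQ : SpecPQ := specPQ all_URT specMMA

theorem all_NBX : SpecNBX := specNBX specBDA

theorem all_LI2 : SpecLI2 := specLI2 all_PQ all_NBX

theorem all_RA2 : SpecRA2 := specRA2 all_LI2

theorem all_RB2 : SpecRB2 := specRB2 all_LI2

theorem all_GTM : SpecGTM := specGTM all_URT specMPL specMMA specXIG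

theorem all_GTR : SpecGTR := specGTR all_GTM all_CSM specMOM

theorem all_ES2 : SpecES2 := specES2 all_PQ all_NBX

theorem all_NQ2 : SpecNQ2 := specNQ2 all_NDR specGRD

theorem all_CO2 : SpecCO2 := specCO2 specCLQ all_NQ2 all_COE all_ES2

theorem all_TI2 : SpecTI2 :=
  specTI2 specXIX specPSM specHRX specTRZ specTRK specMOM specBDA specNRT all_CSM all_NBX all_PQ all_CO2

theorem all_TG2 : SpecTG2 := specTG2 all_TI2 specSUB

theorem all_EX2 : SpecEX2 := specEX2 all_NQ2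

end Pool.Agent.Lib.MP8a3537.AM
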