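import Pool.Agent.Lib.MP_8a3537_gt.AM.YYY

/-!
# BDL: bounds for the compressions (MP_8a3537_gt, folder AM)
-/

set_option linter.unusedVariables false

namespace Pool.Agent.Lib.MP8a3537.AM

open scoped BigOperators
open Pool.Agent.Lib.MP8a3537.SG

namespace BDLM

section basic

variable {G X V : Type} [Group G] [MulAction G X] [LinearOrder X] [NormedAddCommGroup V]
  [InnerProductSpace ℂ V] {m : ℕ}

omit [LinearOrder X] in
theorem wt_sq (D : Dat G X) (C : ℝ) (x : X) : wt D C x ^ 2 = 4 * C ^ 2 * D.ω x :=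
  Real.sq_sqrt (mul_nonneg (by positivity) (D.pos x).le)

omit [LinearOrder X] in
theorem en_wt (D : Dat G X) (C : ℝ) (c : Conf m X) :
    en (fun x => wt D C x ^ 2) c = 4 * C ^ 2 * en D.ω c := by
  unfold en
  rw [Finset.mul_sum]
  exact Finset.sum_congr rfl fun x _ => wt_sq D C x

omit [LinearOrder X] in
theorem en_nonneg (D : Dat G X) (c : Conf m X) : 0 ≤ en D.ω c :=
  Finset.sum_nonneg fun x _ => (D.pos x).le

omit [LinearOrder X] in
theorem en_pos (D : Dat G X) {c : Conf m X} (hc : c ≠ 0) : 0 < en D.ω c := by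
  refine Finset.sum_pos (fun x _ => D.pos x) ?_
  rw [Finset.nonempty_iff_ne_empty]
  intro h
  exact hc (Finsupp.support_eq_empty.1 h)

theorem opP_mem {Ω : Finset (Conf m X)} {c : Conf m X} (h : c ∈ Ω) (φ : HS m X V) :
    opP m V Ω φ c = φ c := by
  unfold opP
  rw [YYYM.Mon_id_apply, if_pos h, one_smul]

theorem opP_not {Ω : Finset (Conf m X)} {c : Conf m X} (h : c ∉ Ω) (φ : HS m X V) :
    opP m V Ω φ c = 0 := by
  unfold opP
  rw [YYYM.Mon_id_apply, if_neg h, zero_smul]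

/-- `‖Bψ‖² = 4 C² ∑ en(c) ‖ψ c‖²` -/
theorem normB (hNRM : SpecNRM) (D : Dat G X) (C : ℝ) (ψ : HS m X V) :
    ‖opB m V (wt D C) ψ‖ ^ 2 = ∑ c ∈ ψ.support, 4 * C ^ 2 * en D.ω c * ‖ψ c‖ ^ 2 := by
  rw [(hNRM X V m (wt D C) ψ ψ).2.2.2.2.1]
  exact Finset.sum_congr rfl fun c _ => by rw [en_wt]

theorem upB (hNRM : SpecNRM) (D : Dat G X) {C : ℝ} (hC : 1 ≤ C) {Ω : Finset (Conf m X)}
    (hΩ : Full D Ω) (ψ : HS m X V) (hψ : opP m V Ω ψ = ψ) :
    ‖opB m V (wt D C) ψ‖ ≤ 2 * C * ‖ψ‖ := by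
  have hC0 : 0 ≤ C := by linarith
  refine (pow_le_pow_iff_left₀ (norm_nonneg _) (by positivity) two_ne_zero).1 ?_
  rw [normB hNRM, mul_pow, norm_sq, Finset.mul_sum]
  refine Finset.sum_le_sum fun c hc => ?_
  have h1 : c ∈ Ω := by
    by_contra h
    rw [Finsupp.mem_support_iff] at hc
    exact hc (by rw [← hψ, opP_not h])
  have h2 := (hΩ c).1 h1
  have h3 : 4 * C ^ 2 * en D.ω c ≤ (2 * C) ^ 2 := by nlinarith [sq_nonneg C]
  exact mul_le_mul_of_nonneg_right h3 (sq_nonneg _)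

theorem lowB (hNRM : SpecNRM) (D : Dat G X) {C : ℝ} (hC : 1 ≤ C) {Ω : Finset (Conf m X)}
    (hΩ : Full D Ω) (ψ : HS m X V) :
    2 * C * ‖ψ - opP m V Ω ψ‖ ≤ ‖opB m V (wt D C) ψ‖ := by
  have hC0 : 0 ≤ C := by linarith
  refine (pow_le_pow_iff_left₀ (by positivity) (norm_nonneg _) two_ne_zero).1 ?_
  rw [normB hNRM, mul_pow, norm_sq, Finset.mul_sum]
  have h0 : ∀ c ∈ (ψ - opP m V Ω ψ).support, c ∉ Ω ∧ (ψ - opP m V Ω ψ) c = ψ c := by
    intro c hc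
    rw [Finsupp.mem_support_iff] at hc
    have h1 : c ∉ Ω := by
      intro h
      apply hc
      rw [Finsupp.sub_apply, opP_mem h, sub_self]
    refine ⟨h1, ?_⟩
    rw [Finsupp.sub_apply, opP_not h1, sub_zero]
  have hsub : (ψ - opP m V Ω ψ).support ⊆ ψ.support := by
    intro c hc
    have h1 := (h0 c hc).2
    rw [Finsupp.mem_support_iff] at hc ⊢
    rwa [← h1]
  refine le_trans ?_ (Finset.sum_le_sum_of_subset_of_nonneg hsub fun c _ _ =>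
    mul_nonneg (mul_nonneg (by positivity) (en_nonneg D c)) (sq_nonneg _))
  refine Finset.sum_le_sum fun c hc => ?_
  obtain ⟨h1, h2⟩ := h0 c hc
  rw [h2]
  have h3 : 1 < en D.ω c := by
    by_contra h
    exact h1 ((hΩ c).2 (not_lt.1 h))
  have h4 : (2 * C) ^ 2 ≤ 4 * C ^ 2 * en D.ω c := by nlinarith [sq_nonneg C, sq_pos_of_pos (by linarith : 0 < C)]
  exact mul_le_mul_of_nonneg_right h4 (sq_nonneg _)

theorem stpΩ (hCNF : SpecCNF) (D : Dat G X) {Ω : Finset (Conf m X)} (hΩ : Full D Ω)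
    (c : Conf m X) (x : X) (hx : c x ≠ 0) : c ∈ Ω ↔ stp x c ∈ Ω := by
  have h1 : (stp x c).support = c.support :=
    (hCNF G X m c).2.2.2.2.2.2.2.2.2.1 x hx
  rw [hΩ, hΩ]
  unfold en
  rw [h1]

theorem sqrt_eq {C ε : ℝ} (hC : 1 ≤ C) (hε : 0 < ε) :
    2 * Real.sqrt (4 * C ^ 2 * ε) = 4 * C * Real.sqrt ε := by
  have h1 : (4 * C ^ 2 * ε) = (2 * C) ^ 2 * ε := by ring
  rw [h1, Real.sqrt_mul (by positivity), Real.sqrt_sq (by linarith)]
  ring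

/-- the value at the empty configuration -/
theorem zeroU (hCNF : SpecCNF) (hVCO : SpecVCO) (hVEX : SpecVEX) (D : Dat G X) (g : G)
    (ψ : HS m X V) (hψ : ψ 0 = 0) : opV m V D 1 g ψ 0 = 0 := by
  rw [(hVEX G X V m D 1 g 0 0 0).2.2 ψ]
  refine Finset.sum_eq_zero fun c hc => ?_
  rw [(hVCO G X m D 1 g (fun _ => 0) c 0).1]
  split_ifs with h
  · exfalso
    have h1 : c = 0 := by
      have h2 : act g⁻¹ (act g c) = c := by
        rw [← (hCNF G X m c).2.2.1, inv_mul_cancel]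
        exact (hCNF G X m c).2.1
      rw [← h2, h]
      exact (hCNF G X m c).2.2.2.1 g⁻¹
    rw [Finsupp.mem_support_iff, h1] at hc
    exact hc hψ
  · rw [zero_smul]

theorem zeroB (hCNF : SpecCNF) (hNRM : SpecNRM) (D : Dat G X) (w : X → ℝ) (ψ : HS m X V) :
    opB m V w ψ 0 = 0 := by
  rw [(hNRM X V m w ψ ψ).2.2.2.2.2.2.2 0]
  refine Finset.sum_eq_zero fun c hc => ?_
  have h1 : bco m w (0 : Conf m X) c = 0 := by
    unfold bco
    refine Finset.sum_eq_zero fun x hx => ?_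
    rw [if_neg]
    intro h
    have h2 : (stp x c).support = c.support :=
      (hCNF G X m c).2.2.2.2.2.2.2.2.2.1 x (Finsupp.mem_support_iff.1 hx)
    rw [h, Finsupp.support_zero] at h2
    rw [← h2] at hx
    exact absurd hx (Finset.notMem_empty x)
  rw [h1, zero_smul]

end basic

section main

variable {G X V : Type} [Group G] [MulAction G X] [LinearOrder X] [NormedAddCommGroup V]
  [InnerProductSpace ℂ V] [CompleteSpace V] {m : ℕ}

omit [CompleteSpace V] in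
/-- the values of `opY` at the empty configuration -/
theorem zeroY (hCNF : SpecCNF) (hVCO : SpecVCO) (hVEX : SpecVEX) (D : Dat G X)
    (y : MonoidAlgebra (V →L[ℂ] V) G) (ψ : HS m X V) (hψ : ψ 0 = 0) : opY m D 1 y ψ 0 = 0 := by
  rw [YYYM.opY_eq D 1 y ψ _ (Finset.Subset.refl _), Finsupp.finsetSum_apply]
  refine Finset.sum_eq_zero fun g _ => ?_
  refine zeroU hCNF hVCO hVEX D g _ ?_
  rw [YYYM.lft_apply, hψ, map_zero]

/-- the two estimates on the Hilbert space -/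
theorem est (hGAB : SpecGAB) (hYYY : SpecYYY) (hEFR : SpecEFR) (hNRM : SpecNRM) (hOPS : SpecOPS)
    (hCNF : SpecCNF) (D : Dat G X) (y y' : MonoidAlgebra (V →L[ℂ] V) G) (C C' : ℝ)
    (hs : Setup D y y' C C') (Ω : Finset (Conf m X)) (hΩ : Full D Ω) :
    (∀ ζ : ℂ, ‖ζ‖ = 1 → ∀ ψ : HS m X V, opP m V Ω ψ = ψ →
      1 / (4 * C') * ‖ψ‖ ≤ ‖opP m V Ω (opY m D ζ y (opG m V ψ)) + opB m V (wt D C) ψ‖ ∧
        ‖opP m V Ω (opY m D ζ y (opG m V ψ)) + opB m V (wt D C) ψ‖ ≤ 3 * C * ‖ψ‖) ∧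
    (∀ ψ : HS m X V, opP m V Ω ψ = ψ → ∀ u : ℝ, 0 ≤ u → u ≤ 1 →
      u / (8 * C') * ‖ψ‖ ≤ ‖(u : ℂ) • opP m V Ω (opY m D 1 y (opG m V ψ)) + opB m V (wt D C) ψ‖ ∧
        ‖(u : ℂ) • opP m V Ω (opY m D 1 y (opG m V ψ)) + opB m V (wt D C) ψ‖ ≤ 3 * C * ‖ψ‖) ∧
    (∀ ζ : ℂ, ‖ζ‖ = 1 → ∀ ψ : HS m X V,
      ‖opP m V Ω (opY m D ζ y (opG m V ψ))‖ ≤ C * ‖ψ‖) := by
  obtain ⟨S, ε, hS, hSi, hε, hεC, hgood⟩ := hs.good
  have hC := hs.hC
  have hC' := hs.hC'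
  have hC0 : 0 < C := by linarith
  have hC0' : 0 < C' := by linarith
  have hY : ∀ ζ : ℂ, ‖ζ‖ = 1 → ∀ ψ : HS m X V, ‖opY m D ζ y ψ‖ ≤ C * ‖ψ‖ := by
    intro ζ hζ ψ
    exact ((hYYY G X V m D ζ hζ y ψ ψ).2.2.2.1).trans
      (mul_le_mul_of_nonneg_right hs.hy (norm_nonneg _))
  have hYl : ∀ ζ : ℂ, ‖ζ‖ = 1 → ∀ ψ : HS m X V, ‖ψ‖ ≤ C' * ‖opY m D ζ y ψ‖ := by
    intro ζ hζ ψ
    have h1 := (hYYY G X V m D ζ hζ y ψ ψ).1 y'
    have h2 := (hYYY G X V m D ζ hζ 1 ψ ψ).2.2.1 (y' * y)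
    have h3 := (hYYY G X V m D ζ hζ 1 ψ ψ).2.1
    have h4 := (hYYY G X V m D ζ hζ (y' * y - 1) ψ ψ).2.2.2.1
    have h5 := (hYYY G X V m D ζ hζ y' (opY m D ζ y ψ) ψ).2.2.2.1
    rw [h1, h3] at h2
    have h6 : ψ = opY m D ζ y' (opY m D ζ y ψ) - opY m D ζ (y' * y - 1) ψ := by
      rw [h2, sub_sub_cancel]
    have h7 : ‖ψ‖ ≤ ‖opY m D ζ y' (opY m D ζ y ψ)‖ + ‖opY m D ζ (y' * y - 1) ψ‖ := by
      conv_lhs => rw [h6]
      exact norm_sub_le _ _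
    have h8 : n1 (y' * y - 1) * ‖ψ‖ ≤ 1 / 2 * ‖ψ‖ :=
      mul_le_mul_of_nonneg_right hs.inv (norm_nonneg _)
    have h9 : 2 * n1 y' * ‖opY m D ζ y ψ‖ ≤ C' * ‖opY m D ζ y ψ‖ :=
      mul_le_mul_of_nonneg_right hs.hy' (norm_nonneg _)
    linarith
  have hop := fun ψ φ : HS m X V => hOPS G X V m ψ φ
  have hG1 : ∀ ψ : HS m X V, ‖opG m V ψ‖ = ‖ψ‖ := fun ψ =>
    (hop ψ ψ).2.2.2.2.2.2.2.2.2.2.2.2.2.2.2.2.2.2.1
  have hG2 : ∀ ψ φ : HS m X V, inner ℂ (opG m V ψ) φ = inner ℂ ψ (opG m V φ) := fun ψ φ =>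
    (hop ψ φ).2.2.2.2.2.2.2.2.2.2.2.2.2.2.2.2.2.2.2
  have hn := fun ψ φ : HS m X V => hNRM X V m (wt D C) ψ φ
  have hmain := fun (ζ : ℂ) (hζ : ‖ζ‖ = 1) => hGAB (HS m X V) (opY m D ζ y) (opB m V (wt D C))
    (opP m V Ω) (opG m V) C C' ε hC hC' hε hεC (hY ζ hζ) (hYl ζ hζ)
    (fun ψ φ => (hYYY G X V m D ζ hζ y ψ φ).2.2.2.2.1 hs.herm)
    (fun ψ φ => (hn ψ φ).2.2.1)
    (fun ψ φ => ((hn ψ φ).2.2.2.2.2.1 Ω).2.1) (fun ψ => ((hn ψ ψ).2.2.2.2.2.1 Ω).1)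
    (fun ψ => ((hn ψ ψ).2.2.2.2.2.1 Ω).2.2.2) hG1 hG2
    (fun ψ => (hYYY G X V m D ζ hζ y ψ ψ).2.2.2.2.2.1)
    (fun ψ => (hn ψ ψ).2.2.2.1) (fun ψ => ((hn ψ ψ).2.2.2.2.2.1 Ω).2.2.1)
    (fun ψ => (hn ψ ψ).2.2.2.2.2.2.1 Ω (stpΩ hCNF D hΩ))
    (lowB hNRM D hC hΩ) (upB hNRM D hC hΩ)
  have hE : ∀ g ∈ S, ∀ ψ : HS m X V, _ := fun g hg ψ =>
    hEFR G X V m D S ε (4 * C ^ 2) hε (by positivity) hgood hSi g hg ψ
  refine ⟨?_, ?_, ?_⟩
  · intro ζ hζ ψ hψ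
    refine (hmain ζ hζ).1 ?_ ψ hψ
    intro φ
    have h1 := (hYYY G X V m D ζ hζ y φ φ).2.2.2.2.2.2 (wt D C) S ε (4 * C * Real.sqrt ε) hε.le
      (by positivity) hS (fun g hg ψ => by
        have h2 := (hE g hg ψ).1 ζ hζ
        rw [sqrt_eq hC hε] at h2
        exact h2)
    refine h1.trans (mul_le_mul_of_nonneg_right hs.hy ?_)
    positivity
  · intro ψ hψ u hu hu1
    have h1z : ‖(1 : ℂ)‖ = 1 := norm_one
    refine (hmain 1 h1z).2 ?_ ψ hψ u hu hu1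
    intro φ
    have h1 := (hYYY G X V m D 1 h1z y φ φ).2.2.2.2.2.2 (wt D C) S ε 0 hε.le le_rfl hS
      (fun g hg ψ => by
        have h2 := (hE g hg ψ).2
        rw [zero_mul, add_zero]
        exact h2)
    rw [zero_mul, add_zero] at h1
    exact h1.trans (mul_le_mul_of_nonneg_right hs.hy (by positivity))
  · intro ζ hζ ψ
    refine (((hn _ ψ).2.2.2.2.2.1 Ω).2.2.2).trans ?_
    refine (hY ζ hζ _).trans ?_
    rw [hG1]

omit [CompleteSpace V] in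
/-- from estimates of the norms to estimates of the matrices -/
theorem bdm (hBRG : SpecBRG) (D : Dat G X) (w : X → ℝ) (Ω : Finset (Conf m X))
    (y : MonoidAlgebra (V →L[ℂ] V) G) (u : ℝ) (ζ : ℂ) {e K : ℝ} (he : 0 ≤ e) (hK : 0 ≤ K)
    (h : ∀ ψ : HS m X V, (∃ φ : Ω → V, ψ = emb m Ω φ) →
      e * ‖ψ‖ ≤ ‖opP m V Ω ((u : ℂ) • opY m D ζ y (opG m V ψ) + opB m V w ψ)‖ ∧
      ‖opP m V Ω ((u : ℂ) • opY m D ζ y (opG m V ψ) + opB m V w ψ)‖ ≤ K * ‖ψ‖) :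
    BdM (Matrix.of fun c' c => ev (LM m D w Ω y u ζ c' c)) e K := by
  intro ψ
  have h1 := (hBRG G X V m D w Ω y u ζ ψ).1
  have h2 := (hBRG G X V m D w Ω y u ζ ψ).2.1
  have h3 := (hBRG G X V m D w Ω y u ζ
    (fun c' => ∑ c, ev (LM m D w Ω y u ζ c' c) (ψ c))).2.1
  obtain ⟨h4, h5⟩ := h (emb m Ω ψ) ⟨ψ, rfl⟩
  rw [← h1] at h4 h5
  have h6 := pow_le_pow_left₀ (mul_nonneg he (norm_nonneg _)) h4 2
  have h7 := pow_le_pow_left₀ (norm_nonneg _) h5 2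
  rw [mul_pow, h2, h3] at h6 h7
  exact ⟨h6, h7⟩

end main

end BDLM

open Classical BDLM in
theorem specBDL (hGAB : SpecGAB) (hYYY : SpecYYY) (hEFR : SpecEFR) (hNRM : SpecNRM)
    (hBRG : SpecBRG) (hOPS : SpecOPS) (hCNF : SpecCNF) (hVCO : SpecVCO) (hVEX : SpecVEX) :
    SpecBDL := by
  intro G X V _ _ _ _ _ _ m D y y' C C' hs Ω hΩ
  obtain ⟨e1, e2, e3⟩ := est hGAB hYYY hEFR hNRM hOPS hCNF D y y' C C' hs Ω hΩ
  have hC := hs.hC
  have hC' := hs.hC'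
  have hC0 : 0 < C := by linarith
  have hC0' : 0 < C' := by linarith
  have hPB : ∀ ψ : HS m X V, opP m V Ω (opB m V (wt D C) ψ) = opB m V (wt D C) (opP m V Ω ψ) :=
    fun ψ => (hNRM X V m (wt D C) ψ ψ).2.2.2.2.2.2.1 Ω (stpΩ hCNF D hΩ)
  refine ⟨?_, ?_⟩
  · intro ζ hζ
    refine bdm hBRG D (wt D C) Ω y 1 ζ (by positivity) (by positivity) ?_
    rintro ψ ⟨φ, rfl⟩
    have hP := (hBRG G X V m D (wt D C) Ω y 1 ζ φ).2.2.1
    have h1 := e1 ζ hζ (emb m Ω φ) hP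
    have h2 : opP m V Ω (((1 : ℝ) : ℂ) • opY m D ζ y (opG m V (emb m Ω φ)) +
        opB m V (wt D C) (emb m Ω φ)) =
        opP m V Ω (opY m D ζ y (opG m V (emb m Ω φ))) + opB m V (wt D C) (emb m Ω φ) := by
      rw [Complex.ofReal_one, one_smul, map_add, hPB, hP]
    rw [h2]
    exact h1
  · -- the minimal energy
    obtain ⟨ν, hν0, hν⟩ : ∃ ν : ℝ, 0 < ν ∧ ∀ c ∈ Ω.erase 0, ν ≤ en D.ω c := by
      by_cases hne : (Ω.erase 0).Nonempty
      · obtain ⟨c0, hc0, hmin⟩ := (Ω.erase 0).exists_min_image (fun c => en D.ω c) hne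
        exact ⟨en D.ω c0, en_pos D (Finset.mem_erase.1 hc0).1, hmin⟩
      · rw [Finset.not_nonempty_iff_eq_empty] at hne
        refine ⟨1, one_pos, fun c hc => ?_⟩
        rw [hne] at hc
        exact absurd hc (Finset.notMem_empty _)
    set r := Real.sqrt ν with hr
    have hr0 : 0 < r := Real.sqrt_pos.2 hν0
    have hr2 : r ^ 2 = ν := Real.sq_sqrt hν0.le
    set u0 := min 1 r with hu0
    have hu00 : 0 < u0 := lt_min one_pos hr0
    refine ⟨min (u0 / (8 * C')) (C * r), lt_min (by positivity) (by positivity), ?_⟩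
    intro u hu hu1
    have he0 : 0 ≤ min (u0 / (8 * C')) (C * r) := le_min (by positivity) (by positivity)
    refine bdm hBRG D (wt D C) (Ω.erase 0) y u 1 he0 (by positivity) ?_
    rintro ψ ⟨φ, hφ⟩
    have hP' : opP m V (Ω.erase 0) ψ = ψ := by
      rw [hφ]
      exact (hBRG G X V m D (wt D C) (Ω.erase 0) y u 1 φ).2.2.1
    have hsupp : ∀ c, ψ c ≠ 0 → c ∈ Ω.erase 0 := by
      intro c hc
      by_contra h
      exact hc (by rw [← hP', opP_not h])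
    have hψ0 : ψ 0 = 0 := by
      by_contra h
      exact (Finset.mem_erase.1 (hsupp 0 h)).1 rfl
    have hP : opP m V Ω ψ = ψ := by
      ext c
      by_cases h : c ∈ Ω
      · rw [opP_mem h]
      · rw [opP_not h]
        by_contra h'
        exact h (Finset.mem_erase.1 (hsupp c (Ne.symm h'))).2
    have hG0 : opG m V ψ 0 = 0 := by
      unfold opG
      rw [YYYM.Mon_id_apply, hψ0, smul_zero]
    have hΦ0 : ((u : ℂ) • opY m D 1 y (opG m V ψ) + opB m V (wt D C) ψ) 0 = 0 := by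
      rw [Finsupp.add_apply, Finsupp.smul_apply, zeroY hCNF hVCO hVEX D y _ hG0,
        zeroB hCNF hNRM D, smul_zero, add_zero]
    have h2 : opP m V (Ω.erase 0) ((u : ℂ) • opY m D 1 y (opG m V ψ) + opB m V (wt D C) ψ) =
        (u : ℂ) • opP m V Ω (opY m D 1 y (opG m V ψ)) + opB m V (wt D C) ψ := by
      have h3 : opP m V (Ω.erase 0) ((u : ℂ) • opY m D 1 y (opG m V ψ) + opB m V (wt D C) ψ) =
          opP m V Ω ((u : ℂ) • opY m D 1 y (opG m V ψ) + opB m V (wt D C) ψ) := by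
        ext c
        by_cases h : c ∈ Ω
        · by_cases hc : c = 0
          · rw [opP_not (by rw [hc]; exact Finset.notMem_erase _ _), opP_mem h, hc, hΦ0]
          · rw [opP_mem (Finset.mem_erase.2 ⟨hc, h⟩), opP_mem h]
        · rw [opP_not h, opP_not fun h' => h (Finset.mem_of_mem_erase h')]
      rw [h3, map_add, map_smul, hPB, hP]
    rw [h2]
    obtain ⟨h4, h5⟩ := e2 ψ hP u hu hu1
    refine ⟨?_, h5⟩
    rcases le_total u0 u with hcase | hcase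
    · refine le_trans ?_ h4
      refine mul_le_mul_of_nonneg_right ((min_le_left _ _).trans ?_) (norm_nonneg _)
      gcongr
    · have hBl : 2 * C * r * ‖ψ‖ ≤ ‖opB m V (wt D C) ψ‖ := by
        refine (pow_le_pow_iff_left₀ (by positivity) (norm_nonneg _) two_ne_zero).1 ?_
        rw [normB hNRM, mul_pow, norm_sq, Finset.mul_sum]
        refine Finset.sum_le_sum fun c hc => ?_
        have h6 := hν c (hsupp c (Finsupp.mem_support_iff.1 hc))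
        have h7 : (2 * C * r) ^ 2 ≤ 4 * C ^ 2 * en D.ω c := by
          rw [mul_pow, hr2, mul_pow]
          have : (0 : ℝ) ≤ 2 ^ 2 * C ^ 2 := by positivity
          nlinarith [mul_le_mul_of_nonneg_left h6 this]
        exact mul_le_mul_of_nonneg_right h7 (sq_nonneg _)
      have h8 := e3 1 norm_one ψ
      have h9 : ‖opB m V (wt D C) ψ‖ ≤
          ‖(u : ℂ) • opP m V Ω (opY m D 1 y (opG m V ψ)) + opB m V (wt D C) ψ‖ +
            ‖(u : ℂ) • opP m V Ω (opY m D 1 y (opG m V ψ))‖ := by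
        have := norm_sub_le ((u : ℂ) • opP m V Ω (opY m D 1 y (opG m V ψ)) + opB m V (wt D C) ψ)
          ((u : ℂ) • opP m V Ω (opY m D 1 y (opG m V ψ)))
        rwa [add_sub_cancel_left] at this
      have h10 : ‖(u : ℂ) • opP m V Ω (opY m D 1 y (opG m V ψ))‖ ≤ r * (C * ‖ψ‖) := by
        rw [norm_smul, Complex.norm_real, Real.norm_of_nonneg hu]
        exact mul_le_mul (hcase.trans (min_le_right _ _)) h8 (norm_nonneg _) hr0.le
      have h11 : min (u0 / (8 * C')) (C * r) * ‖ψ‖ ≤ C * r * ‖ψ‖ :=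
        mul_le_mul_of_nonneg_right (min_le_right _ _) (norm_nonneg _)
      nlinarith [norm_nonneg ψ]

end Pool.Agent.Lib.MP8a3537.AM
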