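import Pool.Agent.Lib.MP_8a3537_gt.AM.Defs

/-!
# MP_8a3537_gt, block AM: the core theorem (statement)

`A[G] = MonoidAlgebra A G` for the algebra `A` of bounded operators on a Hilbert space `H`.
Proof: /team-store/MP_8a3537_gt_AMENABLE.md (helper76), graded form.
-/

set_option autoImplicit false

namespace Pool.Agent.Lib.MP8a3537.AM

open Pool.Agent.Lib.MP8a3537.SG
open scoped BigOperators

section
variable {A G : Type} [Group G]

/-- the augmentation: sum of the coefficients -/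
noncomputable def ev [Ring A] : MonoidAlgebra A G →+* A :=
  MonoidAlgebra.liftNCRingHom (RingHom.id A) (1 : G →* A) fun _ _ => Commute.one_right _

/-- sum of the norms of the coefficients -/
noncomputable def n1 [NormedRing A] (y : MonoidAlgebra A G) : ℝ :=
  ∑ g ∈ y.coeff.support, ‖y.coeff g‖

/-- hermitian: `y_(g⁻¹) = (y_g)^*` -/
def Herm [Ring A] [StarRing A] (y : MonoidAlgebra A G) : Prop :=
  ∀ g, y.coeff g⁻¹ = star (y.coeff g)

/-- the product of the coefficients of a word -/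
noncomputable def wd [Ring A] (y : MonoidAlgebra A G) (l : List G) : A :=
  (l.map fun g => y.coeff g).prod

/-- `w` is a trace on the algebra generated by the coefficients -/
def Cyc [Ring A] [Algebra ℂ A] (w : A → ℂ) (y : MonoidAlgebra A G) : Prop :=
  ∀ a ∈ Algebra.adjoin ℂ (Set.range fun g => y.coeff g),
    ∀ b ∈ Algebra.adjoin ℂ (Set.range fun g => y.coeff g), w (a * b) = w (b * a)

end

/-- `s` is the sign of `a` -/
def Sg {A : Type} [Ring A] [StarRing A] (a s : A) : Prop :=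
  star s = s ∧ s * s = 1 ∧ s * a = a * s ∧ ∃ t, s * a = star t * t

/-- **CORE** for the group `G`.  `y_i` hermitian and (up to `1/2`) invertible elements of
`B(H_i)[G]`, `w_i` bounded functionals on `B(H_i)` which are traces on the coefficients and agree
on the words with product `1` in `G`.  Then `w_1 (sign (ev y_1)) = w_2 (sign (ev y_2))`. -/
def Core (G : Type) [Group G] : Prop :=
  ∀ (H₁ H₂ : Type) [NormedAddCommGroup H₁] [InnerProductSpace ℂ H₁] [CompleteSpace H₁]
    [NormedAddCommGroup H₂] [InnerProductSpace ℂ H₂] [CompleteSpace H₂]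
    (y₁ y₁' : MonoidAlgebra (H₁ →L[ℂ] H₁) G) (y₂ y₂' : MonoidAlgebra (H₂ →L[ℂ] H₂) G)
    (w₁ : (H₁ →L[ℂ] H₁) →L[ℂ] ℂ) (w₂ : (H₂ →L[ℂ] H₂) →L[ℂ] ℂ),
    Herm y₁ → Herm y₂ → n1 (y₁' * y₁ - 1) ≤ 1 / 2 → n1 (y₂' * y₂ - 1) ≤ 1 / 2 →
    Cyc w₁ y₁ → Cyc w₂ y₂ → (∀ l : List G, l.prod = 1 → w₁ (wd y₁ l) = w₂ (wd y₂ l)) →
    ∀ S₁ S₂, Sg (ev y₁) S₁ → Sg (ev y₂) S₂ → w₁ S₁ = w₂ S₂

/-- CORE (from the blocks M and C). -/
def SpecCORE : Prop := ∀ (G : Type) [Group G], W G → Core G

end Pool.Agent.Lib.MP8a3537.AM
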