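import Pool.Agent.Lib.MP_8a3537_gt.TW.Spec

/-!
# Signatures for torsion-free amenable groups: definitions (MP_8a3537_gt, folder AM)

Configurations, signs, commensurated sets with weights, the property W.
Paper proof: /team-store/MP_8a3537_gt_AMENABLE.md
-/

set_option linter.unusedVariables false

namespace Pool.Agent.Lib.MP8a3537.AM

open scoped BigOperators
open Pool.Agent.Lib.MP8a3537.SG

/-! ## The signature theorem over `C[G]` -/

/-- the trace of the sign of `x` is `σ` -/
def HasSg {Q ι : Type} [Group Q] [Fintype ι] [DecidableEq ι] (x : Matrix ι ι (CG Q)) (σ : ℂ) : Prop :=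
  ∃ b0 : ℝ, 0 < b0 ∧ ∀ b : ℝ, 0 < b → b ≤ b0 →
    Filter.Tendsto (fun j => tau (it ((b : ℂ) • x) j)) Filter.atTop (nhds σ)

/-- the signature theorem for the group `G` -/
def SgnP (G : Type) [Group G] : Prop :=
  ∀ (ι : Type) [Fintype ι] [DecidableEq ι] (y : Matrix ι ι (CG G)), IsHerm y → IsUnit y →
    HasSg y ((sgn (augM y) : ℤ) : ℂ)

/-! ## Configurations -/

/-- configurations: finitely supported functions with values in `{0,...,2m}` -/
abbrev Conf (m : ℕ) (X : Type) := X →₀ Fin (2 * m + 1)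

/-- the involution `0 -> 0`, `2i-1 <-> 2i` -/
def mu (m : ℕ) (p : Fin (2 * m + 1)) : Fin (2 * m + 1) :=
  ⟨if (p : ℕ) = 0 then 0 else if (p : ℕ) % 2 = 1 then p + 1 else p - 1, by
    have := p.2
    split_ifs <;> omega⟩

section conf

variable {G X J : Type} [Group G] [MulAction G X] [LinearOrder X] {m : ℕ}

/-- apply `mu` at the site `x` -/
noncomputable def stp (x : X) (c : Conf m X) : Conf m X := c.update x (mu m (c x))

/-- apply `p -> 2m - p` at the sites in `A` -/
noncomputable def flp (A : Finset X) (c : Conf m X) : Conf m X :=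
  Finsupp.onFinset (c.support ∪ A) (fun x => if x ∈ A then (c x).rev else c x) (by
    intro x hx
    rw [Finset.mem_union]
    by_cases h : x ∈ A
    · exact Or.inr h
    · rw [if_neg h] at hx
      exact Or.inl (Finsupp.mem_support_iff.mpr hx))

/-- the action of the group: `(act g c) (g x) = c x` -/
noncomputable def act (g : G) (c : Conf m X) : Conf m X := c.equivMapDomain (MulAction.toPerm g)

/-- the set of sites with odd value -/
noncomputable def odd (c : Conf m X) : Finset X := c.support.filter fun x => (c x : ℕ) % 2 = 1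

/-- the sign of `b_x` -/
noncomputable def sx (x : X) (c : Conf m X) : ℂ := (-1) ^ ((odd c).filter fun y => y < x).card

/-- the sign of `U_g` : inversions of `g` on the odd sites -/
noncomputable def sg (g : G) (c : Conf m X) : ℂ :=
  (-1) ^ ((odd c ×ˢ odd c).filter fun p => p.1 < p.2 ∧ g • p.2 < g • p.1).card

/-- the grading -/
noncomputable def gam (c : Conf m X) : ℂ := (-1) ^ (odd c).card

/-- the energy -/
noncomputable def en (ω : X → ℝ) (c : Conf m X) : ℝ := ∑ x ∈ c.support, ω x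

end conf

/-- the data of the model -/
structure Dat (G X : Type) [Group G] [MulAction G X] where
  /-- the commensurated set -/
  M : Set X
  /-- the weights -/
  ω : X → ℝ
  pos : ∀ x, 0 < ω x
  com : ∀ g : G, {x : X | ¬(x ∈ M ↔ g • x ∈ M)}.Finite
  fin : {x : X | ω x ≤ 1}.Finite

section coeff

variable {G X : Type} [Group G] [MulAction G X] [LinearOrder X] (m : ℕ)

/-- the phases `ζ^(1_M(x) - 1_M(g x))` -/
noncomputable def ph (D : Dat G X) (ζ : ℂ) (g : G) (x : X) : ℂ :=
  open Classical in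
  if x ∈ D.M then (if g • x ∈ D.M then 1 else ζ) else (if g • x ∈ D.M then (starRingEnd ℂ) ζ else 1)

/-- the coefficient of `δ_c'` in `V_g δ_c` -/
noncomputable def vco (D : Dat G X) (ζ : ℂ) (g : G) (c' c : Conf m X) : ℂ :=
  open Classical in
  ∑ A ∈ (D.com g).toFinset.powerset, if act g (flp A c) = c' then
    sg g c * ((∏ x ∈ A, (1 - ph D ζ g x) / 2) * ∏ x ∈ (D.com g).toFinset \ A, (1 + ph D ζ g x) / 2) else 0

/-- the coefficient of `δ_c'` in `B δ_c` -/
noncomputable def bco (w : X → ℝ) (c' c : Conf m X) : ℂ :=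
  open Classical in ∑ x ∈ c.support, if stp x c = c' then (w x : ℂ) * sx x c else 0

/-- the level sets `{x : t < u_x(c)}`, `u_x(c) = 2m - c x` on `M`, `c x` elsewhere -/
def Lev {m : ℕ} (D : Dat G X) (c : Conf m X) (t : ℕ) : Set X :=
  {x | (x ∈ D.M ∧ t < ((c x).rev : ℕ)) ∨ (x ∉ D.M ∧ t < (c x : ℕ))}

open Classical in
/-- the number of `t < 2m` such that the level set of `c'` is not the translate by `q` of the one of `c` -/
noncomputable def ndf {m : ℕ} (D : Dat G X) (c' c : Conf m X) (q : G) : ℕ :=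
  ((Finset.range (2 * m)).filter fun t => ∃ x, ¬(x ∈ Lev D c t ↔ q • x ∈ Lev D c' t)).card

/-- `Ω` is the set of all configurations of energy at most 1 -/
def Full {m : ℕ} (D : Dat G X) (Ω : Finset (Conf m X)) : Prop := ∀ c, c ∈ Ω ↔ en D.ω c ≤ 1

end coeff

/-! ## The property W -/

/-- almost invariant weights -/
def Dat.Good {G X : Type} [Group G] [MulAction G X] (D : Dat G X) (S : Finset G) (ε : ℝ) : Prop :=
  (∀ s ∈ S, ∀ x, D.ω (s • x) ≤ (1 + ε) * D.ω x) ∧ ∀ s ∈ S, ∑ x ∈ (D.com s).toFinset, D.ω x ≤ ε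

/-- no nontrivial element fixes a set close to `M` -/
def Dat.Free {G X : Type} [Group G] [MulAction G X] (D : Dat G X) : Prop :=
  ∀ q : G, q ≠ 1 → ∀ N : Set X, (∃ F : Finset X, (∀ x, ¬(x ∈ N ↔ x ∈ D.M) → x ∈ F) ∧ ∑ x ∈ F, D.ω x ≤ 1) →
    ∃ x, ¬(x ∈ N ↔ q • x ∈ N)

/-- the property W -/
def W (G : Type) [Group G] : Prop :=
  ∀ (S : Finset G) (ε : ℝ), 0 < ε → ∃ (X : Type) (_ : MulAction G X) (D : Dat G X), D.Good S ε ∧ D.Free

/-- torsion-free amenable groups (Foelner condition) -/
def TFA (G : Type) [Group G] : Prop :=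
  (∀ x : G, ∀ n : ℕ, 0 < n → x ^ n = 1 → x = 1) ∧
  ∀ (S : Finset G) (ε : ℝ), 0 < ε → ∃ F : Finset G, F.Nonempty ∧
    ∀ s ∈ S, ((open Classical in F.filter fun x => s * x ∉ F).card : ℝ) ≤ ε * F.card

/-- groups with a commensurating action without elliptic elements -/
def CNE (G : Type) [Group G] : Prop :=
  ∃ (X : Type) (_ : MulAction G X) (M : Set X), (∀ g : G, {x : X | ¬(x ∈ M ↔ g • x ∈ M)}.Finite) ∧
    ∀ q : G, q ≠ 1 → ∀ N : Set X, {x : X | ¬(x ∈ N ↔ x ∈ M)}.Finite → ∃ x, ¬(x ∈ N ↔ q • x ∈ N)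

/-- every nontrivial element survives in a group with property W -/
def RW (G : Type) [Group G] : Prop :=
  ∀ g : G, g ≠ 1 → ∃ (K : Type) (_ : Group K) (f : G →* K), f g ≠ 1 ∧ W K

end Pool.Agent.Lib.MP8a3537.AM
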