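import Pool.Agent.Lib.MP_8a3537_gt.AM.Spec
import Pool.Agent.Lib.MP_8a3537_gt.AM.CDef

/-!
# Signatures for torsion-free amenable groups: the model over a Hilbert space (MP_8a3537_gt, folder AM)

Paper proof: /team-store/MP_8a3537_gt_AMENABLE.md
-/

set_option linter.unusedVariables false
set_option warn.classDefReducibility false

namespace Pool.Agent.Lib.MP8a3537.AM

open scoped BigOperators
open Pool.Agent.Lib.MP8a3537.SG

/-! ## The pre-Hilbert space of finitely supported functions -/

section hilbert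

variable {T V : Type} [NormedAddCommGroup V] [InnerProductSpace ℂ V]

/-- the inner product `sum <f t, g t>` of finitely supported functions -/
noncomputable def fin2 (f g : T →₀ V) : ℂ := ∑ t ∈ f.support, inner ℂ (f t) (g t)

theorem fin2_eq (f g : T →₀ V) (A : Finset T) (hA : f.support ⊆ A) :
    fin2 f g = ∑ t ∈ A, inner ℂ (f t) (g t) := by
  refine Finset.sum_subset hA fun t _ ht => ?_
  rw [Finsupp.notMem_support_iff.mp ht, inner_zero_left]

theorem fin2_eq' (f g : T →₀ V) (A : Finset T) (hA : g.support ⊆ A) :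
    fin2 f g = ∑ t ∈ A, inner ℂ (f t) (g t) := by
  classical
  rw [fin2_eq f g (A ∪ f.support) Finset.subset_union_right]
  symm
  refine Finset.sum_subset Finset.subset_union_left fun t _ ht => ?_
  rw [Finsupp.notMem_support_iff.mp fun h => ht (hA h), inner_zero_right]

/-- the core of the inner product space -/
noncomputable def fcore (T V : Type) [NormedAddCommGroup V] [InnerProductSpace ℂ V] :
    InnerProductSpace.Core ℂ (T →₀ V) where
  inner f g := fin2 f g
  conj_inner_symm f g := by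
    rw [fin2_eq' g f f.support (Finset.Subset.refl _), fin2, map_sum]
    exact Finset.sum_congr rfl fun t _ => inner_conj_symm _ _
  re_inner_nonneg f := by
    rw [fin2, map_sum]
    exact Finset.sum_nonneg fun t _ => inner_self_nonneg
  add_left f g h := by
    classical
    rw [fin2_eq' _ h h.support (Finset.Subset.refl _), fin2_eq' f h h.support (Finset.Subset.refl _),
      fin2_eq' g h h.support (Finset.Subset.refl _), ← Finset.sum_add_distrib]
    exact Finset.sum_congr rfl fun t _ => by rw [Finsupp.add_apply, inner_add_left]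
  smul_left f g r := by
    rw [fin2_eq' _ g g.support (Finset.Subset.refl _), fin2_eq' f g g.support (Finset.Subset.refl _),
      Finset.mul_sum]
    exact Finset.sum_congr rfl fun t _ => by rw [Finsupp.smul_apply, inner_smul_left]
  definite f h := by
    have h1 : ∑ t ∈ f.support, ‖f t‖ ^ 2 = 0 := by
      have h2 : (fin2 f f).re = 0 := by rw [show fin2 f f = 0 from h]; rfl
      rw [← h2, fin2, Complex.re_sum]
      exact Finset.sum_congr rfl fun t _ => (inner_self_eq_norm_sq (𝕜 := ℂ) (f t)).symm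
    ext t
    by_contra h2
    have h3 := (Finset.sum_eq_zero_iff_of_nonneg (fun t _ => sq_nonneg ‖f t‖)).mp h1 t
      (Finsupp.mem_support_iff.mpr h2)
    exact h2 (norm_eq_zero.mp ((pow_eq_zero_iff two_ne_zero).mp h3))

/-- the `ℓ²` norm on finitely supported functions -/
noncomputable scoped instance fnorm : NormedAddCommGroup (T →₀ V) := (fcore T V).toNormedAddCommGroup

/-- the inner product space of finitely supported functions -/
noncomputable scoped instance finner : InnerProductSpace ℂ (T →₀ V) := InnerProductSpace.ofCore (fcore T V).toCore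

theorem inner_def (f g : T →₀ V) : inner ℂ f g = fin2 f g := rfl

theorem norm_sq (f : T →₀ V) : ‖f‖ ^ 2 = ∑ t ∈ f.support, ‖f t‖ ^ 2 := by
  rw [← inner_self_eq_norm_sq (𝕜 := ℂ), inner_def, fin2, map_sum]
  exact Finset.sum_congr rfl fun t _ => inner_self_eq_norm_sq (𝕜 := ℂ) (f t)

theorem inner_single [DecidableEq T] (t u : T) (a b : V) :
    inner ℂ (Finsupp.single t a) (Finsupp.single u b) = if t = u then inner ℂ a b else 0 := by
  rw [inner_def, fin2_eq _ _ {t} Finsupp.support_single_subset, Finset.sum_singleton, Finsupp.single_eq_same,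
    Finsupp.single_apply]
  by_cases h : t = u
  · subst h; simp
  · rw [if_neg h, if_neg fun h' => h h'.symm, inner_zero_right]

/-- the operator `δ_t v -> δ_(f t) (a t v)` on finitely supported functions -/
noncomputable def Mon {T T' : Type} (V : Type) [NormedAddCommGroup V] [InnerProductSpace ℂ V] (f : T → T') (a : T → ℂ) :
    (T →₀ V) →ₗ[ℂ] (T' →₀ V) :=
  Finsupp.lsum ℂ fun t => a t • (Finsupp.lsingle (f t) : V →ₗ[ℂ] (T' →₀ V))

end hilbert

/-! ## The operators of the model -/

/-- the Hilbert space of the model -/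
abbrev HS (m : ℕ) (X V : Type) [NormedAddCommGroup V] := Conf m X →₀ V

section ops

variable {G X : Type} [Group G] [MulAction G X] [LinearOrder X] (m : ℕ) (V : Type) [NormedAddCommGroup V] [InnerProductSpace ℂ V]

/-- the permutation operator with Koszul sign -/
noncomputable def opU (g : G) : HS m X V →ₗ[ℂ] HS m X V := Mon V (fun c => act g c) fun c => sg g c

/-- the flip of the sites in `A` -/
noncomputable def opF (A : Finset X) : HS m X V →ₗ[ℂ] HS m X V := Mon V (fun c => flp A c) fun _ => 1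

/-- the odd operator `b` at the site `x` -/
noncomputable def opb (x : X) : HS m X V →ₗ[ℂ] HS m X V := Mon V (fun c => stp x c) fun c => if c x = 0 then 0 else sx x c

/-- the grading operator -/
noncomputable def opG : HS m X V →ₗ[ℂ] HS m X V := Mon V (fun c => c) fun c => gam c

/-- the projection to the span of the configurations in `Ω` -/
noncomputable def opP (Ω : Finset (Conf m X)) : HS m X V →ₗ[ℂ] HS m X V :=
  open Classical in Mon V (fun c => c) fun c => if c ∈ Ω then 1 else 0

/-- `prod_(x in A) ((1 + z x)/2 + (1 - z x)/2 rev_x)` -/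
noncomputable def opR (A : Finset X) (z : X → ℂ) : HS m X V →ₗ[ℂ] HS m X V :=
  ∑ D ∈ A.powerset, ((∏ x ∈ D, (1 - z x) / 2) * ∏ x ∈ A \ D, (1 + z x) / 2) • opF m V D

/-- `B = sum_x w_x b_x` -/
noncomputable def opB (w : X → ℝ) : HS m X V →ₗ[ℂ] HS m X V :=
  Finsupp.lsum ℂ fun c => ∑ x ∈ c.support, ((w x : ℂ) * sx x c) • (Finsupp.lsingle (stp x c) : V →ₗ[ℂ] HS m X V)

/-- the representation `V_g` -/
noncomputable def opV (D : Dat G X) (ζ : ℂ) (g : G) : HS m X V →ₗ[ℂ] HS m X V :=
  opU m V g ∘ₗ opR m V (D.com g).toFinset (ph D ζ g)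

variable {V}

/-- an operator of `V` applied to all values -/
noncomputable def lft (X : Type) (A : V →L[ℂ] V) : HS m X V →ₗ[ℂ] HS m X V := Finsupp.mapRange.linearMap (A : V →ₗ[ℂ] V)

/-- the operator `Y = sum V_g ⊗ y_g` -/
noncomputable def opY (D : Dat G X) (ζ : ℂ) (y : MonoidAlgebra (V →L[ℂ] V) G) : HS m X V →ₗ[ℂ] HS m X V :=
  y.coeff.sum fun g A => opV m V D ζ g ∘ₗ lft m X A

/-- the embedding of functions on `Ω` -/
noncomputable def emb (Ω : Finset (Conf m X)) (ψ : Ω → V) : HS m X V := ∑ c : Ω, Finsupp.single (c : Conf m X) (ψ c)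

/-- the compression of `u Y Γ + B` to the configurations in `Ω`, as a matrix over the group ring with operator coefficients -/
noncomputable def LM (D : Dat G X) (w : X → ℝ) (Ω : Finset (Conf m X)) (y : MonoidAlgebra (V →L[ℂ] V) G) (u : ℝ) (ζ : ℂ) :
    Matrix Ω Ω (MonoidAlgebra (V →L[ℂ] V) G) :=
  Matrix.of fun c' c => (y.coeff.sum fun g A => MonoidAlgebra.single g (((u : ℂ) * gam (c : Conf m X) * vco m D ζ g c' c) • A)) +
    MonoidAlgebra.single 1 (bco m w c' c • (1 : V →L[ℂ] V))

end ops

section coeffs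

variable {V : Type} [NormedAddCommGroup V] [InnerProductSpace ℂ V]

/-- bounds for a matrix of operators, `e ‖ψ‖ <= ‖A ψ‖ <= K ‖ψ‖` for the `ℓ²` norm -/
def BdM {Ω : Type} [Fintype Ω] (A : Matrix Ω Ω (V →L[ℂ] V)) (e K : ℝ) : Prop :=
  ∀ ψ : Ω → V, e ^ 2 * ∑ c, ‖ψ c‖ ^ 2 ≤ ∑ c', ‖∑ c, A c' c (ψ c)‖ ^ 2 ∧ ∑ c', ‖∑ c, A c' c (ψ c)‖ ^ 2 ≤ K ^ 2 * ∑ c, ‖ψ c‖ ^ 2

/-- hermitian matrices of operators -/
def HermM {Ω : Type} (A : Matrix Ω Ω (V →L[ℂ] V)) : Prop := ∀ i j (v w : V), inner ℂ (A j i v) w = inner ℂ v (A i j w)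

end coeffs

/-- the weights of `B` -/
noncomputable def wt {G X : Type} [Group G] [MulAction G X] (D : Dat G X) (C : ℝ) (x : X) : ℝ := Real.sqrt (4 * C ^ 2 * D.ω x)

/-- the data of the main estimate (`y'` is an approximate left inverse of `y`) -/
structure Setup {G X V : Type} [Group G] [MulAction G X] [NormedAddCommGroup V] [InnerProductSpace ℂ V] [CompleteSpace V]
    (D : Dat G X) (y y' : MonoidAlgebra (V →L[ℂ] V) G) (C C' : ℝ) : Prop where
  herm : Herm y
  inv : n1 (y' * y - 1) ≤ 1 / 2
  hC : 1 ≤ C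
  hC' : 1 ≤ C'
  hy : n1 y ≤ C
  hy' : 2 * n1 y' ≤ C'
  good : ∃ (S : Finset G) (ε : ℝ), y.coeff.support ⊆ S ∧ (∀ s ∈ S, s⁻¹ ∈ S) ∧ 0 < ε ∧ ε ≤ (1 / (128 * C ^ 2 * C' ^ 2)) ^ 2 ∧ D.Good S ε

end Pool.Agent.Lib.MP8a3537.AM
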