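import Pool.Agent.Lib.MP_8a3537_gt.AM.ACD

/-!
# MP_8a3537_gt, folder AM: the final statement
-/

set_option linter.unusedVariables false

namespace Pool.Agent.Lib.MP8a3537.AM

open Pool.Agent.Lib.MP8a3537.SG
open Pool.Agent.Lib.MP8a3537.TW
open scoped BigOperators Matrix

theorem final (hC : ∀ (G : Type) [Group G], RC G → RW G) (hRA2 : SpecRA2) (hRB2 : SpecRB2) (hGTR : SpecGTR) (hTG2 : SpecTG2) (hEX2 : SpecEX2)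
    (R E : Type) [Ring R] [StarRing R] [Group E] (H : Subgroup E) [H.Normal]
    (ι : Type) [Fintype ι] [DecidableEq ι] (h : Matrix ι ι (MonoidAlgebra R E)) (ε : ℤ) (c : ℂ)
    (hc : (ε = 1 ∧ c = 1) ∨ (ε = -1 ∧ c = Complex.I)) (hh : EpsHerm ε h) :
    (RC (E ⧸ H) → IsUnit h →
      (∀ (V₁ : Type) [NormedAddCommGroup V₁] [InnerProductSpace ℂ V₁] [CompleteSpace V₁]
        (ψ₁ : MonoidAlgebra R E →+* (V₁ →L[ℂ] V₁)) (ω₁ : (V₁ →L[ℂ] V₁) →L[ℂ] ℂ), StarHom ψ₁ →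
        (∀ x y, ω₁ (ψ₁ x * ψ₁ y) = ω₁ (ψ₁ y * ψ₁ x)) →
        ∃ s : ℂ, ((∃ S, IsSgn (c • h.map ψ₁) S) ∧ ∀ S, IsSgn (c • h.map ψ₁) S → ∑ i, ω₁ (S i i) = s) ∧
        (∀ (V₂ : Type) [NormedAddCommGroup V₂] [InnerProductSpace ℂ V₂] [CompleteSpace V₂]
          (ψ₂ : MonoidAlgebra R E →+* (V₂ →L[ℂ] V₂)) (ω₂ : (V₂ →L[ℂ] V₂) →L[ℂ] ℂ), StarHom ψ₂ →
          (∀ x y, ω₂ (ψ₂ x * ψ₂ y) = ω₂ (ψ₂ y * ψ₂ x)) →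
          (∀ g ∈ H, ∀ r : R, ω₁ (ψ₁ (MonoidAlgebra.single g r)) = ω₂ (ψ₂ (MonoidAlgebra.single g r))) →
          (∃ S, IsSgn (c • h.map ψ₂) S) ∧ ∀ S, IsSgn (c • h.map ψ₂) S → ∑ i, ω₂ (S i i) = s) ∧
        (∀ (B : Type) [CStarAlgebra B] (ψ₂ : MonoidAlgebra R E →+* B) (ω₂ : B →L[ℂ] ℂ), StarHom ψ₂ →
          (∀ g ∈ H, ∀ r : R, ω₁ (ψ₁ (MonoidAlgebra.single g r)) = ω₂ (ψ₂ (MonoidAlgebra.single g r))) →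
          (∀ g ∉ H, ∀ r : R, ω₂ (ψ₂ (MonoidAlgebra.single g r)) = 0) →
          (∃ S, IsSgn (c • h.map ψ₂) S) ∧ ∀ S, IsSgn (c • h.map ψ₂) S → ∑ i, ω₂ (S i i) = s)) ∧
      (∀ (κ₁ κ₂ : Type) [Fintype κ₁] [DecidableEq κ₁] [Fintype κ₂] [DecidableEq κ₂]
        (Φ₁ : MonoidAlgebra R E →+* Matrix κ₁ κ₁ ℂ) (Φ₂ : MonoidAlgebra R E →+* Matrix κ₂ κ₂ ℂ) (k₁ k₂ : ℕ),
        StarHom Φ₁ → StarHom Φ₂ →
        (∀ g ∈ H, ∀ r : R, k₁ * (Φ₁ (MonoidAlgebra.single g r)).trace = k₂ * (Φ₂ (MonoidAlgebra.single g r)).trace) →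
        k₁ * sgn (c • blk Φ₁ h) = k₂ * sgn (c • blk Φ₂ h)) ∧
      (∀ (κ : Type) [Fintype κ] [DecidableEq κ] (Φ : MonoidAlgebra R E →+* Matrix κ κ ℂ)
        (B : Type) [CStarAlgebra B] (ψ : MonoidAlgebra R E →+* B) (ω : B →L[ℂ] ℂ), StarHom Φ → StarHom ψ →
        (∀ g ∈ H, ∀ r : R, ω (ψ (MonoidAlgebra.single g r)) = (Φ (MonoidAlgebra.single g r)).trace) →
        (∀ g ∉ H, ∀ r : R, ω (ψ (MonoidAlgebra.single g r)) = 0) →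
        (∃ S, IsSgn (c • h.map ψ) S) ∧
          ∀ S, IsSgn (c • h.map ψ) S → ∑ i, ω (S i i) = ((sgn (c • blk Φ h) : ℤ) : ℂ))) ∧
    (∀ (z : E) (K Z : Subgroup E) [K.Normal] [Z.Normal], (∀ g, g * z = z * g) → ZN (z : E ⧸ H) →
      K = H ⊔ Subgroup.zpowers z → Z = Subgroup.zpowers z → RC (E ⧸ K) →
      IsUnit (h.map (MonoidAlgebra.mapDomainRingHom R (QuotientGroup.mk' Z))) →
      ∀ (κ₀ : Type) [Fintype κ₀] [DecidableEq κ₀] (Φ₀ : MonoidAlgebra R E →+* Matrix κ₀ κ₀ ℂ),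
        StarHom Φ₀ → Φ₀ (MonoidAlgebra.single z 1) = 1 →
      ∃ (δ : ℝ) (Q : Polynomial ℚ), 0 < δ ∧ Q.eval 0 = (sgn (c • blk Φ₀ h) : ℤ) ∧
        (∀ (κ : Type) [Fintype κ] [DecidableEq κ] (Φ : MonoidAlgebra R E →+* Matrix κ κ ℂ) (k : ℕ) (θ : ℝ),
          StarHom Φ → |θ| < δ → Φ (MonoidAlgebra.single z 1) = ex θ • (1 : Matrix κ κ ℂ) →
          (∀ g ∈ H, ∀ r : R, (Φ (MonoidAlgebra.single g r)).trace = k * (Φ₀ (MonoidAlgebra.single g r)).trace) →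
          IsUnit (blk Φ h) ∧ ((sgn (c • blk Φ h) : ℤ) : ℝ) = k * Polynomial.aeval θ Q) ∧
        (∀ (B : Type) [CStarAlgebra B] (ψ : MonoidAlgebra R E →+* B) (ω : B →L[ℂ] ℂ) (θ : ℝ),
          StarHom ψ → |θ| < δ → ψ (MonoidAlgebra.single z 1) = ex θ • (1 : B) →
          (∀ g ∈ H, ∀ r : R, ω (ψ (MonoidAlgebra.single g r)) = (Φ₀ (MonoidAlgebra.single g r)).trace) →
          (∀ g ∉ K, ∀ r : R, ω (ψ (MonoidAlgebra.single g r)) = 0) → IsUnit (h.map ψ) →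
          (∃ S, IsSgn (c • h.map ψ) S) ∧
            ∀ S, IsSgn (c • h.map ψ) S → ∑ i, ω (S i i) = ((Polynomial.aeval θ Q : ℝ) : ℂ)) ∧
        (Group.FG E → ∀ (M : ℕ) (p : ℤ), 0 < M →
          ∃ (κ : Type) (_ : Fintype κ) (_ : DecidableEq κ) (Φ : MonoidAlgebra R E →+* Matrix κ κ ℂ) (k : ℕ),
            0 < k ∧ StarHom Φ ∧ Φ (MonoidAlgebra.single z 1) = ex (p / M) • (1 : Matrix κ κ ℂ) ∧
            ∀ g ∈ H, ∀ r : R,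
              (Φ (MonoidAlgebra.single g r)).trace = k * (Φ₀ (MonoidAlgebra.single g r)).trace)) := by
  refine ⟨fun hH hu => ⟨?_, ?_, ?_⟩, ?_⟩
  · intro V₁ _ _ _ ψ₁ ω₁ h1 h2
    obtain ⟨⟨S, hS⟩, hA, hB⟩ := hGTR R E H (hC _ hH) ι h ε c hc hh hu V₁ ψ₁ ω₁ h1 h2
    refine ⟨∑ i, ω₁ (S i i), ⟨⟨S, hS⟩, fun S' hS' => ?_⟩, ?_, ?_⟩
    · exact hA V₁ ψ₁ ω₁ h1 h2 (fun _ _ _ => rfl) S' S hS' hS
    · intro V₂ _ _ _ ψ₂ ω₂ h3 h4 h5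
      refine ⟨(hGTR R E H (hC _ hH) ι h ε c hc hh hu V₂ ψ₂ ω₂ h3 h4).1, fun S' hS' => ?_⟩
      exact (hA V₂ ψ₂ ω₂ h3 h4 h5 S S' hS hS').symm
    · intro B _ ψ₂ ω₂ h3 h5 h6
      obtain ⟨hex, hval⟩ := hB B ψ₂ ω₂ h3 (fun g hg r => (h5 g hg r).symm) h6
      exact ⟨hex, fun S' hS' => hval S S' hS hS'⟩
  · intro κ₁ κ₂ _ _ _ _ Φ₁ Φ₂ k₁ k₂ h1 h2 h3
    exact hRA2 R E H (hC _ hH) ι h ε c hc hh hu κ₁ κ₂ Φ₁ Φ₂ k₁ k₂ h1 h2 h3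
  · intro κ _ _ Φ B _ ψ ω h1 h2 h3 h4
    exact hRB2 R E H (hC _ hH) ι h ε c hc hh hu κ Φ B ψ ω h1 h2 h3 h4
  · intro z K Z _ _ hz hzH hK hZ hKr hu κ₀ _ _ Φ₀ h1 h2
    obtain ⟨δ, Q, hδ, hQ, hA, hB⟩ := hTG2 R E H K Z z hzH (hC _ hKr) hz hK hZ ι h ε c hc hh hu κ₀ Φ₀ h1 h2
    refine ⟨δ, Q, hδ, hQ, ?_, ?_, ?_⟩
    · intro κ _ _ Φ k θ a1 a2 a3 a4
      exact hA κ Φ k θ a1 a2 a3 a4
    · intro B _ ψ ω θ a1 a2 a3 a4 a5 a6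
      exact hB B ψ ω θ a1 a2 a3 a4 a5 a6
    · intro hFG M p hM
      exact hEX2 R E H z hFG hzH hz κ₀ Φ₀ h1 h2 M hM p

end Pool.Agent.Lib.MP8a3537.AM
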