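import Pool.Agent.Lib.MP_8a3537_gt.AM.SpecC

/-!
# Module ITS: the iteration and sums, negatives, conjugates, corners
-/

set_option linter.unusedVariables false
set_option autoImplicit false

namespace Pool.Agent.Lib.MP8a3537.AM

open Pool.Agent.Lib.MP8a3537.SG Pool.Agent.Lib.MP8a3537.TW

namespace ITSM

section

variable {A : Type} [Ring A] [Algebra ℂ A]

theorem it_succ (x : A) (j : ℕ) :
    it x (j + 1) = (3 / 2 : ℂ) • it x j - (1 / 2 : ℂ) • (it x j) ^ 3 := rfl

theorem step_mul (a b : A) (h : a * b = 0) :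
    ((3 / 2 : ℂ) • a - (1 / 2 : ℂ) • a ^ 3) * ((3 / 2 : ℂ) • b - (1 / 2 : ℂ) • b ^ 3) = 0 := by
  have h1 : a * b ^ 3 = 0 := by rw [pow_succ', ← mul_assoc, h, zero_mul]
  have h2 : a ^ 3 * b = 0 := by rw [pow_succ, mul_assoc, h, mul_zero]
  have h3 : a ^ 3 * b ^ 3 = 0 := by rw [pow_succ, mul_assoc, h1, mul_zero]
  rw [sub_mul, mul_sub, mul_sub]
  simp only [smul_mul_assoc, mul_smul_comm, h, h1, h2, h3, smul_zero, sub_zero]

theorem cube_add (a b : A) (h : a * b = 0) (h' : b * a = 0) : (a + b) ^ 3 = a ^ 3 + b ^ 3 := by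
  have e : (a + b) ^ 3 = (a + b) * ((a + b) * (a + b)) := by rw [pow_succ', pow_two]
  have e2 : (a + b) * (a + b) = a * a + b * b := by
    rw [add_mul, mul_add, mul_add, h, h', add_zero, zero_add]
  rw [e, e2, add_mul, mul_add, mul_add, ← mul_assoc a b b, h, ← mul_assoc b a a, h', zero_mul,
    zero_mul, add_zero, zero_add, pow_succ', pow_two, pow_succ', pow_two]

theorem add (x y : A) (h : x * y = 0) (h' : y * x = 0) (j : ℕ) :
    it (x + y) j = it x j + it y j ∧ it x j * it y j = 0 ∧ it y j * it x j = 0 := by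
  induction j with
  | zero => exact ⟨rfl, h, h'⟩
  | succ j ih =>
    obtain ⟨h1, h2, h3⟩ := ih
    refine ⟨?_, ?_, ?_⟩
    · rw [it_succ, it_succ, it_succ, h1, cube_add _ _ h2 h3, smul_add, smul_add]
      abel
    · rw [it_succ, it_succ]
      exact step_mul _ _ h2
    · rw [it_succ, it_succ]
      exact step_mul _ _ h3

theorem neg (x : A) (j : ℕ) : it (-x) j = -it x j := by
  induction j with
  | zero => rfl
  | succ j ih =>
    rw [it_succ, it_succ, ih, Odd.neg_pow (by decide), smul_neg, smul_neg, neg_sub]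
    abel

theorem conj (x u : A) (hu : u * u = 1) (j : ℕ) : u * it x j * u = it (u * x * u) j := by
  induction j with
  | zero => rfl
  | succ j ih =>
    have h3 : u * (it x j) ^ 3 * u = (u * it x j * u) ^ 3 := by
      have e : ∀ a b : A, u * (a * b) * u = (u * a * u) * (u * b * u) := by
        intro a b
        calc u * (a * b) * u = u * a * 1 * b * u := by rw [mul_one]; simp only [mul_assoc]
          _ = u * a * (u * u) * b * u := by rw [hu]
          _ = (u * a * u) * (u * b * u) := by simp only [mul_assoc]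
      rw [pow_succ, pow_two, e, e, pow_succ, pow_two]
    rw [it_succ, it_succ, ← ih, ← h3, mul_sub, sub_mul]
    simp only [mul_smul_comm, smul_mul_assoc]

end

theorem corner {H K : Type} [NormedAddCommGroup H] [InnerProductSpace ℂ H]
    [NormedAddCommGroup K] [InnerProductSpace ℂ K]
    (i : H →L[ℂ] K) (p : K →L[ℂ] H) (a : Bo H) (j : ℕ) (hp : p ∘L i = 1) :
    it (i ∘L a ∘L p : Bo K) j = i ∘L (it a j) ∘L p := by
  have hpi : ∀ v, p (i v) = v := by
    intro v
    have := congrArg (fun T : Bo H => T v) hp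
    simpa using this
  induction j with
  | zero => rfl
  | succ j ih =>
    rw [it_succ, it_succ, ih]
    ext v
    simp [pow_succ, hpi]

end ITSM

theorem specITS : SpecITS := by
  refine ⟨?_, ?_⟩
  · intro A _ x y u j
    exact ⟨fun h h' => (ITSM.add x y h h' j).1, ITSM.neg x j, fun hu => ITSM.conj x u hu j⟩
  · intro H K _ _ _ _ _ _ i p a j hp
    exact ITSM.corner i p a j hp

end Pool.Agent.Lib.MP8a3537.AM
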