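import Pool.Agent.Lib.MP_8a3537_gt.AM.SpecF
import Pool.Agent.Lib.MP_8a3537_gt.TW.LIM
import Pool.Agent.Lib.MP_8a3537_gt.SG.SCA

/-! Module LI2 (helper56). -/

set_option autoImplicit false

namespace Pool.Agent.Lib.MP8a3537.AM

open Pool.Agent.Lib.MP8a3537.SG
open Pool.Agent.Lib.MP8a3537.TW
open Filter Topology

theorem specLI2 (hPQ : SpecPQ) (hNBX : SpecNBX) : SpecLI2 := by
  intro G _ hG ι _ _ y hy hu
  obtain ⟨u, rfl⟩ := hu
  obtain ⟨-, -, n3, n4, n5⟩ := hNBX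
  obtain ⟨β, hβ1, hβ⟩ := n4 G ι (u : Matrix ι ι (CG G))
  obtain ⟨β', hβ1', hβ'⟩ := n4 G ι ((u⁻¹ : (Matrix ι ι (CG G))ˣ) : Matrix ι ι (CG G))
  have hβ0 : 0 < β := by linarith
  have hβ0' : 0 < β' := by linarith
  refine ⟨1 / β, by positivity, fun b hb hbb => ?_⟩
  have hb1 : b * β ≤ 1 := by rwa [le_div_iff₀ hβ0] at hbb
  have hb2 : b ≤ 1 := by nlinarith
  have h0 : Nb (0 : Matrix ι ι (CG G)) (1 / 2) := n3 G ι 0 0 (1 / 2) (n5 G ι) (by norm_num)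
  obtain ⟨-, h1⟩ := hPQ G hG ι (u : Matrix ι ι (CG G))
    ((u⁻¹ : (Matrix ι ι (CG G))ˣ) : Matrix ι ι (CG G)) 0 b β β' hy
    (by rw [add_zero]; exact Units.inv_mul u) h0 hβ' hβ hβ0' hb (by linarith) hb1
  rw [tendsto_iff_norm_sub_tendsto_zero]
  have he0 : 0 < b / (2 * β') := by positivity
  have he1 : b / (2 * β') ≤ 1 := by
    rw [div_le_one (by positivity)]
    linarith
  have h4 : Tendsto (fun j => (Fintype.card ι : ℝ) * del (b / (2 * β')) j) atTop (𝓝 0) := by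
    have := (LIMM.del_tendsto specSCA _ he0 he1).const_mul (Fintype.card ι : ℝ)
    rwa [mul_zero] at this
  exact squeeze_zero (fun _ => norm_nonneg _) (fun j => h1 j) h4

end Pool.Agent.Lib.MP8a3537.AM
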