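import Pool.Agent.Lib.MP_8a3537_gt.AM.Spec2

/-!
# RRR: the operators `R(A, z)` (MP_8a3537_gt, folder AM)

Everything by induction on `A`.
-/

set_option linter.unusedVariables false

namespace Pool.Agent.Lib.MP8a3537.AM

open scoped BigOperators
open Pool.Agent.Lib.MP8a3537.SG

namespace RRRM

variable {X V : Type} [LinearOrder X] [NormedAddCommGroup V] [InnerProductSpace ℂ V] {m : ℕ}

theorem opR_apply (A : Finset X) (z : X → ℂ) (ψ : HS m X V) :
    opR m V A z ψ = ∑ D ∈ A.powerset, ((∏ x ∈ D, (1 - z x) / 2) * ∏ x ∈ A \ D, (1 + z x) / 2) • opF m V D ψ := by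
  unfold opR
  rw [LinearMap.sum_apply]
  exact Finset.sum_congr rfl fun D _ => LinearMap.smul_apply _ _ _

theorem opR_congr (A : Finset X) (z z' : X → ℂ) (h : ∀ x ∈ A, z x = z' x) (ψ : HS m X V) :
    opR m V A z ψ = opR m V A z' ψ := by
  rw [opR_apply, opR_apply]
  refine Finset.sum_congr rfl fun D hD => ?_
  have hD' := Finset.mem_powerset.mp hD
  congr 2
  · exact Finset.prod_congr rfl fun x hx => by rw [h x (hD' hx)]
  · exact Finset.prod_congr rfl fun x hx => by rw [h x (Finset.mem_sdiff.mp hx).1]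

theorem opR_insert (hFF : ∀ (A B : Finset X) (ψ : HS m X V), opF m V A (opF m V B ψ) = opF m V (symmDiff A B) ψ)
    (A : Finset X) (z : X → ℂ) (ψ : HS m X V) (x : X) (hx : x ∉ A) :
    opR m V (insert x A) z ψ = ((1 + z x) / 2) • opR m V A z ψ + ((1 - z x) / 2) • opF m V {x} (opR m V A z ψ) := by
  rw [opR_apply, opR_apply, Finset.sum_powerset_insert hx, Finset.smul_sum, map_sum, Finset.smul_sum]
  congr 1
  · refine Finset.sum_congr rfl fun D hD => ?_
    have hxD : x ∉ D := fun h => hx (Finset.mem_powerset.mp hD h)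
    rw [Finset.insert_sdiff_of_notMem _ hxD, Finset.prod_insert (fun h => hx (Finset.mem_sdiff.mp h).1), smul_smul]
    congr 1
    ring
  · refine Finset.sum_congr rfl fun D hD => ?_
    have hxD : x ∉ D := fun h => hx (Finset.mem_powerset.mp hD h)
    have e1 : insert x A \ insert x D = A \ D := by
      ext y
      simp only [Finset.mem_sdiff, Finset.mem_insert, not_or]
      constructor
      · rintro ⟨h1 | h1, h2, h3⟩
        · exact absurd h1 h2
        · exact ⟨h1, h3⟩
      · rintro ⟨h1, h2⟩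
        exact ⟨Or.inr h1, fun h => hx (h ▸ h1), h2⟩
    have e2 : symmDiff {x} D = insert x D := by
      ext y
      rw [Finset.mem_symmDiff, Finset.mem_singleton, Finset.mem_insert]
      constructor
      · rintro (⟨h1, _⟩ | ⟨h1, _⟩)
        · exact Or.inl h1
        · exact Or.inr h1
      · rintro (h1 | h1)
        · exact Or.inl ⟨h1, h1 ▸ hxD⟩
        · exact Or.inr ⟨h1, fun h => hxD (h ▸ h1)⟩
    rw [e1, Finset.prod_insert hxD, map_smul, smul_smul, hFF, e2]
    congr 1
    ring

theorem opR_empty (hF0 : ∀ ψ : HS m X V, opF m V ∅ ψ = ψ) (z : X → ℂ) (ψ : HS m X V) : opR m V ∅ z ψ = ψ := by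
  rw [opR_apply, Finset.powerset_empty, Finset.sum_singleton, Finset.prod_empty, Finset.sdiff_self, Finset.prod_empty, one_mul, one_smul, hF0]

theorem opR_comm (hFF : ∀ (A B : Finset X) (ψ : HS m X V), opF m V A (opF m V B ψ) = opF m V (symmDiff A B) ψ)
    (A B : Finset X) (z : X → ℂ) (ψ : HS m X V) : opF m V B (opR m V A z ψ) = opR m V A z (opF m V B ψ) := by
  rw [opR_apply, opR_apply, map_sum]
  refine Finset.sum_congr rfl fun D _ => ?_
  rw [map_smul, hFF, hFF, symmDiff_comm]

/-- the isometry at one site -/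
theorem iso_one {H : Type} [NormedAddCommGroup H] [InnerProductSpace ℂ H] (φ F : H) (z : ℂ) (hz : ‖z‖ = 1)
    (hn : ‖F‖ = ‖φ‖) (hr : inner ℂ F φ = inner ℂ φ F) : ‖((1 + z) / 2) • φ + ((1 - z) / 2) • F‖ = ‖φ‖ := by
  have h1 : ‖((1 + z) / 2) • φ + ((1 - z) / 2) • F‖ ^ 2 = ‖φ‖ ^ 2 := by
    rw [@norm_add_sq ℂ, norm_smul, norm_smul, hn, inner_smul_left, inner_smul_right, mul_pow, mul_pow]
    have h2 : (inner ℂ φ F : ℂ).im = 0 := by
      have h3 : (starRingEnd ℂ) (inner ℂ φ F) = inner ℂ φ F := by rw [inner_conj_symm, hr]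
      exact Complex.conj_eq_iff_im.mp h3
    have h4 : RCLike.re ((starRingEnd ℂ) ((1 + z) / 2) * ((1 - z) / 2 * inner ℂ φ F)) = 0 := by
      rw [← mul_assoc]
      have h5 : ((starRingEnd ℂ) ((1 + z) / 2) * ((1 - z) / 2)).re = 0 := by
        have h6 : z.re * z.re + z.im * z.im = 1 := by
          rw [← Complex.normSq_apply, Complex.normSq_eq_norm_sq, hz, one_pow]
        simp only [map_div₀, map_add, map_one, Complex.mul_re, Complex.div_re, Complex.div_im, Complex.add_re,
          Complex.add_im, Complex.sub_re, Complex.sub_im, Complex.one_re, Complex.one_im, Complex.conj_re, Complex.conj_im,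
          Complex.normSq_apply, map_ofNat, Complex.re_ofNat, Complex.im_ofNat]
        nlinarith [h6]
      show ((starRingEnd ℂ) ((1 + z) / 2) * ((1 - z) / 2) * inner ℂ φ F).re = 0
      rw [Complex.mul_re, h5, h2, zero_mul, mul_zero, sub_zero]
    rw [h4, mul_zero, add_zero]
    have h7 : ‖(1 + z) / 2‖ ^ 2 + ‖(1 - z) / 2‖ ^ 2 = 1 := by
      have h6 : z.re * z.re + z.im * z.im = 1 := by
        rw [← Complex.normSq_apply, Complex.normSq_eq_norm_sq, hz, one_pow]
      rw [← Complex.normSq_eq_norm_sq, ← Complex.normSq_eq_norm_sq, Complex.normSq_div, Complex.normSq_div]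
      simp only [Complex.normSq_apply, Complex.add_re, Complex.add_im, Complex.sub_re, Complex.sub_im, Complex.one_re,
        Complex.one_im, Complex.re_ofNat, Complex.im_ofNat]
      linarith
    rw [← add_mul, h7, one_mul]
  have h2 := norm_nonneg (((1 + z) / 2) • φ + ((1 - z) / 2) • F)
  have h3 := norm_nonneg φ
  nlinarith

end RRRM

open RRRM

theorem specRRR (hOPS : SpecOPS) : SpecRRR := by
  classical
  intro G X V _ _ _ _ _ m A z z' ψ
  have hF0 : ∀ ψ : HS m X V, opF m V ∅ ψ = ψ := fun ψ => (hOPS G X V m ψ ψ).2.2.2.1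
  have hFF : ∀ (A B : Finset X) (ψ : HS m X V), opF m V A (opF m V B ψ) = opF m V (symmDiff A B) ψ :=
    fun A B ψ => (hOPS G X V m ψ ψ).2.2.2.2.1 A B
  have hFn : ∀ (A : Finset X) (ψ : HS m X V), ‖opF m V A ψ‖ = ‖ψ‖ := fun A ψ => (hOPS G X V m ψ ψ).2.2.2.2.2.1 A
  have hFa : ∀ (A : Finset X) (ψ φ : HS m X V), inner ℂ (opF m V A ψ) φ = inner ℂ ψ (opF m V A φ) :=
    fun A ψ φ => (hOPS G X V m ψ φ).2.2.2.2.2.2.1 A
  have hUF : ∀ (g : G) (A : Finset X) (ψ : HS m X V), opU m V g (opF m V A ψ) = opF m V (A.image fun x => g • x) (opU m V g ψ) :=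
    fun g A ψ => (hOPS G X V m ψ ψ).2.2.2.2.2.2.2.2.2.2.2.2.1 g A
  have hFb : ∀ (A : Finset X) (x : X) (ψ : HS m X V), x ∉ A → opF m V A (opb m V x ψ) = opb m V x (opF m V A ψ) :=
    fun A x ψ h => (hOPS G X V m ψ ψ).2.2.2.2.2.2.2.2.2.2.2.2.2.1 A x h
  have hFG : ∀ (A : Finset X) (ψ : HS m X V), opF m V A (opG m V ψ) = opG m V (opF m V A ψ) :=
    fun A ψ => (hOPS G X V m ψ ψ).2.2.2.2.2.2.2.2.2.2.2.2.2.2.2.1 A
  have hins := fun (A : Finset X) (z : X → ℂ) (ψ : HS m X V) => opR_insert hFF A z ψ
  have hcomm := fun (A B : Finset X) (z : X → ℂ) (ψ : HS m X V) => opR_comm hFF A B z ψ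
  have hF2 : ∀ (x : X) (ψ : HS m X V), opF m V {x} (opF m V {x} ψ) = ψ := by
    intro x ψ
    rw [hFF, symmDiff_self]
    exact hF0 ψ
  refine ⟨hins A z ψ, ?_, ?_, fun h => opR_congr A z z' h ψ, ?_, ?_, ?_, ?_⟩
  · -- multiplicativity
    induction A using Finset.induction_on generalizing ψ with
    | empty => rw [opR_empty hF0, opR_empty hF0, opR_empty hF0]
    | insert x A hx ih =>
      rw [hins A z _ x hx, hins A z' ψ x hx, hins A (fun x => z x * z' x) ψ x hx, ← ih ψ, map_add, map_smul, map_smul,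
        ← hcomm A {x} z, map_add, map_smul, map_smul, hF2]
      generalize opR m V A z (opR m V A z' ψ) = φ
      generalize opF m V {x} φ = φ'
      module
  · -- extension
    intro A' hA h1
    have key : ∀ C : Finset X, (∀ x ∈ C, x ∉ A → z x = 1) → opR m V (A ∪ C) z ψ = opR m V A z ψ := by
      intro C
      induction C using Finset.induction_on with
      | empty => intro _; rw [Finset.union_empty]
      | insert x C hx ih =>
        intro h
        have ih' := ih fun y hy hyA => h y (Finset.mem_insert_of_mem hy) hyA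
        rw [Finset.union_insert]
        by_cases hm : x ∈ A ∪ C
        · rw [Finset.insert_eq_of_mem hm, ih']
        · have hxA : x ∉ A := fun h' => hm (Finset.mem_union_left _ h')
          rw [hins _ z ψ x hm, h x (Finset.mem_insert_self _ _) hxA, ih', sub_self, zero_div, zero_smul, add_zero]
          norm_num
    have h2 := key A' h1
    rwa [Finset.union_eq_right.mpr hA] at h2
  · -- isometry
    intro h
    induction A using Finset.induction_on with
    | empty => rw [opR_empty hF0]
    | insert x A hx ih =>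
      rw [hins A z _ x hx, iso_one _ _ _ (h x (Finset.mem_insert_self _ _)) (hFn _ _) (hFa _ _ _)]
      exact ih fun y hy => h y (Finset.mem_insert_of_mem hy)
  · -- U
    intro g
    induction A using Finset.induction_on with
    | empty => rw [Finset.image_empty, opR_empty hF0, opR_empty hF0]
    | insert x A hx ih =>
      have hgx : g • x ∉ A.image fun x => g • x := by
        intro h
        obtain ⟨y, hy, he⟩ := Finset.mem_image.mp h
        exact hx (by rw [← (MulAction.injective g he : y = x)]; exact hy)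
      rw [Finset.image_insert, hins _ z _ _ hgx, hins A _ ψ x hx, map_add, map_smul, map_smul, hUF, ih, Finset.image_singleton]
  · -- b
    intro x
    induction A using Finset.induction_on with
    | empty => intro _; rw [opR_empty hF0, opR_empty hF0]
    | insert y A hy ih =>
      intro h
      have ih' := ih fun h' => h (Finset.mem_insert_of_mem h')
      rw [hins A z _ y hy, hins A z _ y hy, ih', map_add, map_smul, map_smul]
      by_cases hxy : x = y
      · subst hxy
        rw [h (Finset.mem_insert_self _ _), sub_self, zero_div, zero_smul, zero_smul]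
      · rw [hFb {y} x _ (by rw [Finset.mem_singleton]; exact hxy)]
  · -- Γ
    rw [opR_apply, opR_apply, map_sum]
    refine Finset.sum_congr rfl fun D _ => ?_
    rw [map_smul, hFG]

end Pool.Agent.Lib.MP8a3537.AM
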