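import Pool.Agent.Lib.MP_8a3537_gt.AM.SpecF

/-!
# MP_8a3537_gt, folder AM: `*`-representations of group rings and their signatures

* `Rep R E n`: unital homomorphisms `Φ : R[E] → M_n(ℂ)` with `Φ(r g)* = Φ(r* g⁻¹)`; `Φ.sig c h` is the signature
  (number of positive minus number of negative eigenvalues) of `c Φ(h)`.
* `CRep R E B`: unital homomorphisms `ψ` of `R[E]` to the C*-algebra `B` with the same property, together with a
  bounded linear functional `ω`; `Ψ.HasSig c h s` says that the sign `S` of the selfadjoint matrix `c ψ(h)` exists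
  and has `∑ ω(S_ii) = s`.
-/

namespace Pool.Agent.Lib.MP8a3537.AM

open Pool.Agent.Lib.MP8a3537.SG Pool.Agent.Lib.MP8a3537.TW

/-- `*`-representations of `R[E]` on `ℂ^n` -/
structure Rep (R E : Type) (n : ℕ) [Ring R] [StarRing R] [Group E] where
  /-- the representation -/
  hom : MonoidAlgebra R E →+* Matrix (Fin n) (Fin n) ℂ
  /-- `Φ(r g)^* = Φ(r^* g⁻¹)` -/
  starHom : StarHom hom

/-- `*`-homomorphisms of `R[E]` to a C*-algebra, with a bounded linear functional -/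
structure CRep (R E B : Type) [Ring R] [StarRing R] [Group E] [CStarAlgebra B] where
  /-- the homomorphism -/
  hom : MonoidAlgebra R E →+* B
  /-- the functional -/
  ω : B →L[ℂ] ℂ
  /-- `ψ(r g)^* = ψ(r^* g⁻¹)` -/
  starHom : StarHom hom

section

variable {R E B B₁ B₂ : Type} {n n₁ n₂ : ℕ} [Ring R] [StarRing R] [Group E] [CStarAlgebra B] [CStarAlgebra B₁]
  [CStarAlgebra B₂] {ι : Type} [Fintype ι] [DecidableEq ι]

/-- the trace of `Φ(r g)` -/
noncomputable def Rep.tr (Φ : Rep R E n) (g : E) (r : R) : ℂ := (Φ.hom (MonoidAlgebra.single g r)).trace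

/-- the matrix `Φ(h)` -/
noncomputable def Rep.img (Φ : Rep R E n) (h : Matrix ι ι (MonoidAlgebra R E)) :
    Matrix (ι × Fin n) (ι × Fin n) ℂ := blk Φ.hom h

/-- the signature of `c Φ(h)` -/
noncomputable def Rep.sig (Φ : Rep R E n) (c : ℂ) (h : Matrix ι ι (MonoidAlgebra R E)) : ℤ :=
  sgn (c • Φ.img h)

/-- `Φ(z) = exp(2 π i t)` -/
def Rep.At (Φ : Rep R E n) (z : E) (t : ℝ) : Prop := Φ.hom (MonoidAlgebra.single z 1) = ex t • 1

/-- `k₁ tr Φ₁ = k₂ tr Φ₂` on `R[H]` -/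
def Agree (H : Subgroup E) (k₁ : ℕ) (Φ₁ : Rep R E n₁) (k₂ : ℕ) (Φ₂ : Rep R E n₂) : Prop :=
  ∀ g ∈ H, ∀ r : R, k₁ * Φ₁.tr g r = k₂ * Φ₂.tr g r

/-- `ω(ψ(r g))` -/
noncomputable def CRep.tr (Ψ : CRep R E B) (g : E) (r : R) : ℂ := Ψ.ω (Ψ.hom (MonoidAlgebra.single g r))

/-- the matrix `ψ(h)` -/
noncomputable def CRep.img (Ψ : CRep R E B) (h : Matrix ι ι (MonoidAlgebra R E)) : Matrix ι ι B :=
  h.map Ψ.hom

/-- `ω` is a trace on `ψ(R[E])` -/
def CRep.Tracial (Ψ : CRep R E B) : Prop := ∀ x y, Ψ.ω (Ψ.hom x * Ψ.hom y) = Ψ.ω (Ψ.hom y * Ψ.hom x)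

/-- `ω₁ ψ₁ = ω₂ ψ₂` on `R[H]` -/
def CRep.AgreeOn (H : Subgroup E) (Ψ₁ : CRep R E B₁) (Ψ₂ : CRep R E B₂) : Prop :=
  ∀ g ∈ H, ∀ r : R, Ψ₁.tr g r = Ψ₂.tr g r

/-- `ψ(z) = exp(2 π i t)` -/
def CRep.At (Ψ : CRep R E B) (z : E) (t : ℝ) : Prop := Ψ.hom (MonoidAlgebra.single z 1) = ex t • 1

/-- `ω ψ` is zero at all `r g` with `g` not in `K` -/
def CRep.ZeroOff (Ψ : CRep R E B) (K : Subgroup E) : Prop := ∀ g ∉ K, ∀ r : R, Ψ.tr g r = 0

/-- `ω ψ = tr Φ` on `R[H]`, and `ω ψ` is zero at all `r g` with `g` not in `K` -/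
def CRep.Extends (Ψ : CRep R E B) (H K : Subgroup E) (Φ : Rep R E n) : Prop :=
  (∀ g ∈ H, ∀ r : R, Ψ.tr g r = Φ.tr g r) ∧ Ψ.ZeroOff K

/-- the sign `S` of `c ψ(h)` exists, and `∑ ω(S_ii) = s` -/
def CRep.HasSig (Ψ : CRep R E B) (c : ℂ) (h : Matrix ι ι (MonoidAlgebra R E)) (s : ℂ) : Prop :=
  (∃ S, IsSgn (c • Ψ.img h) S) ∧ ∀ S, IsSgn (c • Ψ.img h) S → ∑ i, Ψ.ω (S i i) = s

/-- the image of `h` over `R[E/Z]` is invertible -/
def InvMod (Z : Subgroup E) [Z.Normal] (h : Matrix ι ι (MonoidAlgebra R E)) : Prop :=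
  IsUnit (h.map (MonoidAlgebra.mapDomainRingHom R (QuotientGroup.mk' Z)))

end

/-- the value `Q(t)` -/
noncomputable def val (Q : Polynomial ℚ) (t : ℝ) : ℝ := Polynomial.aeval t Q

/-- reindexing a representation by `Fin n` -/
noncomputable def toRep {R E : Type} [Ring R] [StarRing R] [Group E] {κ : Type} [Fintype κ] [DecidableEq κ]
    (Φ : MonoidAlgebra R E →+* Matrix κ κ ℂ) (hΦ : StarHom Φ) : Rep R E (Fintype.card κ) where
  hom := ((Matrix.reindexRingEquiv ℂ (Fintype.equivFin κ)).toRingHom).comp Φ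
  starHom := by
    intro g r
    change star (Matrix.reindex (Fintype.equivFin κ) (Fintype.equivFin κ) (Φ (MonoidAlgebra.single g r))) =
      Matrix.reindex (Fintype.equivFin κ) (Fintype.equivFin κ) (Φ (MonoidAlgebra.single g⁻¹ (star r)))
    rw [← hΦ g r]
    rfl

theorem toRep_tr {R E : Type} [Ring R] [StarRing R] [Group E] {κ : Type} [Fintype κ] [DecidableEq κ]
    (Φ : MonoidAlgebra R E →+* Matrix κ κ ℂ) (hΦ : StarHom Φ) (g : E) (r : R) :
    (toRep Φ hΦ).tr g r = (Φ (MonoidAlgebra.single g r)).trace := by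
  change (Matrix.reindex (Fintype.equivFin κ) (Fintype.equivFin κ) (Φ (MonoidAlgebra.single g r))).trace = _
  simp only [Matrix.trace, Matrix.diag_apply, Matrix.reindex_apply, Matrix.submatrix_apply]
  exact Equiv.sum_comp (Fintype.equivFin κ).symm (fun i => (Φ (MonoidAlgebra.single g r)) i i)

end Pool.Agent.Lib.MP8a3537.AM
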