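import Pool.Agent.Lib.MP_8a3537_gt.AM.Defs

/-!
# Specs: signatures for torsion-free amenable groups (MP_8a3537_gt, folder AM), part 1

Combinatorics of configurations, groups with property W, abstract gap lemma.  Paper: /team-store/MP_8a3537_gt_AMENABLE.md.
Every proof is in the docstring.  One module = one file Pool/Agent/Lib/MP_8a3537_gt/AM/XXX.lean, theorem specXXX (hYYY : SpecYYY) ... : SpecXXX.
-/

set_option linter.unusedVariables false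

namespace Pool.Agent.Lib.MP8a3537.AM

open scoped BigOperators
open Pool.Agent.Lib.MP8a3537.SG
open Filter Topology

/-! ## Configurations -/

/-- **CNF** [180 lines].  Pointwise evaluation (`Finsupp.ext`); `mu` is an involution of `{1,...,2m}` without fixed points which changes the parity, `p -> 2m - p` preserves the parity. -/
def SpecCNF : Prop := ∀ (G X : Type) [Group G] [MulAction G X] [LinearOrder X] (m : ℕ) (c : Conf m X),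
  (∀ (g : G) (x : X), act g c (g • x) = c x) ∧ (act (1 : G) c = c) ∧ (∀ g h : G, act (g * h) c = act g (act h c)) ∧ (∀ g : G, act g (0 : Conf m X) = 0) ∧
  (∀ x y, stp x c y = if y = x then mu m (c x) else c y) ∧ (∀ x, c x ≠ 0 → stp x (stp x c) = c) ∧
  (∀ x y, x ≠ y → stp x (stp y c) = stp y (stp x c)) ∧ (∀ (g : G) (x : X), act g (stp x c) = stp (g • x) (act g c)) ∧
  (∀ x, c x ≠ 0 → stp x c x ≠ 0) ∧ (∀ x, c x ≠ 0 → (stp x c).support = c.support) ∧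
  (∀ (A : Finset X) (x : X), flp A c x = if x ∈ A then (c x).rev else c x) ∧ (flp ∅ c = c) ∧
  (∀ A B : Finset X, flp A (flp B c) = flp (symmDiff A B) c) ∧
  (∀ (g : G) (A : Finset X), act g (flp A c) = flp (A.image fun x => g • x) (act g c)) ∧
  (∀ (A : Finset X) (x : X), x ∉ A → flp A (stp x c) = stp x (flp A c)) ∧
  (∀ g : G, odd (act g c) = (odd c).image fun x => g • x) ∧ (∀ A : Finset X, odd (flp A c) = odd c) ∧
  (∀ x, c x ≠ 0 → odd (stp x c) = symmDiff (odd c) {x})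

/-- **SGI** [200 lines, uses CNF].  Everything is a parity count.  (2) `sx x (stp y c) = (-1)^[y < x] sx x c` and exactly one of `y < x`, `x < y` holds.  (4) an (unordered) pair of odd sites is inverted by `g h` iff exactly one of the following holds: it is inverted
by `h`, its image is inverted by `g`.  (5) if `x` is added to or removed from the odd set `O`, the number of inversions changes by `#{y ∈ O∖x : (y < x and gx < gy) or (x < y and gy < gx)}`; for every `y ∈ O∖x` the number `[y < x] + [gy < gx] + [y < x and gx < gy] + [x < y and gy < gx]` is even. -/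
def SpecSGI : Prop := ∀ (G X : Type) [Group G] [MulAction G X] [LinearOrder X] (m : ℕ) (c : Conf m X),
  (∀ x, c x ≠ 0 → sx x (stp x c) = sx x c) ∧
  (∀ x y, x ≠ y → c x ≠ 0 → c y ≠ 0 → sx x (stp y c) * sx y c = -(sx y (stp x c) * sx x c)) ∧
  (∀ x, c x ≠ 0 → gam (stp x c) = -gam c) ∧
  (∀ g h : G, sg (g * h) c = sg g (act h c) * sg h c) ∧ (sg (1 : G) c = 1) ∧
  (∀ (g : G) (x : X), c x ≠ 0 → sg g (stp x c) * sx x c = sx (g • x) (act g c) * sg g c) ∧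
  (∀ g : G, gam (act g c) = gam c) ∧ (∀ A, gam (flp A c) = gam c) ∧ (∀ x A, sx x (flp A c) = sx x c) ∧ (∀ (g : G) A, sg g (flp A c) = sg g c) ∧
  (∀ x, sx x c * sx x c = 1 ∧ (starRingEnd ℂ) (sx x c) = sx x c ∧ ‖sx x c‖ = 1) ∧
  (∀ g : G, sg g c * sg g c = 1 ∧ (starRingEnd ℂ) (sg g c) = sg g c ∧ ‖sg g c‖ = 1) ∧
  (gam c * gam c = 1 ∧ (starRingEnd ℂ) (gam c) = gam c ∧ ‖gam c‖ = 1)

/-- **CAR** [80 lines].  `en c <= 1` implies `supp c ⊆ A = {ω <= 1}` (all weights are positive); restriction to `A` is injective on such `c`. -/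
def SpecCAR : Prop := ∀ (G X : Type) [Group G] [MulAction G X] [LinearOrder X] (D : Dat G X), ∃ a : ℕ, ∀ m : ℕ, ∃ Ω : Finset (Conf m X), Full D Ω ∧ Ω.card ≤ (2 * m + 1) ^ a

/-- **VCO** [100 lines, uses CNF SGI].  (1) for `ζ = 1` all phases are `1` and only `A = ∅` contributes (the other products have a zero factor).  (2) for `ζ = -1` the phases on `Δ_g` are `-1` and only `A = Δ_g` contributes.  (3) `vco` and the opposite coefficient for `g⁻¹`: `act g (flp A c) = c'` iff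
`act g⁻¹ (flp (g A) c') = c`, `Δ_(g⁻¹) = g Δ_g`, `ph ζ g⁻¹ (g x) = conj (ph ζ g x)`, `sg g⁻¹ c' = sg g c` (`sg (g⁻¹ g) c = 1`, SGI).  (4) `gam` is invariant under `act` and `flp`.  (5) `stp` is an involution on its domain, `sx x (stp x c) = sx x c`.  (6) `gam (stp x c) = -gam c`.
(7) the coefficients are finite sums of finite products of continuous functions.  (8) there are only finitely many `c'` with nonzero coefficient: `act g (flp A c)`, `A ⊆ Δ_g`; they have support in `g (supp c ∪ Δ_g)`. -/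
def SpecVCO : Prop := ∀ (G X : Type) [Group G] [MulAction G X] [LinearOrder X] (m : ℕ) (D : Dat G X) (ζ : ℂ) (g : G) (w : X → ℝ) (c c' : Conf m X),
  (vco m D 1 g c' c = open Classical in if act g c = c' then sg g c else 0) ∧
  (vco m D (-1) g c' c = open Classical in if act g (flp (D.com g).toFinset c) = c' then sg g c else 0) ∧
  (vco m D ζ g⁻¹ c c' = (starRingEnd ℂ) (vco m D ζ g c' c)) ∧ (vco m D ζ g c' c ≠ 0 → gam c' = gam c) ∧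
  (bco m w c c' = bco m w c' c ∧ (starRingEnd ℂ) (bco m w c' c) = bco m w c' c) ∧ (bco m w c' c ≠ 0 → gam c' = -gam c) ∧
  (Continuous fun ζ : ℂ => vco m D ζ g c' c) ∧
  (vco m D ζ g c' c ≠ 0 → ∀ x, c' (g • x) ≠ 0 → c x ≠ 0 ∨ ¬(x ∈ D.M ↔ g • x ∈ D.M))

/-- **LEV** [150 lines, uses VCO CNF].  (1) by VCO `c' = act g (flp Δ_g c)`; then `u_(gx)(c') = u_x(c)` for all `x` (cases: `x ∈ Δ_g` with `x ∈ M`, `gx ∉ M`, or `x ∉ M`, `gx ∈ M`; `x ∉ Δ_g` with both in `M`, or both not).  (2) `c' = stp x c`: `u_x` changes by exactly one (`mu p = p ± 1`), the others do not: only one level set changes.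
(3) if `q^-1`-translates.. : `#{t : Lev c' ≠ (q q') Lev c} <= #{t : Lev c' ≠ q Lev c''} + #{t : Lev c'' ≠ q' Lev c}`.  (4) if `ndf c c q < 2m` there is `t < 2m` with `q Lev_t = Lev_t`, and `Lev_t` differs from `M` only in `supp c` (for `x ∈ M` with `c x = 0`: `t < 2m = rev 0`), whose weight is `en c <= 1`: Free gives `q = 1`. -/
def SpecLEV : Prop := ∀ (G X : Type) [Group G] [MulAction G X] [LinearOrder X] (m : ℕ) (D : Dat G X) (w : X → ℝ) (c c' c'' : Conf m X) (g q q' : G),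
  (vco m D (-1) g c' c ≠ 0 → ndf D c' c g = 0) ∧ (bco m w c' c ≠ 0 → ndf D c' c 1 ≤ 1) ∧
  (ndf D c' c (q * q') ≤ ndf D c' c'' q + ndf D c'' c q') ∧ (D.Free → en D.ω c ≤ 1 → ndf D c c q < 2 * m → q = 1) ∧ ndf D c c 1 = 0

/-! ## Abstract gap lemma -/

/-- **GAB** [150 lines], abstract gap lemma.  `a = ‖P Y ψ‖`, `β = ‖B ψ‖`.  `1/C' ‖ψ‖ <= ‖Y ψ‖ <= a + ‖(1-P) Y ψ‖ <= a + (1/(2C)) ‖B Y ψ‖ <= a + (1/(2C)) (C β + C(ε β + κ ‖ψ‖))`.  `‖(u P Y Γ + B) ψ‖² = u² a² + β² + u Re<ψ, (B Y - Y B) Γ ψ>`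
(`‖P Y Γ ψ‖ = ‖Γ P Y ψ‖ = a`; `2 Re<P Y Γ ψ, B ψ> = 2 Re<Y Γ ψ, B ψ>`, `<Y Γ ψ, B ψ> = <Γ ψ, Y B ψ> = -<ψ, Y B Γ ψ>`, `<B ψ, Y Γ ψ> = <ψ, B Y Γ ψ>`), and the last term is at most `u C (ε β + κ ‖ψ‖) ‖ψ‖`.
(1) `u = 1`, `κ = 4 C sqrt ε`, `β <= 2C ‖ψ‖`: take `‖ψ‖ = 1` (scale, or keep `‖ψ‖`): `a + β >= 1/C' - 2C sqrt ε >= 1/(2C')`, `a² + β² >= 1/(8C'²)`, the error is `<= 6 C² sqrt ε <= 6/(128 C'²)`; so `>= 1/(16 C'²)`.  Upper bound: `C + 2C`.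
(2) `κ = 0`, `C ε <= 1/(8C')`: `a + β >= 1/C'` (`ε <= 1`), `u²a² + β² >= (ua+β)²/2 >= (u/(2C'))(ua + β)`, so the error `u C ε β <= (1/4)(u²a²+β²)` and `‖..‖² >= (3/4)(u²a²+β²) >= (3/8) u²/C'² >= (u/(8C'))²`. -/
def SpecGAB : Prop := ∀ (V : Type) [NormedAddCommGroup V] [InnerProductSpace ℂ V] (Y B P Γ : V →ₗ[ℂ] V) (C C' ε : ℝ),
  1 ≤ C → 1 ≤ C' → 0 < ε → ε ≤ (1 / (128 * C ^ 2 * C' ^ 2)) ^ 2 →
  (∀ ψ, ‖Y ψ‖ ≤ C * ‖ψ‖) → (∀ ψ, ‖ψ‖ ≤ C' * ‖Y ψ‖) → (∀ ψ φ, inner ℂ (Y ψ) φ = inner ℂ ψ (Y φ)) → (∀ ψ φ, inner ℂ (B ψ) φ = inner ℂ ψ (B φ)) →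
  (∀ ψ φ, inner ℂ (P ψ) φ = inner ℂ ψ (P φ)) → (∀ ψ, P (P ψ) = P ψ) → (∀ ψ, ‖P ψ‖ ≤ ‖ψ‖) → (∀ ψ, ‖Γ ψ‖ = ‖ψ‖) → (∀ ψ φ, inner ℂ (Γ ψ) φ = inner ℂ ψ (Γ φ)) →
  (∀ ψ, Y (Γ ψ) = Γ (Y ψ)) → (∀ ψ, B (Γ ψ) = -Γ (B ψ)) → (∀ ψ, P (Γ ψ) = Γ (P ψ)) → (∀ ψ, P (B ψ) = B (P ψ)) →
  (∀ ψ, 2 * C * ‖ψ - P ψ‖ ≤ ‖B ψ‖) → (∀ ψ, P ψ = ψ → ‖B ψ‖ ≤ 2 * C * ‖ψ‖) →
  ((∀ ψ, ‖B (Y ψ) - Y (B ψ)‖ ≤ C * (ε * ‖B ψ‖ + 4 * C * Real.sqrt ε * ‖ψ‖)) →
    ∀ ψ, P ψ = ψ → 1 / (4 * C') * ‖ψ‖ ≤ ‖P (Y (Γ ψ)) + B ψ‖ ∧ ‖P (Y (Γ ψ)) + B ψ‖ ≤ 3 * C * ‖ψ‖) ∧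
  ((∀ ψ, ‖B (Y ψ) - Y (B ψ)‖ ≤ C * (ε * ‖B ψ‖)) →
    ∀ ψ, P ψ = ψ → ∀ u : ℝ, 0 ≤ u → u ≤ 1 → u / (8 * C') * ‖ψ‖ ≤ ‖(u : ℂ) • P (Y (Γ ψ)) + B ψ‖ ∧ ‖(u : ℂ) • P (Y (Γ ψ)) + B ψ‖ ≤ 3 * C * ‖ψ‖)

/-! ## Groups -/

/-- **WPR** [80 lines].  `X = X1 ⊕ X2` with `(g1,g2)` acting by `g1`, `g2`; `M = M1 ⊕ M2`, the weights of the two factors for `ε/2` and the projections of `S`.  A set `N` close to `M` gives two sets; `(q1,q2) ≠ 1` means `q1 ≠ 1` or `q2 ≠ 1`. -/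
def SpecWPR : Prop := (∀ (G1 G2 : Type) [Group G1] [Group G2], W G1 → W G2 → W (G1 × G2)) ∧ (∀ (G : Type) [Group G], Subsingleton G → W G)

/-- **WGT** [100 lines].  `D_0 = D`, `D_(k+1) = D_k ∪ S D_k`, `K` with `δ (1+ε)^K > 1`, `k(x) = #{k < K : x ∉ D_k}`, `ω(x) = δ (1+ε)^(k(x))`.  `k(s x) <= k(x) + 1` because `s x ∉ D_(k+1)` implies `x ∉ D_k`; `ω x <= 1` implies `k(x) < K`, so `x ∈ D_(K-1)`, a finite set (D_k is increasing). -/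
def SpecWGT : Prop := ∀ (G X : Type) [Group G] [MulAction G X] (S : Finset G) (ε δ : ℝ) (D : Finset X), 0 < ε → 0 < δ →
  ∃ ω : X → ℝ, (∀ x, δ ≤ ω x) ∧ (∀ x ∈ D, ω x = δ) ∧ (∀ s ∈ S, ∀ x, ω (s • x) ≤ (1 + ε) * ω x) ∧ {x | ω x ≤ 1}.Finite

/-- **TFW** [180 lines, uses WGT].  (1) amenable: `X = G`, `F` from the Foelner condition for `S ∪ S⁻¹` and `ε/4`, `M = F`, WGT with `δ = 2/|F|` and `D = F ∪ ⋃_(s ∈ S) s⁻¹F`: `Δ_s = {x : x ∈ F, sx ∉ F} ∪ {x : x ∉ F, sx ∈ F} ⊆ D`, of cardinality `<= 2 (ε/4) |F|`, so the sum is `<= ε`.  Free: `N` is close to `F`: `N` is contained in `F ∪ F'`, finite;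
nonempty, since otherwise `F ⊆ F'` and the weight of `F` is `2 > 1`.  If `x ∈ N ↔ q x ∈ N` for all `x`, then all `q^n x0 ∈ N`, which is finite, so `q^n = 1` for some `n > 0`: contradiction.  (2) CNE: `X`, `M` given, `D = ⋃_(s ∈ S) Δ_s`, `δ = ε/(|D|+1)`. -/
def SpecTFW : Prop := (∀ (G : Type) [Group G], TFA G → W G) ∧ (∀ (G : Type) [Group G], CNE G → W G)

/-- **NAM** [250 lines], torsion-free nilpotent groups satisfy the Foelner condition.  It suffices: finitely generated (`S` finite: pass to the subgroup generated by `S`; a Foelner set of the subgroup is one of the group), then TFN (SG: TOR), induction on the length: `π : N → Q`, kernel `<c>`, `c` central of infinite order.  `S`, `ε` given; `F_Q` for `π(S)`, `ε/2`; lifts `t_u`, `u ∈ F_Q`;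
for `s ∈ S`, `u ∈ F_Q` with `π(s) u ∈ F_Q`: `s t_u = t_(π(s)u) c^k`, `|k| <= K0`.  `F = {t_u c^k : 0 <= k < L}`, `|F| = |F_Q| L`; the bad elements: at most `(ε/2) |F_Q| L + K0 |F_Q|`, so `L >= 2 K0/ε`. -/
def SpecNAM : Prop := ∀ (G : Type) [Group G], Group.IsNilpotent G → (∀ x : G, ∀ n : ℕ, 0 < n → x ^ n = 1 → x = 1) → TFA G

end Pool.Agent.Lib.MP8a3537.AM
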