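import Pool.Agent.Lib.MP_8a3537_gt.AM.CDef
import Pool.Agent.Lib.MP_8a3537_gt.AM.Defs2

/-!
# Block C of the amenable signature theorem (MP_8a3537_gt): the path lemma, the core theorem

Paper: /team-store/MP_8a3537_gt_AMENABLE.md, sections 3, 4, 6, in helper33's graded form.
Every proof is in the docstring.  One module = one file Pool/Agent/Lib/MP_8a3537_gt/AM/XXX.lean, namespace
Pool.Agent.Lib.MP8a3537.AM, theorem specXXX (hYYY : SpecYYY) ... : SpecXXX; import Pool.Agent.Lib.MP_8a3537_gt.AM.SpecC; own lemmas in the namespace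
Pool.Agent.Lib.MP8a3537.AM.XXXM.  The landed theorems of the rows SG and TW may be used everywhere (`specNIT`, `specCSA`,
`specSCA`, the lemmas of TW/CSA.lean, ...; import Pool.Agent.Lib.MP_8a3537_gt.TW.XXX, SG.XXX).
-/

set_option linter.unusedVariables false

namespace Pool.Agent.Lib.MP8a3537.AM

open Pool.Agent.Lib.MP8a3537.SG Pool.Agent.Lib.MP8a3537.TW
open Filter Topology
open scoped BigOperators Matrix ComplexOrder InnerProductSpace

/-! ## Definitions -/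

/-- bounded operators -/
abbrev Bo (H : Type) [NormedAddCommGroup H] [InnerProductSpace ℂ H] := H →L[ℂ] H

/-- the direct sum of copies of `H` indexed by `C` -/
abbrev HC (C H : Type) := PiLp 2 (fun _ : C => H)

section
variable {C H : Type} [Fintype C] [NormedAddCommGroup H] [InnerProductSpace ℂ H]

/-- the operator on `HC C H` of a matrix of operators -/
noncomputable def mop (M : Matrix C C (Bo H)) : HC C H →L[ℂ] HC C H :=
  ((PiLp.continuousLinearEquiv 2 ℂ (fun _ : C => H)).symm : (C → H) →L[ℂ] HC C H) ∘L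
    (ContinuousLinearMap.pi fun c => ∑ c', (M c c') ∘L (ContinuousLinearMap.proj c')) ∘L
    ((PiLp.continuousLinearEquiv 2 ℂ (fun _ : C => H)) : HC C H →L[ℂ] (C → H))

/-- the component `c` -/
noncomputable def prj (c : C) : HC C H →L[ℂ] H :=
  (ContinuousLinearMap.proj (R := ℂ) (φ := fun _ : C => H) c) ∘L
    ((PiLp.continuousLinearEquiv 2 ℂ (fun _ : C => H)) : HC C H →L[ℂ] (C → H))

/-- the inclusion of the component `c` -/
noncomputable def inc [DecidableEq C] (c : C) : H →L[ℂ] HC C H :=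
  ((PiLp.continuousLinearEquiv 2 ℂ (fun _ : C => H)).symm : (C → H) →L[ℂ] HC C H) ∘L
    (ContinuousLinearMap.single ℂ (fun _ : C => H) c)

/-- `T(x) = sum_c ω(x_cc)` -/
noncomputable def TT [DecidableEq C] (ω : Bo H →L[ℂ] ℂ) (x : Bo (HC C H)) : ℂ :=
  ∑ c, ω (prj c ∘L x ∘L inc c)

/-- scalar matrices as matrices of operators -/
noncomputable def sca (A : Matrix C C ℂ) : Matrix C C (Bo H) := A.map fun z => z • (1 : Bo H)

/-- the matrix `L` with entries `sum_g v_g(c,c') sg(c') Θ_g + B(c,c')` -/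
noncomputable def Lm {G : Type} (v : G → Matrix C C ℂ) (sg : C → ℂ) (B : Matrix C C ℂ) (Θ : MonoidAlgebra (Bo H) G) : Matrix C C (Bo H) :=
  Matrix.of fun c c' => (∑ g ∈ Θ.coeff.support, (v g c c' * sg c') • Θ.coeff g) + B c c' • (1 : Bo H)

end

/-- the data constructed in section 1 of the paper, for a finite subset `S` of `G` and constants `C0`, `C1`; `C` = configurations of energy `≤ 1`, `c0` the
empty one, `v t g` = compression of `V_g` at `ζ = exp(iπt)`, `B` = sum of the `w_x b_x`, `Bp` = sum of all `b_x`, `sg` = parity -/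
structure Mod {G : Type} [Group G] (S : Finset G) (C0 C1 b β : ℝ) (m : ℕ) (C : Type) [Fintype C] [DecidableEq C] (c0 : C)
    (v : ℝ → G → Matrix C C ℂ) (B Bp : Matrix C C ℂ) (sg : C → ℂ) (p w : C → ℝ) (Q : Type) [MulAction G Q] (n : C → Fin (2 * m) → Q) : Prop where
  /-- adjoint -/
  vher : ∀ t g, (v t g)ᴴ = v t g⁻¹
  /-- continuous in `t` -/
  vcon : ∀ g c c', Continuous fun t => v t g c c'
  /-- the parity -/
  spar : ∀ c, sg c = 1 ∨ sg c = -1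
  /-- `v` is even -/
  veven : ∀ t g c c', sg c * v t g c c' = v t g c c' * sg c'
  /-- `B` is odd -/
  bodd : ∀ c c', sg c * B c c' = -(B c c' * sg c')
  /-- `Bp` is odd -/
  podd : ∀ c c', sg c * Bp c c' = -(Bp c c' * sg c')
  /-- `B` is hermitian -/
  bher : B.IsHermitian
  /-- `Bp` is hermitian -/
  pher : Bp.IsHermitian
  /-- the empty configuration -/
  v00 : ∀ g, v 0 g c0 c0 = 1
  /-- it is decoupled from the others at `t = 0` -/
  v0r : ∀ g c, c ≠ c0 → v 0 g c c0 = 0 ∧ v 0 g c0 c = 0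
  /-- `B` kills it -/
  b0 : ∀ c, B c c0 = 0
  /-- `Bp` kills it -/
  p0 : ∀ c, Bp c c0 = 0
  /-- it is even -/
  s0 : sg c0 = 1
  /-- `Bp` commutes with `v 0 g` -/
  pcom : ∀ g, Bp * v 0 g = v 0 g * Bp
  /-- `Bp² = |supp c|` -/
  psq : Bp * Bp = Matrix.diagonal fun c => (p c : ℂ)
  /-- at least `1` off `c0` -/
  pge : ∀ c, c ≠ c0 → 1 ≤ p c
  /-- the anticommutator of `B` and `Bp` -/
  anti : Bp * B + B * Bp = Matrix.diagonal fun c => (w c : ℂ)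
  /-- is nonnegative -/
  wge : ∀ c, 0 ≤ w c
  /-- at `t = 1` the sets `N_t(c)` are moved by `g` -/
  nv : ∀ g c c', v 1 g c c' ≠ 0 → ∀ i, n c i = g • n c' i
  /-- a step of `B` changes at most one of them -/
  nb : ∀ c c', B c c' ≠ 0 → ∃ i0, ∀ i, i ≠ i0 → n c i = n c' i
  /-- none of them is invariant under a nontrivial element -/
  nfree : ∀ c i (q : G), q • n c i = n c i → q = 1
  /-- the gap and the bound -/
  gap : ∀ (H : Type) [NormedAddCommGroup H] [InnerProductSpace ℂ H] [CompleteSpace H] (Θ Θ' : MonoidAlgebra (Bo H) G), Herm Θ → n1 (Θ' * Θ - 1) ≤ 1 / 2 →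
    Θ.coeff.support ⊆ S → n1 Θ ≤ C0 → n1 Θ' ≤ C1 → ∀ (t : ℝ) (x : HC C H), b * ‖x‖ ≤ ‖mop (Lm (v t) sg B Θ) x‖ ∧ ‖mop (Lm (v t) sg B Θ) x‖ ≤ β * ‖x‖

/-- models for all `m`, with the gap, the bound and the degree `a` of the size independent of `m` -/
def HasMod (G : Type) [Group G] : Prop := ∀ (S : Finset G) (C0 C1 : ℝ), 0 < C0 → 0 < C1 →
  ∃ (b β : ℝ) (a : ℕ), 0 < b ∧ 0 < β ∧ ∀ m : ℕ, 0 < m → ∃ (C : Type) (_ : Fintype C) (_ : DecidableEq C) (c0 : C)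
    (v : ℝ → G → Matrix C C ℂ) (B Bp : Matrix C C ℂ) (sg : C → ℂ) (p w : C → ℝ) (Q : Type) (_ : MulAction G Q) (n : C → Fin (2 * m) → Q),
    Fintype.card C ≤ (2 * m + 1) ^ a ∧ Mod S C0 C1 b β m C c0 v B Bp sg p w Q n

/-! ## Signs in C*-algebras -/

/-- **SGA** [100 lines, copy of CSAM.core in TW/CSA.lean with a given `e`].  `X = s x`, `X = star t * t`, `‖X‖ ≤ 1`; its inverse `Y = x' s` has norm `≤ 1/e`; the spectrum of `X` lies in `[e, 1]` (for `0 ≤ r < e` the element `1 - r Y` is invertible), `it x j - s = s cfc(sj · j - 1) X`. -/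
def SpecSGA : Prop := ∀ (A : Type) [CStarAlgebra A] (x x' s : A) (e : ℝ), 0 < e → e ≤ 1 → IsSelfAdjoint x → ‖x‖ ≤ 1 → x * x' = 1 → x' * x = 1 → ‖x'‖ ≤ 1 / e → Sg x s →
  ∀ j, ‖it x j - s‖ ≤ del e j

/-- **SSC** [40 lines].  `s` is the sign of `x` iff it is the sign of `t x`, `t > 0` (`s (t x) = t star u * u = star (sqrt t u) * (sqrt t u)`). -/
def SpecSSC : Prop := ∀ (A : Type) [CStarAlgebra A] (x s : A) (t : ℝ), 0 < t → Sg x s → Sg ((t : ℂ) • x) s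

/-- **SYM** [100 lines].  `T` is tracial on the closure of `A0` (continuity).  `d = s' - s`: `s' d = 1 - s' s = -d s` and `s d = s s' - 1 = -d s'`.  `d² = 2 - s s' - s' s` commutes with `s`, `s'`.  For `D = d^(2k+1)`: `s' D = -D s`, `s D = -D s'`.  So `D = s' s' D = -s' D s`,
`T D = -T(s' D s) = -T(D s s')`, and `T D = -T(s D s') = -T(D s' s)`; the sum is `2 T D = -T(D (s s' + s' s)) = -T(D (2 - d²)) = -2 T D + T(D d²)`, i.e. `T(d^(2k+1)) = T(d^(2k+3))/4`.  Hence `|T d| = 4^-k |T(d^(2k+1))| ≤ ‖T‖ ‖d‖ (‖d‖²/4)^k → 0`. -/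
def SpecSYM : Prop := ∀ (A : Type) [CStarAlgebra A] (A0 : Subalgebra ℂ A) (T : A →L[ℂ] ℂ),
  (∀ x ∈ A0, ∀ y ∈ A0, T (x * y) = T (y * x)) →
  ∀ s s' : A, s ∈ closure (A0 : Set A) → s' ∈ closure (A0 : Set A) → s * s = 1 → s' * s' = 1 → ‖s - s'‖ < 2 → T s = T s'

/-- **LPI** [60 lines, uses TW: NIT].  Induction on `j`: with `u = it x j`, `u' = it x' j` of norm at most `1` (NIT), `‖u³ - u'³‖ ≤ 3 ‖u - u'‖` (telescope), so `‖it x (j+1) - it x' (j+1)‖ ≤ (3/2 + 3/2) ‖u - u'‖`. -/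
def SpecLPI : Prop := ∀ (A : Type) [CStarAlgebra A] (x x' : A), IsSelfAdjoint x → IsSelfAdjoint x' → ‖x‖ ≤ 1 → ‖x'‖ ≤ 1 →
  ∀ j, ‖it x j - it x' j‖ ≤ 3 ^ j * ‖x - x'‖

/-- gapped selfadjoint elements -/
def Gpd {A : Type} [CStarAlgebra A] (x : A) (b β : ℝ) : Prop := IsSelfAdjoint x ∧ ‖x‖ ≤ β ∧ ∃ x' : A, x * x' = 1 ∧ x' * x = 1 ∧ ‖x'‖ ≤ 1 / b

/-- **CST** [120 lines, uses SGA SSC SYM LPI and TW/CSA del_tendsto].  `e = min (b/β) 1`; `j0` with `del e j0 ≤ 1/4`, `η = β/(4 · 3^j0)`, `t = 1/β`: `s`, `s'` are the signs of `t x`, `t x'` (SSC), SGA: `‖it (t x) j - s‖ ≤ del e j → 0`, so `s` is in the closure of `A0`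
(`it (t x) j ∈ A0`), the same for `s'`; `‖s - s'‖ ≤ 1/4 + 1/4 + 3^j0 t η < 2` (LPI).  SYM. -/
def SpecCST : Prop := ∀ (b β : ℝ), 0 < b → 0 < β → ∃ η : ℝ, 0 < η ∧ ∀ (A : Type) [CStarAlgebra A] (A0 : Subalgebra ℂ A) (T : A →L[ℂ] ℂ),
  (∀ x ∈ A0, ∀ y ∈ A0, T (x * y) = T (y * x)) → ∀ x x' s s' : A, x ∈ A0 → x' ∈ A0 → Gpd x b β → Gpd x' b β → ‖x - x'‖ ≤ η → Sg x s → Sg x' s' → T s = T s'

/-- **PAT** [80 lines, uses CST and TW/CSA exist].  `η` from CST; `X` is uniformly continuous on `[0,1]`: a natural number `r > 0` with `‖X t - X t'‖ ≤ η` for `|t - t'| ≤ 1/r`; the points `X (i/r)`, `i = 0..r`; all of them have a sign (CSAM.exist: `Gpd` gives selfadjoint and a unit), consecutive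
ones have the same `T` by CST. -/
def SpecPAT : Prop := ∀ (b β : ℝ), 0 < b → 0 < β → ∀ (A : Type) [CStarAlgebra A] (A0 : Subalgebra ℂ A) (T : A →L[ℂ] ℂ),
  (∀ x ∈ A0, ∀ y ∈ A0, T (x * y) = T (y * x)) → ∀ X : ℝ → A, (∀ t, 0 ≤ t → t ≤ 1 → X t ∈ A0 ∧ Gpd (X t) b β) → Continuous X →
  ∀ s s' : A, Sg (X 0) s → Sg (X 1) s' → T s = T s'

/-! ## Operators on direct sums -/

/-- **MOP** [150 lines].  `(mop M x) c = sum_c' M c c' (x c')`; everything is checked on components.  The adjoint: `⟨mop M x, y⟩ = sum_c sum_c' ⟨M c c' x_c', y_c⟩`. -/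
def SpecMOP : Prop := ∀ (C H : Type) [Fintype C] [DecidableEq C] [NormedAddCommGroup H] [InnerProductSpace ℂ H] [CompleteSpace H],
  (∀ (M : Matrix C C (Bo H)) (x : HC C H) (c : C), (mop M x) c = ∑ c', M c c' (x c')) ∧
  (mop (1 : Matrix C C (Bo H)) = 1) ∧ (∀ M N : Matrix C C (Bo H), mop (M * N) = mop M * mop N ∧ mop (M + N) = mop M + mop N) ∧
  (∀ (z : ℂ) (M : Matrix C C (Bo H)), mop (z • M) = z • mop M) ∧ (∀ M : Matrix C C (Bo H), star (mop M) = mop Mᴴ) ∧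
  (∀ (M : Matrix C C (Bo H)) (c c' : C), prj c ∘L mop M ∘L inc c' = M c c') ∧
  (∀ x : HC C H, ‖x‖ ^ 2 = ∑ c, ‖x c‖ ^ 2) ∧ (∀ (M : Matrix C C (Bo H)), ‖mop M‖ ≤ ∑ c, ∑ c', ‖M c c'‖)

/-- **TTB** [100 lines, uses MOP].  `‖prj c‖ ≤ 1`, `‖inc c‖ ≤ 1`; `T` is linear and bounded by `card C * ‖ω‖`.  Tracial: `T(mop M mop N) = sum_(c,c') ω(M c c' N c' c)`, entries in `W = adjoin`, and `W`-valued matrices form a subalgebra. -/
def SpecTTB : Prop := ∀ (C H : Type) [Fintype C] [DecidableEq C] [NormedAddCommGroup H] [InnerProductSpace ℂ H] [CompleteSpace H] (ω : Bo H →L[ℂ] ℂ),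
  (∃ T : Bo (HC C H) →L[ℂ] ℂ, (∀ x, T x = TT ω x) ∧ ‖T‖ ≤ Fintype.card C * ‖ω‖) ∧
  (∀ W : Subalgebra ℂ (Bo H), (∀ x ∈ W, ∀ y ∈ W, ω (x * y) = ω (y * x)) → ∃ A0 : Subalgebra ℂ (Bo (HC C H)), (∀ x, x ∈ A0 ↔ ∃ M : Matrix C C (Bo H), (∀ c c', M c c' ∈ W) ∧ x = mop M) ∧
    ∀ x ∈ A0, ∀ y ∈ A0, TT ω (x * y) = TT ω (y * x))

/-- **BBL** [80 lines].  A selfadjoint operator with `b ‖v‖ ≤ ‖L v‖` is invertible with inverse of norm `≤ 1/b`: `L²` is coercive (Lax-Milgram, `IsCoercive`), or: closed range, and the orthogonal complement of the range is the kernel. -/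
def SpecBBL : Prop := ∀ (H : Type) [NormedAddCommGroup H] [InnerProductSpace ℂ H] [CompleteSpace H] (L : Bo H) (b β : ℝ), 0 < b → 0 ≤ β → IsSelfAdjoint L →
  (∀ v, b * ‖v‖ ≤ ‖L v‖ ∧ ‖L v‖ ≤ β * ‖v‖) → Gpd L b β

/-- **ITS** [80 lines].  Induction on `j`: (1) `it (x + y) j = it x j + it y j` if `x y = y x = 0`; (2) `it (-x) j = -it x j`; (3) `u (it x j) u = it (u x u) j` for `u u = 1`; (4) `it (i ∘ a ∘ p) j = i ∘ it a j ∘ p` for `p ∘ i = 1`. -/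
def SpecITS : Prop :=
  (∀ (A : Type) [CStarAlgebra A] (x y u : A) (j : ℕ), (x * y = 0 → y * x = 0 → it (x + y) j = it x j + it y j) ∧ it (-x) j = -it x j ∧ (u * u = 1 → u * it x j * u = it (u * x * u) j)) ∧
  (∀ (H K : Type) [NormedAddCommGroup H] [InnerProductSpace ℂ H] [CompleteSpace H] [NormedAddCommGroup K] [InnerProductSpace ℂ K] [CompleteSpace K]
    (i : H →L[ℂ] K) (p : K →L[ℂ] H) (a : Bo H) (j : ℕ), p ∘L i = 1 → it (i ∘L a ∘L p : Bo K) j = i ∘L (it a j) ∘L p)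

/-- **LHM** [100 lines, uses MOP].  For a `Mod`: `mop (Lm (v t) sg B Θ)` is selfadjoint (`Herm`, `vher`, `veven`, `spar`, `bher`; replace the sum over the support by a sum over a finite set closed under inverses, e.g. `support ∪ support⁻¹`); it is continuous in `t`
(entries; MOP last claim or `mop` is a finite sum of continuous expressions); its entries lie in the algebra generated by the coefficients. -/
def SpecLHM : Prop := ∀ (G : Type) [Group G] (S : Finset G) (C0 C1 b β : ℝ) (m : ℕ) (C : Type) [Fintype C] [DecidableEq C] (c0 : C)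
    (v : ℝ → G → Matrix C C ℂ) (B Bp : Matrix C C ℂ) (sg : C → ℂ) (p w : C → ℝ) (Q : Type) [MulAction G Q] (n : C → Fin (2 * m) → Q), Mod S C0 C1 b β m C c0 v B Bp sg p w Q n →
  ∀ (H : Type) [NormedAddCommGroup H] [InnerProductSpace ℂ H] [CompleteSpace H] (Θ : MonoidAlgebra (Bo H) G), Herm Θ →
  (∀ t, IsSelfAdjoint (mop (Lm (v t) sg B Θ))) ∧ (Continuous fun t => mop (Lm (v t) sg B Θ)) ∧
  (∀ t c c', Lm (v t) sg B Θ c c' ∈ Algebra.adjoin ℂ (Set.range fun g => Θ.coeff g))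

/-- **RSA** [150 lines, uses MOP LHM], the estimate of section 3.  `L = mop (Lm (v 0) sg B Θ)`, `B' = mop (sca Bp)`, `E0 = inc c0 ∘ prj c0`.  `L E0 = E0 L = inc c0 ∘ ev Θ ∘ prj c0` (`v00`, `v0r`, `b0`, `s0`), `B' E0 = E0 B' = 0`.  `L B' + B' L = mop (diagonal w)`: `Bp` commutes with `v 0 g` and anticommutes with `sg`.
`X_t = L E0 + (1-t) L (1 - E0) + t B'`.  For `x = x0 + x1`, `x0 = E0 x`: the two parts of `X_t x` are orthogonal; `‖L x0‖ ≥ b ‖x0‖`; `‖((1-t) L + t B') x1‖² = (1-t)² ‖L x1‖² + t² ‖B' x1‖² + 2t(1-t) Re⟨L x1, B' x1⟩ ≥ ((1-t)² + t²) min(b,1)² ‖x1‖²`, because `‖B' x1‖² = sum p |x1_c|² ≥ ‖x1‖²`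
and `2 Re⟨L x1, B' x1⟩ = ⟨(B' L + L B') x1, x1⟩ = sum w |x1_c|² ≥ 0`; `(1-t)² + t² ≥ 1/2 ≥ 1/4`.  So the gap `min(b,1)/2`. -/
def SpecRSA : Prop := ∀ (G : Type) [Group G] (S : Finset G) (C0 C1 b β : ℝ) (m : ℕ) (C : Type) [Fintype C] [DecidableEq C] (c0 : C)
    (v : ℝ → G → Matrix C C ℂ) (B Bp : Matrix C C ℂ) (sg : C → ℂ) (p w : C → ℝ) (Q : Type) [MulAction G Q] (n : C → Fin (2 * m) → Q), 0 < b → 0 < β → Mod S C0 C1 b β m C c0 v B Bp sg p w Q n →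
  ∀ (H : Type) [NormedAddCommGroup H] [InnerProductSpace ℂ H] [CompleteSpace H] (Θ Θ' : MonoidAlgebra (Bo H) G), Herm Θ → n1 (Θ' * Θ - 1) ≤ 1 / 2 →
    Θ.coeff.support ⊆ S → n1 Θ ≤ C0 → n1 Θ' ≤ C1 →
  mop (Lm (v 0) sg B Θ) * (inc c0 ∘L prj c0) = inc c0 ∘L ev Θ ∘L prj c0 ∧ (inc c0 ∘L prj c0) * mop (Lm (v 0) sg B Θ) = inc c0 ∘L ev Θ ∘L prj c0 ∧
  (mop (sca Bp) : Bo (HC C H)) * (inc c0 ∘L prj c0) = 0 ∧ (inc c0 ∘L prj c0) * (mop (sca Bp) : Bo (HC C H)) = 0 ∧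
  ∀ t : ℝ, 0 ≤ t → t ≤ 1 → ∀ x : HC C H, min b 1 / 2 * ‖x‖ ≤
    ‖((inc c0 ∘L ev Θ ∘L prj c0) + ((1 - t : ℝ) : ℂ) • (mop (Lm (v 0) sg B Θ) * (1 - inc c0 ∘L prj c0)) + (t : ℂ) • mop (sca Bp) : Bo (HC C H)) x‖

/-- **RST** [150 lines, uses MOP TTB BBL ITS LHM RSA PAT SGA SSC], section 3.  `X_0 = L`, `X_1 = inc c0 ∘ ev Θ ∘ prj c0 + B'`: PAT (in the subalgebra of TTB for `W = adjoin` of the coefficients) gives `T(s) = T(s1)` for the signs `s` of `L`, `s1` of `X_1` (exists: CSAM.exist).  `T(it (t X_1) j) = T(it (t inc Y prj) j) + T(it (t B') j)` (ITS 1); the first is `ω(it (t Y) j)` (ITS 4),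
the second is `0`: `u = mop (sca (diagonal sg))`, `u B' u = -B'` (`podd`), so `u it(tB') u = -it(tB')` (ITS 2, 3), while `T(u x u) = T x` (diagonal entries are multiplied by `sg c² = 1`).  `j → ∞` (SGA, `t = 1/β'`; `ev Θ` has the gap too: `L (inc c0 v) = inc c0 (ev Θ v)`): `T(s1) = ω(s0)` for the sign `s0` of `Y = ev Θ`. -/
def SpecRST : Prop := ∀ (G : Type) [Group G] (S : Finset G) (C0 C1 b β : ℝ) (m : ℕ) (C : Type) [Fintype C] [DecidableEq C] (c0 : C)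
    (v : ℝ → G → Matrix C C ℂ) (B Bp : Matrix C C ℂ) (sg : C → ℂ) (p w : C → ℝ) (Q : Type) [MulAction G Q] (n : C → Fin (2 * m) → Q), 0 < b → 0 < β → Mod S C0 C1 b β m C c0 v B Bp sg p w Q n →
  ∀ (H : Type) [NormedAddCommGroup H] [InnerProductSpace ℂ H] [CompleteSpace H] (Θ Θ' : MonoidAlgebra (Bo H) G), Herm Θ → n1 (Θ' * Θ - 1) ≤ 1 / 2 →
    Θ.coeff.support ⊆ S → n1 Θ ≤ C0 → n1 Θ' ≤ C1 → ∀ ω : Bo H →L[ℂ] ℂ, Cyc ω Θ → ∀ (s0 : Bo H) (s : Bo (HC C H)), Sg (ev Θ) s0 → Sg (mop (Lm (v 0) sg B Θ)) s → TT ω s = ω s0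

/-- **TWO** [60 lines, uses RST PAT TTB BBL LHM], section 4: the path `t ↦ mop (Lm (v t) sg B Θ)`, `0 ≤ t ≤ 1`. -/
def SpecTWO : Prop := ∀ (G : Type) [Group G] (S : Finset G) (C0 C1 b β : ℝ) (m : ℕ) (C : Type) [Fintype C] [DecidableEq C] (c0 : C)
    (v : ℝ → G → Matrix C C ℂ) (B Bp : Matrix C C ℂ) (sg : C → ℂ) (p w : C → ℝ) (Q : Type) [MulAction G Q] (n : C → Fin (2 * m) → Q), 0 < b → 0 < β → Mod S C0 C1 b β m C c0 v B Bp sg p w Q n →
  ∀ (H : Type) [NormedAddCommGroup H] [InnerProductSpace ℂ H] [CompleteSpace H] (Θ Θ' : MonoidAlgebra (Bo H) G), Herm Θ → n1 (Θ' * Θ - 1) ≤ 1 / 2 →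
    Θ.coeff.support ⊆ S → n1 Θ ≤ C0 → n1 Θ' ≤ C1 → ∀ ω : Bo H →L[ℂ] ℂ, Cyc ω Θ → ∀ (s0 : Bo H) (s : Bo (HC C H)), Sg (ev Θ) s0 → Sg (mop (Lm (v 1) sg B Θ)) s → TT ω s = ω s0

/-! ## The model gives `Mod` -/

/-- **BBA** [120 lines, uses CNF SGI].  The entry of `bco a * bco b` at `(c', c)` is `sum over y ∈ supp c, x ∈ supp (stp y c) = supp c, with c' = stp x (stp y c), of a_x b_y sx x (stp y c) sx y c` (`stp y c ∈ Ω` because `Ω` is invariant under steps).  Adding the product in the other order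
gives the symmetric factor `a_x b_y + b_x a_y`; the terms `(x,y)` and `(y,x)`, `x ≠ y`, cancel (SGI (2), `stp x (stp y c) = stp y (stp x c)`); for `x = y` `c' = c` and `sx x (stp x c) sx x c = 1`. -/
def SpecBBA : Prop := ∀ (X : Type) [LinearOrder X] (m : ℕ) (Ω : Finset (Conf m X)), (∀ c ∈ Ω, ∀ x, c x ≠ 0 → stp x c ∈ Ω) → ∀ a b : X → ℝ,
  (Matrix.of fun c' c : Ω => bco m a (c' : Conf m X) c) * (Matrix.of fun c' c : Ω => bco m b (c' : Conf m X) c) +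
    (Matrix.of fun c' c : Ω => bco m b (c' : Conf m X) c) * (Matrix.of fun c' c : Ω => bco m a (c' : Conf m X) c) =
  Matrix.diagonal fun c : Ω => ((2 * ∑ x ∈ (c : Conf m X).support, a x * b x : ℝ) : ℂ)

/-- **PCM** [120 lines, uses CNF SGI VCO].  VCO (1): `vco m D 1 g c' c = sg g c` if `act g c = c'`, else `0`.  Left side at `(c', c)`: `[act g c ∈ Ω] sum over z ∈ supp (act g c), stp z (act g c) = c', of sx z (act g c) sg g c`; right side: `sum over x ∈ supp c, act g (stp x c) = c', of sg g (stp x c) sx x c`.  Put `z = g x`: `act g (stp x c) = stp (g x) (act g c)` (CNF),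
the signs agree (SGI (6)); `act g c ∈ Ω` iff `c' ∈ Ω`, because `act g c` and `c' = stp z (act g c)` are related by a step. -/
def SpecPCM : Prop := ∀ (G X : Type) [Group G] [MulAction G X] [LinearOrder X] (m : ℕ) (D : Dat G X) (Ω : Finset (Conf m X)), (∀ (c : Conf m X) (x : X), c x ≠ 0 → (c ∈ Ω ↔ stp x c ∈ Ω)) → ∀ g : G,
  (Matrix.of fun c' c : Ω => bco m (fun _ => (1 : ℝ)) (c' : Conf m X) c) * (Matrix.of fun c' c : Ω => vco m D 1 g (c' : Conf m X) c) =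
    (Matrix.of fun c' c : Ω => vco m D 1 g (c' : Conf m X) c) * (Matrix.of fun c' c : Ω => bco m (fun _ => (1 : ℝ)) (c' : Conf m X) c)

/-- **GPM** [80 lines, uses BDL (first claim)].  `BdM` for the matrix `ev (LM m D (wt D C) Ω y 1 ζ c' c)`, whose entries are those of `Lm` (`ev (single g A) = A`, `gam c * vco` = `v * sg`), and `‖x‖² = sum ‖x c‖²`: take square roots. -/
def SpecGPM : Prop := ∀ (G X V : Type) [Group G] [MulAction G X] [LinearOrder X] [NormedAddCommGroup V] [InnerProductSpace ℂ V] [CompleteSpace V] (m : ℕ) (D : Dat G X) (y y' : MonoidAlgebra (V →L[ℂ] V) G) (C C' : ℝ),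
  Setup D y y' C C' → ∀ Ω : Finset (Conf m X), Full D Ω → ∀ ζ : ℂ, ‖ζ‖ = 1 → ∀ x : HC Ω V,
  1 / (4 * C') * ‖x‖ ≤ ‖mop (Lm (fun g => Matrix.of fun c' c : Ω => vco m D ζ g (c' : Conf m X) c) (fun c : Ω => gam (c : Conf m X)) (Matrix.of fun c' c : Ω => bco m (wt D C) (c' : Conf m X) c) y) x‖ ∧
  ‖mop (Lm (fun g => Matrix.of fun c' c : Ω => vco m D ζ g (c' : Conf m X) c) (fun c : Ω => gam (c : Conf m X)) (Matrix.of fun c' c : Ω => bco m (wt D C) (c' : Conf m X) c) y) x‖ ≤ 3 * C * ‖x‖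

/-- **MOB** [200 lines, uses BBA PCM GPM CNF SGI VCO LEV CAR], the model.  Given `S`, `C0`, `C1`: `S' = S ∪ S⁻¹ ∪ {1}`, `C = max C0 1`, `C' = max (2 C1) 1`, `ε = (1/(128 C² C'²))²`; `X`, `D` from `W G` for `S'`, `ε` (a linear order on `X` by choice, `linearOrderOfSTO`/`WellOrderingRel`); `b = 1/(4C')`, `β = 3C`, `a` from CAR (it does not depend on `m`).
For `m`: `Ω` from CAR (Full), type `Ω`, `c0 = 0`, `v t g = vco m D (exp(iπt)) g`, `B = bco (wt D C)`, `Bp = bco 1`, `sg = gam`, `p c = |supp c|`, `w c = 2 sum of wt D C x over the support`, `Q = Set X` with `g • N = {g x : x ∈ N}`, `n c i = Lev D c i`.  Fields: vher VCO (3); vcon VCO (7); veven VCO (4); bodd, podd VCO (6); bher, pher VCO (5);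
v00, v0r: VCO (1), `act g 0 = 0`; b0, p0: empty support; pcom PCM; psq, anti BBA; nv: `exp(iπ) = -1`, LEV (1), `ndf = 0` (with `1`): all the level sets agree; nb: LEV (2) (`ndf ≤ 1`); nfree: LEV (4): `q • Lev_i = Lev_i` for one `i` gives `ndf c c q < 2m`; gap: GPM. -/
def SpecMOB : Prop := ∀ (G : Type) [Group G], W G → HasMod G

/-! ## Words -/

/-- the universal matrix over the free algebra: `FA = ℂ[FreeMonoid G]` -/
abbrev FA (G : Type) := MonoidAlgebra ℂ (FreeMonoid G)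

/-- `L` with the letters `g` in place of the `Θ_g`, `g` in `S` -/
noncomputable def Lu {G C : Type} [DecidableEq C] (S : Finset G) (v : G → Matrix C C ℂ) (sg : C → ℂ) (B : Matrix C C ℂ) : Matrix C C (FA G) :=
  Matrix.of fun c c' => (∑ g ∈ S, MonoidAlgebra.single (FreeMonoid.of g) (v g c c' * sg c')) + MonoidAlgebra.single 1 (B c c')

/-- the evaluation `g ↦ Θ_g` -/
noncomputable def evl {H G : Type} [NormedAddCommGroup H] [InnerProductSpace ℂ H] (Θ : MonoidAlgebra (Bo H) G) : FA G →ₐ[ℂ] Bo H :=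
  MonoidAlgebra.lift ℂ (Bo H) (FreeMonoid G) (FreeMonoid.lift fun g => Θ.coeff g)

/-- **WDA** [120 lines].  Section 5.  Let `S_D(c,c')` be the set of words `w` with product `q` in `G` such that `n c i = q • n c' i` for all but at most `D` indices `i`.  The entries of `Lu^k` at `(c,c')` are supported in `S_k(c,c')`: induction; a letter `g` with `v g c c' ≠ 0` keeps all the equations (`n c i = g • n c' i`),
the empty word with `B c c' ≠ 0` destroys at most one.  For `c = c'` and `k < 2m` at least one equation `n c i = q • n c i` is left, so `q = 1`. -/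
def SpecWDA : Prop := ∀ (G : Type) [Group G] (C : Type) [Fintype C] [DecidableEq C] (S : Finset G) (m : ℕ) (v : G → Matrix C C ℂ) (sg : C → ℂ) (B : Matrix C C ℂ) (Q : Type) [MulAction G Q] (n : C → Fin (2 * m) → Q),
  (∀ g c c', v g c c' ≠ 0 → ∀ i, n c i = g • n c' i) → (∀ c c', B c c' ≠ 0 → ∃ i0, ∀ i, i ≠ i0 → n c i = n c' i) → (∀ c i (q : G), q • n c i = n c i → q = 1) →
  ∀ k : ℕ, k < 2 * m → ∀ (c : C) (l : FreeMonoid G), (((Lu S v sg B) ^ k) c c).coeff l ≠ 0 → l.toList.prod = 1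

/-- **WDB** [120 lines, uses WDA, MOP].  `mop (Lm v sg B Θ) = ` the operator of `(Lu S v sg B).map (evl Θ)` (if `support Θ ⊆ S`), and `it` commutes with ring homomorphisms (MNBM.map_it): `TT ω (it (t • mop (Lm ..)) j) = sum_c ω (evl Θ ((it (t • Lu) j) c c))`.  `it (t • Lu) j` is a polynomial of degree `≤ 3^j` in `Lu` (TW: MOM,
`aeval (qj j)`), so by WDA its diagonal entries are combinations of words with product `1`, where `ω₁ ∘ evl Θ₁` and `ω₂ ∘ evl Θ₂` agree. -/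
def SpecWDB : Prop := ∀ (G : Type) [Group G] (C : Type) [Fintype C] [DecidableEq C] (S : Finset G) (m : ℕ) (v : G → Matrix C C ℂ) (sg : C → ℂ) (B : Matrix C C ℂ) (Q : Type) [MulAction G Q] (n : C → Fin (2 * m) → Q),
  (∀ g c c', v g c c' ≠ 0 → ∀ i, n c i = g • n c' i) → (∀ c c', B c c' ≠ 0 → ∃ i0, ∀ i, i ≠ i0 → n c i = n c' i) → (∀ c i (q : G), q • n c i = n c i → q = 1) →
  ∀ (H₁ H₂ : Type) [NormedAddCommGroup H₁] [InnerProductSpace ℂ H₁] [CompleteSpace H₁] [NormedAddCommGroup H₂] [InnerProductSpace ℂ H₂] [CompleteSpace H₂]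
    (Θ₁ : MonoidAlgebra (Bo H₁) G) (Θ₂ : MonoidAlgebra (Bo H₂) G) (ω₁ : Bo H₁ →L[ℂ] ℂ) (ω₂ : Bo H₂ →L[ℂ] ℂ), Θ₁.coeff.support ⊆ S → Θ₂.coeff.support ⊆ S →
  (∀ l : List G, l.prod = 1 → ω₁ (wd Θ₁ l) = ω₂ (wd Θ₂ l)) → ∀ (t : ℝ) (j : ℕ), 3 ^ j < 2 * m →
  TT ω₁ (it ((t : ℂ) • mop (Lm v sg B Θ₁)) j) = TT ω₂ (it ((t : ℂ) • mop (Lm v sg B Θ₂)) j)

/-- **POL** [60 lines, uses SG: SCA].  `del e (j0+i) ≤ (1/2)^(2^i)`, and `(2·3^(j0+i) + 1)^a ≤ (3^(j0+i+1))^a`: polynomial in `2^i` against `(1/2)^(2^i)`. -/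
def SpecPOL : Prop := ∀ (e : ℝ) (a : ℕ) (c : ℝ), 0 < e → e ≤ 1 → 0 ≤ c → Tendsto (fun j : ℕ => c * (2 * 3 ^ j + 1) ^ a * del e j) atTop (𝓝 0)

/-- **COM** [150 lines, uses TWO WDB POL SGA SSC TTB BBL LHM and TW/CSA exist], section 6.  `S` = union of the supports, `C0`, `C1` = maxima of the `n1` norms, `+ 1`.  `b, β, a` from HasMod.  For each `j` the model with `m = 3^j`; `s_i'` = sign of `L_i = mop (Lm (v 1) sg B Θ_i)`; TWO: `TT ω_i s_i' = ω_i s_i`.  SGA with `t = 1/β`, `e = min (b/β) 1`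
(`Gpd` by BBL): `‖it (t L_i) j - s_i'‖ ≤ del e j`, TTB: `|TT ω_i (it (t L_i) j) - TT ω_i s_i'| ≤ card C ‖ω_i‖ del e j ≤ (2·3^j + 1)^a ‖ω_i‖ del e j`; WDB: the two middle terms agree (`3^j < 2·3^j`).  So `|ω₁ s₁ - ω₂ s₂| ≤ (2·3^j+1)^a (‖ω₁‖ + ‖ω₂‖) del e j → 0` (POL). -/
def SpecCOM : Prop := ∀ (G : Type) [Group G], HasMod G → Core G

theorem specCORE (hMOB : SpecMOB) (hCOM : SpecCOM) : SpecCORE := fun G _ h => hCOM G (hMOB G h)

end Pool.Agent.Lib.MP8a3537.AM
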