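import Pool.Agent.Lib.MP_8a3537_gt.AM.CDef
import Pool.Agent.Lib.MP_8a3537_gt.AM.Spec

/-!
# Specs, block F: from the core theorem to the theorems on signatures (MP_8a3537_gt, folder AM)

Paper: /team-store/MP_8a3537_gt_AMENABLE.md and /team-store/MP_8a3537_gt_TWISTED.md.  Every proof is in the docstring.
One module = one file Pool/Agent/Lib/MP_8a3537_gt/AM/XXX.lean, `import Pool.Agent.Lib.MP_8a3537_gt.AM.SpecF`, namespace
Pool.Agent.Lib.MP8a3537.AM, `theorem specXXX (hYYY : SpecYYY) ... : SpecXXX`, own lemmas in the namespace XXXM.  Every other Spec may be a hypothesis.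
The landed theorems of SG and TW may be used (import Pool.Agent.Lib.MP_8a3537_gt.TW.All gives `TW.all_...`; single files: TW/CSA, TW/CSM, TW/MOM, TW/PSM, TW/HRX, TW/XIX,
TW/BDA, TW/EST, SG/All ...).

NOTATION.  `A[G] = MonoidAlgebra A G`, `ev` = sum of the coefficients, `n1` = sum of the norms of the coefficients, `Herm`, `Cyc`, `Sg`, `wd`, `Core` (AM/CDef.lean).
`P`-type statements of TW used finite dimensional unitary representations (residually finite groups); here they are replaced by `PQ` (l^1 bounds instead of gaps).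
-/

set_option linter.unusedVariables false

namespace Pool.Agent.Lib.MP8a3537.AM

open scoped BigOperators Matrix
open Pool.Agent.Lib.MP8a3537.SG
open Pool.Agent.Lib.MP8a3537.TW
open Filter Topology

/-! ## Classes of groups -/

/-- every `g ≠ 1` survives in a group that is torsion-free amenable or has a commensurating action without elliptic elements -/
def RAC (G : Type) [Group G] : Prop :=
  ∀ g : G, g ≠ 1 → ∃ (K : Type) (_ : Group K) (f : G →* K), f g ≠ 1 ∧ (TFA K ∨ CNE K)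

/-- `z` survives in a torsion-free nilpotent quotient -/
def ZN {Γ : Type} [Group Γ] (z : Γ) : Prop :=
  ∃ K : Subgroup Γ, ∃ _ : K.Normal, z ∉ K ∧ Group.IsNilpotent (Γ ⧸ K) ∧ ∀ x : Γ ⧸ K, ∀ n : ℕ, 0 < n → x ^ n = 1 → x = 1

/-- **CLS** [30 lines, uses TFW NAM].  `RTFN G`: take `K := G ⧸ K`, `f = mk'`. -/
def SpecCLS : Prop := (∀ (G : Type) [Group G], RAC G → RW G) ∧ (∀ (G : Type) [Group G], RTFN G → RAC G)

/-- **WRS** [60 lines, uses WPR].  Induction on `T`: product of the groups and of the homomorphisms; `T = ∅`: the trivial group. -/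
def SpecWRS : Prop := ∀ (G : Type) [Group G], RW G → ∀ T : Finset G, (1 : G) ∉ T →
  ∃ (K : Type) (_ : Group K) (f : G →* K), W K ∧ ∀ t ∈ T, f t ≠ 1

/-! ## Operators -/

/-- **EGP** [150 lines; compare TW/CSA.lean, `CSAM.core`].  `X' X = 1 + Z`, `‖Z‖ ≤ 1/2`: `X' X` is invertible (`Units.oneSub` / `isUnit_one_sub..`), so `X` has a left inverse, and `X = X^*` has a right inverse (take stars); `X⁻¹ = (X' X)⁻¹ X'` has norm at most `2 C1`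
(from `‖v‖ ≤ ‖(1+Z) v‖ + ‖v‖/2` with `v = X⁻¹`: `‖X⁻¹‖ ≤ ‖X' X X⁻¹‖ + ‖Z‖ ‖X⁻¹‖`).  `S` sign of `X`: `x = b S X` is positive (`b (t^* t)`), `x² = b² X²`, `‖x⁻¹‖ ≤ 2 C1 / b`, so its spectrum lies in `[e, 1]`, `e = b/(2 C1)`; `it (b X) j = S it x j` (`S² = 1`, commuting, odd polynomial) and `‖it x j - 1‖ ≤ del e j` by the
functional calculus (`SG.specSCA`: `|sj y j - 1| ≤ del e j` for `e ≤ y ≤ 1`).  The proof of `CSAM.core` works verbatim with this `e`. -/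
def SpecEGP : Prop := ∀ (A : Type) [CStarAlgebra A] (X X' : A) (b C1 : ℝ), IsSelfAdjoint X → ‖X' * X - 1‖ ≤ 1 / 2 → ‖X'‖ ≤ C1 → 0 < C1 → 0 < b → b ≤ 2 * C1 →
  b * ‖X‖ ≤ 1 → IsUnit X ∧ ∀ S, Sg X S → ∀ j, ‖it ((b : ℂ) • X) j - S‖ ≤ del (b / (2 * C1)) j

/-- **LAM** [200 lines].  `H' = lp (fun _ : K => H) 2`, `(U k a v) l = a (v (k⁻¹ l))` (composition of the isometry given by a permutation of the index set and of the operator `a` applied to all coordinates, of norm `≤ ‖a‖`).  `w' T = w (E T V)`, `V x = lp.single 2 1 x`, `E v = v 1` (norms `≤ 1`).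
Adjoint: `⟪U k a v, u⟫ = ∑ ⟪a (v (k⁻¹ l)), u l⟫ = ∑ ⟪v l, a^* (u (k l))⟫`. -/
def SpecLAM : Prop := ∀ (K H : Type) [Group K] [NormedAddCommGroup H] [InnerProductSpace ℂ H] [CompleteSpace H],
  ∃ (H' : Type) (_ : NormedAddCommGroup H') (_ : InnerProductSpace ℂ H') (_ : CompleteSpace H') (U : K → (H →L[ℂ] H) →ₗ[ℂ] (H' →L[ℂ] H')),
    U 1 1 = 1 ∧ (∀ k l a b, U k a * U l b = U (k * l) (a * b)) ∧ (∀ k a, star (U k a) = U k⁻¹ (star a)) ∧ (∀ k a, ‖U k a‖ ≤ ‖a‖) ∧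
    ∀ w : (H →L[ℂ] H) →L[ℂ] ℂ, ∃ w' : (H' →L[ℂ] H') →L[ℂ] ℂ, ‖w'‖ ≤ ‖w‖ ∧ ∀ k a, w' (U k a) = open Classical in if k = 1 then w a else 0

/-- **MPL** [200 lines].  `H' = PiLp 2 (fun _ : ι => H)`, `(Ω x v) i = ∑ j, x i j (v j)`; `w' T = ∑ i, w (P_i T V_i)` with the coordinate maps. -/
def SpecMPL : Prop := ∀ (ι H : Type) [Fintype ι] [DecidableEq ι] [NormedAddCommGroup H] [InnerProductSpace ℂ H] [CompleteSpace H],
  ∃ (H' : Type) (_ : NormedAddCommGroup H') (_ : InnerProductSpace ℂ H') (_ : CompleteSpace H') (Ω : Matrix ι ι (H →L[ℂ] H) →ₐ[ℂ] (H' →L[ℂ] H')),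
    (∀ x, Ω xᴴ = star (Ω x)) ∧ (∀ x, ‖Ω x‖ ≤ ∑ i, ∑ j, ‖x i j‖) ∧
    ∀ w : (H →L[ℂ] H) →L[ℂ] ℂ, ∃ w' : (H' →L[ℂ] H') →L[ℂ] ℂ, ∀ x, w' (Ω x) = ∑ i, w (x i i)

/-- **MMA** [100 lines].  Matrices over `A[G]` are elements of `M(A)[G]`; multiplicativity: compare coefficients, both sides are `∑ over j and over the pairs (g, h) with product k` (e.g. reduce to `single` by additivity: `Matrix.single`, `MonoidAlgebra.single`). -/
def SpecMMA : Prop := ∀ (A G ι : Type) [Ring A] [Algebra ℂ A] [Group G] [Fintype ι] [DecidableEq ι],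
  ∃ Θ : Matrix ι ι (MonoidAlgebra A G) →ₐ[ℂ] MonoidAlgebra (Matrix ι ι A) G, ∀ x g i j, (Θ x).coeff g i j = (x i j).coeff g

/-- **XIG** [60 lines].  As `TW/XIX.lean` (`MonoidAlgebra.liftNCRingHom`). -/
def SpecXIG : Prop := ∀ (R E G A : Type) [Ring R] [Group E] [Group G] [Ring A] (ψ : MonoidAlgebra R E →+* A) (π : E →* G),
  ∃ Ξ : MonoidAlgebra R E →+* MonoidAlgebra A G, ∀ g r, Ξ (MonoidAlgebra.single g r) = MonoidAlgebra.single (π g) (ψ (MonoidAlgebra.single g r))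

/-! ## The uniform residual theorem -/

/-- **URT** [300 lines, uses EGP LAM WRS CORE].  `ev y' * ev y - 1 = ev (y' * y - 1)` has norm `≤ n1 ≤ 1/2`, `‖ev y'‖ ≤ C1`, `ev y` is selfadjoint: EGP gives that `ev y` is invertible.  Given `j`, let `T` be the support of `it (b • y) j` without `1`, `f : G → K` from WRS, `W K`, so `Core K`.
Put `y_K = MonoidAlgebra.mapDomainRingHom _ f y` and `y'_K` (an algebra homomorphism `A[G] → A[K]`, norm decreasing for `n1`, `ev` is preserved, `Herm` is preserved, coefficients of `y_K` are sums of coefficients of `y`, so `Cyc w y_K`).  `H', U, w'` from LAM; `Λe : A[K] → B(H')`, `Λe (∑ a_k k) = ∑ U k a_k`,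
and `Λ : A[K] → B(H')[K]`, `Λ (∑ a_k k) = ∑ (U k a_k) k` are algebra homomorphisms, `ev (Λ x) = Λe x`, `w' (Λe x) = w (x.coeff 1)`, `Herm (Λ y_K)`, `n1 (Λ x) ≤ n1 x`, `wd (Λ y_K) l = U l.prod (wd y_K l)`.  `Cyc w' (Λ y_K)`: the adjoin of the coefficients consists of elements `Λe x`, `x ∈ A[K]` with all coefficients in
the adjoin `A0` of the coefficients of `y_K` (such elements form an algebra), and `w' (Λe x * Λe x') = ∑ w (x_k x'_(k⁻¹)) = ∑ w (x'_(k⁻¹) x_k)`.  Core for `y₁ = y_K`, `w`, and `y₂ = Λ y_K`, `w'`: `w S = w' S'` for the sign `S'` of `Λe y_K` (it exists by TW/CSA: `CSAM.exist`).  EGP for `Λe y_K`, `Λe y'_K`: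
`‖it (b • Λe y_K) j - S'‖ ≤ del ..`, and `w' (it (b • Λe y_K) j) = w ((it (b • y_K) j).coeff 1) = ∑_{f g = 1} w ((it (b • y) j).coeff g) = w ((it (b • y) j).coeff 1)` because of the choice of `T`. -/
def SpecURT : Prop := ∀ (G : Type) [Group G], RW G → ∀ (H : Type) [NormedAddCommGroup H] [InnerProductSpace ℂ H] [CompleteSpace H]
  (y y' : MonoidAlgebra (H →L[ℂ] H) G) (w : (H →L[ℂ] H) →L[ℂ] ℂ) (b C1 : ℝ), Herm y → n1 (y' * y - 1) ≤ 1 / 2 → n1 y' ≤ C1 → 0 < C1 → 0 < b → b ≤ 2 * C1 → b * n1 y ≤ 1 → Cyc w y →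
  IsUnit (ev y) ∧ ∀ S, Sg (ev y) S → ∀ j, ‖w ((it ((b : ℂ) • y) j).coeff 1) - w S‖ ≤ ‖w‖ * del (b / (2 * C1)) j

/-! ## Finite dimensional coefficients -/

/-- the matrix of the coefficients at `g` -/
def cf {G ι : Type} [Group G] (a : Matrix ι ι (CG G)) (g : G) : Matrix ι ι ℂ := Matrix.of fun i j => (a i j).coeff g

/-- `β` bounds the sum of the operator norms of the coefficients of `a` -/
def Nb {G ι : Type} [Group G] [Fintype ι] (a : Matrix ι ι (CG G)) (β : ℝ) : Prop :=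
  ∃ f : G →₀ ℝ, (∀ g, 0 ≤ f g ∧ Bd (cf a g) (f g)) ∧ f.sum (fun _ x => x) ≤ β

/-- **PQ** [250 lines, uses URT MMA and SG].  `H = EuclideanSpace ℂ ι`, `y = ∑ toEuclideanCLM (cf a g) g` (MMA and `MonoidAlgebra.mapRangeRingHom` for `Matrix.toEuclideanCLM`, which is a star algebra equivalence), `Bd A β` means `‖toEuclideanCLM A‖ ≤ β` (for `β ≥ 0`), so `n1 y ≤ β` etc.; `w` = trace, `‖w‖ ≤ card ι`
(`|tr A| ≤ ∑ |⟪A e_i, e_i⟫|`), tracial.  `ev y = toEuclideanCLM (augM a)`.  `tau (it (b • a) j) = w ((it (b • y) j).coeff 1)`.  Finally `w S = sgn (augM a)` for the sign `S` of the invertible hermitian matrix `augM a`: both are the limit of `tr (it (b • augM a) j)` (SG/SGN and SG/SPE, or TW/REB.lean; EGP), or by diagonalisation. -/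
def SpecPQ : Prop := ∀ (G : Type) [Group G], RW G → ∀ (ι : Type) [Fintype ι] [DecidableEq ι] (a a' d : Matrix ι ι (CG G)) (b β β' : ℝ),
  IsHerm a → a' * a = 1 + d → Nb d (1 / 2) → Nb a' β' → Nb a β → 0 < β' → 0 < b → b ≤ 2 * β' → b * β ≤ 1 →
  IsUnit (augM a) ∧ ∀ j, ‖tau (it ((b : ℂ) • a) j) - ((sgn (augM a) : ℤ) : ℂ)‖ ≤ Fintype.card ι * del (b / (2 * β')) j

/-- **NBX** [150 lines; compare TW/BDX.lean].  (1) `f g' = ∑ over i, j, and g in the support of u_ij with π g = g' of β (u_ij g)`; `cf (psh Ξ u) g'` is the sum of the block matrices `E_ij ⊗ Φ (single g (u_ij g))` over the same set, each has the bound `β (u_ij g)` (BDXM.bd_single, bd_block with the trivial group).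
(2), (3) rules.  (4) crude bound. -/
def SpecNBX : Prop :=
  (∀ (R E G ι κ : Type) [Ring R] [StarRing R] [Group E] [Group G] [Fintype ι] [DecidableEq ι] [Fintype κ] [DecidableEq κ]
    (Φ : MonoidAlgebra R E →+* Matrix κ κ ℂ) (π : E →* G) (Ξ : MonoidAlgebra R E →+* Matrix κ κ (CG G)) (β : R → ℝ), IsXi Φ π Ξ → StarHom Φ →
    (∀ r, 0 ≤ β r ∧ Bd (Φ (MonoidAlgebra.single 1 r)) (β r)) →
    ∀ u : Matrix ι ι (MonoidAlgebra R E), Nb (psh Ξ u) (∑ i, ∑ j, ∑ g ∈ (u i j).coeff.support, β ((u i j).coeff g))) ∧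
  (∀ (G ι : Type) [Group G] [Fintype ι] (a : Matrix ι ι (CG G)) (c : ℂ) (β : ℝ), Nb a β → Nb (c • a) (‖c‖ * β)) ∧
  (∀ (G ι : Type) [Group G] [Fintype ι] (a : Matrix ι ι (CG G)) (β γ : ℝ), Nb a β → β ≤ γ → Nb a γ) ∧
  (∀ (G ι : Type) [Group G] [Fintype ι] (a : Matrix ι ι (CG G)), ∃ β : ℝ, 1 ≤ β ∧ Nb a β) ∧
  (∀ (G ι : Type) [Group G] [Fintype ι], Nb (0 : Matrix ι ι (CG G)) 0)

/-- **LI2** [60 lines, uses PQ NBX].  `a = y`, `a' = y⁻¹`, `d = 0`; `β' ≥ 1`, `b0 = min (1/β) 1`; `del e j → 0` (`LIMM.del_tendsto`). -/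
def SpecLI2 : Prop := ∀ (G : Type) [Group G], RW G → SgnP G

/-- **RA2** [100 lines, uses LI2; copy of TW/REA.lean].  Theorem 1 (a). -/
def SpecRA2 : Prop := ∀ (R E : Type) [Ring R] [StarRing R] [Group E] (H : Subgroup E) [H.Normal], RW (E ⧸ H) →
  ∀ (ι : Type) [Fintype ι] [DecidableEq ι] (h : Matrix ι ι (MonoidAlgebra R E)) (ε : ℤ) (c : ℂ), Unit01 ε c → EpsHerm ε h → IsUnit h →
  ∀ (κ₁ κ₂ : Type) [Fintype κ₁] [DecidableEq κ₁] [Fintype κ₂] [DecidableEq κ₂] (Φ₁ : MonoidAlgebra R E →+* Matrix κ₁ κ₁ ℂ)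
    (Φ₂ : MonoidAlgebra R E →+* Matrix κ₂ κ₂ ℂ) (k₁ k₂ : ℕ), StarHom Φ₁ → StarHom Φ₂ →
  (∀ g ∈ H, ∀ r : R, k₁ * (Φ₁ (MonoidAlgebra.single g r)).trace = k₂ * (Φ₂ (MonoidAlgebra.single g r)).trace) →
  k₁ * sgn (c • blk Φ₁ h) = k₂ * sgn (c • blk Φ₂ h)

/-- **RB2** [100 lines, uses LI2; copy of TW/REB.lean].  Theorem 1 (b). -/
def SpecRB2 : Prop := ∀ (R E : Type) [Ring R] [StarRing R] [Group E] (H : Subgroup E) [H.Normal], RW (E ⧸ H) →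
  ∀ (ι : Type) [Fintype ι] [DecidableEq ι] (h : Matrix ι ι (MonoidAlgebra R E)) (ε : ℤ) (c : ℂ), Unit01 ε c → EpsHerm ε h → IsUnit h →
  ∀ (κ : Type) [Fintype κ] [DecidableEq κ] (Φ : MonoidAlgebra R E →+* Matrix κ κ ℂ) (B : Type) [CStarAlgebra B] (ψ : MonoidAlgebra R E →+* B) (ω : B →L[ℂ] ℂ),
  StarHom Φ → StarHom ψ → (∀ g ∈ H, ∀ r : R, ω (ψ (MonoidAlgebra.single g r)) = (Φ (MonoidAlgebra.single g r)).trace) →
  (∀ g ∉ H, ∀ r : R, ω (ψ (MonoidAlgebra.single g r)) = 0) →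
  (∃ S, IsSgn (c • h.map ψ) S) ∧ ∀ S, IsSgn (c • h.map ψ) S → ∑ i, ω (S i i) = ((sgn (c • blk Φ h) : ℤ) : ℂ)

/-! ## General traces -/

/-- `∑ over i and g of χ(g) w(ψ(x_ii(g) g))` -/
noncomputable def trF {R E ι A : Type} [Ring R] [Group E] [Fintype ι] [Ring A] (w : A → ℂ) (ψ : MonoidAlgebra R E → A) (χ : E → ℂ)
    (x : Matrix ι ι (MonoidAlgebra R E)) : ℂ :=
  ∑ i, ∑ g ∈ (x i i).coeff.support, χ g * w (ψ (MonoidAlgebra.single g ((x i i).coeff g)))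

/-- **GTM** [250 lines, uses URT MPL MMA XIG].  `H'`, `Ω`, `w'` from MPL.  The composition `Υ` of `Matrix.map Ξ` (XIG for `ψ` and `π : E → E ⧸ H`), `Θ` (MMA) and `MonoidAlgebra.mapRangeRingHom Ω` is a ring homomorphism `M_ι(R[E]) → B(H')[E ⧸ H]`, `ev (Υ x) = Ω (x.map ψ)`; `y = c • Υ h`, `y' = c⁻¹ • Υ h⁻¹`, `y' y = 1`,
`Herm y` by EpsHerm.  `Cyc w' y`: the coefficients of `y` are `Ω` of matrices with entries in the complex span of `ψ (R[E])`, which is an algebra on which `w` is tracial; `w' (Ω a * Ω b) = ∑_ij w (a_ij b_ji)`.  `w' ((Υ x).coeff 1) = trF w ψ (ind H) x`.  MOM (TW/MOM.lean) for the linear functional `x ↦ w' (x.coeff 1)` on `B(H')[E ⧸ H]`: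
`w' ((it (b • y) j).coeff 1) = momJ (fun l => trF w ψ (ind H) (h^l)) (b c) j`.  URT and `del e j → 0`; a sign `S` of `c • h.map ψ` gives the sign `Ω S` of `ev y`, and conversely `ev y` has a sign. -/
def SpecGTM : Prop := ∀ (R E : Type) [Ring R] [StarRing R] [Group E] (H : Subgroup E) [H.Normal], RW (E ⧸ H) →
  ∀ (ι : Type) [Fintype ι] [DecidableEq ι] (h : Matrix ι ι (MonoidAlgebra R E)) (ε : ℤ) (c : ℂ), Unit01 ε c → EpsHerm ε h → IsUnit h →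
  ∀ (V : Type) [NormedAddCommGroup V] [InnerProductSpace ℂ V] [CompleteSpace V] (ψ : MonoidAlgebra R E →+* (V →L[ℂ] V)) (w : (V →L[ℂ] V) →L[ℂ] ℂ), StarHom ψ →
  (∀ x y, w (ψ x * ψ y) = w (ψ y * ψ x)) →
  ∃ b0 : ℝ, 0 < b0 ∧ ∀ b : ℝ, 0 < b → b ≤ b0 → ∀ S, IsSgn (c • h.map ψ) S →
    Tendsto (fun j => momJ (fun l => trF w ψ (ind H) (h ^ l)) (b * c) j) atTop (𝓝 (∑ i, w (S i i)))

/-- **GTR** [120 lines, uses GTM CSM MOM].  (a) the two sequences `momJ` of GTM agree up to the factors `k₁`, `k₂` (`momJ` is linear in the moments; `ind H g = 0` for `g ∉ H`).  (b) as in TW/REB.lean: `∑ ω ((it (b • c • h.map ψ₂) j)_ii)` is the same `momJ`, and CSM.  Existence of the signs: CSM. -/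
def SpecGTR : Prop := ∀ (R E : Type) [Ring R] [StarRing R] [Group E] (H : Subgroup E) [H.Normal], RW (E ⧸ H) →
  ∀ (ι : Type) [Fintype ι] [DecidableEq ι] (h : Matrix ι ι (MonoidAlgebra R E)) (ε : ℤ) (c : ℂ), Unit01 ε c → EpsHerm ε h → IsUnit h →
  ∀ (V₁ : Type) [NormedAddCommGroup V₁] [InnerProductSpace ℂ V₁] [CompleteSpace V₁] (ψ₁ : MonoidAlgebra R E →+* (V₁ →L[ℂ] V₁)) (w₁ : (V₁ →L[ℂ] V₁) →L[ℂ] ℂ), StarHom ψ₁ →
  (∀ x y, w₁ (ψ₁ x * ψ₁ y) = w₁ (ψ₁ y * ψ₁ x)) →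
  (∃ S, IsSgn (c • h.map ψ₁) S) ∧
  (∀ (V₂ : Type) [NormedAddCommGroup V₂] [InnerProductSpace ℂ V₂] [CompleteSpace V₂] (ψ₂ : MonoidAlgebra R E →+* (V₂ →L[ℂ] V₂)) (w₂ : (V₂ →L[ℂ] V₂) →L[ℂ] ℂ), StarHom ψ₂ →
    (∀ x y, w₂ (ψ₂ x * ψ₂ y) = w₂ (ψ₂ y * ψ₂ x)) →
    (∀ g ∈ H, ∀ r : R, w₁ (ψ₁ (MonoidAlgebra.single g r)) = w₂ (ψ₂ (MonoidAlgebra.single g r))) →
    ∀ S₁ S₂, IsSgn (c • h.map ψ₁) S₁ → IsSgn (c • h.map ψ₂) S₂ → ∑ i, w₁ (S₁ i i) = ∑ i, w₂ (S₂ i i)) ∧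
  (∀ (B : Type) [CStarAlgebra B] (ψ₂ : MonoidAlgebra R E →+* B) (ω : B →L[ℂ] ℂ), StarHom ψ₂ →
    (∀ g ∈ H, ∀ r : R, ω (ψ₂ (MonoidAlgebra.single g r)) = w₁ (ψ₁ (MonoidAlgebra.single g r))) → (∀ g ∉ H, ∀ r : R, ω (ψ₂ (MonoidAlgebra.single g r)) = 0) →
    (∃ S, IsSgn (c • h.map ψ₂) S) ∧ ∀ S₁ S₂, IsSgn (c • h.map ψ₁) S₁ → IsSgn (c • h.map ψ₂) S₂ → ∑ i, ω (S₂ i i) = ∑ i, w₁ (S₁ i i))

/-! ## Twisted signatures -/

/-- **ES2** [200 lines, uses PQ NBX; compare TW/EST.lean and the middle part of TW/TWI.lean].  `Bn u = ∑ of the absolute values of all the coefficients of u`; `δ = 1/(4π(Bn x' + 1))`, `b0 = min (1/(Bn y + 1)) 1`, `β' = Bn y' + 1`, `e = b/(2β')`.  For `σ : Γ → U(κ)`, `σ z = ex θ • 1`: `Φ = repA σ`, `Ξ` for `π : Γ → G` (XIX), `a = psh Ξ y`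
(hermitian by HRX with `ε = 1, c = 1`), `a' = psh Ξ y'`, `a' a = 1 + (ex θ - 1) • psh Ξ x'` (PSM, `π z = 1`), bounds by NBX with `β r = ‖r‖`, `‖ex θ - 1‖ ≤ 2π|θ|` (TRIM.ex_sub_one).  PQ; `it (b • psh Ξ y) j = psh Ξ (it (b • y) j)`, `augM (psh Ξ y) = twist σ y`, `sgn (b • A) = sgn A` (specSGS), and
`tau (psh Ξ x) = card κ * tauZ z θ x` (see TW/EST.lean). -/
def SpecES2 : Prop := ∀ (Γ G : Type) [Group Γ] [Group G] (π : Γ →* G) (z : Γ), CExt Γ G π z → RW G → ∀ (ι : Type) [Fintype ι] [DecidableEq ι]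
  (y y' x' : Matrix ι ι (CG Γ)), IsHerm y → y' * y = 1 + Matrix.scalar ι (MonoidAlgebra.single z 1 - 1) * x' →
  ∃ (δ b0 : ℝ), 0 < δ ∧ 0 < b0 ∧ ∀ b : ℝ, 0 < b → b ≤ b0 → ∃ e : ℝ, 0 < e ∧ e ≤ 1 ∧ ∀ θ : ℝ, |θ| < δ →
    ∀ (κ : Type) [Fintype κ] [DecidableEq κ] (σ : Γ →* Matrix.unitaryGroup κ ℂ), ((σ z : Matrix.unitaryGroup κ ℂ) : Matrix κ κ ℂ) = ex θ • 1 →
    ∀ j, ‖(Fintype.card κ : ℂ) * tauZ z θ (it ((b : ℂ) • y) j) - ((sgn (twist σ y) : ℤ) : ℂ)‖ ≤ Fintype.card ι * Fintype.card κ * del e j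

/-- **NQ2** [100 lines; copy of TW/NQU.lean]. -/
def SpecNQ2 : Prop := ∀ (Γ : Type) [Group Γ] (z : Γ), Group.FG Γ → ZN z → (∀ g, g * z = z * g) → D2 Γ z ∧
  ∃ (C : ℝ) (r : ℕ) (I : ℕ → ℕ), 0 ≤ C ∧ ∀ M : ℕ, 0 < M → 0 < I M ∧ (I M : ℝ) ≤ C * (M : ℝ) ^ r ∧
    ∀ p : ℤ, ∃ ρ : Γ →* Matrix.unitaryGroup (Fin (I M)) ℂ, ((ρ z : Matrix.unitaryGroup (Fin (I M)) ℂ) : Matrix (Fin (I M)) (Fin (I M)) ℂ) = ex (p / M) • 1

/-- **CO2** [300 lines, uses CLQ NQ2 COE ES2; copy of TW/COR.lean with ES2 instead of LGB, EST and `P G`; `CORM` lemmas can be imported from TW/COR.lean]. -/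
def SpecCO2 : Prop := ∀ (Γ G : Type) [Group Γ] [Group G] (π : Γ →* G) (z : Γ), CExt Γ G π z → Group.FG Γ → ZN z → RW G →
  ∀ (ι : Type) [Fintype ι] [DecidableEq ι] (y y' x' : Matrix ι ι (CG Γ)), IsHerm y → y' * y = 1 + Matrix.scalar ι (MonoidAlgebra.single z 1 - 1) * x' →
  ∃ (δ b0 : ℝ) (Q : Polynomial ℚ), 0 < δ ∧ 0 < b0 ∧
    (∀ b : ℝ, 0 < b → b ≤ b0 → ∀ θ : ℝ, |θ| < δ → Tendsto (fun j => tauZ z θ (it ((b : ℂ) • y) j)) atTop (𝓝 (((Polynomial.aeval θ Q : ℝ) : ℂ)))) ∧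
    Q.eval 0 = (sgn (augM y) : ℤ)

/-- **TI2** [300 lines, uses XIX PSM HRX TRZ TRK MOM BDA NRT CSM NBX PQ CO2; copy of TW/TWI.lean: the part with `Gap`, `BDX`, `MGP` and `P` is replaced by PQ and NBX for `a = c • psh Ξ h`, `a' = c⁻¹ • psh Ξ h'`, `d = (ex θ - 1) • psh Ξ x'`; PQ also gives that `augM a = c • blk Φ h` is invertible.
`z` has infinite order modulo `H` because its image in a torsion-free quotient of `E ⧸ H` is not trivial]. -/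
def SpecTI2 : Prop := ∀ (R E : Type) [Ring R] [StarRing R] [Group E] (H K : Subgroup E) [H.Normal] [K.Normal] (z : E), Group.FG E → ZN (z : E ⧸ H) → RW (E ⧸ K) →
  (∀ g, g * z = z * g) → K = H ⊔ Subgroup.zpowers z →
  ∀ (ι : Type) [Fintype ι] [DecidableEq ι] (h h' x x' : Matrix ι ι (MonoidAlgebra R E)) (ε : ℤ) (c : ℂ), Unit01 ε c → EpsHerm ε h → InvZ z h h' x x' →
  ∀ (κ0 : Type) [Fintype κ0] [DecidableEq κ0] (Φ0 : MonoidAlgebra R E →+* Matrix κ0 κ0 ℂ), StarHom Φ0 → Φ0 (MonoidAlgebra.single z 1) = 1 →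
  ∃ (δ : ℝ) (Q : Polynomial ℚ), 0 < δ ∧ Q.eval 0 = (sgn (c • blk Φ0 h) : ℤ) ∧ Concl H K z h c Φ0 δ Q

/-- **SUB** [80 lines].  (1) `f g ≠ 1`, then the group `K` for `f g`.  (2) preimage `L = K.comap f`; `Γ ⧸ L` embeds into `Γ' ⧸ K`, so it is nilpotent and torsion-free. -/
def SpecSUB : Prop := (∀ (G G' : Type) [Group G] [Group G'] (f : G →* G'), Function.Injective f → RW G' → RW G) ∧
  (∀ (Γ Γ' : Type) [Group Γ] [Group Γ'] (f : Γ →* Γ') (z : Γ), ZN (f z) → ZN z)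

/-- **TG2** [150 lines, uses TI2 KER RED SUB; copy of TW/TWG.lean]. -/
def SpecTG2 : Prop := ∀ (R E : Type) [Ring R] [StarRing R] [Group E] (H K Z : Subgroup E) [H.Normal] [K.Normal] [Z.Normal] (z : E), ZN (z : E ⧸ H) → RW (E ⧸ K) →
  (∀ g, g * z = z * g) → K = H ⊔ Subgroup.zpowers z → Z = Subgroup.zpowers z →
  ∀ (ι : Type) [Fintype ι] [DecidableEq ι] (h : Matrix ι ι (MonoidAlgebra R E)) (ε : ℤ) (c : ℂ), Unit01 ε c → EpsHerm ε h →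
  IsUnit (h.map (MonoidAlgebra.mapDomainRingHom R (QuotientGroup.mk' Z))) →
  ∀ (κ0 : Type) [Fintype κ0] [DecidableEq κ0] (Φ0 : MonoidAlgebra R E →+* Matrix κ0 κ0 ℂ), StarHom Φ0 → Φ0 (MonoidAlgebra.single z 1) = 1 →
  ∃ (δ : ℝ) (Q : Polynomial ℚ), 0 < δ ∧ Q.eval 0 = (sgn (c • blk Φ0 h) : ℤ) ∧ Concl H K z h c Φ0 δ Q

/-- **EX2** [80 lines, uses XIX NQ2; copy of TW/EXI.lean]. -/
def SpecEX2 : Prop := ∀ (R E : Type) [Ring R] [StarRing R] [Group E] (H : Subgroup E) [H.Normal] (z : E), Group.FG E → ZN (z : E ⧸ H) → (∀ g, g * z = z * g) →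
  ∀ (κ0 : Type) [Fintype κ0] [DecidableEq κ0] (Φ0 : MonoidAlgebra R E →+* Matrix κ0 κ0 ℂ), StarHom Φ0 → Φ0 (MonoidAlgebra.single z 1) = 1 → ∀ M : ℕ, 0 < M → ∀ p : ℤ,
    ∃ (κ : Type) (_ : Fintype κ) (_ : DecidableEq κ) (Φ : MonoidAlgebra R E →+* Matrix κ κ ℂ) (k : ℕ),
      0 < k ∧ StarHom Φ ∧ Φ (MonoidAlgebra.single z 1) = ex (p / M) • (1 : Matrix κ κ ℂ) ∧
      ∀ g ∈ H, ∀ r : R, (Φ (MonoidAlgebra.single g r)).trace = k * (Φ0 (MonoidAlgebra.single g r)).trace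

end Pool.Agent.Lib.MP8a3537.AM
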