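import Pool.Agent.Lib.MP_8a3537_gt.AM.SpecF
import Pool.Agent.Lib.MP_8a3537_gt.TW.TWG
import Pool.Agent.Lib.MP_8a3537_gt.TW.KER
import Pool.Agent.Lib.MP_8a3537_gt.TW.RED

/-!
# TG2: Theorem 2 (twisted signatures) for arbitrary groups `E` (MP_8a3537_gt, folder AM)
-/

set_option linter.unusedVariables false

namespace Pool.Agent.Lib.MP8a3537.AM

open Pool.Agent.Lib.MP8a3537.SG
open Pool.Agent.Lib.MP8a3537.TW
open Filter Topology
open scoped BigOperators Pointwise ComplexOrder Matrix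

open TWGM in
/-- **TG2**. -/
theorem specTG2 (hTI2 : SpecTI2) (hSUB : SpecSUB) : SpecTG2 := by
  intro R E _ _ _ H K Z _ _ _ z hH hK hcen hKH hZ ι _ _ h ε c hu hh hinv κ0 _ _ Φ0 hΦ0 hΦz
  have hKER := specKER
  have hRED := specRED
  obtain ⟨h', x, x', hX⟩ := hKER R E z Z hZ hcen ι h hinv
  obtain ⟨E0, hFG, hzE, hs0, hhs⟩ := hRED.1 R E z ι 4 ![h, h', x, x']
  have e0 : (hs0 0).map (inc R E0) = h := hhs 0
  have e1 : (hs0 1).map (inc R E0) = h' := hhs 1
  have e2 : (hs0 2).map (inc R E0) = x := hhs 2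
  have e3 : (hs0 3).map (inc R E0) = x' := hhs 3
  generalize hs0 0 = a at e0
  generalize hs0 1 = a' at e1
  generalize hs0 2 = y at e2
  generalize hs0 3 = y' at e3
  have hinj : Function.Injective (inc R E0) := hRED.2.1 R E E0
  have hmi : Function.Injective (fun A : Matrix ι ι (MonoidAlgebra R E0) => A.map (inc R E0)) :=
    Matrix.map_injective hinj
  let z0 : E0 := ⟨z, hzE⟩
  have hsc : ∀ (A B : Matrix ι ι (MonoidAlgebra R E0)) (x0 : Matrix ι ι (MonoidAlgebra R E0)),
      A.map (inc R E0) * B.map (inc R E0) = 1 + Matrix.scalar ι (MonoidAlgebra.single z 1 - 1) *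
        x0.map (inc R E0) →
      A * B = 1 + Matrix.scalar ι (MonoidAlgebra.single z0 1 - 1) * x0 := by
    intro A B x0 hAB
    apply hmi
    have h1 : (Matrix.scalar ι (MonoidAlgebra.single z0 (1 : R) - 1)).map (inc R E0) =
        Matrix.scalar ι (MonoidAlgebra.single z (1 : R) - 1) := by
      rw [Matrix.scalar_apply, Matrix.scalar_apply, Matrix.diagonal_map (map_zero _)]
      congr 1
      funext _
      rw [map_sub, map_one, inc_single]
    show (A * B).map (inc R E0) = (1 + Matrix.scalar ι (MonoidAlgebra.single z0 (1 : R) - 1) * x0).map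
      (inc R E0)
    rw [Matrix.map_mul, Matrix.map_add _ (map_add _), Matrix.map_mul, h1,
      Matrix.map_one _ (map_zero _) (map_one _)]
    exact hAB
  have hX0 : InvZ z0 a a' y y' := by
    constructor
    · apply hsc
      rw [e0, e1, e2]
      exact hX.right
    · apply hsc
      rw [e0, e1, e3]
      exact hX.left
  have hh0 : EpsHerm ε a := by
    intro i j g
    have h1 := hh i j (g : E)
    rw [← e0, Matrix.map_apply, Matrix.map_apply, inc_coeff] at h1
    rw [h1]
    have h2 := inc_coeff (R := R) E0 (a i j) g⁻¹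
    rw [← h2]
    rfl
  have nH : (H.subgroupOf E0).Normal := inferInstance
  have nK : (K.subgroupOf E0).Normal := inferInstance
  have hK0 : K.subgroupOf E0 = H.subgroupOf E0 ⊔ Subgroup.zpowers z0 := by
    ext g
    rw [Subgroup.mem_subgroupOf, hKH, Subgroup.mem_sup_of_normal_left, Subgroup.mem_sup_of_normal_left]
    constructor
    · rintro ⟨u, hu, v, hv, huv⟩
      obtain ⟨k, rfl⟩ := Subgroup.mem_zpowers_iff.1 hv
      have hzk : z ^ k ∈ E0 := E0.zpow_mem hzE k
      have huE : u ∈ E0 := by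
        have : u = (g : E) * (z ^ k)⁻¹ := by rw [← huv, mul_inv_cancel_right]
        rw [this]
        exact E0.mul_mem g.2 (E0.inv_mem hzk)
      refine ⟨⟨u, huE⟩, ?_, z0 ^ k, Subgroup.mem_zpowers_iff.2 ⟨k, rfl⟩, ?_⟩
      · rw [Subgroup.mem_subgroupOf]
        exact hu
      · apply Subtype.ext
        rw [Subgroup.coe_mul, Subgroup.coe_zpow]
        exact huv
    · rintro ⟨u, hu, v, hv, huv⟩
      obtain ⟨k, rfl⟩ := Subgroup.mem_zpowers_iff.1 hv
      rw [Subgroup.mem_subgroupOf] at hu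
      refine ⟨u, hu, z ^ k, Subgroup.mem_zpowers_iff.2 ⟨k, rfl⟩, ?_⟩
      rw [← huv, Subgroup.coe_mul, Subgroup.coe_zpow]
  have hstar : ∀ {A : Type} [Ring A] [StarRing A] (Φ : MonoidAlgebra R E →+* A), StarHom Φ →
      StarHom (Φ.comp (inc R E0)) := by
    intro A _ _ Φ hΦ g r
    rw [RingHom.comp_apply, RingHom.comp_apply, inc_single, inc_single, hΦ]
    rfl
  have hblk : ∀ {κ : Type} [Fintype κ] [DecidableEq κ] (Φ : MonoidAlgebra R E →+* Matrix κ κ ℂ),
      blk (Φ.comp (inc R E0)) a = blk Φ h := by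
    intro κ _ _ Φ
    rw [← e0]
    rfl
  obtain ⟨δ, Q, hδ, hQ, hC1, hC2⟩ := hTI2 R E0 (H.subgroupOf E0) (K.subgroupOf E0) z0 hFG
    (hSUB.2 _ _ (QuotientGroup.map (H.subgroupOf E0) H E0.subtype le_rfl) _ hH) (hSUB.1 _ _ _ (quot_inj E0 K) hK)
    (fun g => Subtype.ext (hcen g)) hK0 ι a a' y y' ε c
    hu hh0 hX0 κ0 (Φ0.comp (inc R E0)) (hstar Φ0 hΦ0)
    (by rw [RingHom.comp_apply, inc_single]; exact hΦz)
  rw [hblk] at hQ
  refine ⟨δ, Q, hδ, hQ, ?_, ?_⟩
  · intro κ _ _ Φ k θ hΦ hθ hΦθ htr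
    have h1 := hC1 κ (Φ.comp (inc R E0)) k θ (hstar Φ hΦ) hθ
      (by rw [RingHom.comp_apply, inc_single]; exact hΦθ)
      (fun g hg r => by
        rw [RingHom.comp_apply, RingHom.comp_apply, inc_single]
        exact htr g (Subgroup.mem_subgroupOf.1 hg) r)
    rw [hblk] at h1
    exact h1
  · intro B _ ψ ω θ hψ hθ hψθ h1 h2 h3
    have e4 : a.map (ψ.comp (inc R E0)) = h.map ψ := by
      rw [← e0]
      rfl
    have h4 := hC2 B (ψ.comp (inc R E0)) ω θ (hstar ψ hψ) hθ
      (by rw [RingHom.comp_apply, inc_single]; exact hψθ)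
      (fun g hg r => by
        rw [RingHom.comp_apply, RingHom.comp_apply, inc_single]
        exact h1 g (Subgroup.mem_subgroupOf.1 hg) r)
      (fun g hg r => by
        rw [RingHom.comp_apply, inc_single]
        exact h2 g (fun h5 => hg (Subgroup.mem_subgroupOf.2 h5)) r)
      (by rw [e4]; exact h3)
    rw [e4] at h4
    exact h4

end Pool.Agent.Lib.MP8a3537.AM
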