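import Pool.Agent.Lib.MP_8a3537_gt.AM.SpecC

/-!
# Module WDA: the words in the powers of the universal matrix
-/

set_option linter.unusedVariables false

namespace Pool.Agent.Lib.MP8a3537.AM

open scoped BigOperators Pointwise

namespace WDAM

variable {G C Q : Type} [Group G] [Fintype C] [DecidableEq C] [MulAction G Q]

open Classical in
/-- the number of equations that fail -/
noncomputable def bad {k : ℕ} (n : C → Fin k → Q) (c c' : C) (q : G) : ℕ :=
  (Finset.univ.filter fun i => n c i ≠ q • n c' i).card

/-- the letters of an entry -/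
theorem entry {G C : Type} [DecidableEq C] (S : Finset G) (v : G → Matrix C C ℂ) (sg : C → ℂ) (B : Matrix C C ℂ)
    (c c' : C) (l : FreeMonoid G) (h : (Lu S v sg B c c').coeff l ≠ 0) :
    (∃ g, l = FreeMonoid.of g ∧ v g c c' ≠ 0) ∨ (l = 1 ∧ B c c' ≠ 0) := by
  classical
  by_contra hcon
  push Not at hcon
  obtain ⟨h1, h2⟩ := hcon
  apply h
  have e1 : (Lu S v sg B c c').coeff l = (∑ g ∈ S, (MonoidAlgebra.single (FreeMonoid.of g) (v g c c' * sg c') : FA G)).coeff l +
      (MonoidAlgebra.single (1 : FreeMonoid G) (B c c') : FA G).coeff l := rfl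
  rw [e1, MonoidAlgebra.coeff_sum, Finsupp.finsetSum_apply]
  have e2 : ∀ g ∈ S, ((MonoidAlgebra.single (FreeMonoid.of g) (v g c c' * sg c') : FA G)).coeff l = 0 := by
    intro g _
    rw [MonoidAlgebra.coeff_single, Finsupp.single_apply]
    split_ifs with hg
    · rw [h1 g hg.symm, zero_mul]
    · rfl
  rw [Finset.sum_eq_zero e2, MonoidAlgebra.coeff_single, Finsupp.single_apply, zero_add]
  split_ifs with hg
  · exact h2 hg.symm
  · rfl

end WDAM

theorem specWDA : SpecWDA := by
  classical
  intro G _ C _ _ S m v sg B Q _ n hv hb hfree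
  have key : ∀ k : ℕ, ∀ c c' : C, ∀ l : FreeMonoid G, (((Lu S v sg B) ^ k) c c').coeff l ≠ 0 →
      WDAM.bad n c c' l.toList.prod ≤ k := by
    intro k
    induction k with
    | zero =>
      intro c c' l h
      rw [pow_zero, Matrix.one_apply] at h
      split_ifs at h with hc
      · subst hc
        rw [MonoidAlgebra.one_def, MonoidAlgebra.coeff_single, Finsupp.single_apply] at h
        split_ifs at h with hl
        · subst hl
          unfold WDAM.bad
          rw [Nat.le_zero, Finset.card_eq_zero, Finset.filter_eq_empty_iff]
          intro i _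
          simp
        · exact absurd rfl h
      · exact absurd rfl h
    | succ k ih =>
      intro c c' l h
      rw [pow_succ', Matrix.mul_apply, MonoidAlgebra.coeff_sum, Finsupp.finsetSum_apply] at h
      obtain ⟨c2, _, hc2⟩ := Finset.exists_ne_zero_of_sum_ne_zero h
      have h1 := MonoidAlgebra.support_coeff_mul_subset _ _ (Finsupp.mem_support_iff.2 hc2)
      obtain ⟨l1, hl1, l2, hl2, hl⟩ := Finset.mem_mul.mp h1
      rw [Finsupp.mem_support_iff] at hl1 hl2
      have h2 := ih c2 c' l2 hl2
      have hprod : l.toList.prod = l1.toList.prod * l2.toList.prod := by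
        rw [← hl, FreeMonoid.toList_mul, List.prod_append]
      rcases WDAM.entry S v sg B c c2 l1 hl1 with ⟨g, hg, hvg⟩ | ⟨hl11, hB⟩
      · have h3 : l1.toList.prod = g := by rw [hg]; simp
        have h4 : WDAM.bad n c c' l.toList.prod = WDAM.bad n c2 c' l2.toList.prod := by
          unfold WDAM.bad
          congr 1
          refine Finset.filter_congr fun i _ => ?_
          rw [hv g c c2 hvg i, hprod, h3, mul_smul]
          exact not_congr (smul_left_cancel_iff g)
        rw [h4]
        exact h2.trans (Nat.le_succ k)
      · have h3 : l1.toList.prod = 1 := by rw [hl11]; rfl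
        obtain ⟨i0, hi0⟩ := hb c c2 hB
        have h4 : (Finset.univ.filter fun i => n c i ≠ l.toList.prod • n c' i) ⊆
            insert i0 (Finset.univ.filter fun i => n c2 i ≠ l2.toList.prod • n c' i) := by
          intro i hi
          rw [Finset.mem_filter, hprod, h3, one_mul] at hi
          rw [Finset.mem_insert, Finset.mem_filter]
          by_cases hii : i = i0
          · exact Or.inl hii
          · right
            refine ⟨Finset.mem_univ _, ?_⟩
            rw [← hi0 i hii]
            exact hi.2
        unfold WDAM.bad
        refine (Finset.card_le_card h4).trans ((Finset.card_insert_le _ _).trans ?_)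
        exact Nat.succ_le_succ h2
  intro k hk c l hl
  have h1 := key k c c l hl
  have h2 : (Finset.univ.filter fun i => n c i ≠ l.toList.prod • n c i).card < (Finset.univ : Finset (Fin (2 * m))).card := by
    rw [Finset.card_univ, Fintype.card_fin]
    exact lt_of_le_of_lt h1 hk
  obtain ⟨i, _, hi⟩ := Finset.exists_mem_notMem_of_card_lt_card h2
  rw [Finset.mem_filter, not_and, not_not] at hi
  exact hfree c i _ (hi (Finset.mem_univ _)).symm

end Pool.Agent.Lib.MP8a3537.AM
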